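import Mathlib

/-!
# MP_97284c_gt, part P: simple polygons, their inside and the convex hull
-/

namespace MP97284cP

open MeasureTheory Set

/-- the closed edge number `i` of the closed polygon `v` -/
def edge {n : ℕ} [NeZero n] (v : Fin n → ℂ) (i : Fin n) : Set ℂ := segment ℝ (v i) (v (i + 1))

/-- the boundary curve -/
def bdry {n : ℕ} [NeZero n] (v : Fin n → ℂ) : Set ℂ := ⋃ i, edge v i

/-- simple closed polygon -/
structure IsSimplePolygon {n : ℕ} [NeZero n] (v : Fin n → ℂ) : Prop where
  inj : Function.Injective v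
  adj : ∀ i, edge v i ∩ edge v (i + 1) = {v (i + 1)}
  nonadj : ∀ i j, j ≠ i → j ≠ i + 1 → i ≠ j + 1 → Disjoint (edge v i) (edge v j)

/-- the region enclosed by the curve: the union of the bounded components of the complement -/
def inside {n : ℕ} [NeZero n] (v : Fin n → ℂ) : Set ℂ :=
  {z | z ∈ (bdry v)ᶜ ∧ Bornology.IsBounded (connectedComponentIn (bdry v)ᶜ z)}

theorem bdry_subset_hull {n : ℕ} [NeZero n] (v : Fin n → ℂ) :
    bdry v ⊆ convexHull ℝ (range v) := by
  intro z hz
  obtain ⟨i, hi⟩ := mem_iUnion.1 hz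
  exact (convex_convexHull ℝ (range v)).segment_subset
    (subset_convexHull ℝ (range v) (mem_range_self i))
    (subset_convexHull ℝ (range v) (mem_range_self (i + 1))) hi

/-- the inside is contained in the convex hull -/
theorem inside_subset_hull {n : ℕ} [NeZero n] (v : Fin n → ℂ) :
    inside v ⊆ convexHull ℝ (range v) := by
  intro z hz
  by_contra hzh
  obtain ⟨hz1, hz2⟩ := hz
  have hK : IsCompact (convexHull ℝ (range v)) :=
    Set.Finite.isCompact_convexHull ℝ (finite_range v)
  obtain ⟨f, u, hf1, hf2⟩ := geometric_hahn_banach_point_closed (convex_convexHull ℝ (range v))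
    hK.isClosed hzh
  -- `f z < u < f y` for all `y` in the hull; move in a direction where `f` decreases
  have hne : f ≠ 0 := by
    rintro rfl
    have : (range v).Nonempty := ⟨v 0, ⟨0, rfl⟩⟩
    obtain ⟨y, hy⟩ := this
    have h1 := hf2 y (subset_convexHull ℝ _ hy)
    simp at hf1 h1
    linarith
  obtain ⟨w, hw⟩ : ∃ w, f w < 0 := by
    by_contra hcon
    push Not at hcon
    apply hne
    ext w
    have h1 := hcon w
    have h2 := hcon (-w)
    rw [map_neg] at h2
    simp; linarith
  set ray : Set ℂ := (fun t : ℝ => z + (t : ℂ) * w) '' Ici 0 with hray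
  have hray_sub : ray ⊆ (bdry v)ᶜ := by
    rintro y ⟨t, ht, rfl⟩ hy
    have h1 := hf2 _ (bdry_subset_hull v hy)
    have h2 : f (z + (t : ℂ) * w) = f z + t * f w := by
      rw [map_add]
      congr 1
      have : (t : ℂ) * w = t • w := by simp
      rw [this, map_smul, smul_eq_mul]
    rw [h2] at h1
    have : t * f w ≤ 0 := mul_nonpos_of_nonneg_of_nonpos ht hw.le
    linarith
  have hconn : IsPreconnected ray := by
    apply (convex_Ici (0 : ℝ)).isPreconnected.image
    fun_prop
  have hzray : z ∈ ray := ⟨0, by simp, by simp⟩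
  have hsub : ray ⊆ connectedComponentIn (bdry v)ᶜ z :=
    hconn.subset_connectedComponentIn hzray hray_sub
  have hb : Bornology.IsBounded ray := hz2.subset hsub
  rw [isBounded_iff_forall_norm_le] at hb
  obtain ⟨R, hR⟩ := hb
  have hw0 : w ≠ 0 := by rintro rfl; simp at hw
  have hwn : 0 < ‖w‖ := norm_pos_iff.2 hw0
  have h0 : 0 ≤ R := (norm_nonneg z).trans (hR z hzray)
  set t : ℝ := (R + ‖z‖ + 1) / ‖w‖ with ht
  have ht0 : 0 ≤ t := by positivity
  have := hR (z + (t : ℂ) * w) ⟨t, ht0, rfl⟩
  have h3 : ‖(t : ℂ) * w‖ = R + ‖z‖ + 1 := by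
    rw [norm_mul, Complex.norm_real, Real.norm_of_nonneg ht0, ht]
    field_simp
  have h4 : ‖(t : ℂ) * w‖ ≤ ‖z + (t : ℂ) * w‖ + ‖z‖ := by
    have := norm_sub_le (z + (t : ℂ) * w) z
    simpa using this
  linarith

end MP97284cP
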