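import Mathlib
import Pool.Agent.Lib.MP_97284c_gt.P.Simple

/-!
# MP_97284c_gt, part P: strictly convex ccw polygons are simple, inside = interior of the hull
-/

namespace MP97284cP

open MeasureTheory Set

/-- twice the signed area of the triangle `a b c` -/
def ori (a b c : ℂ) : ℝ := (b.re - a.re) * (c.im - a.im) - (b.im - a.im) * (c.re - a.re)

/-- strictly convex position in counterclockwise order -/
def Ccw {n : ℕ} (v : Fin n → ℂ) : Prop := ∀ i j k : Fin n, i < j → j < k → 0 < ori (v i) (v j) (v k)

theorem ori_cyc (a b c : ℂ) : ori a b c = ori b c a := by unfold ori; ring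
theorem ori_swap (a b c : ℂ) : ori a b c = - ori b a c := by unfold ori; ring
theorem ori_self1 (a b : ℂ) : ori a b a = 0 := by unfold ori; ring
theorem ori_self2 (a b : ℂ) : ori a b b = 0 := by unfold ori; ring
theorem ori_self0 (a b : ℂ) : ori a a b = 0 := by unfold ori; ring

/-- `ori a b` is affine in the last variable. -/
theorem ori_affine (a b x y : ℂ) (s t : ℝ) (h : s + t = 1) :
    ori a b (s • x + t • y) = s * ori a b x + t * ori a b y := by
  have : s = 1 - t := by linarith
  subst this
  unfold ori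
  simp
  ring

theorem ori_sum {ι : Type*} (s : Finset ι) (a b : ℂ) (w : ι → ℝ) (z : ι → ℂ)
    (hw : ∑ i ∈ s, w i = 1) :
    ori a b (∑ i ∈ s, w i • z i) = ∑ i ∈ s, w i * ori a b (z i) := by
  have e : ∀ x : ℂ, ori a b x = (b.re - a.re) * x.im - (b.im - a.im) * x.re +
      (-(b.re - a.re) * a.im + (b.im - a.im) * a.re) := by intro x; unfold ori; ring
  rw [e]
  simp_rw [e]
  have h1 : (∑ i ∈ s, w i • z i).im = ∑ i ∈ s, w i * (z i).im := by
    rw [Complex.im_sum]; simp
  have h2 : (∑ i ∈ s, w i • z i).re = ∑ i ∈ s, w i * (z i).re := by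
    rw [Complex.re_sum]; simp
  rw [h1, h2]
  have h3 : ∑ i ∈ s, w i * ((b.re - a.re) * (z i).im - (b.im - a.im) * (z i).re +
      (-(b.re - a.re) * a.im + (b.im - a.im) * a.re)) =
      (b.re - a.re) * ∑ i ∈ s, w i * (z i).im - (b.im - a.im) * ∑ i ∈ s, w i * (z i).re +
      (-(b.re - a.re) * a.im + (b.im - a.im) * a.re) * ∑ i ∈ s, w i := by
    rw [Finset.mul_sum, Finset.mul_sum, Finset.mul_sum, ← Finset.sum_sub_distrib,
      ← Finset.sum_add_distrib]
    apply Finset.sum_congr rfl
    intro i _
    ring
  rw [h3, hw]; ring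

theorem continuous_ori (a b : ℂ) : Continuous (fun z => ori a b z) := by
  unfold ori; fun_prop

/-- all other vertices are strictly to the left of every edge -/
theorem Ccw.left {n : ℕ} [NeZero n] {v : Fin n → ℂ} (h : Ccw v) (i k : Fin n)
    (h1 : k ≠ i) (h2 : k ≠ i + 1) : 0 < ori (v i) (v (i + 1)) (v k) := by
  have hn : 0 < n := Nat.pos_of_ne_zero (NeZero.ne n)
  rcases Nat.lt_or_ge (i.val + 1) n with hi | hi
  · have e : (i + 1 : Fin n).val = i.val + 1 := Fin.val_add_one_of_lt' hi
    have hlt : i < i + 1 := by rw [Fin.lt_def, e]; omega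
    rcases lt_trichotomy k i with hk | hk | hk
    · have := h k i (i + 1) hk hlt
      rwa [ori_cyc] at this
    · exact absurd hk h1
    · have hk2 : i + 1 < k := by
        rw [Fin.lt_def] at hk ⊢
        rw [e]
        have : k.val ≠ i.val + 1 := by
          intro hcon; apply h2; apply Fin.ext; rw [e, hcon]
        omega
      exact h i (i + 1) k hlt hk2
  · have hiv : i.val = n - 1 := by have := i.isLt; omega
    have e : (i + 1 : Fin n) = 0 := by
      apply Fin.ext
      rw [Fin.val_add]
      simp [hiv]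
      rw [Nat.sub_add_cancel hn, Nat.mod_self]
    rw [e] at h2 ⊢
    have hk0 : (0 : Fin n) < k := Fin.pos_iff_ne_zero.2 h2
    have hki : k < i := by
      rw [Fin.lt_def, hiv]
      have h3 := k.isLt
      have : k.val ≠ n - 1 := by
        intro hcon; apply h1; apply Fin.ext; rw [hiv, hcon]
      omega
    have := h 0 k i hk0 hki
    rw [ori_cyc, ori_cyc] at this
    exact this

end MP97284cP
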