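import Mathlib
import Pool.Agent.Lib.MP_97284c_gt.P.Ccw

/-!
# MP_97284c_gt, part P: half plane description of the hull of a ccw polygon
-/

namespace MP97284cP

open MeasureTheory Set

theorem bary_identity (a b c z : ℂ) :
    ((ori a b c : ℝ) : ℂ) * z = ((ori b c z : ℝ) : ℂ) * a + ((ori c a z : ℝ) : ℂ) * b +
      ((ori a b z : ℝ) : ℂ) * c := by
  apply Complex.ext
  · simp [ori]; ring
  · simp [ori]; ring

theorem ori_total (a b c z : ℂ) : ori b c z + ori c a z + ori a b z = ori a b c := by
  unfold ori; ring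

theorem convex_halfplane (a b : ℂ) : Convex ℝ {z : ℂ | 0 ≤ ori a b z} := by
  intro x hx y hy s t hs ht hst
  simp only [mem_ofPred_eq] at *
  rw [ori_affine a b x y s t hst]
  positivity

theorem hull_subset_left {n : ℕ} [NeZero n] {v : Fin n → ℂ} (h : Ccw v) (i : Fin n) {z : ℂ}
    (hz : z ∈ convexHull ℝ (range v)) : 0 ≤ ori (v i) (v (i + 1)) z := by
  have : convexHull ℝ (range v) ⊆ {z : ℂ | 0 ≤ ori (v i) (v (i + 1)) z} := by
    apply convexHull_min _ (convex_halfplane _ _)
    rintro _ ⟨k, rfl⟩
    simp only [mem_ofPred_eq]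
    by_cases h1 : k = i
    · subst h1; rw [ori_self1]
    · by_cases h2 : k = i + 1
      · subst h2; rw [ori_self2]
      · exact (h.left i k h1 h2).le
  exact this hz

theorem mem_triangle {a b c z : ℂ} (hD : 0 < ori a b c) (h1 : 0 ≤ ori a b z)
    (h2 : 0 ≤ ori b c z) (h3 : 0 ≤ ori c a z) : z ∈ convexHull ℝ ({a, b, c} : Set ℂ) := by
  have key := bary_identity a b c z
  have hsum := ori_total a b c z
  have hDc : ((ori a b c : ℝ) : ℂ) ≠ 0 := by exact_mod_cast hD.ne'
  have hz : z = (ori b c z / ori a b c) • a + (ori c a z / ori a b c) • b +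
      (ori a b z / ori a b c) • c := by
    simp only [Complex.real_smul]
    push_cast
    field_simp
    rw [mul_comm] at key
    linear_combination key
  have hc := convex_convexHull ℝ ({a, b, c} : Set ℂ)
  have ha' : a ∈ convexHull ℝ ({a, b, c} : Set ℂ) := subset_convexHull ℝ _ (by simp)
  have hb' : b ∈ convexHull ℝ ({a, b, c} : Set ℂ) := subset_convexHull ℝ _ (by simp)
  have hc' : c ∈ convexHull ℝ ({a, b, c} : Set ℂ) := subset_convexHull ℝ _ (by simp)
  rw [hz]
  have := hc.sum_mem (t := Finset.univ)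
    (w := ![ori b c z / ori a b c, ori c a z / ori a b c, ori a b z / ori a b c])
    (z := ![a, b, c]) ?_ ?_ ?_
  · simpa [Fin.sum_univ_three] using this
  · intro i _
    fin_cases i <;> simp <;> positivity
  · simp [Fin.sum_univ_three]
    field_simp
    linarith
  · intro i _
    fin_cases i <;> simp [ha', hb', hc']

/-- the half plane description -/
theorem mem_hull_iff {n : ℕ} [NeZero n] {v : Fin n → ℂ} (h : Ccw v) (hn : 3 ≤ n) (z : ℂ) :
    z ∈ convexHull ℝ (range v) ↔ ∀ i, 0 ≤ ori (v i) (v (i + 1)) z := by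
  constructor
  · intro hz i; exact hull_subset_left h i hz
  · intro hz
    -- fan from the vertex `0`
    let w : ℕ → ℂ := fun k => if hk : k < n then v ⟨k, hk⟩ else 0
    have hw : ∀ k (hk : k < n), w k = v ⟨k, hk⟩ := by intro k hk; simp [w, hk]
    have f1 : 0 ≤ ori (w 0) (w 1) z := by
      have := hz 0
      rw [hw 0 (by omega), hw 1 (by omega)]
      have e1 : (0 : Fin n) + 1 = ⟨1, by omega⟩ := by
        apply Fin.ext
        rw [zero_add]
        simp [Fin.val_one', Nat.mod_eq_of_lt (show 1 < n by omega)]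
      rw [e1] at this
      exact this
    have fn : ori (w 0) (w (n - 1)) z ≤ 0 := by
      have := hz ⟨n - 1, by omega⟩
      rw [hw 0 (by omega), hw (n - 1) (by omega), ori_swap]
      have e : (⟨n - 1, by omega⟩ : Fin n) + 1 = 0 := by
        apply Fin.ext
        rw [Fin.val_add]
        simp
        rw [Nat.sub_add_cancel (by omega), Nat.mod_self]
      rw [e] at this
      have e0 : (⟨0, by omega⟩ : Fin n) = 0 := rfl
      rw [e0]
      linarith
    have hex : ∃ j, 2 ≤ j ∧ j ≤ n - 1 ∧ ori (w 0) (w j) z ≤ 0 := ⟨n - 1, by omega, le_rfl, fn⟩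
    classical
    obtain ⟨j, ⟨hj2, hjn, hj⟩, hmin⟩ :
        ∃ j, (2 ≤ j ∧ j ≤ n - 1 ∧ ori (w 0) (w j) z ≤ 0) ∧
          ∀ i, i < j → ¬ (2 ≤ i ∧ i ≤ n - 1 ∧ ori (w 0) (w i) z ≤ 0) :=
      ⟨Nat.find hex, Nat.find_spec hex, fun i hi => Nat.find_min hex hi⟩
    have hk : 0 ≤ ori (w 0) (w (j - 1)) z := by
      rcases Nat.lt_or_ge (j - 1) 2 with hlt | hge
      · have : j - 1 = 1 := by omega
        rw [this]; exact f1
      · have := hmin (j - 1) (by omega)
        by_contra hcon
        apply this
        exact ⟨hge, by omega, by linarith⟩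
    have hedge : 0 ≤ ori (w (j - 1)) (w j) z := by
      have := hz ⟨j - 1, by omega⟩
      rw [hw (j - 1) (by omega), hw j (by omega)]
      have e : (⟨j - 1, by omega⟩ : Fin n) + 1 = ⟨j, by omega⟩ := by
        apply Fin.ext
        rw [Fin.val_add]
        simp
        rw [Nat.sub_add_cancel (by omega), Nat.mod_eq_of_lt (by omega)]
      rw [e] at this
      exact this
    have hD : 0 < ori (w 0) (w (j - 1)) (w j) := by
      rw [hw 0 (by omega), hw (j - 1) (by omega), hw j (by omega)]
      apply h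
      · rw [Fin.lt_def]; simp; omega
      · rw [Fin.lt_def]; simp; omega
    have hlast : 0 ≤ ori (w j) (w 0) z := by rw [ori_swap]; linarith
    have := mem_triangle hD hk hedge hlast
    apply convexHull_mono _ this
    rintro y hy
    simp only [mem_insert_iff, mem_singleton_iff] at hy
    rcases hy with rfl | rfl | rfl
    · rw [hw 0 (by omega)]; exact mem_range_self _
    · rw [hw (j - 1) (by omega)]; exact mem_range_self _
    · rw [hw j (by omega)]; exact mem_range_self _

end MP97284cP
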