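import Pool.Agent.Lib.MP_97284c_gt.StmA

/-! Piece [A1]: the area of a triangle. -/

open MeasureTheory

namespace Pool.Agent.Lib.MP_97284c_gt

/-- the linear map `z ↦ z.re • u + z.im • v`. -/
noncomputable def p_A1_L (u v : ℂ) : ℂ →ₗ[ℝ] ℂ :=
  Complex.reLm.smulRight u + Complex.imLm.smulRight v

theorem p_A1_L_apply (u v z : ℂ) : p_A1_L u v z = z.re • u + z.im • v := by
  simp [p_A1_L]

theorem p_A1_det (u v : ℂ) : LinearMap.det (p_A1_L u v) = cr u v := by
  rw [← LinearMap.det_toMatrix Complex.basisOneI, Matrix.det_fin_two]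
  simp only [LinearMap.toMatrix_apply, p_A1_L_apply]
  simp [cr, Complex.basisOneI]
  ring

/-- the standard triangle -/
theorem p_A1_std : convexHull ℝ ({0, 1, Complex.I} : Set ℂ) =
    {z : ℂ | 0 ≤ z.re ∧ 0 ≤ z.im ∧ z.re + z.im ≤ 1} := by
  apply le_antisymm
  · apply convexHull_min
    · intro z hz
      simp only [Set.mem_insert_iff, Set.mem_singleton_iff] at hz
      rcases hz with rfl | rfl | rfl <;> simp
    · intro x hx y hy s t hs ht hst
      simp only [Set.mem_ofPred_eq] at hx hy ⊢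
      simp only [Complex.add_re, Complex.add_im, Complex.real_smul, Complex.mul_re, Complex.mul_im,
        Complex.ofReal_re, Complex.ofReal_im, zero_mul, sub_zero, add_zero]
      obtain ⟨h1, h2, h3⟩ := hx
      obtain ⟨h4, h5, h6⟩ := hy
      refine ⟨by positivity, by positivity, ?_⟩
      nlinarith
  · intro z hz
    obtain ⟨h1, h2, h3⟩ := hz
    rw [convexHull_insert (by simp), convexJoin_singleton_left]
    rw [convexHull_pair]
    by_cases hs : z.re + z.im = 0
    · have hre : z.re = 0 := by linarith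
      have him : z.im = 0 := by linarith
      have hz0 : z = 0 := Complex.ext hre him
      subst hz0
      simp only [Set.mem_iUnion]
      exact ⟨1, left_mem_segment ℝ _ _, left_mem_segment ℝ _ _⟩
    · have hpos : 0 < z.re + z.im := lt_of_le_of_ne (by linarith) (Ne.symm hs)
      simp only [Set.mem_iUnion]
      refine ⟨(z.re / (z.re + z.im)) • (1:ℂ) + (z.im / (z.re + z.im)) • Complex.I, ?_, ?_⟩
      · refine ⟨z.re / (z.re + z.im), z.im / (z.re + z.im), by positivity, by positivity, ?_, rfl⟩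
        field_simp
      · refine ⟨1 - (z.re + z.im), z.re + z.im, by linarith, hpos.le, by ring, ?_⟩
        rw [smul_zero, zero_add, smul_add, smul_smul, smul_smul, mul_div_cancel₀ _ hs, mul_div_cancel₀ _ hs]
        apply Complex.ext
        · simp
        · simp

theorem p_A1_vol_std : volume {z : ℂ | 0 ≤ z.re ∧ 0 ≤ z.im ∧ z.re + z.im ≤ 1} = ENNReal.ofReal (1 / 2) := by
  have h := Complex.volume_preserving_equiv_real_prod
  have h1 : {z : ℂ | 0 ≤ z.re ∧ 0 ≤ z.im ∧ z.re + z.im ≤ 1} =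
      Complex.measurableEquivRealProd ⁻¹' {p : ℝ × ℝ | p.1 ∈ Set.Icc (0:ℝ) 1 ∧ p.2 ∈ Set.Icc (0:ℝ) (1 - p.1)} := by
    ext z
    simp only [Set.mem_ofPred_eq, Set.mem_preimage, Complex.measurableEquivRealProd_apply, Set.mem_Icc]
    constructor
    · rintro ⟨h1, h2, h3⟩
      exact ⟨⟨h1, by linarith⟩, h2, by linarith⟩
    · rintro ⟨⟨h1, h2⟩, h3, h4⟩
      exact ⟨h1, h3, by linarith⟩
  rw [h1]
  have hm : MeasurableSet {p : ℝ × ℝ | p.1 ∈ Set.Icc (0:ℝ) 1 ∧ p.2 ∈ Set.Icc (0:ℝ) (1 - p.1)} :=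
    measurableSet_region_between_cc measurable_const (measurable_const.sub measurable_id) measurableSet_Icc
  rw [h.measure_preimage hm.nullMeasurableSet]
  rw [Measure.volume_eq_prod, Measure.prod_apply hm]
  have h2 : ∀ x : ℝ, volume (Prod.mk x ⁻¹' {p : ℝ × ℝ | p.1 ∈ Set.Icc (0:ℝ) 1 ∧ p.2 ∈ Set.Icc (0:ℝ) (1 - p.1)}) =
      (Set.Icc (0:ℝ) 1).indicator (fun x => ENNReal.ofReal (1 - x)) x := by
    intro x
    by_cases hx : x ∈ Set.Icc (0:ℝ) 1
    · rw [Set.indicator_of_mem hx]
      have : Prod.mk x ⁻¹' {p : ℝ × ℝ | p.1 ∈ Set.Icc (0:ℝ) 1 ∧ p.2 ∈ Set.Icc (0:ℝ) (1 - p.1)} = Set.Icc (0:ℝ) (1 - x) := by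
        ext y
        simp only [Set.mem_preimage, Set.mem_ofPred_eq]
        exact ⟨fun h => h.2, fun h => ⟨hx, h⟩⟩
      rw [this, Real.volume_Icc]
      simp
    · rw [Set.indicator_of_notMem hx]
      have : Prod.mk x ⁻¹' {p : ℝ × ℝ | p.1 ∈ Set.Icc (0:ℝ) 1 ∧ p.2 ∈ Set.Icc (0:ℝ) (1 - p.1)} = ∅ := by
        ext y
        simp only [Set.mem_preimage, Set.mem_ofPred_eq, Set.mem_empty_iff_false, iff_false]
        exact fun h => hx h.1
      rw [this, measure_empty]
  simp_rw [h2]
  rw [lintegral_indicator measurableSet_Icc]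
  rw [← ofReal_integral_eq_lintegral_ofReal]
  · congr 1
    rw [integral_Icc_eq_integral_Ioc, ← intervalIntegral.integral_of_le zero_le_one]
    rw [intervalIntegral.integral_sub (by simp) (by simp)]
    simp
    norm_num
  · exact (continuous_const.sub continuous_id).continuousOn.integrableOn_Icc
  · refine (ae_restrict_iff' measurableSet_Icc).mpr (Filter.Eventually.of_forall ?_)
    intro x hx
    simpa using hx.2

theorem p_A1 : S_A1 := by
  intro a b c
  have h1 : convexHull ℝ ({a, b, c} : Set ℂ) =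
      (fun z => a + z) '' (p_A1_L (b - a) (c - a) '' convexHull ℝ ({0, 1, Complex.I} : Set ℂ)) := by
    have h2 : p_A1_L (b - a) (c - a) '' convexHull ℝ ({0, 1, Complex.I} : Set ℂ) =
        convexHull ℝ (p_A1_L (b - a) (c - a) '' ({0, 1, Complex.I} : Set ℂ)) :=
      LinearMap.image_convexHull _ _
    rw [h2]
    have h3 : p_A1_L (b - a) (c - a) '' ({0, 1, Complex.I} : Set ℂ) = {0, b - a, c - a} := by
      rw [Set.image_insert_eq, Set.image_insert_eq, Set.image_singleton]
      simp only [p_A1_L_apply]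
      simp
    rw [h3]
    have h4 : (fun z => a + z) '' convexHull ℝ ({0, b - a, c - a} : Set ℂ) =
        convexHull ℝ ((fun z => a + z) '' ({0, b - a, c - a} : Set ℂ)) := by
      have := AffineMap.image_convexHull ((AffineEquiv.constVAdd ℝ ℂ a).toAffineMap) ({0, b - a, c - a} : Set ℂ)
      exact this
    rw [h4]
    congr 1
    rw [Set.image_insert_eq, Set.image_insert_eq, Set.image_singleton]
    simp
  rw [h1]
  rw [Set.image_add_left, measure_preimage_add, Measure.addHaar_image_linearMap, p_A1_det, p_A1_std, p_A1_vol_std]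
  rw [← ENNReal.ofReal_mul (abs_nonneg _)]
  congr 1
  unfold orient
  ring

end Pool.Agent.Lib.MP_97284c_gt
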