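import Pool.Agent.Lib.MP_97284c_gt.StmA

/-!
MP_97284c_gt, [A10]: a weakly convex small periodic sequence with maximal area is strictly convex.
-/

namespace Pool.Agent.Lib.MP_97284c_gt

/-- the residue as an element of `Fin n` -/
private def p_A10_res (n : ℕ) (hn : 3 ≤ n) (m : ℤ) : Fin n :=
  ⟨(m % n).toNat, by
    have h1 := Int.emod_lt_of_pos m (show (0 : ℤ) < n by omega)
    have h2 := Int.emod_nonneg m (show (n : ℤ) ≠ 0 by omega)
    omega⟩

private theorem p_A10_val (n : ℕ) (hn : 3 ≤ n) (m : ℤ) :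
    (((p_A10_res n hn m : Fin n) : ℕ) : ℤ) = m % n :=
  Int.toNat_of_nonneg (Int.emod_nonneg m (show (n : ℤ) ≠ 0 by omega))

private theorem p_A10_ne (n : ℕ) (hn : 3 ≤ n) (i j : ℤ) (h1 : i < j) (h2 : j < i + n) :
    p_A10_res n hn i ≠ p_A10_res n hn j := by
  intro h
  have h3 : i % (n : ℤ) = j % (n : ℤ) := by
    rw [← p_A10_val n hn i, ← p_A10_val n hn j, h]
  have h4 : (n : ℤ) ∣ j - i := Int.ModEq.dvd h3
  have h5 := Int.le_of_dvd (by omega) h4
  omega

theorem p_A10 (hA4c : S_A4c) (hA8 : S_A8) : S_A10 := by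
  intro n z hn hper hcvx hsm harea i j k hij hjk hki
  have h1 := hA4c n z (by omega) hper hcvx
  have hz : ∀ m : ℤ, z ((p_A10_res n hn m : Fin n) : ℕ) = z m := by
    intro m
    rw [p_A10_val]
    exact per_emod z hper m
  have h2 := hA8 n (fun i : Fin n => z i) hn (fun a b => by
    rw [dist_eq_norm]
    exact hsm _ _) (h1.trans harea) (p_A10_res n hn i) (p_A10_res n hn j) (p_A10_res n hn k)
    (p_A10_ne n hn i j hij (by omega)) (p_A10_ne n hn j k hjk (by omega))
    (p_A10_ne n hn i k (by omega) hki)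
  simp only [hz] at h2
  exact lt_of_le_of_ne (hcvx i j k hij hjk hki) (Ne.symm h2)

end Pool.Agent.Lib.MP_97284c_gt
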