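import Pool.Agent.Lib.MP_97284c_gt.StmA

/-! Piece [A2]: a line is a null set. -/

open MeasureTheory

namespace Pool.Agent.Lib.MP_97284c_gt

theorem p_A2 : S_A2 := by
  intro a b hab
  -- the affine subspace
  let s : AffineSubspace ℝ ℂ :=
    { carrier := {z : ℂ | orient a b z = 0}
      smul_vsub_vadd_mem' := by
        intro c p1 p2 p3 h1 h2 h3
        simp only [Set.mem_ofPred_eq] at h1 h2 h3 ⊢
        unfold orient cr at *
        simp only [vsub_eq_sub, vadd_eq_add, Complex.sub_re, Complex.sub_im, Complex.add_re,
          Complex.add_im, Complex.real_smul, Complex.mul_re, Complex.mul_im, Complex.ofReal_re,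
          Complex.ofReal_im] at *
        linear_combination c * h1 - c * h2 + h3 }
  have hs : s ≠ ⊤ := by
    intro h
    have h1 : a + Complex.I * (b - a) ∈ s := by rw [h]; trivial
    have h2 : orient a b (a + Complex.I * (b - a)) = 0 := h1
    have h3 : (b.re - a.re) ^ 2 + (b.im - a.im) ^ 2 = 0 := by
      unfold orient cr at h2
      simp only [Complex.sub_re, Complex.sub_im, Complex.add_re,
          Complex.add_im, Complex.mul_re, Complex.mul_im, Complex.I_re, Complex.I_im] at h2
      linear_combination h2
    apply hab
    apply Complex.ext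
    · nlinarith [sq_nonneg (b.re - a.re), sq_nonneg (b.im - a.im)]
    · nlinarith [sq_nonneg (b.re - a.re), sq_nonneg (b.im - a.im)]
  exact MeasureTheory.Measure.addHaar_affineSubspace volume s hs

end Pool.Agent.Lib.MP_97284c_gt
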