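import Pool.Agent.Lib.MP_97284c_gt.StmA

/-! [A3] Adding a point to a weakly convex chain. -/

open MeasureTheory

namespace Pool.Agent.Lib.MP_97284c_gt

/-- three vectors in the plane -/
theorem p_A3_three (u v w : ℂ) : (cr v w) • u + (cr w u) • v + (cr u v) • w = 0 := by
  apply Complex.ext
  · simp only [cr, Complex.add_re, Complex.real_smul, Complex.mul_re, Complex.ofReal_re,
      Complex.ofReal_im, Complex.zero_re]
    ring
  · simp only [cr, Complex.add_im, Complex.real_smul, Complex.mul_im, Complex.ofReal_re,
      Complex.ofReal_im, Complex.zero_im]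
    ring

theorem p_A3_aff1 (a q z w : ℂ) {s t : ℝ} (h : s + t = 1) :
    orient (s • z + t • w) a q = s * orient z a q + t * orient w a q := by
  have hs : s = 1 - t := by linarith
  subst hs
  simp only [orient_eq, cr, Complex.add_re, Complex.add_im, Complex.real_smul, Complex.mul_re,
    Complex.mul_im, Complex.ofReal_re, Complex.ofReal_im]
  ring

theorem p_A3_aff2 (a q z w : ℂ) {s t : ℝ} (h : s + t = 1) :
    orient a (s • z + t • w) q = s * orient a z q + t * orient a w q := by
  have := p_A3_aff1 a q z w h
  rw [orient_swap a, orient_swap a, orient_swap a] at this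
  linarith

theorem p_A3_aff3 (a b z w : ℂ) {s t : ℝ} (h : s + t = 1) :
    orient a b (s • z + t • w) = s * orient a b z + t * orient a b w := by
  have := p_A3_aff1 a b z w h
  rw [← orient_rot (s • z + t • w), ← orient_rot z, ← orient_rot w] at this
  exact this

theorem p_A3_half1 (a q : ℂ) : Convex ℝ {z : ℂ | 0 ≤ orient z a q} := by
  intro z hz w hw s t hs ht hst
  have hz' : 0 ≤ orient z a q := hz
  have hw' : 0 ≤ orient w a q := hw
  show 0 ≤ orient (s • z + t • w) a q
  rw [p_A3_aff1 a q z w hst]
  positivity

theorem p_A3_half2 (a q : ℂ) : Convex ℝ {z : ℂ | 0 ≤ orient a z q} := by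
  intro z hz w hw s t hs ht hst
  have hz' : 0 ≤ orient a z q := hz
  have hw' : 0 ≤ orient a w q := hw
  show 0 ≤ orient a (s • z + t • w) q
  rw [p_A3_aff2 a q z w hst]
  positivity

theorem p_A3_or0 (a b : ℂ) : orient a a b = 0 ∧ orient a b b = 0 ∧ orient a b a = 0 := by
  simp only [orient_eq, cr]
  refine ⟨by ring, by ring, by ring⟩

/-- the plane geometry of the proof -/
theorem p_A3_main {K T : Set ℂ} (hK : Convex ℝ K) (hT : Convex ℝ T) {a b q c x : ℂ} (ha : a ∈ K)
    (hb : b ∈ K) (haT : a ∈ T) (hbT : b ∈ T) (hqT : q ∈ T) (hc : c ∈ K)
    (F1 : 0 ≤ orient a c q) (F2 : 0 ≤ orient a c b) (F3 : 0 ≤ orient c b q)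
    (F4 : 0 ≤ orient a b q) {t : ℝ} (ht0 : 0 ≤ t) (ht1 : t ≤ 1)
    (hx : x = (1 - t) • c + t • q) : x ∈ K ∪ T := by
  rcases F4.lt_or_eq with hω | hω
  · -- case 3
    set p := orient a c b with hp
    set ω := orient a b q with hωd
    set C := orient a c q with hC
    have hpω : 0 < p + ω := by linarith
    set s := p / (p + ω) with hs
    have hs0 : 0 ≤ s := by positivity
    have hs1 : 1 - s = ω / (p + ω) := by
      rw [hs]; field_simp; ring
    have hs1p : 0 < 1 - s := by rw [hs1]; positivity
    set d : ℂ := (1 - s) • c + s • q with hd
    have hsum : (1 - s) + s = 1 := by ring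
    have habd : orient a b d = 0 := by
      rw [hd, p_A3_aff3 a b c q hsum]
      have e1 : orient a b c = -p := by
        rw [hp]; simp only [orient_eq, cr]; ring
      rw [e1, ← hωd, hs1, hs]
      field_simp
      ring
    have hadq : orient a d q = (1 - s) * C := by
      rw [hd, p_A3_aff2 a q c q hsum, (p_A3_or0 a q).2.1]
      ring
    have hdbq : orient d b q = (1 - s) * orient c b q := by
      rw [hd, p_A3_aff1 b q c q hsum, (p_A3_or0 q b).2.2]
      ring
    have hid : orient a b q = orient a b d + orient d b q + orient a d q := by
      simp only [orient_eq, cr]; ring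
    set l := orient a d q / ω with hl
    have hl0 : 0 ≤ l := by rw [hl, hadq]; positivity
    have hl1 : 0 ≤ 1 - l := by
      have : 1 - l = orient d b q / ω := by
        rw [hl]
        rw [habd, zero_add] at hid
        rw [← hωd] at hid
        field_simp
        linarith
      rw [this, hdbq]
      positivity
    have hdab : d = (1 - l) • a + l • b := by
      have h3 := p_A3_three (d - a) (b - a) (q - a)
      have e1 : cr (b - a) (q - a) = ω := rfl
      have e2 : cr (q - a) (d - a) = -(ω * l) := by
        rw [cr_comm, hl, mul_div_cancel₀ _ hω.ne']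
        rfl
      have e3 : cr (d - a) (b - a) = 0 := by
        rw [cr_comm]
        have : cr (b - a) (d - a) = orient a b d := rfl
        rw [this, habd, neg_zero]
      rw [e1, e2, e3, zero_smul, add_zero] at h3
      have h4 : ω • (d - a - l • (b - a)) = 0 := by
        rw [smul_sub, smul_smul, sub_eq_add_neg, ← neg_smul]
        exact h3
      have h5 : d - a - l • (b - a) = 0 := by
        rcases smul_eq_zero.1 h4 with h | h
        · exact absurd h hω.ne'
        · exact h
      have h6 : d = a + l • (b - a) := by
        rw [sub_sub, sub_eq_zero] at h5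
        exact h5
      rw [h6, smul_sub, sub_smul, one_smul]
      abel
    have hdK : d ∈ K := by
      rw [hdab]
      exact hK ha hb hl1 hl0 (by ring)
    have hdT : d ∈ T := by
      rw [hdab]
      exact hT haT hbT hl1 hl0 (by ring)
    rcases le_total t s with hts | hts
    · left
      rcases hs0.lt_or_eq with hs0' | hs0'
      · have : x = (1 - t / s) • c + (t / s) • d := by
          rw [hx, hd, smul_add, smul_smul, smul_smul, ← add_assoc, ← add_smul]
          have e1 : 1 - t / s + t / s * (1 - s) = 1 - t := by field_simp; ring
          have e2 : t / s * s = t := by field_simp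
          rw [e1, e2]
        rw [this]
        refine hK hc hdK ?_ (by positivity) (by ring)
        rw [sub_nonneg, div_le_one hs0']
        exact hts
      · have ht : t = 0 := by linarith
        rw [hx, ht, sub_zero, one_smul, zero_smul, add_zero]
        exact hc
    · right
      have : x = ((1 - t) / (1 - s)) • d + ((t - s) / (1 - s)) • q := by
        rw [hx, hd, smul_add, smul_smul, smul_smul, add_assoc, ← add_smul]
        have e1 : (1 - t) / (1 - s) * (1 - s) = 1 - t := by field_simp
        have e2 : (1 - t) / (1 - s) * s + (t - s) / (1 - s) = t := by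
          field_simp; ring
        rw [e1, e2]
      rw [this]
      refine hT hdT hqT (div_nonneg (by linarith) hs1p.le) (div_nonneg (by linarith) hs1p.le) ?_
      field_simp
      ring
  · rcases F1.lt_or_eq with hC | hC
    · -- case 2
      left
      set p := orient a c b with hp
      set C := orient a c q with hCd
      have hid : orient c b q = orient a b q - orient a c q + orient a c b := by
        simp only [orient_eq, cr]; ring
      have hpC : C ≤ p := by
        rw [← hω] at hid
        linarith
      have hp0 : 0 < p := lt_of_lt_of_le hC hpC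
      have h3 := p_A3_three (c - a) (b - a) (q - a)
      have e1 : cr (b - a) (q - a) = 0 := hω.symm
      have e2 : cr (q - a) (c - a) = -C := by
        rw [cr_comm]
        rfl
      have e3 : cr (c - a) (b - a) = p := rfl
      rw [e1, e2, e3, zero_smul, zero_add] at h3
      have hq : q = (1 - C / p) • a + (C / p) • b := by
        have h4 : p • (q - a - (C / p) • (b - a)) = 0 := by
          rw [smul_sub, smul_smul, mul_div_cancel₀ _ hp0.ne', sub_eq_add_neg, ← neg_smul, add_comm]
          exact h3
        have h5 : q - a - (C / p) • (b - a) = 0 := by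
          rcases smul_eq_zero.1 h4 with h | h
          · exact absurd h hp0.ne'
          · exact h
        have h6 : q = a + (C / p) • (b - a) := by
          rw [sub_sub, sub_eq_zero] at h5
          exact h5
        rw [h6, smul_sub, sub_smul, one_smul]
        abel
      have hqK : q ∈ K := by
        rw [hq]
        refine hK ha hb ?_ (by positivity) (by ring)
        rw [sub_nonneg, div_le_one hp0]
        exact hpC
      rw [hx]
      exact hK hc hqK (by linarith) ht0 (by ring)
    · -- case 1
      by_cases haq : a = q
      · left
        rw [hx, ← haq]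
        exact hK hc ha (by linarith) ht0 (by ring)
      · have hne : q - a ≠ 0 := fun h => haq (sub_eq_zero.1 h).symm
        -- `c - a = γ (q - a)`
        set γ : ℝ := dt (q - a) (c - a) / ‖q - a‖ ^ 2 with hγ
        have hn : 0 < ‖q - a‖ ^ 2 := by positivity
        have hcr : cr (c - a) (q - a) = 0 := hC.symm
        have hca : c - a = γ • (q - a) := by
          have h3 : (‖q - a‖ ^ 2) • (c - a) = (dt (q - a) (c - a)) • (q - a) := by
            rw [← dt_self]
            unfold cr at hcr
            apply Complex.ext
            · simp only [dt, Complex.real_smul, Complex.mul_re, Complex.ofReal_re,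
                Complex.ofReal_im]
              linear_combination (q - a).im * hcr
            · simp only [dt, Complex.real_smul, Complex.mul_im, Complex.ofReal_re,
                Complex.ofReal_im]
              linear_combination (-(q - a).re) * hcr
          rw [hγ, div_eq_inv_mul, mul_smul, ← h3, smul_smul, inv_mul_cancel₀ hn.ne', one_smul]
        have hc' : c = a + γ • (q - a) := by rw [← hca]; abel
        set ξ : ℝ := (1 - t) * γ + t with hξ
        have hx' : x = a + ξ • (q - a) := by
          have e : x = a + ((1 - t) • (γ • (q - a)) + t • (q - a)) := by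
            rw [hx, hc', smul_add, smul_sub t q a, sub_smul, one_smul]
            abel
          rw [e, hξ, add_smul, smul_smul]
        have hseg : ∀ (η : ℝ) (w : ℂ), x = a + η • (w - a) → x = (1 - η) • a + η • w := by
          intro η w h
          rw [h, smul_sub, sub_smul, one_smul]
          abel
        rcases lt_or_ge ξ 0 with h0 | h0
        · left
          have hγ0 : γ < 0 := by
            by_contra hcon
            push Not at hcon
            have : 0 ≤ (1 - t) * γ + t := by
              have : 0 ≤ 1 - t := by linarith
              positivity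
            linarith
          have hγξ : γ ≤ ξ := by rw [hξ]; nlinarith
          have e : x = a + (ξ / γ) • (c - a) := by
            rw [hca, smul_smul, div_mul_cancel₀ _ hγ0.ne]
            exact hx'
          rw [hseg _ _ e]
          refine hK ha hc ?_ (div_nonneg_of_nonpos h0.le hγ0.le) (by ring)
          rw [sub_nonneg, div_le_one_of_neg hγ0]
          exact hγξ
        · rcases le_or_gt ξ 1 with h1 | h1
          · right
            rw [hseg _ _ hx']
            exact hT haT hqT (by linarith) h0 (by ring)
          · left
            have hγ1 : 1 < γ := by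
              by_contra hcon
              push Not at hcon
              have h1t : 0 ≤ 1 - t := by linarith
              have : (1 - t) * γ ≤ (1 - t) * 1 := mul_le_mul_of_nonneg_left hcon h1t
              linarith
            have hγξ : ξ ≤ γ := by rw [hξ]; nlinarith
            have hγp : 0 < γ := by linarith
            have e : x = a + (ξ / γ) • (c - a) := by
              rw [hca, smul_smul, div_mul_cancel₀ _ hγp.ne']
              exact hx'
            rw [hseg _ _ e]
            refine hK ha hc ?_ (by positivity) (by ring)
            rw [sub_nonneg, div_le_one hγp]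
            exact hγξ

theorem p_A3 : S_A3 := by
  intro n y hn hy
  have hins : pts (n + 1) y = insert (y n) (pts n y) := by
    ext z
    simp only [pts, Set.mem_insert_iff]
    constructor
    · rintro ⟨i, hi, rfl⟩
      rcases Nat.lt_succ_iff_lt_or_eq.1 hi with h | h
      · exact Or.inr ⟨i, h, rfl⟩
      · exact Or.inl (by rw [h])
    · rintro (rfl | ⟨i, hi, rfl⟩)
      · exact ⟨n, Nat.lt_succ_self n, rfl⟩
      · exact ⟨i, by omega, rfl⟩
  have h0 : y 0 ∈ pts n y := ⟨0, by omega, rfl⟩
  have h1 : y (n - 1) ∈ pts n y := ⟨n - 1, by omega, rfl⟩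
  have hsub := subset_convexHull ℝ (pts n y)
  apply Set.Subset.antisymm
  · intro x hx
    rw [hins, convexHull_insert ⟨y 0, h0⟩, mem_convexJoin] at hx
    obtain ⟨q, hq, c, hc, hx⟩ := hx
    rw [Set.mem_singleton_iff] at hq
    subst hq
    rw [segment_symm] at hx
    obtain ⟨s, t, hs, ht, hst, hx⟩ := hx
    have hs' : s = 1 - t := by linarith
    subst hs'
    have F1 : pts n y ⊆ {z : ℂ | 0 ≤ orient (y 0) z (y n)} := by
      rintro z ⟨i, hi, rfl⟩
      show 0 ≤ orient (y 0) (y i) (y n)
      rcases Nat.eq_zero_or_pos i with rfl | hi0
      · rw [(p_A3_or0 _ _).1]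
      · exact hy 0 i n hi0 hi (by omega)
    have F2 : pts n y ⊆ {z : ℂ | 0 ≤ orient (y 0) z (y (n - 1))} := by
      rintro z ⟨i, hi, rfl⟩
      show 0 ≤ orient (y 0) (y i) (y (n - 1))
      rcases Nat.eq_zero_or_pos i with rfl | hi0
      · rw [(p_A3_or0 _ _).1]
      · rcases Nat.lt_or_ge i (n - 1) with h | h
        · exact hy 0 i (n - 1) hi0 h (by omega)
        · have : i = n - 1 := by omega
          rw [this, (p_A3_or0 _ _).2.1]
    have F3 : pts n y ⊆ {z : ℂ | 0 ≤ orient z (y (n - 1)) (y n)} := by
      rintro z ⟨i, hi, rfl⟩
      show 0 ≤ orient (y i) (y (n - 1)) (y n)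
      rcases Nat.lt_or_ge i (n - 1) with h | h
      · exact hy i (n - 1) n h (by omega) (by omega)
      · have : i = n - 1 := by omega
        rw [this, (p_A3_or0 _ _).1]
    have G1 := convexHull_min F1 (p_A3_half2 (y 0) (y n))
    have G2 := convexHull_min F2 (p_A3_half2 (y 0) (y (n - 1)))
    have G3 := convexHull_min F3 (p_A3_half1 (y (n - 1)) (y n))
    have hTs := subset_convexHull ℝ ({y 0, y (n - 1), y n} : Set ℂ)
    exact p_A3_main (convex_convexHull ℝ _) (convex_convexHull ℝ _) (hsub h0) (hsub h1)
      (hTs (by simp)) (hTs (by simp)) (hTs (by simp)) hc (G1 hc) (G2 hc) (G3 hc)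
      (G1 (hsub h1)) ht (by linarith) hx.symm
  · refine Set.union_subset (convexHull_mono ?_) (convexHull_mono ?_)
    · rw [hins]
      exact Set.subset_insert _ _
    · rw [hins]
      rintro z (rfl | rfl | rfl)
      · exact Or.inr h0
      · exact Or.inr h1
      · exact Or.inl rfl

end Pool.Agent.Lib.MP_97284c_gt
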