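import Pool.Agent.Lib.MP_97284c_gt.StmA

/-! [A4] The area of the hull of a weakly convex sequence is the fan sum. -/

open MeasureTheory

namespace Pool.Agent.Lib.MP_97284c_gt

theorem p_A4_pts_finite (n : ℕ) (y : ℕ → ℂ) : (pts n y).Finite := by
  have : pts n y = y '' (Finset.range n : Set ℕ) := by
    ext z
    simp only [pts, Set.mem_ofPred_eq, Set.mem_image, Finset.coe_range, Set.mem_Iio]
    constructor
    · rintro ⟨i, hi, rfl⟩; exact ⟨i, hi, rfl⟩
    · rintro ⟨i, hi, rfl⟩; exact ⟨i, hi, rfl⟩
  rw [this]
  exact (Finset.finite_toSet _).image _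

theorem p_A4_affine (a b x y : ℂ) (s t : ℝ) (hst : s + t = 1) :
    orient a b (s • x + t • y) = s * orient a b x + t * orient a b y := by
  have hs : s = 1 - t := by linarith
  subst hs
  unfold orient cr
  simp only [Complex.sub_re, Complex.sub_im, Complex.add_re, Complex.add_im, Complex.smul_re,
    Complex.smul_im, smul_eq_mul]
  ring

theorem p_A4_convex_le (a b : ℂ) : Convex ℝ {z : ℂ | orient a b z ≤ 0} := by
  intro x hx y hy s t hs ht hst
  simp only [Set.mem_ofPred_eq] at hx hy ⊢
  rw [p_A4_affine a b x y s t hst]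
  nlinarith [mul_nonneg hs (neg_nonneg.mpr hx), mul_nonneg ht (neg_nonneg.mpr hy)]

theorem p_A4_convex_ge (a b : ℂ) : Convex ℝ {z : ℂ | 0 ≤ orient a b z} := by
  intro x hx y hy s t hs ht hst
  simp only [Set.mem_ofPred_eq] at hx hy ⊢
  rw [p_A4_affine a b x y s t hst]
  nlinarith [mul_nonneg hs hx, mul_nonneg ht hy]

theorem p_A4_orient_aab (a b : ℂ) : orient a b a = 0 := by
  unfold orient cr; simp

theorem p_A4_orient_abb (a b : ℂ) : orient a b b = 0 := by
  unfold orient cr; ring

theorem p_A4_orient_aa (a b : ℂ) : orient a a b = 0 := by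
  unfold orient cr; simp

/-- Two compact sets separated by a line: the areas add. -/
theorem p_A4_add (hA2 : S_A2) (K T : Set ℂ) (hK : IsCompact K) (hT : IsCompact T) (a b : ℂ)
    (hab : a ≠ b) (h1 : ∀ z ∈ K, orient a b z ≤ 0) (h2 : ∀ z ∈ T, 0 ≤ orient a b z) :
    (volume (K ∪ T)).toReal = (volume K).toReal + (volume T).toReal := by
  have hint : volume (K ∩ T) = 0 := by
    refine measure_mono_null ?_ (hA2 a b hab)
    intro z hz
    exact le_antisymm (h1 z hz.1) (h2 z hz.2)
  have h := measure_union_add_inter (μ := volume) K hT.measurableSet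
  rw [hint, add_zero] at h
  rw [h, ENNReal.toReal_add hK.measure_lt_top.ne hT.measure_lt_top.ne]

theorem p_A4 (hA1 : S_A1) (hA2 : S_A2) (hA3 : S_A3) : S_A4 := by
  intro n y hn
  induction n, hn using Nat.le_induction with
  | base =>
    intro _
    have h1 : pts 1 y = {y 0} := by
      ext z
      simp only [pts, Set.mem_ofPred_eq, Set.mem_singleton_iff]
      constructor
      · rintro ⟨i, hi, rfl⟩
        have : i = 0 := by omega
        rw [this]
      · rintro rfl; exact ⟨0, by omega, rfl⟩
    rw [h1]
    unfold hArea fan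
    rw [convexHull_singleton]
    simp
  | succ n hn ih =>
    intro h
    have hW : WCvx n y := fun i j k hij hjk hk => h i j k hij hjk (by omega)
    have ih' := ih hW
    have hfan : fan (n + 1) y = fan n y + orient (y 0) (y (n - 1)) (y n) / 2 := by
      unfold fan
      obtain ⟨m, rfl⟩ : ∃ m, n = m + 1 := ⟨n - 1, by omega⟩
      rw [show m + 1 + 1 - 1 = m + 1 by omega, show m + 1 - 1 = m by omega, Finset.sum_range_succ]
      ring
    have hKc : IsCompact (convexHull ℝ (pts n y)) := (p_A4_pts_finite n y).isCompact_convexHull ℝ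
    have hTc : IsCompact (convexHull ℝ ({y 0, y (n - 1), y n} : Set ℂ)) :=
      Set.Finite.isCompact_convexHull ℝ (by simp)
    have hT := hA1 (y 0) (y (n - 1)) (y n)
    have hTr : (volume (convexHull ℝ ({y 0, y (n - 1), y n} : Set ℂ))).toReal
        = |orient (y 0) (y (n - 1)) (y n)| / 2 := by
      rw [hT, ENNReal.toReal_ofReal (by positivity)]
    have hD : 0 ≤ orient (y 0) (y (n - 1)) (y n) := by
      rcases Nat.lt_or_ge 1 n with h1 | h1
      · exact h 0 (n - 1) n (by omega) (by omega) (by omega)
      · have : n = 1 := by omega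
        subst this
        rw [show (1 : ℕ) - 1 = 0 from rfl, p_A4_orient_aa]
    unfold hArea at ih' ⊢
    rw [hA3 n y hn h, hfan, ← ih']
    rcases hD.lt_or_eq with hpos | hzero
    · have hab : y 0 ≠ y (n - 1) := by
        intro hab
        rw [← hab, p_A4_orient_aa] at hpos
        exact lt_irrefl _ hpos
      rw [p_A4_add hA2 _ _ hKc hTc (y 0) (y (n - 1)) hab, hTr, abs_of_pos hpos]
      · intro z hz
        have hsub : pts n y ⊆ {z : ℂ | orient (y 0) (y (n - 1)) z ≤ 0} := by
          rintro z ⟨i, hi, rfl⟩
          simp only [Set.mem_ofPred_eq]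
          rcases Nat.eq_zero_or_pos i with h0 | h0
          · rw [h0, p_A4_orient_aab]
          · rcases Nat.lt_or_ge i (n - 1) with h1 | h1
            · have := h 0 i (n - 1) h0 h1 (by omega)
              rw [orient_eq] at this ⊢
              rw [cr_comm (y (n - 1)) (y i), cr_comm (y 0) (y (n - 1)), cr_comm (y i) (y 0)]
              linarith
            · have : i = n - 1 := by omega
              rw [this, p_A4_orient_abb]
        exact convexHull_min hsub (p_A4_convex_le _ _) hz
      · intro z hz
        have hsub : ({y 0, y (n - 1), y n} : Set ℂ) ⊆ {z : ℂ | 0 ≤ orient (y 0) (y (n - 1)) z} := by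
          intro z hz
          simp only [Set.mem_insert_iff, Set.mem_singleton_iff] at hz
          simp only [Set.mem_ofPred_eq]
          rcases hz with rfl | rfl | rfl
          · rw [p_A4_orient_aab]
          · rw [p_A4_orient_abb]
          · exact hD
        exact convexHull_min hsub (p_A4_convex_ge _ _) hz
    · have hT0 : volume (convexHull ℝ ({y 0, y (n - 1), y n} : Set ℂ)) = 0 := by
        rw [hT, ← hzero]; simp
      have : volume (convexHull ℝ (pts n y) ∪ convexHull ℝ ({y 0, y (n - 1), y n} : Set ℂ))
          = volume (convexHull ℝ (pts n y)) := by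
        apply le_antisymm
        · refine (measure_union_le _ _).trans ?_
          rw [hT0, add_zero]
        · exact measure_mono Set.subset_union_left
      rw [this, ← hzero]
      simp

end Pool.Agent.Lib.MP_97284c_gt
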