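import Pool.Agent.Lib.MP_97284c_gt.StmA

/-! [A4b] Fan sum = shoelace sum for a periodic sequence. -/

namespace Pool.Agent.Lib.MP_97284c_gt

private theorem p_A4b_tel (z : ℤ → ℂ) (m : ℕ) :
    ∑ j ∈ Finset.range m, orient (z 0) (z j) (z ((j : ℤ) + 1)) =
      ∑ j ∈ Finset.range m, cr (z j) (z ((j : ℤ) + 1)) - cr (z 0) (z m) := by
  induction m with
  | zero => simp [cr_self]
  | succ m ih =>
    rw [Finset.sum_range_succ, Finset.sum_range_succ, ih, orient_eq]
    push_cast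
    rw [cr_comm (z ((m : ℤ) + 1)) (z 0)]
    ring

theorem p_A4b : S_A4b := by
  intro n z hn hz
  obtain ⟨m, rfl⟩ : ∃ m, n = m + 1 := ⟨n - 1, by omega⟩
  unfold fan sh
  rw [Nat.add_sub_cancel, Finset.sum_range_succ]
  have h1 := p_A4b_tel z m
  have h2 : z ((m : ℤ) + 1) = z 0 := by
    have := hz 0
    rw [zero_add] at this
    exact_mod_cast this
  simp only [Nat.cast_zero, Nat.cast_add, Nat.cast_one] at *
  rw [h1, h2, cr_comm (z m) (z 0)]
  ring

end Pool.Agent.Lib.MP_97284c_gt
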