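import Pool.Agent.Lib.MP_97284c_gt.StmA

/-! [A4c] The area of the hull of a weakly convex periodic sequence is the shoelace sum. -/

namespace Pool.Agent.Lib.MP_97284c_gt

theorem p_A4c (hA4 : S_A4) (hA4b : S_A4b) : S_A4c := by
  intro n z hn hper hc
  have h1 : WCvx n (fun i : ℕ => z i) := by
    intro i j k hij hjk hk
    exact hc i j k (by exact_mod_cast hij) (by exact_mod_cast hjk) (by
      have : (k : ℤ) < n := by exact_mod_cast hk
      have h0 : (0 : ℤ) ≤ i := Int.natCast_nonneg i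
      linarith)
  have h2 : Set.range (fun i : Fin n => z ((i : ℕ) : ℤ)) = pts n (fun i : ℕ => z i) := by
    ext w
    constructor
    · rintro ⟨i, rfl⟩
      exact ⟨i, i.2, rfl⟩
    · rintro ⟨i, hi, rfl⟩
      exact ⟨⟨i, hi⟩, rfl⟩
  have h3 := hA4 n (fun i : ℕ => z i) hn h1
  rw [hA4b n z hn hper] at h3
  rw [← h3, ← h2]

end Pool.Agent.Lib.MP_97284c_gt
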