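import Pool.Agent.Lib.MP_97284c_gt.StmA

open MeasureTheory

namespace Pool.Agent.Lib.MP_97284c_gt

private lemma p_A5_aab (a c : ℂ) : orient a a c = 0 := by
  simp only [orient_eq, cr]
  ring

private lemma p_A5_abb (a b : ℂ) : orient a b b = 0 := by
  simp only [orient_eq, cr]
  ring

theorem p_A5 (hA5a : S_A5a) (hA5b : S_A5b) : S_A5 := by
  intro n v hn
  classical
  obtain ⟨T, hTS, hhull, hT⟩ := hA5a (Finset.univ.image v)
  have hcoe : ((Finset.univ.image v : Finset ℂ) : Set ℂ) = Set.range v := by
    rw [Finset.coe_image, Finset.coe_univ, Set.image_univ]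
  rw [hcoe] at hhull
  have hSne : (Set.range v).Nonempty := ⟨v ⟨0, by omega⟩, Set.mem_range_self _⟩
  have hTne : T.Nonempty := by
    by_contra h
    rw [Finset.not_nonempty_iff_eq_empty] at h
    rw [h, Finset.coe_empty, convexHull_empty] at hhull
    have := (convexHull_nonempty_iff (𝕜 := ℝ)).mpr hSne
    rw [← hhull] at this
    exact Set.not_nonempty_empty this
  obtain ⟨w, hwT, hTw, hwinj, hw⟩ := hA5b T hTne hT
  have hc1 : 1 ≤ T.card := Finset.card_pos.mpr hTne
  have hcn : T.card ≤ n := by
    refine (Finset.card_le_card hTS).trans (Finset.card_image_le.trans ?_)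
    simp
  set c := T.card with hc
  have hmin : ∀ i, min i (c - 1) < c := fun i => lt_of_le_of_lt (min_le_right _ _) (by omega)
  have hpts : pts n (fun i => w (min i (c - 1))) = (T : Set ℂ) := by
    ext z
    constructor
    · rintro ⟨i, _, rfl⟩
      exact hwT _ (hmin i)
    · intro hz
      obtain ⟨i, hi, rfl⟩ := hTw z hz
      refine ⟨i, by omega, ?_⟩
      show w i = w (min i (c - 1))
      rw [min_eq_left (by omega)]
  refine ⟨fun i => w (min i (c - 1)), ?_, ?_, ?_, ?_⟩
  · intro i j k hij hjk hk
    show 0 ≤ orient (w (min i (c - 1))) (w (min j (c - 1))) (w (min k (c - 1)))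
    rcases le_or_gt (c - 1) j with h | h
    · have e1 : min j (c - 1) = c - 1 := min_eq_right h
      have e2 : min k (c - 1) = c - 1 := min_eq_right (by omega)
      rw [e1, e2, p_A5_abb]
    · have e0 : min i (c - 1) = i := min_eq_left (by omega)
      have e1 : min j (c - 1) = j := min_eq_left (by omega)
      rw [e0, e1]
      refine (hw i j (min k (c - 1)) hij ?_ (hmin k)).le
      exact lt_min hjk h
  · intro i _
    have h1 := hTS (hwT _ (hmin i))
    rw [← hcoe]
    exact h1
  · rw [hpts, hhull]
  · intro hpos heq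
    have heq' : w (min (n - 1) (c - 1)) = w (min 0 (c - 1)) := heq
    have h1 := hwinj _ _ (hmin _) (hmin _) heq'
    have h2 : c = 1 := by
      have e1 : min (n - 1) (c - 1) = c - 1 := min_eq_right (by omega)
      have e2 : min 0 (c - 1) = 0 := min_eq_left (by omega)
      rw [e1, e2] at h1
      omega
    obtain ⟨t, ht⟩ := Finset.card_eq_one.mp (hc ▸ h2)
    unfold hArea at hpos
    rw [← hhull, ht, Finset.coe_singleton, convexHull_singleton, measure_singleton] at hpos
    simp at hpos

end Pool.Agent.Lib.MP_97284c_gt
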