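import Pool.Agent.Lib.MP_97284c_gt.StmA

/-! [A5a] Minimal subset with the same convex hull. -/

namespace Pool.Agent.Lib.MP_97284c_gt

theorem p_A5a : S_A5a := by
  classical
  intro S
  obtain ⟨T, hT, hmin⟩ := Finset.exists_min_image
    (S.powerset.filter (fun T : Finset ℂ => convexHull ℝ (T : Set ℂ) = convexHull ℝ (S : Set ℂ)))
    Finset.card ⟨S, by simp⟩
  rw [Finset.mem_filter, Finset.mem_powerset] at hT
  refine ⟨T, hT.1, hT.2, fun z hz hmem => ?_⟩
  have hsub : (T : Set ℂ) ⊆ convexHull ℝ ((T.erase z : Finset ℂ) : Set ℂ) := by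
    intro w hw
    by_cases h : w = z
    · rw [h]; exact hmem
    · exact subset_convexHull ℝ _ (by
        rw [Finset.mem_coe, Finset.mem_erase]; exact ⟨h, hw⟩)
  have heq : convexHull ℝ ((T.erase z : Finset ℂ) : Set ℂ) = convexHull ℝ (S : Set ℂ) := by
    rw [← hT.2]
    refine le_antisymm (convexHull_mono (by
      intro w hw; exact Finset.mem_coe.mpr (Finset.mem_of_mem_erase (Finset.mem_coe.mp hw)))) ?_
    exact convexHull_min hsub (convex_convexHull ℝ _)
  have h := hmin (T.erase z) (by
    rw [Finset.mem_filter, Finset.mem_powerset]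
    exact ⟨(Finset.erase_subset _ _).trans hT.1, heq⟩)
  have h2 := Finset.card_erase_lt_of_mem hz
  omega

end Pool.Agent.Lib.MP_97284c_gt
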