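import Pool.Agent.Lib.MP_97284c_gt.StmA

open MeasureTheory

namespace Pool.Agent.Lib.MP_97284c_gt

private lemma p_A5b_three {S : Set ℂ} (hS : Convex ℝ S) {a b c : ℂ} (ha : a ∈ S) (hb : b ∈ S) (hc : c ∈ S)
    {α β γ : ℝ} (hα : 0 ≤ α) (hβ : 0 ≤ β) (hγ : 0 ≤ γ) (h1 : α + β + γ = 1) :
    (α : ℂ) * a + (β : ℂ) * b + (γ : ℂ) * c ∈ S := by
  have h := hS.sum_mem (t := (Finset.univ : Finset (Fin 3))) (w := ![α, β, γ]) (z := ![a, b, c])
    (by intro i _; fin_cases i <;> simpa) (by simpa [Fin.sum_univ_three] using h1)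
    (by intro i _; fin_cases i <;> simpa)
  simpa [Fin.sum_univ_three] using h

private lemma p_A5b_cr (w w' : ℂ) : cr w w' = ‖w‖ * ‖w'‖ * Real.sin (Complex.arg w' - Complex.arg w) := by
  have h1 := Complex.norm_mul_exp_arg_mul_I w
  have h2 := Complex.norm_mul_exp_arg_mul_I w'
  have r1 : w.re = ‖w‖ * Real.cos (Complex.arg w) := by
    conv_lhs => rw [← h1]
    rw [Complex.re_ofReal_mul, exp_re]
  have i1 : w.im = ‖w‖ * Real.sin (Complex.arg w) := by
    conv_lhs => rw [← h1]
    rw [Complex.im_ofReal_mul, exp_im]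
  have r2 : w'.re = ‖w'‖ * Real.cos (Complex.arg w') := by
    conv_lhs => rw [← h2]
    rw [Complex.re_ofReal_mul, exp_re]
  have i2 : w'.im = ‖w'‖ * Real.sin (Complex.arg w') := by
    conv_lhs => rw [← h2]
    rw [Complex.im_ofReal_mul, exp_im]
  unfold cr
  rw [r1, i1, r2, i2, Real.sin_sub]
  ring

theorem p_A5b : S_A5b := by
  intro T hTne hT
  classical
  -- lexicographically smallest point
  obtain ⟨e, heT, hemin⟩ := Finset.exists_min_image T (fun z : ℂ => toLex (z.re, z.im)) hTne
  have harg : ∀ z ∈ T, z ≠ e → -(Real.pi / 2) < Complex.arg (z - e) ∧ Complex.arg (z - e) ≤ Real.pi / 2 := by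
    intro z hz hze
    have h := hemin z hz
    rw [Prod.Lex.toLex_le_toLex] at h
    have hpi := Real.pi_pos
    rcases h with h | ⟨h1, h2⟩
    · have hre : 0 < (z - e).re := by
        rw [Complex.sub_re]
        exact sub_pos.mpr h
      have := Complex.abs_arg_lt_pi_div_two_iff.mpr (Or.inl hre)
      rw [abs_lt] at this
      exact ⟨this.1, this.2.le⟩
    · have h1' : e.re = z.re := h1
      have h2' : e.im ≤ z.im := h2
      have him : 0 < (z - e).im := by
        rw [Complex.sub_im]
        refine sub_pos.mpr (lt_of_le_of_ne h2' ?_)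
        intro h3
        exact hze (Complex.ext h1'.symm h3.symm)
      have hre : (z - e).re = 0 := by
        rw [Complex.sub_re, h1', sub_self]
      rw [Complex.arg_eq_pi_div_two_iff.mpr ⟨hre, him⟩]
      constructor
      · linarith
      · exact le_rfl
  have hnorm : ∀ z : ℂ, z ≠ e → 0 < ‖z - e‖ := fun z hz => norm_pos_iff.mpr (sub_ne_zero.mpr hz)
  -- positivity for increasing arguments
  have hpos : ∀ z ∈ T, z ≠ e → ∀ z' ∈ T, z' ≠ e → Complex.arg (z - e) < Complex.arg (z' - e) →
      0 < orient e z z' := by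
    intro z hz hze z' hz' hze' hlt
    unfold orient
    rw [p_A5b_cr]
    have a1 := harg z hz hze
    have a2 := harg z' hz' hze'
    refine mul_pos (mul_pos (hnorm z hze) (hnorm z' hze')) (Real.sin_pos_of_pos_of_lt_pi ?_ ?_)
    · linarith
    · linarith [a1.1, a2.2]
  -- injectivity
  have hinj0 : ∀ z ∈ T, z ≠ e → ∀ z' ∈ T, z' ≠ e → Complex.arg (z - e) = Complex.arg (z' - e) →
      ‖z - e‖ ≤ ‖z' - e‖ → z = z' := by
    intro z hz hze z' hz' hze' heq hle
    by_contra hne
    apply hT z hz
    have hn' := hnorm z' hze'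
    have he1 : e ∈ convexHull ℝ ((T.erase z : Finset ℂ) : Set ℂ) := by
      apply subset_convexHull
      rw [Finset.coe_erase]
      exact ⟨heT, fun h => hze h.symm⟩
    have he2 : z' ∈ convexHull ℝ ((T.erase z : Finset ℂ) : Set ℂ) := by
      apply subset_convexHull
      rw [Finset.coe_erase]
      exact ⟨hz', fun h => hne h.symm⟩
    have h1 := Complex.norm_mul_exp_arg_mul_I (z - e)
    have h2 := Complex.norm_mul_exp_arg_mul_I (z' - e)
    have hn'c : (‖z' - e‖ : ℂ) ≠ 0 := by
      exact_mod_cast hn'.ne'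
    have h3 : z = (((1 - ‖z - e‖ / ‖z' - e‖ : ℝ)) : ℂ) * e + (((0 : ℝ)) : ℂ) * e +
        (((‖z - e‖ / ‖z' - e‖ : ℝ)) : ℂ) * z' := by
      rw [heq] at h1
      have h4 : (‖z' - e‖ : ℂ) * (z - e) = (‖z - e‖ : ℂ) * (z' - e) := by
        linear_combination (-(‖z' - e‖ : ℂ)) * h1 + (‖z - e‖ : ℂ) * h2
      push_cast
      field_simp
      linear_combination h4
    have ht1 : ‖z - e‖ / ‖z' - e‖ ≤ 1 := (div_le_one hn').mpr hle
    have h5 := p_A5b_three (convex_convexHull ℝ ((T.erase z : Finset ℂ) : Set ℂ)) he1 he1 he2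
      (α := 1 - ‖z - e‖ / ‖z' - e‖) (β := 0) (γ := ‖z - e‖ / ‖z' - e‖) (by linarith) le_rfl
      (div_nonneg (norm_nonneg _) (norm_nonneg _)) (by ring)
    rwa [← h3] at h5
  have hinj : ∀ z ∈ T.erase e, ∀ z' ∈ T.erase e, Complex.arg (z - e) = Complex.arg (z' - e) → z = z' := by
    intro z hz z' hz' heq
    rw [Finset.mem_erase] at hz hz'
    rcases le_total ‖z - e‖ ‖z' - e‖ with h | h
    · exact hinj0 z hz.2 hz.1 z' hz'.2 hz'.1 heq h
    · exact (hinj0 z' hz'.2 hz'.1 z hz.2 hz.1 heq.symm h).symm
  set r := (T.erase e).card with hr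
  have hcard : T.card = r + 1 := (Finset.card_erase_add_one heT).symm
  have hFc : ((T.erase e).image (fun z => Complex.arg (z - e))).card = r :=
    Finset.card_image_of_injOn (fun z hz z' hz' h => hinj z hz z' hz' h)
  set f := ((T.erase e).image (fun z => Complex.arg (z - e))).orderEmbOfFin hFc with hf
  have hg : ∀ i : Fin r, ∃ z ∈ T.erase e, Complex.arg (z - e) = f i := by
    intro i
    have h := Finset.orderEmbOfFin_mem _ hFc i
    rw [Finset.mem_image] at h
    exact h
  choose g hgT hgf using hg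
  have hgT' : ∀ i, g i ∈ T ∧ g i ≠ e := fun i => ⟨(Finset.mem_erase.mp (hgT i)).2, (Finset.mem_erase.mp (hgT i)).1⟩
  have hglt : ∀ i j : Fin r, i < j → 0 < orient e (g i) (g j) := by
    intro i j hij
    refine hpos _ (hgT' i).1 (hgT' i).2 _ (hgT' j).1 (hgT' j).2 ?_
    rw [hgf, hgf]
    exact f.strictMono hij
  have hginj : ∀ i j : Fin r, g i = g j → i = j := by
    intro i j h
    apply f.injective
    rw [← hgf, ← hgf, h]
  refine ⟨fun i => match i with
    | 0 => e
    | (i + 1) => if h : i < r then g ⟨i, h⟩ else e, ?_, ?_, ?_, ?_⟩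
  · intro i hi
    match i with
    | 0 => exact heT
    | (i + 1) =>
      have h : i < r := by omega
      show (if h : i < r then g ⟨i, h⟩ else e) ∈ T
      rw [dif_pos h]
      exact (hgT' _).1
  · intro z hz
    by_cases hze : z = e
    · exact ⟨0, by omega, hze⟩
    · have hzF : Complex.arg (z - e) ∈ (T.erase e).image (fun z => Complex.arg (z - e)) :=
        Finset.mem_image.mpr ⟨z, Finset.mem_erase.mpr ⟨hze, hz⟩, rfl⟩
      have hrange : Complex.arg (z - e) ∈ Set.range f := by
        rw [hf, Finset.range_orderEmbOfFin]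
        exact hzF
      obtain ⟨i, hi⟩ := hrange
      refine ⟨i + 1, by have := i.2; omega, ?_⟩
      show z = (if h : (i : ℕ) < r then g ⟨i, h⟩ else e)
      rw [dif_pos i.2]
      refine hinj z (Finset.mem_erase.mpr ⟨hze, hz⟩) _ (hgT _) ?_
      rw [hgf]
      exact hi.symm
  · intro i j hi hj hij
    match i, j with
    | 0, 0 => rfl
    | 0, (j + 1) =>
      have h : j < r := by omega
      have h2 : e = (if h : j < r then g ⟨j, h⟩ else e) := hij
      rw [dif_pos h] at h2
      exact absurd h2.symm (hgT' _).2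
    | (i + 1), 0 =>
      have h : i < r := by omega
      have h2 : (if h : i < r then g ⟨i, h⟩ else e) = e := hij
      rw [dif_pos h] at h2
      exact absurd h2 (hgT' _).2
    | (i + 1), (j + 1) =>
      have h1 : i < r := by omega
      have h2 : j < r := by omega
      have h3 : (if h : i < r then g ⟨i, h⟩ else e) = (if h : j < r then g ⟨j, h⟩ else e) := hij
      rw [dif_pos h1, dif_pos h2] at h3
      have := hginj _ _ h3
      rw [Fin.mk.injEq] at this
      rw [this]
  · intro i j k hij hjk hk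
    match i, j, k with
    | _, 0, _ => omega
    | _, _, 0 => omega
    | 0, (j + 1), (k + 1) =>
      have h1 : j < r := by omega
      have h2 : k < r := by omega
      show 0 < orient e (if h : j < r then g ⟨j, h⟩ else e) (if h : k < r then g ⟨k, h⟩ else e)
      rw [dif_pos h1, dif_pos h2]
      exact hglt _ _ (by rw [Fin.lt_def]; show j < k; omega)
    | (i + 1), (j + 1), (k + 1) =>
      have h0 : i < r := by omega
      have h1 : j < r := by omega
      have h2 : k < r := by omega
      show 0 < orient (if h : i < r then g ⟨i, h⟩ else e) (if h : j < r then g ⟨j, h⟩ else e)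
        (if h : k < r then g ⟨k, h⟩ else e)
      rw [dif_pos h0, dif_pos h1, dif_pos h2]
      have lij : (⟨i, h0⟩ : Fin r) < ⟨j, h1⟩ := by rw [Fin.lt_def]; show i < j; omega
      have ljk : (⟨j, h1⟩ : Fin r) < ⟨k, h2⟩ := by rw [Fin.lt_def]; show j < k; omega
      have oij := hglt _ _ lij
      have ojk := hglt _ _ ljk
      have oik := hglt _ _ (lij.trans ljk)
      by_contra hneg
      push Not at hneg
      apply hT (g ⟨j, h1⟩) (hgT' _).1
      have hmem : ∀ w ∈ T, w ≠ g ⟨j, h1⟩ → w ∈ convexHull ℝ ((T.erase (g ⟨j, h1⟩) : Finset ℂ) : Set ℂ) := by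
        intro w hw hne
        apply subset_convexHull
        rw [Finset.coe_erase]
        exact ⟨hw, hne⟩
      have m1 := hmem e heT (fun h => (hgT' ⟨j, h1⟩).2 h.symm)
      have m2 := hmem (g ⟨i, h0⟩) (hgT' _).1 (fun h => lij.ne (hginj _ _ h))
      have m3 := hmem (g ⟨k, h2⟩) (hgT' _).1 (fun h => ljk.ne' (hginj _ _ h))
      generalize g ⟨i, h0⟩ = a at *
      generalize g ⟨j, h1⟩ = b at *
      generalize g ⟨k, h2⟩ = c at *
      have key : b = (((-orient a b c / orient e a c : ℝ)) : ℂ) * e +
          (((orient e b c / orient e a c : ℝ)) : ℂ) * a + (((orient e a b / orient e a c : ℝ)) : ℂ) * c := by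
        have hD := oik.ne'
        apply Complex.ext
        · simp only [Complex.add_re, Complex.re_ofReal_mul]
          field_simp
          simp only [orient_eq, cr]
          ring
        · simp only [Complex.add_im, Complex.im_ofReal_mul]
          field_simp
          simp only [orient_eq, cr]
          ring
      have hsum : -orient a b c / orient e a c + orient e b c / orient e a c + orient e a b / orient e a c = 1 := by
        have hD := oik.ne'
        field_simp
        simp only [orient_eq, cr]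
        ring
      have := p_A5b_three (convex_convexHull ℝ ((T.erase b : Finset ℂ) : Set ℂ)) m1 m2 m3
        (div_nonneg (by linarith) oik.le) (div_nonneg ojk.le oik.le) (div_nonneg oij.le oik.le) hsum
      rwa [← key] at this

end Pool.Agent.Lib.MP_97284c_gt
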