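import Pool.Agent.Lib.MP_97284c_gt.StmA

open MeasureTheory

namespace Pool.Agent.Lib.MP_97284c_gt

private lemma p_A6_conv1 (a b : ℂ) : Convex ℝ {z : ℂ | 0 ≤ orient a b z} := by
  intro x hx y hy s t hs ht hst
  have hx' : 0 ≤ orient a b x := hx
  have hy' : 0 ≤ orient a b y := hy
  show 0 ≤ orient a b (s • x + t • y)
  have e : orient a b (s • x + t • y) = s * orient a b x + t * orient a b y := by
    have hs' : s = 1 - t := by linarith
    rw [hs']
    simp only [orient, cr, Complex.add_re, Complex.add_im, Complex.sub_re, Complex.sub_im,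
      Complex.real_smul, Complex.re_ofReal_mul, Complex.im_ofReal_mul]
    ring
  rw [e]
  positivity

private lemma p_A6_conv2 (a b : ℂ) : Convex ℝ {z : ℂ | orient a b z ≤ 0} := by
  have h := p_A6_conv1 b a
  have e : {z : ℂ | 0 ≤ orient b a z} = {z : ℂ | orient a b z ≤ 0} := by
    ext z
    simp only [Set.mem_setOf_eq]
    rw [orient_swap a b z]
    exact neg_nonneg
  rwa [e] at h

theorem p_A6 (hA1 : S_A1) (hA2 : S_A2) (hA5 : S_A5) : S_A6 := by
  intro n v hn hsmall hpos
  classical
  obtain ⟨y, hy, hyr, hhull, hne⟩ := hA5 n v hn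
  have hab := hne hpos
  set b := y 0 with hb
  set a := y (n - 1) with ha
  have har : a ∈ Set.range v := hyr (n - 1) (by omega)
  have hbr : b ∈ Set.range v := hyr 0 (by omega)
  -- the hull is on one side
  have hside : ∀ z ∈ convexHull ℝ (Set.range v), 0 ≤ orient a b z := by
    rw [← hhull]
    refine convexHull_min ?_ (p_A6_conv1 a b)
    rintro z ⟨i, hi, rfl⟩
    show 0 ≤ orient a b (y i)
    rcases Nat.eq_zero_or_pos i with h0 | h0
    · rw [h0, ← hb]
      simp only [orient_eq, cr]
      apply le_of_eq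
      ring
    · rcases Nat.lt_or_ge i (n - 1) with h1 | h1
      · have := hy 0 i (n - 1) h0 h1 (by omega)
        rw [← hb, ← ha] at this
        rwa [orient_rot a b (y i)] at this
      · have : i = n - 1 := by omega
        rw [this, ← ha]
        simp only [orient_eq, cr]
        apply le_of_eq
        ring
  set L := ‖b - a‖ with hL
  have hL0 : 0 < L := norm_pos_iff.mpr (sub_ne_zero.mpr (Ne.symm hab))
  obtain ⟨ia, hia⟩ := har
  obtain ⟨ib, hib⟩ := hbr
  have hL1 : L ≤ 1 := by
    have := hsmall ib ia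
    rw [hia, hib, dist_eq_norm] at this
    exact this
  have hLsq : L ^ 2 = (b.re - a.re) ^ 2 + (b.im - a.im) ^ 2 := by
    rw [hL, Complex.sq_norm, Complex.normSq_apply, Complex.sub_re, Complex.sub_im]
    ring
  set q : ℂ := ((1 / 2 : ℝ) : ℂ) * (a + b) - ((L / 8 : ℝ) : ℂ) * (Complex.I * (b - a)) with hq
  have hqor : orient a b q = -(L / 8) * L ^ 2 := by
    rw [hLsq, hq]
    simp only [orient, cr, Complex.add_re, Complex.add_im, Complex.sub_re, Complex.sub_im,
      Complex.ofReal_re, Complex.ofReal_im, Complex.mul_re, Complex.mul_im, Complex.I_re, Complex.I_im]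
    ring
  have hdist : ∀ i, dist q (v i) ≤ 1 := by
    intro i
    have d1 := hsmall ia i
    have d2 := hsmall ib i
    rw [hia, dist_eq_norm] at d1
    rw [hib, dist_eq_norm] at d2
    generalize v i = w at *
    rw [dist_eq_norm]
    have e0 : q - w = (((1 / 2 : ℝ) : ℂ) * (a + b) - w) - ((L / 8 : ℝ) : ℂ) * (Complex.I * (b - a)) := by
      rw [hq]
      ring
    have n1 : ‖((1 / 2 : ℝ) : ℂ) * (a + b) - w‖ ^ 2 = ‖a - w‖ ^ 2 / 2 + ‖b - w‖ ^ 2 / 2 - L ^ 2 / 4 := by
      rw [hLsq, Complex.sq_norm, Complex.sq_norm, Complex.sq_norm, Complex.normSq_apply, Complex.normSq_apply,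
        Complex.normSq_apply]
      simp only [Complex.add_re, Complex.add_im, Complex.sub_re, Complex.sub_im,
        Complex.re_ofReal_mul, Complex.im_ofReal_mul]
      ring
    have n2 : ‖((1 / 2 : ℝ) : ℂ) * (a + b) - w‖ ≤ 1 - L ^ 2 / 8 := by
      refine abs_le_of_sq_le_sq' ?_ (by nlinarith) |>.2
      rw [n1]
      have q1 : ‖a - w‖ ^ 2 ≤ 1 := by nlinarith [norm_nonneg (a - w)]
      have q2 : ‖b - w‖ ^ 2 ≤ 1 := by nlinarith [norm_nonneg (b - w)]
      nlinarith [sq_nonneg (L ^ 2)]
    have n3 : ‖((L / 8 : ℝ) : ℂ) * (Complex.I * (b - a))‖ = L / 8 * L := by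
      rw [norm_mul, norm_mul, Complex.norm_I, one_mul, Complex.norm_real, Real.norm_of_nonneg (by positivity)]
    rw [e0]
    refine (norm_sub_le _ _).trans ?_
    rw [n3]
    nlinarith
  refine ⟨q, hdist, ?_⟩
  -- volumes
  have hfin : (Set.range v).Finite := Set.finite_range v
  have hKc : IsCompact (convexHull ℝ (Set.range v)) := hfin.isCompact_convexHull (𝕜 := ℝ)
  have hTc : IsCompact (convexHull ℝ ({a, b, q} : Set ℂ)) := (Set.toFinite ({a, b, q} : Set ℂ)).isCompact_convexHull (𝕜 := ℝ)
  have hUc : IsCompact (convexHull ℝ (insert q (Set.range v))) := (hfin.insert q).isCompact_convexHull (𝕜 := ℝ)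
  have hTside : ∀ z ∈ convexHull ℝ ({a, b, q} : Set ℂ), orient a b z ≤ 0 := by
    refine convexHull_min ?_ (p_A6_conv2 a b)
    intro z hz
    simp only [Set.mem_insert_iff, Set.mem_singleton_iff] at hz
    show orient a b z ≤ 0
    rcases hz with rfl | rfl | rfl
    · simp only [orient_eq, cr]
      apply le_of_eq
      ring
    · simp only [orient_eq, cr]
      apply le_of_eq
      ring
    · rw [hqor]
      nlinarith [pow_pos hL0 3]
  have hnull : volume (convexHull ℝ (Set.range v) ∩ convexHull ℝ ({a, b, q} : Set ℂ)) = 0 := by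
    refine measure_mono_null ?_ (hA2 a b hab)
    rintro z ⟨h1, h2⟩
    exact le_antisymm (hTside z h2) (hside z h1)
  have hun : volume (convexHull ℝ (Set.range v) ∪ convexHull ℝ ({a, b, q} : Set ℂ)) =
      volume (convexHull ℝ (Set.range v)) + volume (convexHull ℝ ({a, b, q} : Set ℂ)) :=
    measure_union₀ hTc.measurableSet.nullMeasurableSet hnull
  have hsub : convexHull ℝ (Set.range v) ∪ convexHull ℝ ({a, b, q} : Set ℂ) ⊆
      convexHull ℝ (insert q (Set.range v)) := by
    refine Set.union_subset (convexHull_mono (Set.subset_insert _ _)) (convexHull_mono ?_)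
    intro z hz
    simp only [Set.mem_insert_iff, Set.mem_singleton_iff] at hz
    rcases hz with rfl | rfl | rfl
    · exact Set.mem_insert_of_mem _ ⟨ia, hia⟩
    · exact Set.mem_insert_of_mem _ ⟨ib, hib⟩
    · exact Set.mem_insert _ _
  have hle := measure_mono (μ := volume) hsub
  rw [hun, hA1] at hle
  have hTpos : 0 < |orient a b q| / 2 := by
    rw [hqor]
    have : 0 < |-(L / 8) * L ^ 2| := abs_pos.mpr (by
      have := pow_pos hL0 3
      nlinarith)
    linarith
  unfold hArea
  have hUfin := hUc.measure_lt_top (μ := (volume : Measure ℂ))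
  have hKfin := hKc.measure_lt_top (μ := (volume : Measure ℂ))
  have h1 := ENNReal.toReal_mono hUfin.ne hle
  rw [ENNReal.toReal_add hKfin.ne ENNReal.ofReal_ne_top, ENNReal.toReal_ofReal hTpos.le] at h1
  linarith

end Pool.Agent.Lib.MP_97284c_gt
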