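import Pool.Agent.Lib.MP_97284c_gt.StmA

/-! [A7] The supremum is a maximum. -/

open MeasureTheory

namespace Pool.Agent.Lib.MP_97284c_gt

/-- extension of a finite sequence by zero -/
noncomputable def p_A7_ext (n : ℕ) (y : Fin n → ℂ) (i : ℕ) : ℂ := if h : i < n then y ⟨i, h⟩ else 0

theorem p_A7_ext_of {n : ℕ} (y : Fin n → ℂ) {i : ℕ} (h : i < n) : p_A7_ext n y i = y ⟨i, h⟩ := by
  unfold p_A7_ext
  rw [dif_pos h]

theorem p_A7_pts (n : ℕ) (y : Fin n → ℂ) : pts n (p_A7_ext n y) = Set.range y := by
  ext z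
  constructor
  · rintro ⟨i, hi, rfl⟩
    exact ⟨⟨i, hi⟩, (p_A7_ext_of y hi).symm⟩
  · rintro ⟨i, rfl⟩
    exact ⟨i, i.2, (p_A7_ext_of y i.2).symm⟩

theorem p_A7_cont_ext (n i : ℕ) : Continuous (fun y : Fin n → ℂ => p_A7_ext n y i) := by
  unfold p_A7_ext
  split_ifs with h
  · exact continuous_apply _
  · exact continuous_const

theorem p_A7_cont_orient {X : Type*} [TopologicalSpace X] {a b c : X → ℂ} (ha : Continuous a)
    (hb : Continuous b) (hc : Continuous c) : Continuous (fun x => orient (a x) (b x) (c x)) := by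
  unfold orient cr
  have h1 : ∀ {f : X → ℂ}, Continuous f → Continuous (fun x => (f x).re) :=
    fun hf => Complex.continuous_re.comp hf
  have h2 : ∀ {f : X → ℂ}, Continuous f → Continuous (fun x => (f x).im) :=
    fun hf => Complex.continuous_im.comp hf
  exact ((h1 (hb.sub ha)).mul (h2 (hc.sub ha))).sub ((h2 (hb.sub ha)).mul (h1 (hc.sub ha)))

theorem p_A7_fan_trans (n : ℕ) (y : ℕ → ℂ) (c : ℂ) : fan n (fun i => y i - c) = fan n y := by
  unfold fan orient
  congr 1
  refine Finset.sum_congr rfl fun j _ => ?_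
  rw [sub_sub_sub_cancel_right, sub_sub_sub_cancel_right]

theorem p_A7_fan_congr {n : ℕ} {y z : ℕ → ℂ} (hn : 1 ≤ n) (h : ∀ i < n, y i = z i) :
    fan n y = fan n z := by
  unfold fan
  congr 1
  refine Finset.sum_congr rfl fun j hj => ?_
  rw [Finset.mem_range] at hj
  rw [h 0 (by omega), h j (by omega), h (j + 1) (by omega)]

theorem p_A7 (hA4 : S_A4) (hA5 : S_A5) : S_A7 := by
  intro n hn
  set C : Set (Fin n → ℂ) := {y | y ⟨0, hn⟩ = 0 ∧ (∀ i j, dist (y i) (y j) ≤ 1) ∧
    ∀ i j k : Fin n, i < j → j < k → 0 ≤ orient (y i) (y j) (y k)} with hC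
  have hclosed : IsClosed C := by
    have e : C = {y | y ⟨0, hn⟩ = 0} ∩ ({y | ∀ i j, dist (y i) (y j) ≤ 1} ∩
        {y | ∀ i j k : Fin n, i < j → j < k → 0 ≤ orient (y i) (y j) (y k)}) := rfl
    rw [e]
    refine IsClosed.inter (isClosed_eq (continuous_apply _) continuous_const)
      (IsClosed.inter ?_ ?_)
    · have e2 : {y : Fin n → ℂ | ∀ i j, dist (y i) (y j) ≤ 1} =
          ⋂ i, ⋂ j, {y : Fin n → ℂ | dist (y i) (y j) ≤ 1} := by
        ext y; simp
      rw [e2]
      exact isClosed_iInter fun i => isClosed_iInter fun j =>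
        isClosed_le ((continuous_apply i).dist (continuous_apply j)) continuous_const
    · have e2 : {y : Fin n → ℂ | ∀ i j k : Fin n, i < j → j < k → 0 ≤ orient (y i) (y j) (y k)} =
          ⋂ i, ⋂ j, ⋂ k, {y : Fin n → ℂ | i < j → j < k → 0 ≤ orient (y i) (y j) (y k)} := by
        ext y; simp
      rw [e2]
      refine isClosed_iInter fun i => isClosed_iInter fun j => isClosed_iInter fun k => ?_
      by_cases h1 : i < j
      · by_cases h2 : j < k
        · have e3 : {y : Fin n → ℂ | i < j → j < k → 0 ≤ orient (y i) (y j) (y k)} =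
              {y : Fin n → ℂ | 0 ≤ orient (y i) (y j) (y k)} := by
            ext y
            exact ⟨fun h => h h1 h2, fun h _ _ => h⟩
          rw [e3]
          exact isClosed_le continuous_const
            (p_A7_cont_orient (continuous_apply i) (continuous_apply j) (continuous_apply k))
        · have e3 : {y : Fin n → ℂ | i < j → j < k → 0 ≤ orient (y i) (y j) (y k)} =
              Set.univ := by
            ext y
            exact ⟨fun _ => Set.mem_univ _, fun _ _ h => absurd h h2⟩
          rw [e3]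
          exact isClosed_univ
      · have e3 : {y : Fin n → ℂ | i < j → j < k → 0 ≤ orient (y i) (y j) (y k)} =
            Set.univ := by
          ext y
          exact ⟨fun _ => Set.mem_univ _, fun _ h _ => absurd h h1⟩
        rw [e3]
        exact isClosed_univ
  have hbdd : C ⊆ Metric.closedBall 0 1 := by
    intro y hy
    rw [Metric.mem_closedBall, dist_pi_le_iff zero_le_one]
    intro i
    have := hy.2.1 i ⟨0, hn⟩
    rwa [hy.1] at this
  have hcomp : IsCompact C := (isCompact_closedBall (0 : Fin n → ℂ) 1).of_isClosed_subset hclosed hbdd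
  have hne : C.Nonempty := ⟨fun _ => 0, rfl, fun i j => by rw [dist_self]; exact zero_le_one,
    fun i j k _ _ => by unfold orient cr; simp⟩
  have hFc : Continuous (fun y : Fin n → ℂ => fan n (p_A7_ext n y)) := by
    unfold fan
    refine Continuous.div_const (continuous_finsetSum _ fun j _ => ?_) _
    exact p_A7_cont_orient (p_A7_cont_ext n 0) (p_A7_cont_ext n j) (p_A7_cont_ext n (j + 1))
  obtain ⟨ys, hys, hmax⟩ := hcomp.exists_isMaxOn hne hFc.continuousOn
  -- the value of `F` on `C`
  have hval : ∀ y ∈ C, hArea (Set.range y) = fan n (p_A7_ext n y) := by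
    intro y hy
    rw [← p_A7_pts]
    refine hA4 n _ hn fun i j k hij hjk hk => ?_
    rw [p_A7_ext_of y (show i < n by omega), p_A7_ext_of y (show j < n by omega), p_A7_ext_of y hk]
    exact hy.2.2 _ _ _ hij hjk
  -- every small configuration
  have hle : ∀ v : Fin n → ℂ, (∀ i j, dist (v i) (v j) ≤ 1) →
      hArea (Set.range v) ≤ hArea (Set.range ys) := by
    intro v hv
    obtain ⟨y, hy1, hy2, hy3, -⟩ := hA5 n v hn
    set y' : Fin n → ℂ := fun i => y i - y 0 with hy'
    have hy'C : y' ∈ C := by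
      refine ⟨?_, ?_, ?_⟩
      · rw [hy']
        exact sub_self _
      · intro i j
        obtain ⟨a, ha⟩ := hy2 i i.2
        obtain ⟨b, hb⟩ := hy2 j j.2
        rw [hy']
        simp only [dist_sub_right]
        rw [← ha, ← hb]
        exact hv a b
      · intro i j k hij hjk
        have h1 := hy1 i j k hij hjk k.2
        rw [hy']
        unfold orient at h1 ⊢
        simp only [sub_sub_sub_cancel_right]
        exact h1
    have e1 : hArea (Set.range v) = hArea (pts n y) := by
      unfold hArea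
      rw [hy3]
    have e2 : fan n (p_A7_ext n y') = fan n y := by
      rw [← p_A7_fan_trans n y (y 0)]
      refine p_A7_fan_congr hn fun i hi => ?_
      rw [p_A7_ext_of y' hi]
    rw [e1, hA4 n y hn hy1, ← e2, hval ys hys]
    exact hmax hy'C
  have hgreat : IsGreatest {A : ℝ | ∃ v : Fin n → ℂ, (∀ i j, dist (v i) (v j) ≤ 1) ∧
      A = hArea (Set.range v)} (hArea (Set.range ys)) := by
    refine ⟨⟨ys, hys.2.1, rfl⟩, ?_⟩
    rintro A ⟨v, hv, rfl⟩
    exact hle v hv
  have hs : smallArea n = hArea (Set.range ys) := hgreat.csSup_eq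
  rw [hs]
  exact ⟨⟨ys, hys.2.1, rfl⟩, hle⟩

end Pool.Agent.Lib.MP_97284c_gt
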