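import Pool.Agent.Lib.MP_97284c_gt.StmA

open MeasureTheory

namespace Pool.Agent.Lib.MP_97284c_gt

private theorem p_A8_wbtw (a b c : ℂ) (h : orient a b c = 0) :
    Wbtw ℝ a b c ∨ Wbtw ℝ b c a ∨ Wbtw ℝ c a b := by
  apply Collinear.wbtw_or_wbtw_or_wbtw
  by_cases hab : b = a
  · subst hab
    simp only [Set.insert_eq_of_mem (Set.mem_insert _ _)]
    exact collinear_pair ℝ _ _
  · rw [collinear_iff_of_mem (p₀ := a) (by simp)]
    have hne : ‖b - a‖ ^ 2 ≠ 0 := by
      have : ‖b - a‖ ≠ 0 := norm_ne_zero_iff.mpr (sub_ne_zero.mpr hab)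
      positivity
    refine ⟨b - a, ?_⟩
    rintro p (rfl | rfl | hp)
    · exact ⟨0, by simp⟩
    · exact ⟨1, by simp⟩
    · rw [Set.mem_singleton_iff] at hp
      subst hp
      refine ⟨dt (b - a) (p - a) / ‖b - a‖ ^ 2, ?_⟩
      have hcr : (b - a).re * (p - a).im - (b - a).im * (p - a).re = 0 := h
      have hn : ‖b - a‖ ^ 2 = (b - a).re * (b - a).re + (b - a).im * (b - a).im := by
        rw [← dt_self]; rfl
      rw [vadd_eq_add]
      have key : p - a = (dt (b - a) (p - a) / ‖b - a‖ ^ 2) • (b - a) := by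
        apply Complex.ext
        · rw [Complex.smul_re, smul_eq_mul, div_mul_eq_mul_div, eq_div_iff hne, hn]
          unfold dt
          linear_combination (-(b - a).im) * hcr
        · rw [Complex.smul_im, smul_eq_mul, div_mul_eq_mul_div, eq_div_iff hne, hn]
          unfold dt
          linear_combination ((b - a).re) * hcr
      rw [← key]
      ring

private theorem p_A8_core (hA6 : S_A6) (hA7 : S_A7) (hApos : S_Apos) (n : ℕ) (v : Fin n → ℂ)
    (hn : 3 ≤ n) (hs : ∀ i j, dist (v i) (v j) ≤ 1) (hmax : hArea (Set.range v) = smallArea n)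
    (i j k : Fin n) (hik : i ≠ k) (hjk : j ≠ k) (hw : Wbtw ℝ (v i) (v k) (v j)) : False := by
  set v' := Function.update v k (v i) with hv'
  have hvk : v' k = v i := Function.update_self _ _ _
  have hvl : ∀ l, l ≠ k → v' l = v l := fun l hl => Function.update_of_ne hl _ _
  have hr : ∀ l, ∃ l', v' l = v l' := by
    intro l
    by_cases hl : l = k
    · exact ⟨i, by rw [hl, hvk]⟩
    · exact ⟨l, hvl l hl⟩
  have hs' : ∀ a b, dist (v' a) (v' b) ≤ 1 := by
    intro a b
    obtain ⟨a', ha⟩ := hr a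
    obtain ⟨b', hb⟩ := hr b
    rw [ha, hb]
    exact hs a' b'
  have hhull : convexHull ℝ (Set.range v') = convexHull ℝ (Set.range v) := by
    apply subset_antisymm
    · apply convexHull_mono
      rintro _ ⟨l, rfl⟩
      obtain ⟨l', hl'⟩ := hr l
      exact ⟨l', hl'.symm⟩
    · apply convexHull_min _ (convex_convexHull ℝ _)
      rintro _ ⟨l, rfl⟩
      by_cases hl : l = k
      · subst hl
        have h1 : v i ∈ convexHull ℝ (Set.range v') :=
          subset_convexHull ℝ _ ⟨i, hvl i hik⟩
        have h2 : v j ∈ convexHull ℝ (Set.range v') :=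
          subset_convexHull ℝ _ ⟨j, hvl j hjk⟩
        exact (convex_convexHull ℝ _).segment_subset h1 h2 (mem_segment_iff_wbtw.mpr hw)
      · exact subset_convexHull ℝ _ ⟨l, hvl l hl⟩
  have hA : hArea (Set.range v') = smallArea n := by
    rw [← hmax]
    unfold hArea
    rw [hhull]
  have hpos : 0 < hArea (Set.range v') := by rw [hA]; exact hApos n hn
  obtain ⟨q, hq, hlt⟩ := hA6 n v' (by omega) hs' hpos
  set v'' := Function.update v' k q with hv''
  have hvk' : v'' k = q := Function.update_self _ _ _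
  have hvl' : ∀ l, l ≠ k → v'' l = v' l := fun l hl => Function.update_of_ne hl _ _
  have hs'' : ∀ a b, dist (v'' a) (v'' b) ≤ 1 := by
    intro a b
    by_cases ha : a = k
    · by_cases hb : b = k
      · rw [ha, hb, dist_self]; exact zero_le_one
      · rw [ha, hvk', hvl' b hb]; exact hq b
    · by_cases hb : b = k
      · rw [hb, hvk', hvl' a ha, dist_comm]; exact hq a
      · rw [hvl' a ha, hvl' b hb]; exact hs' a b
  have hrange : Set.range v'' = insert q (Set.range v') := by
    ext z
    constructor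
    · rintro ⟨l, rfl⟩
      by_cases hl : l = k
      · rw [hl, hvk']; exact Set.mem_insert _ _
      · rw [hvl' l hl]; exact Set.mem_insert_of_mem _ ⟨l, rfl⟩
    · rintro (rfl | ⟨l, rfl⟩)
      · exact ⟨k, hvk'⟩
      · by_cases hl : l = k
        · exact ⟨i, by rw [hvl' i hik, hvl i hik, hl, hvk]⟩
        · exact ⟨l, hvl' l hl⟩
  have h1 := (hA7 n (by omega)).2 v'' hs''
  rw [hrange] at h1
  rw [hA] at hlt
  linarith

theorem p_A8 (hA6 : S_A6) (hA7 : S_A7) (hApos : S_Apos) : S_A8 := by
  intro n v hn hs hmax i j k hij hjk hik h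
  rcases p_A8_wbtw _ _ _ h with hw | hw | hw
  · exact p_A8_core hA6 hA7 hApos n v hn hs hmax i k j hij hjk.symm hw
  · exact p_A8_core hA6 hA7 hApos n v hn hs hmax j i k hjk hik hw
  · exact p_A8_core hA6 hA7 hApos n v hn hs hmax k j i hik.symm hij.symm hw

end Pool.Agent.Lib.MP_97284c_gt
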