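import Pool.Agent.Lib.MP_97284c_gt.StmA

/-! [A9] Optimal periodic sequences exist and have the maximal area. -/

open MeasureTheory

namespace Pool.Agent.Lib.MP_97284c_gt

/-- the periodic extension -/
noncomputable def p_A9_z (n : ℕ) (y : ℕ → ℂ) (k : ℤ) : ℂ := y (k % (n : ℤ)).toNat

theorem p_A9_z_per (n : ℕ) (y : ℕ → ℂ) (k t : ℤ) : p_A9_z n y (k + n * t) = p_A9_z n y k := by
  unfold p_A9_z
  rw [Int.add_mul_emod_self_left]

theorem p_A9_z_nat {n : ℕ} (y : ℕ → ℂ) {i : ℕ} (hi : i < n) : p_A9_z n y i = y i := by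
  unfold p_A9_z
  rw [Int.emod_eq_of_lt (by omega) (by omega)]
  rfl

theorem p_A9_z_add {n : ℕ} (y : ℕ → ℂ) {i : ℕ} (hi : i < n) :
    p_A9_z n y ((i : ℤ) + n) = y i := by
  have := p_A9_z_per n y i 1
  rw [mul_one] at this
  rw [this, p_A9_z_nat y hi]

theorem p_A9_cvxw {n : ℕ} {y : ℕ → ℂ} (hn : 1 ≤ n) (hy : WCvx n y) : CvxW n (p_A9_z n y) := by
  intro i j k hij hjk hki
  have hn0 : (0 : ℤ) < n := by omega
  obtain ⟨t, ht⟩ : ∃ t, t = i / (n : ℤ) := ⟨_, rfl⟩
  have h1 := Int.emod_add_mul_ediv i n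
  have h2 := Int.emod_nonneg i hn0.ne'
  have h3 := Int.emod_lt_of_pos i hn0
  rw [← ht] at h1
  obtain ⟨I, hI⟩ : ∃ I : ℕ, i % (n : ℤ) = I := ⟨(i % (n : ℤ)).toNat, by omega⟩
  rw [hI] at h1 h2 h3
  obtain ⟨J, hJ⟩ : ∃ J : ℕ, j = J + n * t := ⟨(j - n * t).toNat, by
    have : 0 ≤ j - n * t := by linarith
    omega⟩
  obtain ⟨K, hK⟩ : ∃ K : ℕ, k = K + n * t := ⟨(k - n * t).toNat, by
    have : 0 ≤ k - n * t := by linarith
    omega⟩
  rw [← h1, hJ, hK, p_A9_z_per, p_A9_z_per, p_A9_z_per]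
  have hIJ : I < J := by
    have : (I : ℤ) < J := by linarith
    exact_mod_cast this
  have hJK : J < K := by
    have : (J : ℤ) < K := by linarith
    exact_mod_cast this
  have hKI : K < I + n := by
    have : (K : ℤ) < I + n := by linarith
    exact_mod_cast this
  have hIn : I < n := by exact_mod_cast h3
  rw [p_A9_z_nat y hIn]
  rcases Nat.lt_or_ge K n with hKn | hKn
  · rw [p_A9_z_nat y (show J < n by omega), p_A9_z_nat y hKn]
    exact hy I J K hIJ hJK hKn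
  · obtain ⟨K', rfl⟩ : ∃ K', K = K' + n := ⟨K - n, by omega⟩
    have eK : p_A9_z n y (((K' + n : ℕ)) : ℤ) = y K' := by
      rw [Nat.cast_add]
      exact p_A9_z_add y (by omega)
    rw [eK]
    rcases Nat.lt_or_ge J n with hJn | hJn
    · rw [p_A9_z_nat y hJn, orient_rot (y K')]
      exact hy K' I J (by omega) hIJ hJn
    · obtain ⟨J', rfl⟩ : ∃ J', J = J' + n := ⟨J - n, by omega⟩
      have eJ : p_A9_z n y (((J' + n : ℕ)) : ℤ) = y J' := by
        rw [Nat.cast_add]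
        exact p_A9_z_add y (by omega)
      rw [eJ, ← orient_rot]
      exact hy J' K' I (by omega) (by omega) hIn

theorem p_A9 (hA4 : S_A4) (hA4b : S_A4b) (hA4c : S_A4c) (hA5 : S_A5) (hA7 : S_A7)
    (hA10 : S_A10) : S_A9 := by
  intro n hn
  have hn1 : 1 ≤ n := by omega
  -- upper bound
  have hub : ∀ z : ℤ → ℂ, Per n z → Cvx n z → Small z → sh n z ≤ smallArea n := by
    intro z h1 h2 h3
    rw [← hA4c n z hn1 h1 fun i j k a b c => (h2 i j k a b c).le]
    refine (hA7 n hn1).2 (fun i : Fin n => z i) fun i j => ?_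
    rw [dist_eq_norm]
    exact h3 _ _
  -- existence
  obtain ⟨v, hv, hvA⟩ := (hA7 n hn1).1
  obtain ⟨y, hy1, hy2, hy3, -⟩ := hA5 n v hn1
  have hper : Per n (p_A9_z n y) := by
    intro k
    have := p_A9_z_per n y k 1
    rwa [mul_one] at this
  have hcw : CvxW n (p_A9_z n y) := p_A9_cvxw hn1 hy1
  have hsmall : Small (p_A9_z n y) := by
    intro i j
    have hlt : ∀ i : ℤ, (i % (n : ℤ)).toNat < n := by
      intro i
      have h1 := Int.emod_nonneg i (show (n : ℤ) ≠ 0 by omega)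
      have h2 := Int.emod_lt_of_pos i (show (0 : ℤ) < n by omega)
      omega
    obtain ⟨a, ha⟩ := hy2 _ (hlt i)
    obtain ⟨b, hb⟩ := hy2 _ (hlt j)
    unfold p_A9_z
    rw [← ha, ← hb, ← dist_eq_norm]
    exact hv a b
  have harea : sh n (p_A9_z n y) = smallArea n := by
    rw [← hA4b n _ hn1 hper, ← hvA]
    have e1 : hArea (Set.range v) = hArea (pts n y) := by
      unfold hArea
      rw [hy3]
    rw [e1, hA4 n y hn1 hy1]
    unfold fan
    congr 1
    refine Finset.sum_congr rfl fun j hj => ?_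
    rw [Finset.mem_range] at hj
    show orient (p_A9_z n y ((0 : ℕ) : ℤ)) (p_A9_z n y ((j : ℕ) : ℤ))
      (p_A9_z n y ((j + 1 : ℕ) : ℤ)) = _
    rw [p_A9_z_nat y (show 0 < n by omega), p_A9_z_nat y (show j < n by omega),
      p_A9_z_nat y (show j + 1 < n by omega)]
  have hopt : Opt n (p_A9_z n y) := by
    refine ⟨hper, hA10 n _ hn hper hcw hsmall harea, hsmall, fun z h1 h2 h3 => ?_⟩
    rw [harea]
    exact hub z h1 h2 h3
  refine ⟨⟨_, hopt⟩, fun w hw => le_antisymm (hub w hw.1 hw.2.1 hw.2.2.1) ?_⟩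
  rw [← harea]
  exact hw.2.2.2 _ hopt.1 hopt.2.1 hopt.2.2.1

end Pool.Agent.Lib.MP_97284c_gt
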