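import Pool.Agent.Lib.MP_97284c_gt.StmA

open MeasureTheory

namespace Pool.Agent.Lib.MP_97284c_gt

theorem p_Apos (hA1 : S_A1) (hA7 : S_A7) : S_Apos := by
  intro n hn
  set w : ℂ := ⟨1 / 2, Real.sqrt 3 / 2⟩ with hw
  have h3 : Real.sqrt 3 ^ 2 = 3 := Real.sq_sqrt (by norm_num)
  have h3p : 0 < Real.sqrt 3 := Real.sqrt_pos.2 (by norm_num)
  let v : Fin n → ℂ := fun i => if i.val = 0 then 0 else if i.val = 1 then 1 else w
  have nw : ‖w‖ ≤ 1 := by
    have : ‖w‖ ^ 2 = 1 := by
      rw [← Complex.normSq_eq_norm_sq, Complex.normSq_apply, hw]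
      simp only
      nlinarith
    nlinarith [norm_nonneg w]
  have nw1 : ‖(1 : ℂ) - w‖ ≤ 1 := by
    have : ‖(1 : ℂ) - w‖ ^ 2 = 1 := by
      rw [← Complex.normSq_eq_norm_sq, Complex.normSq_apply, hw]
      simp only [Complex.sub_re, Complex.sub_im, Complex.one_re, Complex.one_im]
      nlinarith
    nlinarith [norm_nonneg ((1 : ℂ) - w)]
  have nw2 : ‖w - 1‖ ≤ 1 := by rw [norm_sub_rev]; exact nw1
  have hsm : ∀ i j, dist (v i) (v j) ≤ 1 := by
    intro i j
    rw [dist_eq_norm]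
    simp only [v]
    split_ifs <;> simp [nw, nw1, nw2]
  have hr : Set.range v = ({0, 1, w} : Set ℂ) := by
    apply Set.eq_of_subset_of_subset
    · rintro _ ⟨i, rfl⟩
      simp only [v]
      split_ifs <;> simp
    · rintro z hz
      simp only [Set.mem_insert_iff, Set.mem_singleton_iff] at hz
      rcases hz with rfl | rfl | rfl
      · exact ⟨⟨0, by omega⟩, by simp [v]⟩
      · exact ⟨⟨1, by omega⟩, by simp [v]⟩
      · exact ⟨⟨2, by omega⟩, by simp [v]⟩
  have ho : orient 0 1 w = Real.sqrt 3 / 2 := by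
    unfold orient cr
    rw [hw]
    simp
  have hA : hArea (Set.range v) = Real.sqrt 3 / 4 := by
    unfold hArea
    rw [hr, hA1, ho, ENNReal.toReal_ofReal (by positivity), abs_of_pos (by positivity)]
    ring
  have := (hA7 n (by omega)).2 v hsm
  rw [hA] at this
  have : 0 < Real.sqrt 3 / 4 := by positivity
  linarith

end Pool.Agent.Lib.MP_97284c_gt
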