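import Pool.Agent.Lib.MP_97284c_gt.StmC

open MeasureTheory

namespace Pool.Agent.Lib.MP_97284c_gt

theorem p_C0 : S_C0 := by
  intro a b c d hC hB hD hA
  set A := orient d a b with hAd
  set B := orient b c d with hBd
  set C := orient a b c with hCd
  set D := orient c d a with hDd
  have hS : A + B = C + D := by
    rw [hAd, hBd, hCd, hDd]
    simp only [orient_eq, cr]
    ring
  have hSp : 0 < A + B := by positivity
  have hS' : A + B ≠ 0 := hSp.ne'
  set s : ℝ := A / (A + B) with hs
  set t : ℝ := C / (A + B) with ht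
  have hs0 : 0 < s := div_pos hA hSp
  have hs1 : s < 1 := by
    rw [hs, div_lt_one hSp]
    linarith
  have ht0 : 0 < t := div_pos hC hSp
  have ht1 : t < 1 := by
    rw [ht, div_lt_one hSp]
    linarith
  set x : ℂ := a + (s : ℂ) * (c - a) with hx
  have hx2 : x = b + (t : ℂ) * (d - b) := by
    have e1 : (A + B) * (a.re - b.re) + A * (c.re - a.re) - C * (d.re - b.re) = 0 := by
      rw [hAd, hBd, hCd]
      simp only [orient_eq, cr]
      ring
    have e2 : (A + B) * (a.im - b.im) + A * (c.im - a.im) - C * (d.im - b.im) = 0 := by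
      rw [hAd, hBd, hCd]
      simp only [orient_eq, cr]
      ring
    rw [hx]
    apply Complex.ext
    · simp only [Complex.add_re, Complex.mul_re, Complex.ofReal_re, Complex.ofReal_im,
        Complex.sub_re, zero_mul, sub_zero, hs, ht]
      field_simp
      linarith
    · simp only [Complex.add_im, Complex.mul_im, Complex.ofReal_re, Complex.ofReal_im,
        Complex.sub_im, zero_mul, add_zero, hs, ht]
      field_simp
      linarith
  have h1 : ‖a - c‖ = ‖a - x‖ + ‖x - c‖ := by
    have e1 : a - x = ((-s : ℝ) : ℂ) * (c - a) := by rw [hx]; push_cast; ring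
    have e2 : x - c = ((1 - s : ℝ) : ℂ) * (a - c) := by rw [hx]; push_cast; ring
    rw [e1, e2, norm_mul, norm_mul, Complex.norm_real, Complex.norm_real, norm_neg,
      Real.norm_of_nonneg hs0.le, Real.norm_of_nonneg (by linarith), norm_sub_rev c a]
    ring
  have h2 : ‖b - d‖ = ‖b - x‖ + ‖x - d‖ := by
    have e1 : b - x = ((-t : ℝ) : ℂ) * (d - b) := by rw [hx2]; push_cast; ring
    have e2 : x - d = ((1 - t : ℝ) : ℂ) * (b - d) := by rw [hx2]; push_cast; ring
    rw [e1, e2, norm_mul, norm_mul, Complex.norm_real, Complex.norm_real, norm_neg,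
      Real.norm_of_nonneg ht0.le, Real.norm_of_nonneg (by linarith), norm_sub_rev d b]
    ring
  have h3 : ‖c - d‖ ≤ ‖x - c‖ + ‖x - d‖ := by
    have := norm_sub_le_norm_sub_add_norm_sub c x d
    rwa [norm_sub_rev c x] at this
  have h4 : ‖a - b‖ < ‖a - x‖ + ‖b - x‖ := by
    have h5 : ‖a - b‖ ≤ ‖a - x‖ + ‖b - x‖ := by
      have := norm_sub_le_norm_sub_add_norm_sub a x b
      rwa [norm_sub_rev x b] at this
    refine lt_of_le_of_ne h5 fun heq => ?_
    have hw : dist a x + dist x b = dist a b := by
      rw [dist_eq_norm, dist_eq_norm, dist_eq_norm, heq, norm_sub_rev x b]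
    have hw2 : Wbtw ℝ a x b := dist_add_dist_eq_iff.1 hw
    obtain ⟨r, -, hr⟩ := hw2
    rw [AffineMap.lineMap_apply] at hr
    have hr' : x = a + (r : ℂ) * (b - a) := by
      rw [← hr]
      simp
      ring
    have o1 : orient a b x = 0 := by
      rw [hr']
      unfold orient cr
      simp
      ring
    have o2 : orient a b x = s * C := by
      rw [hx, hCd]
      unfold orient cr
      simp
      ring
    rw [o1] at o2
    have : 0 < s * C := mul_pos hs0 hC
    linarith
  rw [h1, h2]
  linarith

end Pool.Agent.Lib.MP_97284c_gt
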