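import Pool.Agent.Lib.MP_97284c_gt.StmC

/-! Piece C1: no nested unit pairs. -/

namespace Pool.Agent.Lib.MP_97284c_gt

theorem p_C1 (hC0 : S_C0) : S_C1 := by
  intro n y hP hC hS i j i' j' h1 h2 h3 h4
  obtain ⟨h1a, h1b, h1c⟩ := h1
  obtain ⟨h2a, h2b, h2c⟩ := h2
  have a1 : 0 < orient (y i') (y j') (y j) := hC i' j' j h2a h4 (by omega)
  have a2 : 0 < orient (y j') (y j) (y i) := by
    rw [orient_rot]
    exact hC i j' j (by omega) h4 h1b
  have a3 : 0 < orient (y j) (y i) (y i') := by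
    rw [← orient_rot]
    exact hC i i' j h3 (by omega) h1b
  have a4 : 0 < orient (y i) (y i') (y j') := hC i i' j' h3 h2a (by omega)
  have h5 := hC0 (y i') (y j') (y j) (y i) a1 a2 a3 a4
  rw [h2c, norm_sub_rev (y j) (y i), h1c] at h5
  have h6 := hS i' j
  have h7 := hS j' i
  linarith

end Pool.Agent.Lib.MP_97284c_gt
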