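import Pool.Agent.Lib.MP_97284c_gt.StmC

/-! Piece C2: at most one unit pair per class. -/

namespace Pool.Agent.Lib.MP_97284c_gt

theorem p_C2 (hC1 : S_C1) : S_C2 := by
  intro n y hP hC hS i j i' j' h1 h2 h3
  rcases lt_trichotomy i i' with h | h | h
  · exact (hC1 n y hP hC hS i j i' j' h1 h2 h (by omega)).elim
  · exact ⟨h, by omega⟩
  · exact (hC1 n y hP hC hS i' j' i j h2 h1 h (by omega)).elim

end Pool.Agent.Lib.MP_97284c_gt
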