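import Pool.Agent.Lib.MP_97284c_gt.StmC

/-! Piece C3: unit pairs of consecutive classes share an end. -/

namespace Pool.Agent.Lib.MP_97284c_gt

theorem p_C3 (hC1 : S_C1) : S_C3 := by
  intro n y hP hC hS i j i' j' h1 h2 h3
  by_cases ha : i + 2 ≤ i'
  · exact (hC1 n y hP hC hS i j i' j' h1 h2 (by omega) (by omega)).elim
  by_cases hb : i' < i
  · exact (hC1 n y hP hC hS i' j' i j h2 h1 (by omega) (by omega)).elim
  have hc : i' = i ∨ i' = i + 1 := by omega
  rcases hc with hc | hc
  · left; exact ⟨hc, by omega⟩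
  · right; exact ⟨hc, by omega⟩

end Pool.Agent.Lib.MP_97284c_gt
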