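import Pool.Agent.Lib.MP_97284c_gt.StmC

/-! [C3b] Across an empty class both ends move. -/

namespace Pool.Agent.Lib.MP_97284c_gt

theorem p_C3b (hC1 : S_C1) (hC4 : S_C4) (hUPs : S_UPs) : S_C3b := by
  intro n y hn hopt i j i' j' hij hij' hsum hocc
  obtain ⟨hper, hcvx, hsmall, -⟩ := id hopt
  have C1 := hC1 n y hper hcvx hsmall
  obtain ⟨-, hU2, -, -⟩ := hUPs n y hper
  have hcases : i' < i ∨ i' = i ∨ i' = i + 1 ∨ i' = i + 2 ∨ i + 2 < i' := by omega
  rcases hcases with h | h | h | h | h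
  · exact (C1 i' j' i j hij' hij h (by omega)).elim
  · exfalso
    obtain ⟨w, hw⟩ := hC4 n y hn hopt (j + 1)
    have hw' := hU2 _ _ hw
    rcases lt_trichotomy (w - n) i with h1 | h1 | h1
    · exact C1 _ _ _ _ hw' hij h1 (by omega)
    · exact hocc ⟨w - n, j + 1, by omega, hw'⟩
    · exact C1 _ _ _ _ hij' hw' (by omega) (by omega)
  · exact ⟨h, by omega⟩
  · exfalso
    obtain ⟨w, hw⟩ := hC4 n y hn hopt (i + 1)
    rcases lt_trichotomy w j with h1 | h1 | h1
    · exact C1 _ _ _ _ hij hw (by omega) h1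
    · exact hocc ⟨i + 1, w, by omega, hw⟩
    · exact C1 _ _ _ _ hw hij' (by omega) (by omega)
  · exact (C1 i j i' j' hij hij' (by omega) (by omega)).elim

end Pool.Agent.Lib.MP_97284c_gt
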