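import Pool.Agent.Lib.MP_97284c_gt.StmC

open MeasureTheory

namespace Pool.Agent.Lib.MP_97284c_gt

theorem p_C4 (hP1 : S_P1) (hP2 : S_P2) (hUPs : S_UPs) : S_C4 := by
  intro n y hn hopt k
  by_contra hne
  push Not at hne
  have hopt' := hopt
  obtain ⟨hper, hcvx, hsmall, -⟩ := hopt
  obtain ⟨u1, -, u3, -⟩ := hUPs n y hper
  have hz : ∀ i j : ℤ, UP n y i j → ¬ ((n : ℤ) ∣ i - k) ∧ ¬ ((n : ℤ) ∣ j - k) := by
    intro i j hij
    constructor
    · rintro ⟨t, ht⟩
      have h := u3 i j (-t) hij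
      have e : i + -t * (n : ℤ) = k := by linarith [mul_comm (n : ℤ) t]
      rw [e] at h
      exact hne _ h
    · rintro ⟨t, ht⟩
      have h := u3 j (i + n) (-t) (u1 i j hij)
      have e : j + -t * (n : ℤ) = k := by linarith [mul_comm (n : ℤ) t]
      rw [e] at h
      exact hne _ h
  have key : ∀ ξ : ℂ, cr ξ (y (k + 1) - y (k - 1)) ≤ 0 := by
    intro ξ
    have hηper : Per n (fun j => if (n : ℤ) ∣ j - k then ξ else 0) := by
      intro j
      have e : (n : ℤ) ∣ (j + n) - k ↔ (n : ℤ) ∣ j - k := by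
        rw [show (j + (n : ℤ)) - k = (j - k) + n by ring]
        exact dvd_add_self_right
      simp only [e]
    have h1 := hP1 n y _ (by omega) hopt' hηper (by
      intro i j hij
      obtain ⟨a, b⟩ := hz i j hij
      simp only [a, b, if_false, sub_self]
      simp [dt])
    rw [hP2 n y k ξ hn hper] at h1
    linarith
  have h2 := key ⟨(y (k + 1) - y (k - 1)).im, -(y (k + 1) - y (k - 1)).re⟩
  have h3 : (y (k + 1) - y (k - 1)).im = 0 ∧ (y (k + 1) - y (k - 1)).re = 0 := by
    unfold cr at h2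
    simp only at h2
    constructor <;> nlinarith [sq_nonneg (y (k + 1) - y (k - 1)).im, sq_nonneg (y (k + 1) - y (k - 1)).re]
  have h4 : y (k + 1) = y (k - 1) := by
    rw [← sub_eq_zero]
    exact Complex.ext h3.2 h3.1
  have h5 := hcvx (k - 1) k (k + 1) (by linarith) (by linarith) (by
    have : (3 : ℤ) ≤ n := by exact_mod_cast hn
    linarith)
  rw [h4] at h5
  unfold orient cr at h5
  simp at h5

end Pool.Agent.Lib.MP_97284c_gt
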