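import Pool.Agent.Lib.MP_97284c_gt.StmA
import Pool.Agent.Lib.MP_97284c_gt.StmC

open MeasureTheory

namespace Pool.Agent.Lib.MP_97284c_gt

open Classical in
private noncomputable def p_C5_c (n : ℕ) (y : ℤ → ℂ) : ℕ :=
  ((Finset.range n).filter (fun k : ℕ => Occ n y (k : ℤ))).card

theorem p_C5 (hA9 : S_A9) (hC5b : S_C5b) (hC2 : S_C2) (hUPs : S_UPs) : S_C5 := by
  classical
  intro n hn
  obtain ⟨y₀, hy₀⟩ := (hA9 n hn).1
  have hle : ∀ y, p_C5_c n y ≤ n := by
    intro y
    unfold p_C5_c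
    refine (Finset.card_filter_le _ _).trans ?_
    rw [Finset.card_range]
  have step : ∀ y, Opt n y → ¬ Conn n y → ∃ z, Opt n z ∧ p_C5_c n y < p_C5_c n z := by
    intro y hy hc
    unfold Conn at hc
    push Not at hc
    obtain ⟨S, hS1, hS2, hS3, hS4⟩ := hc
    obtain ⟨z, hz, hyz, i, j, hij, hSij⟩ := hC5b n y S hn hy hS1 hS2 (by
      rwa [Set.nonempty_iff_ne_empty] at hS3) hS4
    refine ⟨z, hz, ?_⟩
    have hny : ¬ Occ n y (i + j) := by
      rintro ⟨i', j', hs, hup⟩
      obtain ⟨e1, e2⟩ := hC2 n z hz.1 hz.2.1 hz.2.2.1 i' j' i j (hyz _ _ hup) hij hs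
      subst e1
      subst e2
      exact hSij (hS2 _ _ hup)
    have hzz : Occ n z (i + j) := ⟨i, j, rfl, hij⟩
    have hp : ∀ y : ℤ → ℂ, Per n y → ∀ k : ℤ, Occ n y (k % n) = Occ n y k := by
      intro y hy k
      exact per_emod (fun k => Occ n y k) (fun k => propext ((hUPs n y hy).2.2.2 k).symm) k
    have hn0 : (0 : ℤ) < n := by exact_mod_cast (by omega : 0 < n)
    have hk0 : 0 ≤ (i + j) % (n : ℤ) := Int.emod_nonneg _ hn0.ne'
    have hk1 : (i + j) % (n : ℤ) < n := Int.emod_lt_of_pos _ hn0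
    unfold p_C5_c
    refine Finset.card_lt_card ?_
    rw [Finset.ssubset_iff_of_subset]
    · refine ⟨((i + j) % (n : ℤ)).toNat, ?_, ?_⟩
      · rw [Finset.mem_filter, Finset.mem_range]
        refine ⟨by omega, ?_⟩
        rw [Int.toNat_of_nonneg hk0, hp z hz.1]
        exact hzz
      · rw [Finset.mem_filter, not_and]
        intro _
        rw [Int.toNat_of_nonneg hk0, hp y hy.1]
        exact hny
    · intro k hk
      rw [Finset.mem_filter] at hk ⊢
      refine ⟨hk.1, ?_⟩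
      obtain ⟨i', j', hs, hup⟩ := hk.2
      exact ⟨i', j', hs, hyz _ _ hup⟩
  have key : ∀ m : ℕ, ∀ y, Opt n y → n - p_C5_c n y ≤ m → ∃ y, Opt n y ∧ Conn n y := by
    intro m
    induction m with
    | zero =>
      intro y hy hm
      by_cases hc : Conn n y
      · exact ⟨y, hy, hc⟩
      · obtain ⟨z, _, hz2⟩ := step y hy hc
        have h1 := hle z
        omega
    | succ m ih =>
      intro y hy hm
      by_cases hc : Conn n y
      · exact ⟨y, hy, hc⟩
      · obtain ⟨z, hz1, hz2⟩ := step y hy hc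
        refine ih z hz1 ?_
        have h1 := hle z
        omega
  exact key _ y₀ hy₀ le_rfl

end Pool.Agent.Lib.MP_97284c_gt
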