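import Pool.Agent.Lib.MP_97284c_gt.StmC

/-! [C5a] Translating a union of components does not change the area. -/

namespace Pool.Agent.Lib.MP_97284c_gt

theorem p_C5a (hP1 : S_P1) : S_C5a := by
  intro n y S u hn hO hS hU t
  set η : ℤ → ℂ := Set.indicator S (fun _ => u) with hη
  have hval : ∀ k, η k = 0 ∨ η k = u := by
    intro k
    by_cases h : k ∈ S
    · exact Or.inr (Set.indicator_of_mem h _)
    · exact Or.inl (Set.indicator_of_notMem h _)
  have hper : Per n η := by
    intro k
    by_cases h : k ∈ S
    · rw [hη, Set.indicator_of_mem h, Set.indicator_of_mem ((hS k).1 h)]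
    · rw [hη, Set.indicator_of_notMem h, Set.indicator_of_notMem fun h' => h ((hS k).2 h')]
  have hup : ∀ i j, UP n y i j → η i = η j := by
    intro i j h
    by_cases hi : i ∈ S
    · rw [hη, Set.indicator_of_mem hi, Set.indicator_of_mem ((hU i j h).1 hi)]
    · rw [hη, Set.indicator_of_notMem hi, Set.indicator_of_notMem fun h' => hi ((hU i j h).2 h')]
  have hdt0 : ∀ a : ℂ, dt a 0 = 0 := by
    intro a
    unfold dt
    simp
  have h1 : Bf n y η ≤ 0 := hP1 n y η hn hO hper fun i j h => by
    rw [hup i j h, sub_self, hdt0]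
  have h2 : Bf n y (fun k => - η k) ≤ 0 := hP1 n y _ hn hO
    (fun k => by
      show - η (k + n) = - η k
      rw [hper k])
    fun i j h => by
      show dt (y i - y j) (- η i - - η j) ≤ 0
      rw [hup i j h, sub_self, hdt0]
  have h3 : Bf n y (fun k => - η k) = - Bf n y η := by
    unfold Bf
    rw [← neg_div, ← Finset.sum_neg_distrib]
    congr 1
    refine Finset.sum_congr rfl fun j _ => ?_
    unfold cr
    simp only [Complex.neg_re, Complex.neg_im]
    ring
  have h4 : Bf n y η = 0 := by linarith
  have h5 : sh n (fun k => y k + t • η k) = sh n y + t * Bf n y η := by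
    unfold sh Bf
    rw [← mul_div_assoc, ← add_div, Finset.mul_sum, ← Finset.sum_add_distrib]
    congr 1
    refine Finset.sum_congr rfl fun j _ => ?_
    have hz : cr (η j) (η (j + 1)) = 0 := by
      rcases hval j with h | h <;> rcases hval (j + 1) with h' | h' <;> rw [h, h'] <;> unfold cr <;>
        (try simp only [Complex.zero_re, Complex.zero_im]) <;> ring
    have : cr (y j + t • η j) (y (j + 1) + t • η (j + 1)) = cr (y j) (y (j + 1)) +
        t * (cr (y j) (η (j + 1)) + cr (η j) (y (j + 1))) + t ^ 2 * cr (η j) (η (j + 1)) := by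
      unfold cr
      simp only [Complex.add_re, Complex.add_im, Complex.real_smul, Complex.mul_re, Complex.mul_im,
        Complex.ofReal_re, Complex.ofReal_im]
      ring
    rw [this, hz]
    ring
  rw [h5, h4, mul_zero, add_zero]

end Pool.Agent.Lib.MP_97284c_gt
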