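import Pool.Agent.Lib.MP_97284c_gt.StmA
import Pool.Agent.Lib.MP_97284c_gt.StmC

/-! Piece C5b of MP_97284c_gt: gaining a unit pair when the unit distance graph is not connected. -/

open Filter Topology

namespace Pool.Agent.Lib.MP_97284c_gt

/-- the moved sequence -/
private noncomputable def p_C5b_z (y : ℤ → ℂ) (S : Set ℤ) (t : ℝ) : ℤ → ℂ :=
  fun k => y k + t • Set.indicator S (fun _ => (1 : ℂ)) k

private theorem p_C5b_per {n : ℕ} {y : ℤ → ℂ} {S : Set ℤ} (hy : Per n y)
    (hS : ∀ k : ℤ, k ∈ S ↔ k + n ∈ S) (t : ℝ) : Per n (p_C5b_z y S t) := by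
  intro k
  unfold p_C5b_z
  rw [hy k]
  by_cases h : k ∈ S
  · rw [Set.indicator_of_mem h, Set.indicator_of_mem ((hS k).1 h)]
  · rw [Set.indicator_of_notMem h, Set.indicator_of_notMem (fun h' => h ((hS k).2 h'))]

private theorem p_C5b_red {n : ℕ} (hn : 1 ≤ n) {z : ℤ → ℂ} (hz : Per n z)
    (h : ∀ i ∈ Finset.Ico (0 : ℤ) n, ∀ j ∈ Finset.Ico (0 : ℤ) (2 * n),
      ∀ k ∈ Finset.Ico (0 : ℤ) (2 * n), i < j → j < k → k < i + n →
        0 < orient (z i) (z j) (z k)) : Cvx n z := by
  intro i j k hij hjk hki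
  have hn1 : (0 : ℤ) < n := by omega
  have h1 := Int.emod_nonneg i hn1.ne'
  have h2 := Int.emod_lt_of_pos i hn1
  have h3 := Int.emod_add_mul_ediv i n
  set q := i / (n : ℤ) with hq
  have e : ∀ m : ℤ, z m = z (m - q * n) := by
    intro m
    have h4 := per_mul z hz (m - q * n) q
    rw [show m - q * n + q * n = m by ring] at h4
    exact h4
  have e0 : i - q * n = i % n := by linarith [mul_comm q (n : ℤ)]
  rw [e i, e j, e k]
  apply h
  · rw [Finset.mem_Ico, e0]
    exact ⟨h1, h2⟩
  · rw [Finset.mem_Ico]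
    constructor <;> linarith
  · rw [Finset.mem_Ico]
    constructor <;> linarith
  · linarith
  · linarith
  · linarith

private theorem p_C5b_cont (y : ℤ → ℂ) (S : Set ℤ) (k : ℤ) :
    Continuous fun t : ℝ => p_C5b_z y S t k := by
  unfold p_C5b_z
  exact continuous_const.add (continuous_id.smul continuous_const)

private theorem p_C5b_contO (y : ℤ → ℂ) (S : Set ℤ) (i j k : ℤ) :
    Continuous fun t : ℝ => orient (p_C5b_z y S t i) (p_C5b_z y S t j) (p_C5b_z y S t k) := by
  unfold orient cr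
  have h1 := p_C5b_cont y S i
  have h2 := p_C5b_cont y S j
  have h3 := p_C5b_cont y S k
  have h4 := h2.sub h1
  have h5 := h3.sub h1
  exact ((Complex.continuous_re.comp h4).mul (Complex.continuous_im.comp h5)).sub
    ((Complex.continuous_im.comp h4).mul (Complex.continuous_re.comp h5))

private theorem p_C5b_contN (y : ℤ → ℂ) (S : Set ℤ) (i j : ℤ) :
    Continuous fun t : ℝ => ‖p_C5b_z y S t i - p_C5b_z y S t j‖ :=
  ((p_C5b_cont y S i).sub (p_C5b_cont y S j)).norm

private theorem p_C5b_same {y : ℤ → ℂ} {S : Set ℤ} {i j : ℤ} (h : i ∈ S ↔ j ∈ S) (t : ℝ) :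
    p_C5b_z y S t i - p_C5b_z y S t j = y i - y j := by
  unfold p_C5b_z
  by_cases hi : i ∈ S
  · rw [Set.indicator_of_mem hi, Set.indicator_of_mem (h.1 hi)]
    ring
  · rw [Set.indicator_of_notMem hi, Set.indicator_of_notMem (fun h' => hi (h.2 h'))]
    ring

private theorem p_C5b_shiftS {n : ℕ} {S : Set ℤ} (hS : ∀ k : ℤ, k ∈ S ↔ k + n ∈ S) (k t : ℤ) :
    k + t * n ∈ S ↔ k ∈ S := by
  have h := per_mul (N := n) (fun k : ℤ => k ∈ S) (fun k => propext (hS k).symm) k t
  exact iff_of_eq h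

theorem p_C5b (hC5a : S_C5a) (hA9 : S_A9) (hA10 : S_A10) : S_C5b := by
  intro n y S hn hopt hS hUP hne hnu
  have hper := hopt.1
  have hcvx := hopt.2.1
  have hsm := hopt.2.2.1
  have harea : sh n y = smallArea n := (hA9 n hn).2 y hopt
  have hsh : ∀ t : ℝ, sh n (p_C5b_z y S t) = smallArea n := fun t =>
    (hC5a n y S 1 (by omega) hopt hS hUP t).trans harea
  obtain ⟨a, ha⟩ := Set.nonempty_iff_ne_empty.2 hne
  obtain ⟨b, hb⟩ := (Set.ne_univ_iff_exists_notMem S).1 hnu
  set A : Set ℝ := {t | CvxW n (p_C5b_z y S t) ∧ Small (p_C5b_z y S t)} with hA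
  have hA0 : (0 : ℝ) ∈ A := by
    have h0 : p_C5b_z y S 0 = y := by
      funext k
      unfold p_C5b_z
      rw [zero_smul, add_zero]
    show CvxW n (p_C5b_z y S 0) ∧ Small (p_C5b_z y S 0)
    rw [h0]
    exact ⟨fun i j k h1 h2 h3 => (hcvx i j k h1 h2 h3).le, hsm⟩
  have hAb : BddAbove A := by
    refine ⟨2, ?_⟩
    rintro t ⟨-, ht⟩
    have h1 := ht a b
    have h2 : p_C5b_z y S t a - p_C5b_z y S t b = (y a - y b) + (t : ℂ) := by
      unfold p_C5b_z
      rw [Set.indicator_of_mem ha, Set.indicator_of_notMem hb]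
      simp only [Complex.real_smul, mul_one, mul_zero, add_zero]
      ring
    rw [h2] at h1
    have h3 := hsm a b
    have h4 : ‖(t : ℂ)‖ ≤ ‖(y a - y b) + (t : ℂ)‖ + ‖y a - y b‖ := by
      have h5 := norm_sub_le ((y a - y b) + (t : ℂ)) (y a - y b)
      rwa [add_sub_cancel_left] at h5
    rw [Complex.norm_real, Real.norm_eq_abs] at h4
    linarith [le_abs_self t]
  have hAc : IsClosed A := by
    have h1 : A = (⋂ i : ℤ, ⋂ j : ℤ, ⋂ k : ℤ, ⋂ _ : i < j, ⋂ _ : j < k, ⋂ _ : k < i + n,
        {t : ℝ | 0 ≤ orient (p_C5b_z y S t i) (p_C5b_z y S t j) (p_C5b_z y S t k)}) ∩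
        ⋂ i : ℤ, ⋂ j : ℤ, {t : ℝ | ‖p_C5b_z y S t i - p_C5b_z y S t j‖ ≤ 1} := by
      ext t
      simp only [hA, Set.mem_ofPred_eq, Set.mem_inter_iff, Set.mem_iInter]
      rfl
    rw [h1]
    refine IsClosed.inter ?_ ?_
    · refine isClosed_iInter fun i => isClosed_iInter fun j => isClosed_iInter fun k =>
        isClosed_iInter fun _ => isClosed_iInter fun _ => isClosed_iInter fun _ => ?_
      exact isClosed_le continuous_const (p_C5b_contO y S i j k)
    · refine isClosed_iInter fun i => isClosed_iInter fun j => ?_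
      exact isClosed_le (p_C5b_contN y S i j) continuous_const
  set T := sSup A with hT
  have hTA : T ∈ A := hAc.csSup_mem ⟨0, hA0⟩ hAb
  have hTper := p_C5b_per hper hS T
  have hTcvx : Cvx n (p_C5b_z y S T) := hA10 n _ hn hTper hTA.1 hTA.2 (hsh T)
  refine ⟨p_C5b_z y S T, ⟨hTper, hTcvx, hTA.2, ?_⟩, ?_, ?_⟩
  · intro z h1 h2 h3
    rw [hsh T, ← harea]
    exact hopt.2.2.2 z h1 h2 h3
  · intro i j h
    refine ⟨h.1, h.2.1, ?_⟩
    rw [p_C5b_same (hUP i j h) T]
    exact h.2.2
  · by_contra hcon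
    push Not at hcon
    -- cross pairs have distance less than one
    have hlt : ∀ i j : ℤ, i ∈ S → j ∉ S → ‖p_C5b_z y S T i - p_C5b_z y S T j‖ < 1 := by
      intro i j hi hj
      refine lt_of_le_of_ne (hTA.2 i j) fun h1 => ?_
      have hn1 : (0 : ℤ) < n := by omega
      have h2 := Int.emod_nonneg (j - i) hn1.ne'
      have h3 := Int.emod_lt_of_pos (j - i) hn1
      have h4 := Int.emod_add_mul_ediv (j - i) n
      have h5 : i + (j - i) % n = j + (-((j - i) / n)) * n := by linarith [mul_comm (n : ℤ) ((j - i) / n)]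
      have h6 : ¬ (i + (j - i) % n ∈ S) := by
        rw [h5, p_C5b_shiftS hS]
        exact hj
      have h7 : (j - i) % n ≠ 0 := by
        intro h8
        rw [h8, add_zero] at h6
        exact h6 hi
      have h8 : UP n (p_C5b_z y S T) i (i + (j - i) % n) := by
        refine ⟨by omega, by omega, ?_⟩
        rw [h5, per_mul _ hTper]
        exact h1
      exact h6 ((hcon _ _ h8).1 hi)
    -- finitely many strict inequalities
    have hev1 : ∀ᶠ t in 𝓝 T, ∀ i ∈ Finset.Ico (0 : ℤ) n, ∀ j ∈ Finset.Ico (0 : ℤ) (2 * n),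
        ∀ k ∈ Finset.Ico (0 : ℤ) (2 * n), i < j → j < k → k < i + n →
        0 < orient (p_C5b_z y S t i) (p_C5b_z y S t j) (p_C5b_z y S t k) := by
      rw [Filter.eventually_all_finset]
      intro i _
      rw [Filter.eventually_all_finset]
      intro j _
      rw [Filter.eventually_all_finset]
      intro k _
      by_cases hijk : i < j ∧ j < k ∧ k < i + n
      · have h1 := hTcvx i j k hijk.1 hijk.2.1 hijk.2.2
        have h2 := (p_C5b_contO y S i j k).continuousAt (x := T)
        filter_upwards [h2.eventually (lt_mem_nhds h1)] with t ht _ _ _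
        exact ht
      · exact Filter.Eventually.of_forall fun t h1 h2 h3 => absurd ⟨h1, h2, h3⟩ hijk
    have hev2 : ∀ᶠ t in 𝓝 T, ∀ i ∈ Finset.Ico (0 : ℤ) n, ∀ j ∈ Finset.Ico (0 : ℤ) n,
        i ∈ S → j ∉ S → ‖p_C5b_z y S t i - p_C5b_z y S t j‖ < 1 := by
      rw [Filter.eventually_all_finset]
      intro i _
      rw [Filter.eventually_all_finset]
      intro j _
      by_cases hij : i ∈ S ∧ j ∉ S
      · have h1 := hlt i j hij.1 hij.2
        have h2 := (p_C5b_contN y S i j).continuousAt (x := T)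
        filter_upwards [h2.eventually (gt_mem_nhds h1)] with t ht _ _
        exact ht
      · exact Filter.Eventually.of_forall fun t h1 h2 => absurd ⟨h1, h2⟩ hij
    have hev3 := (hev1.and hev2)
    obtain ⟨ε, hε, hball⟩ := Metric.eventually_nhds_iff.1 hev3
    have hmem : T + ε / 2 ∈ A := by
      have h1 := hball (y := T + ε / 2) (by
        rw [Real.dist_eq, add_sub_cancel_left, abs_of_pos (by linarith)]
        linarith)
      have hp := p_C5b_per hper hS (T + ε / 2)
      have hn1 : (0 : ℤ) < n := by omega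
      have hcross : ∀ i j : ℤ, i ∈ S → j ∉ S →
          ‖p_C5b_z y S (T + ε / 2) i - p_C5b_z y S (T + ε / 2) j‖ ≤ 1 := by
        intro i j hi hj
        have e1 : ∀ m : ℤ, m % n = m + (-(m / n)) * n := by
          intro m
          have := Int.emod_add_mul_ediv m n
          linarith [mul_comm (n : ℤ) (m / n)]
        have h2 := h1.2 (i % n) (Finset.mem_Ico.2 ⟨Int.emod_nonneg i hn1.ne',
          Int.emod_lt_of_pos i hn1⟩) (j % n) (Finset.mem_Ico.2 ⟨Int.emod_nonneg j hn1.ne',
          Int.emod_lt_of_pos j hn1⟩) (by rw [e1 i, p_C5b_shiftS hS]; exact hi)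
          (by rw [e1 j, p_C5b_shiftS hS]; exact hj)
        rw [per_emod _ hp, per_emod _ hp] at h2
        exact h2.le
      refine ⟨?_, ?_⟩
      · intro i j k h2 h3 h4
        exact (p_C5b_red (by omega) hp h1.1 i j k h2 h3 h4).le
      · intro i j
        by_cases hi : i ∈ S <;> by_cases hj : j ∈ S
        · rw [p_C5b_same (iff_of_true hi hj)]
          exact hsm i j
        · exact hcross i j hi hj
        · rw [norm_sub_rev]
          exact hcross j i hj hi
        · rw [p_C5b_same (iff_of_false hi hj)]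
          exact hsm i j
    have := le_csSup hAb hmem
    linarith

end Pool.Agent.Lib.MP_97284c_gt
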