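import Pool.Agent.Lib.MP_97284c_gt.StmC

/-!
# Largest small polygons: piece C6, connected unit distance graph: at most one empty class
-/

open MeasureTheory Filter Topology

namespace Pool.Agent.Lib.MP_97284c_gt

private theorem p_C6_shift {n : ℕ} {y : ℤ → ℂ} (hU : (∀ i j, UP n y i j → UP n y j (i + n)) ∧
    (∀ i j, UP n y i j → UP n y (j - n) i) ∧
    (∀ i j t : ℤ, UP n y i j → UP n y (i + t * n) (j + t * n)) ∧ (∀ k, Occ n y k ↔ Occ n y (k + n)))
    (i j t : ℤ) (h : UP n y i j) : ∃ i' j' : ℤ, UP n y i' j' ∧ i' + j' = i + j + t * n ∧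
      s(((i' : ℤ) : ZMod n), ((j' : ℤ) : ZMod n)) = s(((i : ℤ) : ZMod n), ((j : ℤ) : ZMod n)) := by
  obtain ⟨h1, _, h3, _⟩ := hU
  rcases Int.even_or_odd' t with ⟨r, hr | hr⟩
  · refine ⟨i + r * n, j + r * n, h3 i j r h, by rw [hr]; ring, ?_⟩
    simp
  · refine ⟨j + r * n, (i + n) + r * n, h3 _ _ r (h1 i j h), by rw [hr]; ring, ?_⟩
    rw [Sym2.eq_swap]
    simp

private theorem p_C6_occ {n : ℕ} {y : ℤ → ℂ} (h4 : ∀ k, Occ n y k ↔ Occ n y (k + n)) (k t : ℤ) :
    Occ n y (k + t * n) ↔ Occ n y k := by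
  induction t using Int.induction_on with
  | zero => simp
  | succ i ih =>
    rw [← ih, show k + ((i : ℤ) + 1) * n = (k + i * n) + n by ring]
    exact (h4 _).symm
  | pred i ih =>
    rw [← ih, h4 (k + (-(i : ℤ) - 1) * n)]
    rw [show k + (-(i : ℤ) - 1) * n + n = k + -(i : ℤ) * n by ring]

theorem p_C6 (hUPs : S_UPs) (hC2 : S_C2) : S_C6 := by
  intro n y hn hopt hconn
  obtain ⟨hper, hcvx, hsmall, _⟩ := hopt
  have hU := hUPs n y hper
  have hU1 := hU.1
  have hU4 := hU.2.2.2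
  have hC := hC2 n y hper hcvx hsmall
  have : NeZero n := ⟨by omega⟩
  have hn0 : (0 : ℤ) < n := by exact_mod_cast (show 0 < n by omega)
  obtain ⟨G, hG⟩ : ∃ G : SimpleGraph (ZMod n), ∀ a b, G.Adj a b ↔
      ∃ i j : ℤ, ((i : ℤ) : ZMod n) = a ∧ ((j : ℤ) : ZMod n) = b ∧ UP n y i j := by
    refine ⟨⟨fun a b => ∃ i j : ℤ, ((i : ℤ) : ZMod n) = a ∧ ((j : ℤ) : ZMod n) = b ∧ UP n y i j, ?_, ?_⟩,
      fun a b => Iff.rfl⟩
    · refine ⟨?_⟩
      rintro a b ⟨i, j, ha, hb, h⟩
      exact ⟨j, i + n, hb, by rw [← ha]; simp, hU1 i j h⟩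
    · refine ⟨fun a h => ?_⟩
      obtain ⟨i, j, ha, hb, h⟩ := h
      have h1 : ((j - i : ℤ) : ZMod n) = 0 := by
        push_cast
        rw [ha, hb, sub_self]
      rw [ZMod.intCast_zmod_eq_zero_iff_dvd] at h1
      have h2 := Int.le_of_dvd (by linarith [h.1]) h1
      linarith [h.2.1]
  -- G is connected
  have hGc : G.Connected := by
    have hpre : G.Preconnected := by
      intro a b
      have h1 := hconn {k : ℤ | G.Reachable a ((k : ℤ) : ZMod n)} (by
        intro k
        simp only [Set.mem_ofPred_eq]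
        have : ((k + n : ℤ) : ZMod n) = (k : ZMod n) := by simp
        rw [this]) (by
        intro i j h
        simp only [Set.mem_ofPred_eq]
        have h2 : G.Adj ((i : ℤ) : ZMod n) ((j : ℤ) : ZMod n) := (hG _ _).mpr ⟨i, j, rfl, rfl, h⟩
        exact ⟨fun h3 => h3.trans h2.reachable, fun h3 => h3.trans h2.symm.reachable⟩)
      obtain ⟨i, hi⟩ := ZMod.intCast_surjective a
      obtain ⟨j, hj⟩ := ZMod.intCast_surjective b
      have h2 : i ∈ {k : ℤ | G.Reachable a ((k : ℤ) : ZMod n)} := by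
        simp only [Set.mem_ofPred_eq]
        rw [hi]
      rcases h1 with h1 | h1
      · rw [h1] at h2
        exact absurd h2 (Set.notMem_empty _)
      · have h3 : j ∈ {k : ℤ | G.Reachable a ((k : ℤ) : ZMod n)} := by
          rw [h1]
          trivial
        simp only [Set.mem_ofPred_eq] at h3
        rw [hj] at h3
        exact h3
    exact ⟨hpre⟩
  have hcard := hGc.card_vert_le_card_edgeSet_add_one
  rw [Nat.card_zmod] at hcard
  -- the classes
  obtain ⟨T, hT⟩ : ∃ T : Set (ZMod n), T = {c | ∃ k : ℤ, ((k : ℤ) : ZMod n) = c ∧ Occ n y k} := ⟨_, rfl⟩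
  have hle : Nat.card G.edgeSet ≤ T.ncard := by
    rw [Nat.card_coe_set_eq]
    apply Set.ncard_le_ncard_of_injOn (Sym2.lift ⟨fun a b : ZMod n => a + b, fun a b => add_comm a b⟩)
    · intro e he
      induction e using Sym2.ind with
      | _ a b =>
        rw [SimpleGraph.mem_edgeSet, hG] at he
        obtain ⟨i, j, ha, hb, h⟩ := he
        rw [Sym2.lift_mk, hT]
        refine ⟨i + j, ?_, ⟨i, j, rfl, h⟩⟩
        push_cast
        rw [ha, hb]
    · intro e he e' he' hee
      induction e using Sym2.ind with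
      | _ a b =>
        induction e' using Sym2.ind with
        | _ a' b' =>
          rw [SimpleGraph.mem_edgeSet, hG] at he he'
          obtain ⟨i, j, ha, hb, h⟩ := he
          obtain ⟨i', j', ha', hb', h'⟩ := he'
          rw [Sym2.lift_mk, Sym2.lift_mk] at hee
          have h1 : (((i' + j') - (i + j) : ℤ) : ZMod n) = 0 := by
            push_cast
            rw [ha, hb, ha', hb']
            simp only at hee
            rw [hee, sub_self]
          rw [ZMod.intCast_zmod_eq_zero_iff_dvd] at h1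
          obtain ⟨t, ht⟩ := h1
          obtain ⟨i2, j2, h2, h3, h4⟩ := p_C6_shift hU i j t h
          have h5 := hC i2 j2 i' j' h2 h' (by rw [h3]; linarith [mul_comm (n : ℤ) t])
          rw [← ha, ← hb, ← ha', ← hb', ← h4, h5.1, h5.2]
  -- two different empty classes are impossible
  have htwo : ∀ k k' : ℤ, ¬ Occ n y k → ¬ Occ n y k' → (n : ℤ) ∣ k - k' := by
    intro k k' hk hk'
    by_contra hd
    have hnot : ∀ k : ℤ, ¬ Occ n y k → ((k : ℤ) : ZMod n) ∉ T := by
      intro k hk h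
      rw [hT] at h
      obtain ⟨l, hl, hl2⟩ := h
      have h1 : ((k - l : ℤ) : ZMod n) = 0 := by
        push_cast
        rw [hl, sub_self]
      rw [ZMod.intCast_zmod_eq_zero_iff_dvd] at h1
      obtain ⟨t, ht⟩ := h1
      have h2 : k = l + t * n := by linarith [mul_comm (n : ℤ) t]
      rw [h2, p_C6_occ hU4] at hk
      exact hk hl2
    have hne : ((k : ℤ) : ZMod n) ≠ ((k' : ℤ) : ZMod n) := by
      intro h
      apply hd
      rw [← ZMod.intCast_zmod_eq_zero_iff_dvd]
      push_cast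
      rw [h, sub_self]
    have h1 : (insert ((k : ℤ) : ZMod n) (insert ((k' : ℤ) : ZMod n) T)).ncard = T.ncard + 1 + 1 := by
      rw [Set.ncard_insert_of_notMem, Set.ncard_insert_of_notMem (hnot k' hk')]
      rw [Set.mem_insert_iff, not_or]
      exact ⟨hne, hnot k hk⟩
    have h2 := Set.ncard_le_ncard (Set.subset_univ (insert ((k : ℤ) : ZMod n) (insert ((k' : ℤ) : ZMod n) T)))
    rw [h1, Set.ncard_univ, Nat.card_zmod] at h2
    omega
  by_cases hex : ∃ k : ℤ, ¬ Occ n y k
  · obtain ⟨k₀, hk₀⟩ := hex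
    refine ⟨k₀, fun k hk => ?_⟩
    by_contra h
    exact hk (htwo k k₀ h hk₀)
  · refine ⟨0, fun k _ => ?_⟩
    by_contra h
    exact hex ⟨k, h⟩

end Pool.Agent.Lib.MP_97284c_gt
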