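import Pool.Agent.Lib.MP_97284c_gt.StmF

namespace Pool.Agent.Lib.MP_97284c_gt

theorem p_F0 : S_F0 := by
  intro N W p α bm bp hN h
  -- both signs of the variation of `p`
  have key : ∀ ζ : ℂ, dt (p - W 0) ζ = 0 → cr ζ (W 1 - W (-1)) ≤ 0 := by
    intro ζ hζ
    have h1 := h.stat (fun _ => 0) ζ (fun _ => rfl) (fun k => by simp [dt]) (by simpa using hζ.le)
    unfold Lst at h1
    have e : ∀ x : ℂ, cr 0 x = 0 := fun x => by simp [cr]
    have e' : ∀ x : ℂ, cr x 0 = 0 := fun x => by simp [cr]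
    simp only [e, e', add_zero, Finset.sum_const_zero, sub_zero, zero_add] at h1
    have e2 : cr ζ (W 1 - W (-1)) = cr (W (-1)) ζ + cr ζ (W 1) := by
      unfold cr; simp only [Complex.sub_re, Complex.sub_im]; ring
    rw [e2]; linarith
  have hI : dt (p - W 0) (Complex.I * (p - W 0)) = 0 := by
    unfold dt; simp; ring
  have hI' : dt (p - W 0) (-(Complex.I * (p - W 0))) = 0 := by
    unfold dt; simp; ring
  have k1 := key _ hI
  have k2 := key _ hI'
  rw [cr_I_mul] at k1
  have k3 : cr (-(Complex.I * (p - W 0))) (W 1 - W (-1)) = dt (p - W 0) (W 1 - W (-1)) := by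
    unfold dt cr; simp; ring
  rw [k3] at k2
  have k4 : dt (p - W 0) (W 1 - W (-1)) = 0 := le_antisymm k2 (by linarith)
  -- the two scalar products
  have c1 : dt (p - W 0) (W 1 - W 0) = Real.cos bp := by
    rw [h.rotp, dt_exp_mul, dt_self, cr_self, h.unitp]; ring
  have hu : ‖W (-1) - W 0‖ = 1 := by
    have := h.unit (-1)
    rw [show (-1 : ℤ) + 1 = 0 by norm_num, norm_sub_rev] at this
    exact this
  have c2 : dt (p - W 0) (W (-1) - W 0) = Real.cos bm := by
    rw [dt_comm, h.rotm, dt_exp_mul, dt_self, cr_self, hu]; ring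
  have c3 : dt (p - W 0) (W 1 - W (-1)) = dt (p - W 0) (W 1 - W 0) - dt (p - W 0) (W (-1) - W 0) := by
    unfold dt; simp only [Complex.sub_re, Complex.sub_im]; ring
  have c4 : Real.cos bm = Real.cos bp := by rw [← c1, ← c2]; linarith
  have hpi := Real.pi_pos
  exact Real.injOn_cos ⟨h.bm0.le, by linarith [h.bm1]⟩ ⟨h.bp0.le, by linarith [h.bp1]⟩ c4

end Pool.Agent.Lib.MP_97284c_gt
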