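import Pool.Agent.Lib.MP_97284c_gt.StmF

/-!
# [F1] Flexing a generic bond of the star (MP_97284c_gt)
-/

namespace Pool.Agent.Lib.MP_97284c_gt

/-- Two consecutive bonds: scalar product. -/
private theorem p_F1_dt1 {W : ℤ → ℂ} {α : ℤ → ℝ} (hu : ∀ k, ‖W (k + 1) - W k‖ = 1)
    (hr : ∀ k, W (k + 1) - W k = Complex.exp (α k * Complex.I) * (W (k - 1) - W k)) (k : ℤ) :
    dt (W k - W (k - 1)) (W (k + 1) - W k) = -Real.cos (α k) := by
  rw [hr k, dt_exp_mul]
  have h1 : dt (W k - W (k - 1)) (W k - W (k - 1)) = 1 := by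
    rw [dt_self]
    have := hu (k - 1)
    rw [show k - 1 + 1 = k by ring] at this
    rw [this]; norm_num
  have h2 : dt (W k - W (k - 1)) (W (k - 1) - W k) = -1 := by
    rw [← h1]; unfold dt; simp only [Complex.sub_re, Complex.sub_im]; ring
  have h3 : cr (W k - W (k - 1)) (W (k - 1) - W k) = 0 := by
    unfold cr; simp only [Complex.sub_re, Complex.sub_im]; ring
  rw [h2, h3]; ring

/-- Two consecutive bonds: cross product. -/
private theorem p_F1_cr1 {W : ℤ → ℂ} {α : ℤ → ℝ} (hu : ∀ k, ‖W (k + 1) - W k‖ = 1)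
    (hr : ∀ k, W (k + 1) - W k = Complex.exp (α k * Complex.I) * (W (k - 1) - W k)) (k : ℤ) :
    cr (W k - W (k - 1)) (W (k + 1) - W k) = -Real.sin (α k) := by
  rw [hr k, cr_exp_mul]
  have h1 : dt (W k - W (k - 1)) (W k - W (k - 1)) = 1 := by
    rw [dt_self]
    have := hu (k - 1)
    rw [show k - 1 + 1 = k by ring] at this
    rw [this]; norm_num
  have h2 : dt (W k - W (k - 1)) (W (k - 1) - W k) = -1 := by
    rw [← h1]; unfold dt; simp only [Complex.sub_re, Complex.sub_im]; ring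
  have h3 : cr (W k - W (k - 1)) (W (k - 1) - W k) = 0 := by
    unfold cr; simp only [Complex.sub_re, Complex.sub_im]; ring
  rw [h2, h3]; ring

/-- Two bonds at distance two: scalar product. -/
private theorem p_F1_dt2 {W : ℤ → ℂ} {α : ℤ → ℝ} (hu : ∀ k, ‖W (k + 1) - W k‖ = 1)
    (hr : ∀ k, W (k + 1) - W k = Complex.exp (α k * Complex.I) * (W (k - 1) - W k)) (k : ℤ) :
    dt (W k - W (k - 1)) (W (k + 2) - W (k + 1)) = Real.cos (α k + α (k + 1)) := by
  have h := hr (k + 1)
  rw [show k + 1 + 1 = k + 2 by ring, show k + 1 - 1 = k by ring] at h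
  rw [h, dt_exp_mul]
  have h1 := p_F1_dt1 hu hr k
  have h2 := p_F1_cr1 hu hr k
  have h3 : dt (W k - W (k - 1)) (W k - W (k + 1)) = Real.cos (α k) := by
    have : dt (W k - W (k - 1)) (W k - W (k + 1)) = -dt (W k - W (k - 1)) (W (k + 1) - W k) := by
      unfold dt; simp only [Complex.sub_re, Complex.sub_im]; ring
    rw [this, h1]; ring
  have h4 : cr (W k - W (k - 1)) (W k - W (k + 1)) = Real.sin (α k) := by
    have : cr (W k - W (k - 1)) (W k - W (k + 1)) = -cr (W k - W (k - 1)) (W (k + 1) - W k) := by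
      unfold cr; simp only [Complex.sub_re, Complex.sub_im]; ring
    rw [this, h2]; ring
  rw [h3, h4, Real.cos_add]; ring

/-- Additivity of `Lst`. -/
private theorem p_F1_add (N : ℕ) (W : ℤ → ℂ) (p : ℂ) (f g : ℤ → ℂ) :
    Lst N W p (fun j => f j + g j) 0 = Lst N W p f 0 + Lst N W p g 0 := by
  unfold Lst
  have : ∀ k ∈ Finset.range N, (cr (f k + g k) (W ((k : ℤ) + 2)) + cr (W k) (f ((k : ℤ) + 2) + g ((k : ℤ) + 2))) =
      (cr (f k) (W ((k : ℤ) + 2)) + cr (W k) (f ((k : ℤ) + 2))) +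
        (cr (g k) (W ((k : ℤ) + 2)) + cr (W k) (g ((k : ℤ) + 2))) := by
    intro k _; unfold cr; simp only [Complex.add_re, Complex.add_im]; ring
  rw [Finset.sum_congr rfl this, Finset.sum_add_distrib]
  unfold cr; simp only [Complex.add_re, Complex.add_im, Complex.zero_re, Complex.zero_im]; ring

private theorem p_F1_crI (s : ℝ) (a b : ℂ) : cr (Complex.I * ((s : ℂ) * a)) b = -(s * dt a b) := by
  rw [cr_I_mul]; unfold dt; simp; ring

private theorem p_F1_dtI (s : ℝ) (a b : ℂ) : dt b (Complex.I * ((s : ℂ) * a)) = s * cr a b := by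
  rw [dt_comm, dt_I_mul]; unfold cr; simp; ring

/-- The variation. -/
private theorem p_F1_key (hF0 : S_F0) (hFL : S_FL) (N : ℕ) (W : ℤ → ℂ) (p : ℂ) (α : ℤ → ℝ)
    (bm bp : ℝ) (hN : 5 ≤ N) (h : SD N W p α bm bp) (k : ℤ) (hk : ¬ ((N : ℤ) ∣ k))
    (hk1 : ¬ ((N : ℤ) ∣ k + 1)) (s₁ s₂ : ℝ) (hs : s₁ * Real.sin (α k) ≤ s₂ * Real.sin (α (k + 1))) :
    s₁ * (Real.cos (hb N α k) + Real.cos (hb N α (k - 1)) - 1 - Real.cos (α k + α (k + 1))) ≤
      s₂ * (Real.cos (hb N α (k + 1)) + Real.cos (hb N α (k + 2)) - 1 - Real.cos (α k + α (k + 1))) := by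
  have hb0 : bm = bp := hF0 N W p α bm bp hN h
  -- congruent indices
  have hWc : ∀ a b : ℤ, (N : ℤ) ∣ a - b → W a = W b := by
    rintro a b ⟨t, ht⟩
    have := per_mul W h.Wper b t
    rw [← this]; congr 1; linarith [mul_comm (N : ℤ) t]
  have hαc : ∀ a b : ℤ, (N : ℤ) ∣ a - b → α a = α b := by
    rintro a b ⟨t, ht⟩
    have := per_mul α h.αper b t
    rw [← this]; congr 1; linarith [mul_comm (N : ℤ) t]
  have hndiv : ∀ a : ℤ, a ≠ 0 → |a| < 5 → ¬ ((N : ℤ) ∣ a) := by
    intro a ha ha7 hd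
    have h1 := Int.le_of_dvd (abs_pos.mpr ha) ((dvd_abs _ _).mpr hd)
    have h2 : (5 : ℤ) ≤ N := by exact_mod_cast hN
    omega
  -- scalar products
  have hAA : dt (W k - W (k - 1)) (W k - W (k - 1)) = 1 := by
    rw [dt_self]
    have := h.unit (k - 1)
    rw [show k - 1 + 1 = k by ring] at this
    rw [this]; norm_num
  have hBB : dt (W (k + 1) - W (k + 2)) (W (k + 1) - W (k + 2)) = 1 := by
    rw [dt_self]
    have := h.unit (k + 1)
    rw [show k + 1 + 1 = k + 2 by ring] at this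
    rw [norm_sub_rev, this]; norm_num
  have d0 := p_F1_dt1 h.unit h.rot (k - 1)
  have d1 := p_F1_dt1 h.unit h.rot k
  have d2 := p_F1_dt1 h.unit h.rot (k + 1)
  have d3 := p_F1_dt1 h.unit h.rot (k + 2)
  have e1 := p_F1_dt2 h.unit h.rot k
  have c1 := p_F1_cr1 h.unit h.rot k
  have c2 := p_F1_cr1 h.unit h.rot (k + 1)
  rw [show k - 1 - 1 = k - 2 by ring, show k - 1 + 1 = k by ring] at d0
  rw [show k + 1 - 1 = k by ring, show k + 1 + 1 = k + 2 by ring] at d2 c2
  rw [show k + 2 - 1 = k + 1 by ring, show k + 2 + 1 = k + 3 by ring] at d3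
  set ξ₁ : ℂ := Complex.I * ((s₁ : ℂ) * (W k - W (k - 1))) with hξ₁
  set ξ₂ : ℂ := Complex.I * ((s₂ : ℂ) * (W (k + 1) - W (k + 2))) with hξ₂
  set η : ℤ → ℂ := fun j => (if (N : ℤ) ∣ j - k then ξ₁ else 0) + (if (N : ℤ) ∣ j - (k + 1) then ξ₂ else 0) with hη
  have hper : ∀ j, η (j + N) = η j := by
    intro j
    have i1 : ((N : ℤ) ∣ j + N - k) ↔ ((N : ℤ) ∣ j - k) := by
      rw [show j + (N : ℤ) - k = (j - k) + N by ring]; exact dvd_add_self_right
    have i2 : ((N : ℤ) ∣ j + N - (k + 1)) ↔ ((N : ℤ) ∣ j - (k + 1)) := by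
      rw [show j + (N : ℤ) - (k + 1) = (j - (k + 1)) + N by ring]; exact dvd_add_self_right
    simp only [hη, i1, i2]
  have hbond : ∀ j, dt (W (j + 1) - W j) (η (j + 1) - η j) ≤ 0 := by
    intro j
    by_cases j0 : (N : ℤ) ∣ j - k
    · -- the flexed bond
      have n1 : ¬ ((N : ℤ) ∣ j + 1 - k) := by
        intro hd; have := dvd_sub hd j0
        rw [show j + 1 - k - (j - k) = 1 by ring] at this
        exact hndiv 1 (by norm_num) (by norm_num) this
      have n2 : ¬ ((N : ℤ) ∣ j - (k + 1)) := by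
        intro hd; have := dvd_sub j0 hd
        rw [show j - k - (j - (k + 1)) = 1 by ring] at this
        exact hndiv 1 (by norm_num) (by norm_num) this
      have n3 : (N : ℤ) ∣ j + 1 - (k + 1) := by rw [show j + 1 - (k + 1) = j - k by ring]; exact j0
      have ej : η j = ξ₁ := by simp only [hη, if_pos j0, if_neg n2, add_zero]
      have ej1 : η (j + 1) = ξ₂ := by simp only [hη, if_neg n1, if_pos n3, zero_add]
      rw [ej, ej1, hWc j k j0, hWc (j + 1) (k + 1) n3]
      have : dt (W (k + 1) - W k) (ξ₂ - ξ₁) = dt (W (k + 1) - W k) ξ₂ - dt (W (k + 1) - W k) ξ₁ := by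
        unfold dt; simp only [Complex.sub_re, Complex.sub_im]; ring
      rw [this, hξ₁, hξ₂, p_F1_dtI, p_F1_dtI, c1]
      have : cr (W (k + 1) - W (k + 2)) (W (k + 1) - W k) = cr (W (k + 1) - W k) (W (k + 2) - W (k + 1)) := by
        unfold cr; simp only [Complex.sub_re, Complex.sub_im]; ring
      rw [this, c2]; linarith
    · by_cases j1 : (N : ℤ) ∣ j + 1 - k
      · have n2 : ¬ ((N : ℤ) ∣ j - (k + 1)) := by
          intro hd; have := dvd_sub j1 hd
          rw [show j + 1 - k - (j - (k + 1)) = 2 by ring] at this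
          exact hndiv 2 (by norm_num) (by norm_num) this
        have n3 : ¬ ((N : ℤ) ∣ j + 1 - (k + 1)) := by rw [show j + 1 - (k + 1) = j - k by ring]; exact j0
        have ej : η j = 0 := by simp only [hη, if_neg j0, if_neg n2, add_zero]
        have ej1 : η (j + 1) = ξ₁ := by simp only [hη, if_pos j1, if_neg n3, add_zero]
        rw [ej, ej1, hWc (j + 1) k j1, hWc j (k - 1) (by rw [show j - (k - 1) = j + 1 - k by ring]; exact j1), sub_zero,
          hξ₁, p_F1_dtI, cr_self]; simp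
      · by_cases j2 : (N : ℤ) ∣ j - (k + 1)
        · have n3 : ¬ ((N : ℤ) ∣ j + 1 - (k + 1)) := by rw [show j + 1 - (k + 1) = j - k by ring]; exact j0
          have ej : η j = ξ₂ := by simp only [hη, if_neg j0, if_pos j2, zero_add]
          have ej1 : η (j + 1) = 0 := by simp only [hη, if_neg j1, if_neg n3, add_zero]
          rw [ej, ej1, hWc j (k + 1) j2, hWc (j + 1) (k + 2) (by rw [show j + 1 - (k + 2) = j - (k + 1) by ring]; exact j2)]
          have : dt (W (k + 2) - W (k + 1)) (0 - ξ₂) = dt (W (k + 1) - W (k + 2)) ξ₂ := by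
            unfold dt; simp only [Complex.sub_re, Complex.sub_im, Complex.zero_re, Complex.zero_im]; ring
          rw [this, hξ₂, p_F1_dtI, cr_self]; simp
        · have n3 : ¬ ((N : ℤ) ∣ j + 1 - (k + 1)) := by rw [show j + 1 - (k + 1) = j - k by ring]; exact j0
          have ej : η j = 0 := by simp only [hη, if_neg j0, if_neg j2, add_zero]
          have ej1 : η (j + 1) = 0 := by simp only [hη, if_neg j1, if_neg n3, add_zero]
          rw [ej, ej1]; unfold dt; simp
  have hη0 : η 0 = 0 := by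
    have n1 : ¬ ((N : ℤ) ∣ 0 - k) := by rw [zero_sub, dvd_neg]; exact hk
    have n2 : ¬ ((N : ℤ) ∣ 0 - (k + 1)) := by rw [zero_sub, dvd_neg]; exact hk1
    simp only [hη, if_neg n1, if_neg n2, add_zero]
  have hst := h.stat η 0 hper hbond (by rw [hη0]; unfold dt; simp)
  have hL : Lst N W p η 0 = Lst N W p (fun j => if (N : ℤ) ∣ j - k then ξ₁ else 0) 0 +
      Lst N W p (fun j => if (N : ℤ) ∣ j - (k + 1) then ξ₂ else 0) 0 := p_F1_add N W p _ _
  rw [hL, hFL N W p k ξ₁ 0 hN h.Wper, hFL N W p (k + 1) ξ₂ 0 hN h.Wper] at hst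
  have z0 : cr 0 (W 1 - W (-1)) = 0 := by unfold cr; simp
  have hk2 : ¬ ((N : ℤ) ∣ k + 1 - 1) := by rw [show k + 1 - 1 = k by ring]; exact hk
  rw [z0, if_neg hk1, if_neg hk2, show k + 1 + 2 = k + 3 by ring, show k + 1 - 2 = k - 1 by ring,
    show k + 1 + 1 = k + 2 by ring] at hst
  -- first term
  have hP : cr ξ₁ (W (k + 2) - W (k - 2)) + (if (N : ℤ) ∣ k - 1 then cr ξ₁ (W (-1) - p) else 0) =
      s₁ * (Real.cos (hb N α k) + Real.cos (hb N α (k - 1)) - 1 - Real.cos (α k + α (k + 1))) := by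
    have m1 : cr ξ₁ (W (k + 2) - W (k - 2)) =
        s₁ * (Real.cos (α k) + Real.cos (α (k - 1)) - 1 - Real.cos (α k + α (k + 1))) := by
      rw [hξ₁, p_F1_crI]
      have : dt (W k - W (k - 1)) (W (k + 2) - W (k - 2)) = dt (W k - W (k - 1)) (W (k + 2) - W (k + 1))
          + dt (W k - W (k - 1)) (W (k + 1) - W k) + dt (W k - W (k - 1)) (W k - W (k - 1))
          + dt (W (k - 1) - W (k - 2)) (W k - W (k - 1)) := by
        unfold dt; simp only [Complex.sub_re, Complex.sub_im]; ring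
      rw [this, e1, d1, hAA, d0]; ring
    have ck : hb N α k = α k := by unfold hb; rw [if_neg hk]
    rw [m1, ck]
    by_cases q : (N : ℤ) ∣ k - 1
    · have ck1 : hb N α (k - 1) = bp := by
        unfold hb; rw [if_pos q, hαc (k - 1) 0 (by simpa using q), h.α0, hb0]; ring
      have w1 : W k = W 1 := hWc k 1 q
      have w0 : W (k - 1) = W 0 := hWc (k - 1) 0 (by simpa using q)
      have a0 : α (k - 1) = α 0 := hαc (k - 1) 0 (by simpa using q)
      rw [if_pos q, ck1, a0, hξ₁, p_F1_crI, w1, w0]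
      have f1 : dt (W 1 - W 0) (W (-1) - p) = dt (W 0 - W (-1)) (W 1 - W 0) * (-1) - dt (p - W 0) (W 1 - W 0) := by
        unfold dt; simp only [Complex.sub_re, Complex.sub_im]; ring
      have f2 := p_F1_dt1 h.unit h.rot 0
      rw [show (0 : ℤ) - 1 = -1 by ring, show (0 : ℤ) + 1 = 1 by ring] at f2
      have f3 : dt (p - W 0) (W 1 - W 0) = Real.cos bp := by
        rw [h.rotp, dt_exp_mul, cr_self, dt_self, h.unitp]; ring
      rw [f1, f2, f3]; ring
    · have ck1 : hb N α (k - 1) = α (k - 1) := by unfold hb; rw [if_neg q]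
      rw [if_neg q, ck1]; ring
  have hQ : cr ξ₂ (W (k + 3) - W (k - 1)) + (if (N : ℤ) ∣ k + 2 then cr ξ₂ (p - W 1) else 0) =
      -(s₂ * (Real.cos (hb N α (k + 1)) + Real.cos (hb N α (k + 2)) - 1 - Real.cos (α k + α (k + 1)))) := by
    have m1 : cr ξ₂ (W (k + 3) - W (k - 1)) =
        -(s₂ * (Real.cos (α (k + 1)) + Real.cos (α (k + 2)) - 1 - Real.cos (α k + α (k + 1)))) := by
      rw [hξ₂, p_F1_crI]
      have : dt (W (k + 1) - W (k + 2)) (W (k + 3) - W (k - 1)) = - dt (W (k + 2) - W (k + 1)) (W (k + 3) - W (k + 2))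
          - dt (W (k + 1) - W (k + 2)) (W (k + 1) - W (k + 2)) - dt (W (k + 1) - W k) (W (k + 2) - W (k + 1))
          - dt (W k - W (k - 1)) (W (k + 2) - W (k + 1)) := by
        unfold dt; simp only [Complex.sub_re, Complex.sub_im]; ring
      rw [this, d3, hBB, d2, e1]; ring
    have ck : hb N α (k + 1) = α (k + 1) := by unfold hb; rw [if_neg hk1]
    rw [m1, ck]
    by_cases q : (N : ℤ) ∣ k + 2
    · have ck1 : hb N α (k + 2) = bm := by
        unfold hb; rw [if_pos q, hαc (k + 2) 0 (by simpa using q), h.α0, hb0]; ring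
      have w1 : W (k + 1) = W (-1) := hWc (k + 1) (-1) (by rw [show k + 1 - (-1) = k + 2 by ring]; exact q)
      have w0 : W (k + 2) = W 0 := hWc (k + 2) 0 (by simpa using q)
      have a0 : α (k + 2) = α 0 := hαc (k + 2) 0 (by simpa using q)
      rw [if_pos q, ck1, a0, hξ₂, p_F1_crI, w1, w0]
      have f1 : dt (W (-1) - W 0) (p - W 1) = dt (W (-1) - W 0) (p - W 0) + dt (W 0 - W (-1)) (W 1 - W 0) := by
        unfold dt; simp only [Complex.sub_re, Complex.sub_im]; ring
      have f2 := p_F1_dt1 h.unit h.rot 0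
      rw [show (0 : ℤ) - 1 = -1 by ring, show (0 : ℤ) + 1 = 1 by ring] at f2
      have f4 : ‖W (-1) - W 0‖ = 1 := by
        have := h.unit (-1)
        rw [show (-1 : ℤ) + 1 = 0 by ring] at this
        rw [norm_sub_rev, this]
      have f3 : dt (W (-1) - W 0) (p - W 0) = Real.cos bm := by
        rw [h.rotm, dt_exp_mul, cr_self, dt_self, f4]; ring
      rw [f1, f2, f3]; ring
    · have ck1 : hb N α (k + 2) = α (k + 2) := by unfold hb; rw [if_neg q]
      rw [if_neg q, ck1]; ring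
  linarith

/-- [F1] -/
theorem p_F1 (hF0 : S_F0) (hFL : S_FL) : S_F1 := by
  intro N W p α bm bp hN h k hk hk1
  have key := p_F1_key hF0 hFL N W p α bm bp hN h k hk hk1
  set P := Real.cos (hb N α k) + Real.cos (hb N α (k - 1)) - 1 - Real.cos (α k + α (k + 1)) with hP
  set Q := Real.cos (hb N α (k + 1)) + Real.cos (hb N α (k + 2)) - 1 - Real.cos (α k + α (k + 1)) with hQ
  have hpi := Real.pi_pos
  have s1 : 0 < Real.sin (α k) := Real.sin_pos_of_pos_of_lt_pi (h.αpos k) (by have := h.αlt k hk; linarith)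
  have s2 : 0 < Real.sin (α (k + 1)) :=
    Real.sin_pos_of_pos_of_lt_pi (h.αpos (k + 1)) (by have := h.αlt (k + 1) hk1; linarith)
  refine ⟨?_, ?_, ?_⟩
  · have := key (-1) 0 (by linarith); linarith
  · have := key 0 1 (by linarith); linarith
  · have a := key (Real.sin (α (k + 1))) (Real.sin (α k)) (by linarith [mul_comm (Real.sin (α k)) (Real.sin (α (k + 1)))])
    have b := key (-Real.sin (α (k + 1))) (-Real.sin (α k)) (by linarith [mul_comm (Real.sin (α k)) (Real.sin (α (k + 1)))])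
    linarith

end Pool.Agent.Lib.MP_97284c_gt
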