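import Pool.Agent.Lib.MP_97284c_gt.StmF

/-! MP_97284c_gt, piece F10 (helper68). -/

namespace Pool.Agent.Lib.MP_97284c_gt

theorem p_F10 (hF0 : S_F0) : S_F10 := by
  intro N W p α bm bp O hN h
  have hb0 := hF0 N W p α bm bp hN h
  -- translation invariance of the cyclic sum
  set g : ℤ → ℝ := fun k => cr (W k - O) (W (k + 2) - O) with hg
  have gper : ∀ k, g (k + N) = g k := by
    intro k
    simp only [hg]
    rw [show k + (N : ℤ) + 2 = k + 2 + N by ring, h.Wper, h.Wper]
  set w0 : ℤ → ℝ := fun k => cr (W k) O with hw0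
  have w0per : ∀ k, w0 (k + N) = w0 k := by
    intro k; simp only [hw0]; rw [h.Wper]
  have t1 : ∑ k ∈ Finset.range N, cr (W k) (W (k + 2)) = ∑ k ∈ Finset.range N, g k := by
    have e : ∀ k : ℕ, g k = cr (W k) (W (k + 2)) - w0 k + w0 ((k : ℤ) + 2) := by
      intro k
      simp only [hg, hw0, cr, Complex.sub_re, Complex.sub_im]; ring
    simp only [e]
    rw [Finset.sum_add_distrib, Finset.sum_sub_distrib, psum_shift w0 w0per 2]
    ring
  -- the middle vertex
  set u : ℤ → ℝ := fun k => cr (O - W k) (W (k + 1) - W k) with hu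
  have uper : ∀ k, u (k + N) = u k := by
    intro k
    simp only [hu]
    rw [show k + (N : ℤ) + 1 = k + 1 + N by ring, h.Wper, h.Wper]
  have crot : ∀ k, cr (W (k - 1) - W k) (W (k + 1) - W k) = Real.sin (α k) := by
    intro k
    have hk1 : W (k + 1) - W k = Complex.exp (α k * Complex.I) * (W (k - 1) - W k) := h.rot k
    have n2 := h.unit (k - 1)
    rw [sub_add_cancel, norm_sub_rev] at n2
    rw [hk1, cr_exp_mul, cr_self, dt_self, n2]; ring
  have gk : ∀ k : ℤ, g (k + (-1)) = Real.sin (α k) - u k - u (k + (-1)) := by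
    intro k
    rw [← crot k]
    simp only [hg, hu]
    rw [show k + (-1) + 2 = k + 1 by ring, show k + (-1) + 1 = k by ring, show k + (-1) = k - 1 by ring]
    simp only [cr, Complex.sub_re, Complex.sub_im]; ring
  have t2 : ∑ k ∈ Finset.range N, g k = ∑ k ∈ Finset.range N, Real.sin (α k) - 2 * ∑ k ∈ Finset.range N, u k := by
    rw [← psum_shift g gper (-1)]
    simp only [gk]
    rw [Finset.sum_sub_distrib, Finset.sum_sub_distrib, psum_shift u uper (-1)]
    ring
  -- the correction at the vertex 0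
  have t3 : - cr (W (-1)) (W 1) + cr (W (-1)) p + cr p (W 1) = Real.sin bm + Real.sin bp - Real.sin (α 0) := by
    have n1 := h.unit (-1)
    rw [show (-1 : ℤ) + 1 = 0 by norm_num, norm_sub_rev] at n1
    have c0 := crot 0
    rw [show (0 : ℤ) - 1 = -1 by norm_num, show (0 : ℤ) + 1 = 1 by norm_num] at c0
    have c1 : cr (W (-1) - W 0) (p - W 0) = Real.sin bm := by
      rw [h.rotm, cr_exp_mul, cr_self, dt_self, n1]; ring
    have c2 : cr (p - W 0) (W 1 - W 0) = Real.sin bp := by
      rw [h.rotp, cr_exp_mul, cr_self, dt_self, h.unitp]; ring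
    rw [← c0, ← c1, ← c2]
    simp only [cr, Complex.sub_re, Complex.sub_im]; ring
  have t4 : ∑ k ∈ Finset.range N, wt N k * Real.sin (hb N α k) =
      ∑ k ∈ Finset.range N, Real.sin (α k) + (2 * Real.sin (α 0 / 2) - Real.sin (α 0)) := by
    have e : ∀ k ∈ Finset.range N, wt N k * Real.sin (hb N α k) =
        Real.sin (α k) + (if k = 0 then (2 * Real.sin (α 0 / 2) - Real.sin (α 0)) else 0) := by
      intro k hk
      have hk' := Finset.mem_range.1 hk
      by_cases h0 : k = 0
      · subst h0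
        simp [wt, hb]
      · have : ¬ ((N : ℤ) ∣ (k : ℤ)) := by
          intro hd
          have := Nat.le_of_dvd (Nat.pos_of_ne_zero h0) (Int.natCast_dvd_natCast.1 hd)
          omega
        simp [wt, hb, this, h0]
    rw [Finset.sum_congr rfl e, Finset.sum_add_distrib, Finset.sum_ite_eq']
    simp only [Finset.mem_range]
    rw [if_pos (by omega)]
  have t5 : 2 * Real.sin (α 0 / 2) = Real.sin bm + Real.sin bp := by
    rw [h.α0, ← hb0]
    rw [show (bm + bm) / 2 = bm by ring]; ring
  have t6 : ∑ k ∈ Finset.range N, cr (O - W k) (W ((k : ℤ) + 1) - W k) = ∑ k ∈ Finset.range N, u k := rfl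
  rw [t6, t4, t5]
  unfold St
  rw [t1, t2]
  linarith

end Pool.Agent.Lib.MP_97284c_gt
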