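import Pool.Agent.Lib.MP_97284c_gt.StmF

/-! MP_97284c_gt, piece F11 (helper68). -/

namespace Pool.Agent.Lib.MP_97284c_gt

theorem p_F11 (hF0 : S_F0) (hF4 : S_F4) (hF5 : S_F5) (hF6 : S_F6) (hF7 : S_F7) (hF8 : S_F8) (hF10 : S_F10) : S_F11 := by
  intro N W p α bm bp hN h
  obtain ⟨u, uper, hu⟩ := hF4 N W p α bm bp hN h
  have hpi := Real.pi_pos
  have hpi2 := Real.pi_lt_d2
  -- bounds
  have αlt : ∀ k, α k < 7 * Real.pi / 12 := by
    intro k
    by_cases hk : (N : ℤ) ∣ k
    · obtain ⟨t, rfl⟩ := hk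
      have : α ((N : ℤ) * t) = α 0 := by
        have := per_mul α h.αper 0 t
        rw [← this]; congr 1; ring
      rw [this, h.α0]
      linarith [h.bm1, h.bp1]
    · have := h.αlt k hk
      linarith
  have hbpos : ∀ k, 0 < hb N α k := by
    intro k
    unfold hb
    split_ifs
    · linarith [h.αpos k]
    · exact h.αpos k
  have hblt : ∀ k, hb N α k < 7 * Real.pi / 24 := by
    intro k
    unfold hb
    split_ifs with hk
    · linarith [αlt k]
    · exact h.αlt k hk
  have hbb : bm = bp := hF0 N W p α bm bp hN h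
  have hbtwo : ∀ k, hb N α k + hb N α (k + 1) ≤ Real.pi / 2 := by
    intro k
    have hα0 : ∀ t : ℤ, α ((N : ℤ) * t) = α 0 := by
      intro t
      have := per_mul α h.αper 0 t
      rw [← this]; congr 1; ring
    have hN1 : ¬ (N : ℤ) ∣ 1 := by
      intro h1
      have := Int.le_of_dvd one_pos h1
      omega
    by_cases hk : (N : ℤ) ∣ k
    · have hk1 : ¬ (N : ℤ) ∣ k + 1 := by
        intro h2
        apply hN1
        have := dvd_sub h2 hk
        rwa [add_sub_cancel_left] at this
      obtain ⟨t, rfl⟩ := hk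
      unfold hb
      rw [if_pos (dvd_mul_right _ _), if_neg hk1, hα0, h.α0]
      have e : α ((N : ℤ) * t + 1) = α 1 := by
        have := per_mul α h.αper 1 t
        rw [← this]; congr 1; ring
      rw [e]
      have := h.twop
      linarith
    · by_cases hk1 : (N : ℤ) ∣ k + 1
      · obtain ⟨t, ht⟩ := hk1
        have e1 : k = -1 + t * N := by linarith [mul_comm (N : ℤ) t]
        unfold hb
        rw [if_neg hk, ht, if_pos (dvd_mul_right _ _), hα0, h.α0]
        have e : α k = α (-1) := by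
          rw [e1]; exact per_mul α h.αper (-1) t
        rw [e]
        have := h.twom
        linarith
      · unfold hb
        rw [if_neg hk, if_neg hk1]
        exact h.two k hk hk1
  have upos : ∀ k, 0 < u k := by
    apply hF5 N α u hN (fun k => ⟨h.αpos k, by linarith [αlt k]⟩) (fun k => by linarith [hblt k])
    · exact fun k => (hu k).1
    · exact fun k => (hu k).2.1
  obtain ⟨O, hO, hOu⟩ := hF6 N W p α bm bp u hN h (fun k => (hu k).1) (fun k => (hu k).2.1)
  obtain ⟨⟨J, hJ⟩, hq⟩ := hF7 N W p α bm bp O h hO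
  have h8 := hF8 N W p α bm bp O h (fun k => by rw [hOu]; exact upos k) (fun k => by linarith [αlt k])
  have h10 := hF10 N W p α bm bp O hN h
  have harc : ∀ k, Real.arccos (Real.cos (hb N α k)) = hb N α k := fun k =>
    Real.arccos_cos (hbpos k).le (by linarith [hblt k])
  have hwt : ∀ k, wt N k * hb N α k = α k := by
    intro k
    unfold wt hb
    split_ifs
    · ring
    · ring
  refine ⟨fun k => ‖O - W k‖ ^ 2, J, ⟨⟨?_, ?_, ?_, ?_, ?_⟩, ?_, ?_⟩, ?_⟩
  · intro k; simp only [h.Wper]
  · intro k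
    rw [← hq, hOu]
    have := upos k
    positivity
  · intro k
    have e1 := hq k
    rw [hOu] at e1
    have e2 := hJ k
    have e3 := hJ (k + 1)
    unfold q4 at e1
    have b1 := (hu k).2.2
    have p3 := upos k
    have c1 : 0 ≤ Real.cos (hb N α k + hb N α (k + 1)) := by
      apply Real.cos_nonneg_of_mem_Icc
      constructor
      · linarith [hbpos k, hbpos (k + 1)]
      · exact hbtwo k
    rw [Real.cos_add] at c1
    have s1 := Real.sin_sq_add_cos_sq (hb N α k)
    have s2 := Real.sin_sq_add_cos_sq (hb N α (k + 1))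
    set r := ‖O - W k‖ ^ 2 with hr
    set s := ‖O - W (k + 1)‖ ^ 2 with hs
    have d1 : r - s = (Real.cos (hb N α k) - Real.cos (hb N α (k + 1))) / 2 := by linarith
    have d2 : 2 * u k ^ 2 ≤ (Real.sin (hb N α k) + Real.sin (hb N α (k + 1))) ^ 2 / 8 := by
      have : u k ^ 2 ≤ ((Real.sin (hb N α k) + Real.sin (hb N α (k + 1))) / 4) ^ 2 :=
        pow_le_pow_left₀ p3.le b1 2
      linarith [this, show ((Real.sin (hb N α k) + Real.sin (hb N α (k + 1))) / 4) ^ 2 =
        (Real.sin (hb N α k) + Real.sin (hb N α (k + 1))) ^ 2 / 16 by ring]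
    have d3 : (r - s) ^ 2 = (Real.cos (hb N α k) - Real.cos (hb N α (k + 1))) ^ 2 / 4 := by
      rw [d1]; ring
    nlinarith
  · intro k
    rw [hJ]
    exact Real.neg_one_le_cos _
  · intro k
    rw [hJ]
    exact Real.cos_le_one _
  · intro k
    rw [hJ, harc, hwt]
    exact h8 k
  · show ∑ k ∈ Finset.range N, wt N k * Real.arccos (2 * (‖O - W k‖ ^ 2 - J)) = Real.pi
    rw [← h.sum]
    apply Finset.sum_congr rfl
    intro k _
    rw [hJ, harc, hwt]
  · rw [h10]
    unfold Val
    have e1 : ∀ k : ℕ, Real.sqrt (1 - (2 * (‖O - W k‖ ^ 2 - J)) ^ 2) = Real.sin (hb N α k) := by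
      intro k
      rw [hJ, ← Real.sin_sq_add_cos_sq (hb N α k), add_sub_cancel_right, Real.sqrt_sq]
      exact Real.sin_nonneg_of_nonneg_of_le_pi (hbpos _).le (by linarith [hblt k])
    have e2 : ∀ k : ℕ, Real.sqrt (q4 (‖O - W k‖ ^ 2) (‖O - W ((k : ℤ) + 1)‖ ^ 2)) = 2 * u k := by
      intro k
      rw [← hq, hOu, show 4 * u k ^ 2 = (2 * u k) ^ 2 by ring, Real.sqrt_sq]
      linarith [upos k]
    simp only [e1, e2, hOu]
    rw [← Finset.mul_sum]
    ring

end Pool.Agent.Lib.MP_97284c_gt
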