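import Pool.Agent.Lib.MP_97284c_gt.StmF

namespace Pool.Agent.Lib.MP_97284c_gt

private theorem p_F2_Lst_add (N : ℕ) (W : ℤ → ℂ) (p : ℂ) (η₁ η₂ : ℤ → ℂ) (ζ : ℂ) :
    Lst N W p (fun k => η₁ k + η₂ k) ζ = Lst N W p η₁ ζ + Lst N W p η₂ 0 := by
  unfold Lst
  have h : ∑ k ∈ Finset.range N, (cr (η₁ (k : ℤ) + η₂ k) (W ((k : ℤ) + 2)) +
      cr (W k) (η₁ ((k : ℤ) + 2) + η₂ ((k : ℤ) + 2))) =
      (∑ k ∈ Finset.range N, (cr (η₁ (k : ℤ)) (W ((k : ℤ) + 2)) + cr (W k) (η₁ ((k : ℤ) + 2)))) +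
      ∑ k ∈ Finset.range N, (cr (η₂ (k : ℤ)) (W ((k : ℤ) + 2)) + cr (W k) (η₂ ((k : ℤ) + 2))) := by
    rw [← Finset.sum_add_distrib]
    refine Finset.sum_congr rfl fun k _ => ?_
    unfold cr; simp only [Complex.add_re, Complex.add_im]; ring
  rw [h]
  unfold cr; simp only [Complex.add_re, Complex.add_im, Complex.zero_re, Complex.zero_im]; ring

private theorem p_F2_cr1 (s t₁ t₂ t₃ : ℝ) (A : ℂ) :
    cr ((s : ℂ) * (Complex.I * A)) (Complex.exp ((t₁ : ℂ) * Complex.I) * A
      + -(Complex.exp ((t₂ : ℂ) * Complex.I) * A) + A + -(Complex.exp ((t₃ : ℂ) * Complex.I) * A)) =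
      -s * (Real.cos t₁ - Real.cos t₂ + 1 - Real.cos t₃) * dt A A := by
  unfold cr dt
  simp only [Complex.mul_re, Complex.mul_im, Complex.add_re, Complex.add_im, Complex.neg_re, Complex.neg_im,
    exp_re, exp_im, Complex.I_re, Complex.I_im, Complex.ofReal_re, Complex.ofReal_im]
  ring

private theorem p_F2_cr2 (s t : ℝ) (A : ℂ) :
    cr ((s : ℂ) * (Complex.I * A)) (A + -(Complex.exp ((t : ℂ) * Complex.I) * A)) =
      -s * (1 - Real.cos t) * dt A A := by
  unfold cr dt
  simp only [Complex.mul_re, Complex.mul_im, Complex.add_re, Complex.add_im, Complex.neg_re, Complex.neg_im,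
    exp_re, exp_im, Complex.I_re, Complex.I_im, Complex.ofReal_re, Complex.ofReal_im]
  ring

private theorem p_F2_cr3 (s t₁ t₂ t₃ : ℝ) (A : ℂ) :
    cr ((s : ℂ) * (Complex.I * A)) (Complex.exp ((t₁ : ℂ) * Complex.I) * A
      + -A + Complex.exp ((t₂ : ℂ) * Complex.I) * A + -(Complex.exp ((t₃ : ℂ) * Complex.I) * A)) =
      -s * (Real.cos t₁ - 1 + Real.cos t₂ - Real.cos t₃) * dt A A := by
  unfold cr dt
  simp only [Complex.mul_re, Complex.mul_im, Complex.add_re, Complex.add_im, Complex.neg_re, Complex.neg_im,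
    exp_re, exp_im, Complex.I_re, Complex.I_im, Complex.ofReal_re, Complex.ofReal_im]
  ring

private theorem p_F2_dt1 (s t : ℝ) (A : ℂ) :
    dt (Complex.exp ((t : ℂ) * Complex.I) * A) ((s : ℂ) * (Complex.I * A)) = s * Real.sin t * dt A A := by
  unfold dt
  simp only [Complex.mul_re, Complex.mul_im, exp_re, exp_im, Complex.I_re, Complex.I_im,
    Complex.ofReal_re, Complex.ofReal_im]
  ring

private theorem p_F2_dt0 (s : ℝ) (A : ℂ) : dt A ((s : ℂ) * (Complex.I * A)) = 0 := by
  unfold dt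
  simp only [Complex.mul_re, Complex.mul_im, Complex.I_re, Complex.I_im,
    Complex.ofReal_re, Complex.ofReal_im]
  ring

private theorem p_F2_inv (t : ℝ) (a b : ℂ) (h : a = Complex.exp (t * Complex.I) * b) :
    b = Complex.exp (((-t : ℝ) : ℂ) * Complex.I) * a := by
  rw [h, ← mul_assoc, ← Complex.exp_add]
  simp

private theorem p_F2_exp_mul (s t : ℝ) (A : ℂ) :
    Complex.exp ((s : ℂ) * Complex.I) * (Complex.exp ((t : ℂ) * Complex.I) * A) =
      Complex.exp (((s + t : ℝ) : ℂ) * Complex.I) * A := by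
  rw [← mul_assoc, ← Complex.exp_add]; congr 2; push_cast; ring

private theorem p_F2_ndvd {N : ℕ} (hN : 5 ≤ N) {c : ℤ} (h0 : c ≠ 0) (h1 : -4 ≤ c) (h2 : c ≤ 4) :
    ¬ ((N : ℤ) ∣ c) := by
  rintro ⟨q, hq⟩
  have hN' : (5 : ℤ) ≤ N := by exact_mod_cast hN
  rcases lt_trichotomy q 0 with h | h | h
  · nlinarith
  · subst h; simp at hq; exact h0 hq
  · nlinarith

theorem p_F2 (hF0 : S_F0) (hFL : S_FL) : S_F2 := by
  intro N W p α bm bp hN h
  have _ := hF0
  set A : ℂ := W 0 - W (-1) with hA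
  set B : ℂ := W 1 - W 2 with hB
  have hAA : dt A A = 1 := by
    rw [dt_self]
    have := h.unit (-1)
    rw [show (-1 : ℤ) + 1 = 0 by norm_num] at this
    rw [this]; norm_num
  have hBB : dt B B = 1 := by
    rw [dt_self]
    have := h.unit 1
    rw [show (1 : ℤ) + 1 = 2 by norm_num, norm_sub_rev] at this
    rw [this]; norm_num
  -- differences of the vertices
  have r0 := h.rot 0
  have r1 := h.rot 1
  have r2 := h.rot 2
  have rm := h.rot (-1)
  rw [show (0 : ℤ) + 1 = 1 by norm_num, show (0 : ℤ) - 1 = -1 by norm_num] at r0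
  rw [show (1 : ℤ) + 1 = 2 by norm_num, show (1 : ℤ) - 1 = 0 by norm_num] at r1
  rw [show (2 : ℤ) + 1 = 3 by norm_num, show (2 : ℤ) - 1 = 1 by norm_num] at r2
  rw [show (-1 : ℤ) + 1 = 0 by norm_num, show (-1 : ℤ) - 1 = -2 by norm_num] at rm
  have h10 : W 1 - W 0 = -(Complex.exp ((α 0 : ℂ) * Complex.I) * A) := by
    rw [r0, hA]; ring
  have h21 : W 2 - W 1 = Complex.exp (((α 0 + α 1 : ℝ) : ℂ) * Complex.I) * A := by
    rw [r1, show α 0 + α 1 = α 1 + α 0 by ring, ← p_F2_exp_mul]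
    rw [show W 0 - W 1 = -(W 1 - W 0) by ring, h10]; ring
  have hm : W (-1) - W (-2) = -(Complex.exp (((-α (-1) : ℝ) : ℂ) * Complex.I) * A) := by
    have := p_F2_inv _ _ _ rm
    rw [show W (-1) - W (-2) = -(W (-2) - W (-1)) by ring, this]
  have k10 : W 1 - W 0 = Complex.exp (((-α 1 : ℝ) : ℂ) * Complex.I) * B := by
    have := p_F2_inv _ _ _ r1
    rw [show W 1 - W 0 = -(W 0 - W 1) by ring, this, hB]; ring
  have k32 : W 3 - W 2 = Complex.exp ((α 2 : ℂ) * Complex.I) * B := r2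
  have kp : W 0 - p = -(Complex.exp (((-bp + -α 1 : ℝ) : ℂ) * Complex.I) * B) := by
    have := p_F2_inv _ _ _ h.rotp
    rw [show W 0 - p = -(p - W 0) by ring, this, k10, p_F2_exp_mul]
  -- the key inequality
  have key : ∀ s₁ s₂ : ℝ, s₁ * Real.sin (α 0) - s₂ * Real.sin (α 1) ≤ 0 →
      s₁ * (Real.cos (α (-1)) - 2 + 2 * Real.cos (α 0) - Real.cos (α 0 + α 1)) -
        s₂ * (Real.cos (α 1) + Real.cos (α 2) - 1 - Real.cos (bp + α 1)) ≤ 0 := by
    intro s₁ s₂ hs
    set a : ℂ := (s₁ : ℂ) * (Complex.I * A) with ha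
    set b : ℂ := (s₂ : ℂ) * (Complex.I * B) with hb
    set η₁ : ℤ → ℂ := fun j => if (N : ℤ) ∣ j - 0 then a else 0 with hη₁
    set η₂ : ℤ → ℂ := fun j => if (N : ℤ) ∣ j - 1 then b else 0 with hη₂
    have hst := h.stat (fun k => η₁ k + η₂ k) a ?_ ?_ ?_
    · rw [p_F2_Lst_add, hη₁, hη₂, hFL N W p 0 a a hN h.Wper, hFL N W p 1 b 0 hN h.Wper] at hst
      rw [if_neg (p_F2_ndvd hN (by norm_num) (by norm_num) (by norm_num)),
        if_neg (p_F2_ndvd hN (by norm_num) (by norm_num) (by norm_num)),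
        if_neg (p_F2_ndvd hN (by norm_num) (by norm_num) (by norm_num)),
        if_pos (by norm_num : (N : ℤ) ∣ 1 - 1)] at hst
      rw [show (0 : ℤ) + 2 = 2 by norm_num, show (0 : ℤ) - 2 = -2 by norm_num,
        show (1 : ℤ) + 2 = 3 by norm_num, show (1 : ℤ) - 2 = -1 by norm_num] at hst
      have e1 : cr a (W 2 - W (-2)) = -s₁ * (Real.cos (α 0 + α 1) - Real.cos (α 0) + 1 - Real.cos (-α (-1))) := by
        have : W 2 - W (-2) = Complex.exp (((α 0 + α 1 : ℝ) : ℂ) * Complex.I) * A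
            + -(Complex.exp ((α 0 : ℂ) * Complex.I) * A) + A
            + -(Complex.exp (((-α (-1) : ℝ) : ℂ) * Complex.I) * A) := by
          rw [← h21, ← h10, ← hm, hA]; ring
        rw [this, ha, p_F2_cr1, hAA, mul_one]
      have e2 : cr a (W 1 - W (-1)) = -s₁ * (1 - Real.cos (α 0)) := by
        have : W 1 - W (-1) = A + -(Complex.exp ((α 0 : ℂ) * Complex.I) * A) := by
          rw [← h10, hA]; ring
        rw [this, ha, p_F2_cr2, hAA, mul_one]
      have e3 : cr b (W 3 - W (-1)) + cr b (W (-1) - p) =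
          -s₂ * (Real.cos (α 2) - 1 + Real.cos (-α 1) - Real.cos (-bp + -α 1)) := by
        have h1 : cr b (W 3 - W (-1)) + cr b (W (-1) - p) = cr b (W 3 - p) := by
          unfold cr; simp only [Complex.sub_re, Complex.sub_im]; ring
        have h2 : W 3 - p = Complex.exp ((α 2 : ℂ) * Complex.I) * B
            + -B + Complex.exp (((-α 1 : ℝ) : ℂ) * Complex.I) * B
            + -(Complex.exp (((-bp + -α 1 : ℝ) : ℂ) * Complex.I) * B) := by
          rw [← k32, ← k10, ← kp, hB]; ring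
        rw [h1, h2, hb, p_F2_cr3, hBB, mul_one]
      have e4 : cr (0 : ℂ) (W 1 - W (-1)) = 0 := by unfold cr; simp
      rw [Real.cos_neg] at e1 e3
      rw [show -bp + -α 1 = -(bp + α 1) by ring, Real.cos_neg] at e3
      rw [e4] at hst
      linarith
    · intro k
      show η₁ (k + N) + η₂ (k + N) = η₁ k + η₂ k
      have c1 : (N : ℤ) ∣ k + N - 0 ↔ (N : ℤ) ∣ k - 0 := by
        rw [show k + (N : ℤ) - 0 = k - 0 + N by ring]; exact dvd_add_self_right
      have c2 : (N : ℤ) ∣ k + N - 1 ↔ (N : ℤ) ∣ k - 1 := by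
        rw [show k + (N : ℤ) - 1 = k - 1 + N by ring]; exact dvd_add_self_right
      simp only [hη₁, hη₂, c1, c2]
    · intro k
      show dt (W (k + 1) - W k) (η₁ (k + 1) + η₂ (k + 1) - (η₁ k + η₂ k)) ≤ 0
      by_cases c0 : (N : ℤ) ∣ k
      · obtain ⟨q, hq⟩ := c0
        have w0 : W k = W 0 := by
          rw [hq, show (N : ℤ) * q = 0 + q * N by ring]; exact per_mul W h.Wper 0 q
        have w1 : W (k + 1) = W 1 := by
          rw [hq, show (N : ℤ) * q + 1 = 1 + q * N by ring]; exact per_mul W h.Wper 1 q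
        have d1 : ¬ ((N : ℤ) ∣ k + 1 - 0) := by
          intro hd
          have : (N : ℤ) ∣ 1 := by
            have h3 := dvd_sub hd (Dvd.intro q rfl : (N : ℤ) ∣ (N : ℤ) * q)
            rwa [hq, show (N : ℤ) * q + 1 - 0 - (N : ℤ) * q = 1 by ring] at h3
          exact p_F2_ndvd hN (by norm_num) (by norm_num) (by norm_num) this
        have d2 : (N : ℤ) ∣ k + 1 - 1 := ⟨q, by rw [hq]; ring⟩
        have d3 : (N : ℤ) ∣ k - 0 := ⟨q, by rw [hq]; ring⟩
        have d4 : ¬ ((N : ℤ) ∣ k - 1) := by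
          intro hd
          have : (N : ℤ) ∣ -1 := by
            have h3 := dvd_sub hd (Dvd.intro q rfl : (N : ℤ) ∣ (N : ℤ) * q)
            rwa [hq, show (N : ℤ) * q - 1 - (N : ℤ) * q = -1 by ring] at h3
          exact p_F2_ndvd hN (by norm_num) (by norm_num) (by norm_num) this
        simp only [hη₁, hη₂, if_neg d1, if_pos d2, if_pos d3, if_neg d4, w0, w1]
        have f1 : dt (W 1 - W 0) (0 + b - (a + 0)) = dt (W 1 - W 0) b - dt (W 1 - W 0) a := by
          unfold dt; simp only [Complex.sub_re, Complex.sub_im, Complex.add_re, Complex.add_im,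
            Complex.zero_re, Complex.zero_im]; ring
        have f2 : dt (W 1 - W 0) b = s₂ * Real.sin (-α 1) := by
          rw [k10, hb, p_F2_dt1, hBB, mul_one]
        have f3 : dt (W 1 - W 0) a = -(s₁ * Real.sin (α 0)) := by
          have : dt (-(Complex.exp ((α 0 : ℂ) * Complex.I) * A)) a =
              -dt (Complex.exp ((α 0 : ℂ) * Complex.I) * A) a := by
            unfold dt; simp only [Complex.neg_re, Complex.neg_im]; ring
          rw [h10, this, ha, p_F2_dt1, hAA, mul_one]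
        rw [f1, f2, f3, Real.sin_neg]
        linarith
      · by_cases c1 : (N : ℤ) ∣ k + 1
        · obtain ⟨q, hq⟩ := c1
          have hk : k = N * q - 1 := by linarith
          have w0 : W k = W (-1) := by
            rw [hk, show (N : ℤ) * q - 1 = -1 + q * N by ring]; exact per_mul W h.Wper (-1) q
          have w1 : W (k + 1) = W 0 := by
            rw [hk, show (N : ℤ) * q - 1 + 1 = 0 + q * N by ring]; exact per_mul W h.Wper 0 q
          have d1 : (N : ℤ) ∣ k + 1 - 0 := ⟨q, by rw [hk]; ring⟩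
          have d2 : ¬ ((N : ℤ) ∣ k + 1 - 1) := by
            rwa [show k + 1 - 1 = k by ring]
          have d3 : ¬ ((N : ℤ) ∣ k - 0) := by rwa [sub_zero]
          have d4 : ¬ ((N : ℤ) ∣ k - 1) := by
            intro hd
            have : (N : ℤ) ∣ -2 := by
              have h3 := dvd_sub hd (Dvd.intro q rfl : (N : ℤ) ∣ (N : ℤ) * q)
              rwa [hk, show (N : ℤ) * q - 1 - 1 - (N : ℤ) * q = -2 by ring] at h3
            exact p_F2_ndvd hN (by norm_num) (by norm_num) (by norm_num) this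
          simp only [hη₁, hη₂, if_pos d1, if_neg d2, if_neg d3, if_neg d4, w0, w1]
          rw [show a + 0 - (0 + 0) = a by ring, ← hA, ha, p_F2_dt0]
        · by_cases c2 : (N : ℤ) ∣ k - 1
          · obtain ⟨q, hq⟩ := c2
            have hk : k = N * q + 1 := by linarith
            have w0 : W k = W 1 := by
              rw [hk, show (N : ℤ) * q + 1 = 1 + q * N by ring]; exact per_mul W h.Wper 1 q
            have w1 : W (k + 1) = W 2 := by
              rw [hk, show (N : ℤ) * q + 1 + 1 = 2 + q * N by ring]; exact per_mul W h.Wper 2 q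
            have d1 : ¬ ((N : ℤ) ∣ k + 1 - 0) := by rwa [sub_zero]
            have d2 : ¬ ((N : ℤ) ∣ k + 1 - 1) := by
              rwa [show k + 1 - 1 = k by ring]
            have d3 : ¬ ((N : ℤ) ∣ k - 0) := by rwa [sub_zero]
            have d4 : (N : ℤ) ∣ k - 1 := ⟨q, by rw [hk]; ring⟩
            simp only [hη₁, hη₂, if_neg d1, if_neg d2, if_neg d3, if_pos d4, w0, w1]
            have f1 : dt (W 2 - W 1) (0 + 0 - (0 + b)) = dt B b := by
              rw [hB]
              unfold dt; simp only [Complex.sub_re, Complex.sub_im, Complex.add_re, Complex.add_im,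
                Complex.zero_re, Complex.zero_im]; ring
            rw [f1, hb, p_F2_dt0]
          · have d1 : ¬ ((N : ℤ) ∣ k + 1 - 0) := by rwa [sub_zero]
            have d2 : ¬ ((N : ℤ) ∣ k + 1 - 1) := by
              rwa [show k + 1 - 1 = k by ring]
            have d3 : ¬ ((N : ℤ) ∣ k - 0) := by rwa [sub_zero]
            simp only [hη₁, hη₂, if_neg d1, if_neg d2, if_neg d3, if_neg c2]
            unfold dt; simp
    · show dt (p - W 0) (a - (η₁ 0 + η₂ 0)) ≤ 0
      have d1 : (N : ℤ) ∣ 0 - 0 := by simp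
      have d2 : ¬ ((N : ℤ) ∣ 0 - 1) := p_F2_ndvd hN (by norm_num) (by norm_num) (by norm_num)
      simp only [hη₁, hη₂, if_pos d1, if_neg d2]
      unfold dt; simp
  have hα0 : 0 < Real.sin (α 0) := by
    have h1 := h.αpos 0
    have h2 := h.α0
    have h3 := h.bm1
    have h4 := h.bp1
    refine Real.sin_pos_of_pos_of_lt_pi h1 ?_
    have := Real.pi_pos
    linarith
  have hα1 : 0 < Real.sin (α 1) := by
    have h1 := h.αpos 1
    have h2 := h.αlt 1 (p_F2_ndvd hN (by norm_num) (by norm_num) (by norm_num))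
    refine Real.sin_pos_of_pos_of_lt_pi h1 ?_
    have := Real.pi_pos
    linarith
  refine ⟨?_, ?_, ?_⟩
  · have := key (-1) 0 (by linarith)
    linarith
  · have := key 0 1 (by linarith)
    linarith
  · have k1 := key (Real.sin (α 1)) (Real.sin (α 0)) (by linarith [mul_comm (Real.sin (α 1)) (Real.sin (α 0))])
    have k2 := key (-Real.sin (α 1)) (-Real.sin (α 0)) (by linarith [mul_comm (Real.sin (α 1)) (Real.sin (α 0))])
    linarith

end Pool.Agent.Lib.MP_97284c_gt
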