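import Pool.Agent.Lib.MP_97284c_gt.StmF

namespace Pool.Agent.Lib.MP_97284c_gt

private theorem p_F3_cr_conj (a b : ℂ) :
    cr ((starRingEnd ℂ) a) ((starRingEnd ℂ) b) = cr b a := by
  unfold cr; simp only [Complex.conj_re, Complex.conj_im]; ring

private theorem p_F3_dt_conj (a b : ℂ) :
    dt ((starRingEnd ℂ) a) ((starRingEnd ℂ) b) = dt a b := by
  unfold dt; simp only [Complex.conj_re, Complex.conj_im]; ring

private theorem p_F3_conj_exp (t : ℝ) (a b : ℂ) (h : a = Complex.exp (t * Complex.I) * b) :
    (starRingEnd ℂ) b = Complex.exp (t * Complex.I) * (starRingEnd ℂ) a := by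
  rw [h, map_mul, ← Complex.exp_conj, map_mul, Complex.conj_I, Complex.conj_ofReal, ← mul_assoc,
    ← Complex.exp_add]
  simp

private theorem p_F3_Lst (N : ℕ) (W η : ℤ → ℂ) (p ζ : ℂ) (hW : ∀ k, W (k + N) = W k)
    (hη : ∀ k, η (k + N) = η k) :
    Lst N (fun k => (starRingEnd ℂ) (W (-k))) ((starRingEnd ℂ) p) (fun k => (starRingEnd ℂ) (η (-k)))
      ((starRingEnd ℂ) ζ) = Lst N W p η ζ := by
  unfold Lst
  simp only [p_F3_cr_conj, neg_neg]
  have hg : ∀ k : ℤ, (fun j : ℤ => cr (W (j - 2)) (η j) + cr (η (j - 2)) (W j)) (k + N) =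
      (fun j : ℤ => cr (W (j - 2)) (η j) + cr (η (j - 2)) (W j)) k := by
    intro k
    simp only
    rw [hW, hη, show k + (N : ℤ) - 2 = k - 2 + N by ring, hW, hη]
  have h1 := psum_neg (N := N) (fun j : ℤ => cr (W (j - 2)) (η j) + cr (η (j - 2)) (W j)) hg
  have h2 := psum_shift (N := N) (fun j : ℤ => cr (W (j - 2)) (η j) + cr (η (j - 2)) (W j)) hg 2
  have h3 : ∑ k ∈ Finset.range N, (cr (W (-((k : ℤ) + 2))) (η (-(k : ℤ))) +
      cr (η (-((k : ℤ) + 2))) (W (-(k : ℤ)))) =
      ∑ k ∈ Finset.range N, (cr (η (k : ℤ)) (W ((k : ℤ) + 2)) + cr (W (k : ℤ)) (η ((k : ℤ) + 2))) := by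
    have e1 : ∑ k ∈ Finset.range N, (cr (W (-((k : ℤ) + 2))) (η (-(k : ℤ))) +
      cr (η (-((k : ℤ) + 2))) (W (-(k : ℤ)))) =
        ∑ k ∈ Finset.range N, (fun j : ℤ => cr (W (j - 2)) (η j) + cr (η (j - 2)) (W j)) (-(k : ℤ)) := by
      refine Finset.sum_congr rfl fun k _ => ?_
      simp only
      rw [show -((k : ℤ) + 2) = -(k : ℤ) - 2 by ring]
    rw [e1, h1, ← h2]
    refine Finset.sum_congr rfl fun k _ => ?_
    try simp only
    rw [show (k : ℤ) + 2 - 2 = k by ring]
    ring
  rw [h3]
  ring

theorem p_F3 (hF2 : S_F2) : S_F3 := by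
  intro N W p α bm bp hN h
  have hSD : SD N (fun k => (starRingEnd ℂ) (W (-k))) ((starRingEnd ℂ) p) (fun k => α (-k)) bp bm := by
    have hWper' : ∀ k : ℤ, W (-(k + N)) = W (-k) := fun k => by
      have := h.Wper (-(k + N))
      rw [show -(k + (N : ℤ)) + N = -k by ring] at this
      exact this.symm
    refine
      { Wper := ?_, αper := ?_, unit := ?_, unitp := ?_, rot := ?_, rotm := ?_, rotp := ?_, α0 := ?_,
        bm0 := h.bp0, bm1 := h.bp1, bp0 := h.bm0, bp1 := h.bm1, αpos := fun k => h.αpos _,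
        αlt := ?_, sum := ?_, two := ?_, twop := ?_, twom := ?_, stat := ?_ }
    · intro k
      try simp only
      rw [hWper']
    · intro k
      try simp only
      have := h.αper (-(k + N))
      rw [show -(k + (N : ℤ)) + N = -k by ring] at this
      exact this.symm
    · intro k
      try simp only
      rw [← map_sub, RCLike.norm_conj, norm_sub_rev]
      have := h.unit (-(k + 1))
      rw [show -(k + 1) + 1 = -k by ring] at this
      exact this
    · simp only [neg_zero]
      rw [← map_sub, RCLike.norm_conj]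
      exact h.unitp
    · intro k
      try simp only
      rw [← map_sub, ← map_sub]
      have := h.rot (-k)
      rw [show -k + 1 = -(k - 1) by ring, show -k - 1 = -(k + 1) by ring] at this
      exact p_F3_conj_exp _ _ _ this
    · simp only [neg_zero, neg_neg]
      rw [← map_sub, ← map_sub]
      exact p_F3_conj_exp _ _ _ h.rotp
    · simp only [neg_zero]
      rw [← map_sub, ← map_sub]
      exact p_F3_conj_exp _ _ _ h.rotm
    · simp only [neg_zero]
      rw [h.α0]; ring
    · intro k hk
      try simp only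
      refine h.αlt (-k) ?_
      rwa [dvd_neg]
    · have := psum_neg α h.αper
      rw [this]
      exact h.sum
    · intro k hk hk1
      try simp only
      have e1 : -(k + 1) + 1 = -k := by ring
      have h3 := h.two (-(k + 1)) (by rwa [dvd_neg]) (by rw [e1]; rwa [dvd_neg])
      rw [e1] at h3
      linarith
    · exact h.twom
    · have := h.twop
      simpa using this
    · intro η ζ hη hd hζ
      have hη' : ∀ k : ℤ, (fun k => (starRingEnd ℂ) (η (-k))) (k + N) = (fun k => (starRingEnd ℂ) (η (-k))) k := by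
        intro k
        simp only
        have := hη (-(k + N))
        rw [show -(k + (N : ℤ)) + N = -k by ring] at this
        rw [this]
      have hst := h.stat (fun k => (starRingEnd ℂ) (η (-k))) ((starRingEnd ℂ) ζ) hη' ?_ ?_
      · have hL := p_F3_Lst N W (fun k => (starRingEnd ℂ) (η (-k))) p ((starRingEnd ℂ) ζ) h.Wper hη'
        simp only [neg_neg, Complex.conj_conj] at hL
        rw [hL]
        exact hst
      · intro k
        try simp only
        have := hd (-(k + 1))
        simp only [neg_neg] at this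
        rw [show -(-(k + 1) + 1) = k by ring, show -(k + 1) + 1 = -k by ring] at this
        have e1 : W (k + 1) - W k = (starRingEnd ℂ) ((starRingEnd ℂ) (W (k + 1)) - (starRingEnd ℂ) (W k)) := by
          simp
        rw [e1, ← map_sub (starRingEnd ℂ) (η (-(k + 1))) (η (-k)), p_F3_dt_conj]
        have e2 : dt ((starRingEnd ℂ) (W (k + 1)) - (starRingEnd ℂ) (W k)) (η (-(k + 1)) - η (-k)) =
            dt ((starRingEnd ℂ) (W k) - (starRingEnd ℂ) (W (k + 1))) (η (-k) - η (-(k + 1))) := by
          unfold dt; simp only [Complex.sub_re, Complex.sub_im]; ring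
        rw [e2]
        exact this
      · simp only [neg_zero] at hζ ⊢
        have e1 : p - W 0 = (starRingEnd ℂ) ((starRingEnd ℂ) p - (starRingEnd ℂ) (W 0)) := by
          simp
        rw [e1, ← map_sub (starRingEnd ℂ) ζ (η 0), p_F3_dt_conj]
        exact hζ
  have h2 := hF2 N _ _ _ _ _ hN hSD
  simp only [neg_neg, neg_zero] at h2
  exact h2

end Pool.Agent.Lib.MP_97284c_gt
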