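import Pool.Agent.Lib.MP_97284c_gt.StmF

/-! [F4] The numbers `u k`. -/

namespace Pool.Agent.Lib.MP_97284c_gt

private theorem p_F4_core (u S T s t P Q X Y : ℝ) (hS : 0 < S) (h1 : 4 * u * S = X)
    (hX : X = S * (s + t) - P) (hY : Y = T * (s + t) - Q) (hP : 0 ≤ P) (h : P * T = Q * S) :
    4 * u * T = Y ∧ u ≤ (s + t) / 4 := by
  constructor
  · have h2 : (4 * u * T) * S = Y * S := by
      calc (4 * u * T) * S = (4 * u * S) * T := by ring
        _ = (S * (s + t) - P) * T := by rw [h1, hX]
        _ = (T * (s + t)) * S - P * T := by ring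
        _ = Y * S := by rw [h, hY]; ring
    exact mul_right_cancel₀ hS.ne' h2
  · have h2 : (4 * u - (s + t)) * S ≤ 0 := by
      have : (4 * u - (s + t)) * S = 4 * u * S - S * (s + t) := by ring
      rw [this, h1, hX]; linarith
    by_contra hcon
    have h3 : 0 < 4 * u - (s + t) := by linarith [not_le.1 hcon]
    nlinarith [mul_pos h3 hS]

theorem p_F4 (hF0 : S_F0) (hF1 : S_F1) (hF2 : S_F2) (hF3 : S_F3) : S_F4 := by
  intro N W p α bm bp hN hSD
  have hb0 : bm = bp := hF0 N W p α bm bp hN hSD
  have hpi : 0 < Real.pi := Real.pi_pos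
  have hα0 : α 0 = 2 * bp := by rw [hSD.α0, hb0]; ring
  have hαN : ∀ k j : ℤ, (N : ℤ) ∣ k → α (k + j) = α j := by
    rintro k j ⟨q, rfl⟩
    have := per_mul α hSD.αper j q
    rw [← this]; congr 1; ring
  have hαN0 : ∀ k : ℤ, (N : ℤ) ∣ k → α k = α 0 := fun k hk => by
    have := hαN k 0 hk; rwa [add_zero] at this
  have hsin : ∀ k, 0 < Real.sin (α k) := by
    intro k
    refine Real.sin_pos_of_pos_of_lt_pi (hSD.αpos k) ?_
    by_cases hk : (N : ℤ) ∣ k
    · rw [hαN0 k hk, hα0]; linarith [hSD.bp1]
    · linarith [hSD.αlt k hk]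
  have hbper : ∀ k, hb N α (k + N) = hb N α k := by
    intro k
    unfold hb
    rw [hSD.αper]
    by_cases hk : (N : ℤ) ∣ k
    · rw [if_pos hk, if_pos (by simpa using hk)]
    · rw [if_neg hk, if_neg (by simpa using hk)]
  have hN' : (5 : ℤ) ≤ N := by exact_mod_cast hN
  refine ⟨fun k => ((2 + Real.cos (hb N α k) - Real.cos (hb N α (k - 1)))
      - (2 + Real.cos (hb N α k) - Real.cos (hb N α (k + 1))) * Real.cos (α k)) /
      (4 * Real.sin (α k)), ?_, ?_⟩
  · intro k
    have e1 : hb N α (k + N - 1) = hb N α (k - 1) := by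
      rw [← hbper (k - 1)]; congr 1; ring
    have e2 : hb N α (k + N + 1) = hb N α (k + 1) := by
      rw [← hbper (k + 1)]; congr 1; ring
    simp only [hbper, hSD.αper, e1, e2]
  · intro k
    beta_reduce
    have h1 : 4 * (((2 + Real.cos (hb N α k) - Real.cos (hb N α (k - 1)))
      - (2 + Real.cos (hb N α k) - Real.cos (hb N α (k + 1))) * Real.cos (α k)) /
      (4 * Real.sin (α k))) * Real.sin (α k) = (2 + Real.cos (hb N α k) - Real.cos (hb N α (k - 1)))
      - (2 + Real.cos (hb N α k) - Real.cos (hb N α (k + 1))) * Real.cos (α k) := by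
      have := (hsin k).ne'
      field_simp
    refine ⟨h1, ?_⟩
    generalize ((2 + Real.cos (hb N α k) - Real.cos (hb N α (k - 1)))
      - (2 + Real.cos (hb N α k) - Real.cos (hb N α (k + 1))) * Real.cos (α k)) /
      (4 * Real.sin (α k)) = u at h1 ⊢
    by_cases hk : (N : ℤ) ∣ k
    · -- bond `k ≡ 0`
      have hk1 : ¬ (N : ℤ) ∣ k + 1 := fun h => by
        have := (Int.dvd_sub h hk); rw [show k + 1 - k = 1 by ring] at this
        have := Int.le_of_dvd one_pos this; omega
      have hk2 : ¬ (N : ℤ) ∣ k + 2 := fun h => by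
        have := (Int.dvd_sub h hk); rw [show k + 2 - k = 2 by ring] at this
        have := Int.le_of_dvd two_pos this; omega
      have hkm : ¬ (N : ℤ) ∣ k - 1 := fun h => by
        have := (Int.dvd_sub hk h); rw [show k - (k - 1) = 1 by ring] at this
        have := Int.le_of_dvd one_pos this; omega
      have f0 : α k = α 0 := hαN0 k hk
      have f1 : α (k + 1) = α 1 := hαN k 1 hk
      have f2 : α (k + 2) = α 2 := hαN k 2 hk
      have fm : α (k - 1) = α (-1) := hαN k (-1) hk
      have g0 : hb N α k = bp := by rw [hb, if_pos hk, f0, hα0]; ring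
      have g1 : hb N α (k + 1) = α 1 := by rw [hb, if_neg hk1, f1]
      have g2 : hb N α (k + 2) = α 2 := by rw [hb, if_neg hk2, f2]
      have gm : hb N α (k - 1) = α (-1) := by rw [hb, if_neg hkm, fm]
      obtain ⟨hP, hQ, hPQ⟩ := hF2 N W p α bm bp hN hSD
      rw [g0, g1, gm, f0] at h1
      rw [g0, g1, g2, f1]
      have hS := hsin 0
      refine p_F4_core u (Real.sin (α 0)) (Real.sin (α 1)) (Real.sin bp) (Real.sin (α 1)) _ _ _ _
        hS h1 ?_ ?_ hP hPQ
      · rw [Real.cos_add, hα0, Real.cos_two_mul, Real.sin_two_mul]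
        have := Real.sin_sq_add_cos_sq bp
        have h3 : Real.sin bp ^ 2 = 1 - Real.cos bp ^ 2 := by linarith
        linear_combination (-2 * Real.cos bp) * h3
      · rw [Real.cos_add]
        have := Real.sin_sq_add_cos_sq (α 1)
        have h3 : Real.sin (α 1) ^ 2 = 1 - Real.cos (α 1) ^ 2 := by linarith
        linear_combination (-1) * h3
    · by_cases hk1 : (N : ℤ) ∣ k + 1
      · -- bond `k ≡ -1`
        have hk2 : ¬ (N : ℤ) ∣ k + 2 := fun h => by
          have := (Int.dvd_sub h hk1); rw [show k + 2 - (k + 1) = 1 by ring] at this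
          have := Int.le_of_dvd one_pos this; omega
        have hkm : ¬ (N : ℤ) ∣ k - 1 := fun h => by
          have := (Int.dvd_sub hk1 h); rw [show k + 1 - (k - 1) = 2 by ring] at this
          have := Int.le_of_dvd two_pos this; omega
        have f1 : α (k + 1) = α 0 := hαN0 (k + 1) hk1
        have f0 : α k = α (-1) := by
          have := hαN (k + 1) (-1) hk1; rwa [show k + 1 + -1 = k by ring] at this
        have f2 : α (k + 2) = α 1 := by
          have := hαN (k + 1) 1 hk1; rwa [show k + 1 + 1 = k + 2 by ring] at this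
        have fm : α (k - 1) = α (-2) := by
          have := hαN (k + 1) (-2) hk1; rwa [show k + 1 + -2 = k - 1 by ring] at this
        have g0 : hb N α k = α (-1) := by rw [hb, if_neg hk, f0]
        have g1 : hb N α (k + 1) = bp := by rw [hb, if_pos hk1, f1, hα0]; ring
        have g2 : hb N α (k + 2) = α 1 := by rw [hb, if_neg hk2, f2]
        have gm : hb N α (k - 1) = α (-2) := by rw [hb, if_neg hkm, fm]
        obtain ⟨hP, hQ, hPQ⟩ := hF3 N W p α bm bp hN hSD
        rw [hb0] at hQ hPQ
        rw [g0, g1, gm, f0] at h1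
        rw [g0, g1, g2, f1]
        have hS := hsin (-1)
        refine p_F4_core u (Real.sin (α (-1))) (Real.sin (α 0)) (Real.sin (α (-1))) (Real.sin bp)
          _ _ _ _ hS h1 ?_ ?_ hQ hPQ.symm
        · rw [Real.cos_add]
          have := Real.sin_sq_add_cos_sq (α (-1))
          have h3 : Real.sin (α (-1)) ^ 2 = 1 - Real.cos (α (-1)) ^ 2 := by linarith
          linear_combination (-1) * h3
        · rw [Real.cos_add, hα0, Real.cos_two_mul, Real.sin_two_mul]
          have := Real.sin_sq_add_cos_sq bp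
          have h3 : Real.sin bp ^ 2 = 1 - Real.cos bp ^ 2 := by linarith
          linear_combination (-2 * Real.cos bp) * h3
      · -- generic bond
        have g0 : hb N α k = α k := by rw [hb, if_neg hk]
        have g1 : hb N α (k + 1) = α (k + 1) := by rw [hb, if_neg hk1]
        obtain ⟨hP, hQ, hPQ⟩ := hF1 N W p α bm bp hN hSD k hk hk1
        rw [g0] at hP hPQ h1 ⊢
        rw [g1] at hPQ h1 ⊢
        have hS := hsin k
        refine p_F4_core u (Real.sin (α k)) (Real.sin (α (k + 1))) (Real.sin (α k))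
          (Real.sin (α (k + 1))) _ _ _ _ hS h1 ?_ ?_ hP hPQ
        · rw [Real.cos_add]
          have := Real.sin_sq_add_cos_sq (α k)
          have h3 : Real.sin (α k) ^ 2 = 1 - Real.cos (α k) ^ 2 := by linarith
          linear_combination (-1) * h3
        · rw [Real.cos_add]
          have := Real.sin_sq_add_cos_sq (α (k + 1))
          have h3 : Real.sin (α (k + 1)) ^ 2 = 1 - Real.cos (α (k + 1)) ^ 2 := by linarith
          linear_combination (-1) * h3

end Pool.Agent.Lib.MP_97284c_gt
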