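import Pool.Agent.Lib.MP_97284c_gt.StmF

/-! [F5] The numbers `u k` are positive. -/

namespace Pool.Agent.Lib.MP_97284c_gt

theorem p_F5_not {N : ℕ} (hN : 5 ≤ N) {k : ℤ} (h : (N : ℤ) ∣ k) : ¬ (N : ℤ) ∣ k + 1 := by
  intro h2
  have h3 : (N : ℤ) ∣ 1 := by
    have := dvd_sub h2 h
    rwa [add_sub_cancel_left] at this
  have := Int.le_of_dvd one_pos h3
  omega

/-- the generic inequality -/
theorem p_F5_gen {c c' c'' : ℝ} (hc0 : 0 < c) (hc1 : c < 1) (hcc : c ≤ c') (h'' : c'' < 1) :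
    0 < (2 + c - c'') - (2 + c - c') * c := by
  have : (2 + c - c'') - (2 + c - c') * c = (2 * (1 - c) + (c - c'')) + c * (c' - c) := by ring
  rw [this]
  have h1 : 0 ≤ c * (c' - c) := mul_nonneg hc0.le (by linarith)
  linarith

/-- the inequality at the double node -/
theorem p_F5_dbl {c c' c'' : ℝ} (hc0 : 0 < c) (hc1 : c < 1) (hcc : c ≤ c') (h' : c' < 1)
    (h'' : c'' < 1) : 0 < (2 + c - c'') - (2 + c - c') * (2 * c ^ 2 - 1) := by
  have e : (2 + c - c'') - (2 + c - c') * (2 * c ^ 2 - 1) =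
      (2 + c - c') * (2 * (1 - c) * (1 + c)) + (c' - c'') := by ring
  rw [e]
  have h1 : (1 + c) * (2 * (1 - c) * (1 + c)) ≤ (2 + c - c') * (2 * (1 - c) * (1 + c)) := by
    apply mul_le_mul_of_nonneg_right (by linarith)
    have : 0 < 1 - c := by linarith
    positivity
  have h2 : 0 < (1 - c) * (2 * (1 + c) ^ 2 - 1) := by
    apply mul_pos (by linarith)
    nlinarith
  nlinarith

theorem p_F5 : S_F5 := by
  intro N α u hN hα hh h1 h2 k
  have hb0 : ∀ k, 0 < hb N α k := by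
    intro k
    unfold hb
    split_ifs
    · linarith [(hα k).1]
    · exact (hα k).1
  have hc0 : ∀ k, 0 < Real.cos (hb N α k) := fun k =>
    Real.cos_pos_of_mem_Ioo ⟨by linarith [hb0 k, Real.pi_pos], hh k⟩
  have hc1 : ∀ k, Real.cos (hb N α k) < 1 := by
    intro k
    have h3 := Real.cos_lt_cos_of_nonneg_of_le_pi_div_two le_rfl (hh k).le (hb0 k)
    rwa [Real.cos_zero] at h3
  have hs : ∀ k, 0 < Real.sin (α k) := fun k => Real.sin_pos_of_pos_of_lt_pi (hα k).1 (hα k).2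
  have hgen : ∀ k, ¬ (N : ℤ) ∣ k → Real.cos (α k) = Real.cos (hb N α k) := by
    intro k hk
    unfold hb
    rw [if_neg hk]
  have hdbl : ∀ k, (N : ℤ) ∣ k → Real.cos (α k) = 2 * Real.cos (hb N α k) ^ 2 - 1 := by
    intro k hk
    unfold hb
    rw [if_pos hk, ← Real.cos_two_mul]
    congr 1
    ring
  have hfin1 : 0 < 4 * u k * Real.sin (α k) → 0 < u k := by
    intro h
    have h4 : 0 < 4 * u k := by
      by_contra hc
      exact absurd h (not_lt.2 (mul_nonpos_of_nonpos_of_nonneg (not_lt.1 hc) (hs k).le))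
    linarith
  have hfin2 : 0 < 4 * u k * Real.sin (α (k + 1)) → 0 < u k := by
    intro h
    have h4 : 0 < 4 * u k := by
      by_contra hc
      exact absurd h (not_lt.2 (mul_nonpos_of_nonpos_of_nonneg (not_lt.1 hc) (hs (k + 1)).le))
    linarith
  rcases le_or_gt (Real.cos (hb N α k)) (Real.cos (hb N α (k + 1))) with hcc | hcc
  · apply hfin1
    rw [h1 k]
    by_cases hk : (N : ℤ) ∣ k
    · rw [hdbl k hk]
      exact p_F5_dbl (hc0 k) (hc1 k) hcc (hc1 (k + 1)) (hc1 (k - 1))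
    · rw [hgen k hk]
      exact p_F5_gen (hc0 k) (hc1 k) hcc (hc1 (k - 1))
  · apply hfin2
    rw [h2 k]
    by_cases hk : (N : ℤ) ∣ k + 1
    · rw [hdbl (k + 1) hk]
      exact p_F5_dbl (hc0 (k + 1)) (hc1 (k + 1)) hcc.le (hc1 k) (hc1 (k + 2))
    · rw [hgen (k + 1) hk]
      exact p_F5_gen (hc0 (k + 1)) (hc1 (k + 1)) hcc.le (hc1 (k + 2))

end Pool.Agent.Lib.MP_97284c_gt
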