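import Pool.Agent.Lib.MP_97284c_gt.StmF

/-! [F6] The point `O`. -/

namespace Pool.Agent.Lib.MP_97284c_gt

/-- the angles of a stationary star are in `(0, π)` -/
theorem p_F6_lt {N : ℕ} {W : ℤ → ℂ} {p : ℂ} {α : ℤ → ℝ} {bm bp : ℝ} (h : SD N W p α bm bp)
    (k : ℤ) : α k < Real.pi := by
  have hpi := Real.pi_pos
  by_cases hk : (N : ℤ) ∣ k
  · obtain ⟨t, rfl⟩ := hk
    have h1 := per_mul α h.αper 0 t
    rw [zero_add] at h1
    rw [mul_comm, h1, h.α0]
    linarith [h.bm1, h.bp1]
  · have := h.αlt k hk
    linarith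

theorem p_F6 : S_F6 := by
  intro N W p α bm bp u _ hS h1 h2
  set x : ℤ → ℝ := fun k => 1 / 2 + (Real.cos (hb N α k) - Real.cos (hb N α (k + 1))) / 4 with hx
  set Q : ℤ → ℂ := fun k => W k + ((x k : ℂ) - Complex.I * (u k : ℂ)) * (W (k + 1) - W k) with hQ
  have step : ∀ k, Q (k + 1) = Q k := by
    intro k
    have hrot := hS.rot (k + 1)
    rw [add_sub_cancel_right] at hrot
    have hs : 0 < Real.sin (α (k + 1)) :=
      Real.sin_pos_of_pos_of_lt_pi (hS.αpos _) (p_F6_lt hS _)
    have e1 := h1 (k + 1)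
    have e2 := h2 k
    rw [add_sub_cancel_right, show k + 1 + 1 = k + 2 by ring] at e1
    have r1 : x (k + 1) * Real.cos (α (k + 1)) + u (k + 1) * Real.sin (α (k + 1)) = 1 - x k := by
      simp only [hx]
      rw [show k + 1 + 1 = k + 2 by ring]
      linarith
    have r2 : u k * Real.sin (α (k + 1)) = x (k + 1) - (1 - x k) * Real.cos (α (k + 1)) := by
      simp only [hx]
      rw [show k + 1 + 1 = k + 2 by ring]
      linarith
    have r3 : x (k + 1) * Real.sin (α (k + 1)) - u (k + 1) * Real.cos (α (k + 1)) = u k := by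
      have hcs := Real.sin_sq_add_cos_sq (α (k + 1))
      have : Real.sin (α (k + 1)) *
          (x (k + 1) * Real.sin (α (k + 1)) - u (k + 1) * Real.cos (α (k + 1)) - u k) = 0 := by
        linear_combination x (k + 1) * hcs - Real.cos (α (k + 1)) * r1 - r2
      rcases mul_eq_zero.1 this with h | h
      · exact absurd h hs.ne'
      · linarith
    have key : ((x (k + 1) : ℂ) - Complex.I * (u (k + 1) : ℂ)) *
        Complex.exp ((α (k + 1) : ℂ) * Complex.I) = ((1 - x k : ℝ) : ℂ) + Complex.I * (u k : ℂ) := by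
      apply Complex.ext
      · simp only [Complex.mul_re, Complex.sub_re, Complex.add_re, Complex.sub_im, Complex.mul_im,
          Complex.ofReal_re, Complex.ofReal_im, Complex.I_re, Complex.I_im, exp_re, exp_im]
        linarith
      · simp only [Complex.mul_re, Complex.sub_re, Complex.add_im, Complex.sub_im, Complex.mul_im,
          Complex.ofReal_re, Complex.ofReal_im, Complex.I_re, Complex.I_im, exp_re, exp_im]
        linarith
    show W (k + 1) + ((x (k + 1) : ℂ) - Complex.I * (u (k + 1) : ℂ)) * (W (k + 1 + 1) - W (k + 1)) =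
      W k + ((x k : ℂ) - Complex.I * (u k : ℂ)) * (W (k + 1) - W k)
    rw [hrot, ← mul_assoc, key]
    push_cast
    ring
  have hconst : ∀ k, Q k = Q 0 := by
    intro k
    induction k using Int.induction_on with
    | zero => rfl
    | succ i ih => rw [step, ih]
    | pred i ih =>
      have := step (-(i : ℤ) - 1)
      rw [sub_add_cancel] at this
      rw [← this, ih]
  have hOW : ∀ k, Q 0 - W k = ((x k : ℂ) - Complex.I * (u k : ℂ)) * (W (k + 1) - W k) := by
    intro k
    rw [← hconst k]
    show W k + ((x k : ℂ) - Complex.I * (u k : ℂ)) * (W (k + 1) - W k) - W k = _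
    ring
  have hunit : ∀ k, (W (k + 1) - W k).re ^ 2 + (W (k + 1) - W k).im ^ 2 = 1 := by
    intro k
    have h3 := dt_self (W (k + 1) - W k)
    rw [hS.unit k] at h3
    unfold dt at h3
    linarith
  refine ⟨Q 0, fun k => ?_, fun k => ?_⟩
  · rw [hOW k]
    have h3 := hunit k
    have e : dt (W (k + 1) - W k) (((x k : ℂ) - Complex.I * (u k : ℂ)) * (W (k + 1) - W k)) =
        x k * ((W (k + 1) - W k).re ^ 2 + (W (k + 1) - W k).im ^ 2) := by
      unfold dt
      simp only [Complex.mul_re, Complex.sub_re, Complex.sub_im, Complex.mul_im,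
        Complex.ofReal_re, Complex.ofReal_im, Complex.I_re, Complex.I_im]
      ring
    rw [e, h3, mul_one]
  · rw [hOW k]
    have h3 := hunit k
    have e : cr (((x k : ℂ) - Complex.I * (u k : ℂ)) * (W (k + 1) - W k)) (W (k + 1) - W k) =
        u k * ((W (k + 1) - W k).re ^ 2 + (W (k + 1) - W k).im ^ 2) := by
      unfold cr
      simp only [Complex.mul_re, Complex.sub_re, Complex.sub_im, Complex.mul_im,
        Complex.ofReal_re, Complex.ofReal_im, Complex.I_re, Complex.I_im]
      ring
    rw [e, h3, mul_one]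

end Pool.Agent.Lib.MP_97284c_gt
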