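import Pool.Agent.Lib.MP_97284c_gt.StmF

/-! [F7] First integral. -/

namespace Pool.Agent.Lib.MP_97284c_gt

theorem p_F7 : S_F7 := by
  intro N W p α bm bp O hS hO
  have hρ : ∀ k, ‖O - W (k + 1)‖ ^ 2 =
      ‖O - W k‖ ^ 2 + 1 - 2 * dt (W (k + 1) - W k) (O - W k) := by
    intro k
    have e : O - W (k + 1) = (O - W k) - (W (k + 1) - W k) := by abel
    rw [e, normsq_sub, hS.unit k, dt_comm (O - W k)]
    ring
  constructor
  · refine ⟨‖O - W 0‖ ^ 2 - Real.cos (hb N α 0) / 2, fun k => ?_⟩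
    have key : ∀ k : ℤ, ‖O - W k‖ ^ 2 - Real.cos (hb N α k) / 2 =
        ‖O - W 0‖ ^ 2 - Real.cos (hb N α 0) / 2 := by
      intro k
      induction k using Int.induction_on with
      | zero => rfl
      | succ i ih =>
        have h1 := hρ i
        rw [hO i] at h1
        linarith
      | pred i ih =>
        have h1 := hρ (-(i : ℤ) - 1)
        rw [hO (-(i : ℤ) - 1), sub_add_cancel] at h1
        linarith
    rw [← key k]
    ring
  · intro k
    have h1 := hρ k
    have h2 := cr_sq_add_dt_sq (O - W k) (W (k + 1) - W k)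
    rw [hS.unit k, dt_comm] at h2
    unfold q4
    have h3 : dt (W (k + 1) - W k) (O - W k) = (1 + ‖O - W k‖ ^ 2 - ‖O - W (k + 1)‖ ^ 2) / 2 := by
      linarith
    rw [h3] at h2
    linarith

end Pool.Agent.Lib.MP_97284c_gt
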