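import Pool.Agent.Lib.MP_97284c_gt.StmF

/-! MP_97284c_gt, piece F8 (helper68). -/

namespace Pool.Agent.Lib.MP_97284c_gt

private lemma p_F8_aux (w E E' : ℂ) (α r s s' : ℝ) (hE : ‖E‖ = 1) (hE' : ‖E'‖ = 1)
    (hrot : E = Complex.exp (α * Complex.I) * E') (hr : r = ‖w‖ ^ 2) (hs : s = ‖w - E‖ ^ 2) (hs' : s' = ‖w - E'‖ ^ 2)
    (h1 : 0 < cr w E) (h2 : 0 < cr E' w) (hα0 : 0 < α) (hα : α < 2 * Real.pi) :
    phi r s' + phi r s = α := by
  have hw : 0 < ‖w‖ := by
    rw [norm_pos_iff]
    rintro rfl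
    simp [cr] at h1
  have e1 : phi r s = Real.arccos (dt w E / ‖w‖) := by
    unfold phi
    rw [hs, normsq_sub, hr, Real.sqrt_sq hw.le, hE]
    congr 1
    field_simp
    ring
  have e2 : phi r s' = Real.arccos (dt w E' / ‖w‖) := by
    unfold phi
    rw [hs', normsq_sub, hr, Real.sqrt_sq hw.le, hE']
    congr 1
    field_simp
    ring
  have q1 := cr_sq_add_dt_sq w E
  rw [hE] at q1
  have q2 := cr_sq_add_dt_sq E' w
  rw [hE', dt_comm] at q2
  have gen : ∀ c d : ℝ, 0 < c → c ^ 2 + d ^ 2 = ‖w‖ ^ 2 →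
      ‖w‖ * Real.cos (Real.arccos (d / ‖w‖)) = d ∧ ‖w‖ * Real.sin (Real.arccos (d / ‖w‖)) = c := by
    intro c d hc hcd
    have hd : |d| ≤ ‖w‖ := by
      apply abs_le_of_sq_le_sq _ hw.le
      nlinarith
    have hd2 := abs_le.1 hd
    constructor
    · rw [Real.cos_arccos]
      · field_simp
      · rw [le_div_iff₀ hw]; linarith [hd2.1]
      · rw [div_le_iff₀ hw]; linarith [hd2.2]
    · rw [Real.sin_arccos]
      have : 1 - (d / ‖w‖) ^ 2 = (c / ‖w‖) ^ 2 := by
        field_simp
        linarith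
      rw [this, Real.sqrt_sq (by positivity)]
      field_simp
  obtain ⟨a1, a2⟩ := gen (cr w E) (dt w E) h1 (by rw [q1]; ring)
  obtain ⟨b1, b2⟩ := gen (cr E' w) (dt w E') h2 (by rw [q2]; ring)
  rw [e1, e2]
  set x := Real.arccos (dt w E / ‖w‖) with hx
  set x' := Real.arccos (dt w E' / ‖w‖) with hx'
  have c1 : dt w E = Real.cos α * dt w E' + Real.sin α * cr E' w := by
    rw [hrot, dt_exp_mul, cr_comm w E']; ring
  have c2 : cr w E = -(Real.cos α * cr E' w) + Real.sin α * dt w E' := by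
    rw [hrot, cr_exp_mul, cr_comm w E']; ring
  have d1 : Real.cos x = Real.cos α * Real.cos x' + Real.sin α * Real.sin x' := by
    have : ‖w‖ * Real.cos x = ‖w‖ * (Real.cos α * Real.cos x' + Real.sin α * Real.sin x') := by
      rw [a1, c1, ← b1, ← b2]; ring
    exact mul_left_cancel₀ hw.ne' this
  have d2 : Real.sin x = -(Real.cos α * Real.sin x') + Real.sin α * Real.cos x' := by
    have : ‖w‖ * Real.sin x = ‖w‖ * (-(Real.cos α * Real.sin x') + Real.sin α * Real.cos x') := by
      rw [a2, c2, ← b1, ← b2]; ring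
    exact mul_left_cancel₀ hw.ne' this
  have sx : 0 < Real.sin x := by
    have : 0 < ‖w‖ * Real.sin x := by rw [a2]; exact h1
    exact pos_of_mul_pos_right this hw.le
  have sx' : 0 < Real.sin x' := by
    have : 0 < ‖w‖ * Real.sin x' := by rw [b2]; exact h2
    exact pos_of_mul_pos_right this hw.le
  have x0 : 0 ≤ x := Real.arccos_nonneg _
  have x1 : x < Real.pi := by
    rcases (Real.arccos_le_pi (dt w E / ‖w‖)).lt_or_eq with h | h
    · exact h
    · rw [← hx] at h; rw [h] at sx; simp at sx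
  have x0' : 0 ≤ x' := Real.arccos_nonneg _
  have x1' : x' < Real.pi := by
    rcases (Real.arccos_le_pi (dt w E' / ‖w‖)).lt_or_eq with h | h
    · exact h
    · rw [← hx'] at h; rw [h] at sx'; simp at sx'
  have key : Real.cos (x' + x - α) = 1 := by
    have : x' + x - α = x - (α - x') := by ring
    rw [this, Real.cos_sub, Real.cos_sub, Real.sin_sub]
    rw [show Real.cos α * Real.cos x' + Real.sin α * Real.sin x' = Real.cos x from d1.symm,
      show Real.sin α * Real.cos x' - Real.cos α * Real.sin x' = Real.sin x by rw [d2]; ring]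
    nlinarith [Real.sin_sq_add_cos_sq x]
  rw [Real.cos_eq_one_iff_of_lt_of_lt (by linarith) (by linarith)] at key
  linarith

theorem p_F8 : S_F8 := by
  intro N W p α bm bp O h hu hα k
  have hk1 : W (k + 1) - W k = Complex.exp (α k * Complex.I) * (W (k - 1) - W k) := h.rot k
  have n1 := h.unit k
  have n2 := h.unit (k - 1)
  rw [sub_add_cancel] at n2
  have u1 := hu k
  have u2 := hu (k - 1)
  rw [sub_add_cancel] at u2
  apply p_F8_aux (O - W k) (W (k + 1) - W k) (W (k - 1) - W k) (α k) _ _ _ n1 (by rw [norm_sub_rev]; exact n2) hk1 rfl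
  · congr 2; ring
  · congr 2; ring
  · exact u1
  · have : cr (W (k - 1) - W k) (O - W k) = cr (O - W (k - 1)) (W k - W (k - 1)) := by
      simp only [cr, Complex.sub_re, Complex.sub_im]; ring
    rw [this]; exact u2
  · exact h.αpos k
  · exact hα k

end Pool.Agent.Lib.MP_97284c_gt
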