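import Pool.Agent.Lib.MP_97284c_gt.StmF

/-! [FL] The derivative of the area for a variation of one vertex. -/

namespace Pool.Agent.Lib.MP_97284c_gt

/-- a sum over a period with one nonzero residue class -/
theorem p_FL_sum {N : ℕ} (hN : 1 ≤ N) (g : ℤ → ℝ) (hg : ∀ k, g (k + N) = g k) (a : ℤ)
    (h0 : ∀ j : ℤ, ¬ (N : ℤ) ∣ j → g (j + a) = 0) : ∑ k ∈ Finset.range N, g k = g a := by
  rw [← psum_shift g hg a, Finset.sum_eq_single 0]
  · rw [Nat.cast_zero, zero_add]
  · intro j hj hj0
    rw [Finset.mem_range] at hj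
    apply h0
    intro hd
    have := Int.le_of_dvd (by omega) hd
    omega
  · intro h
    exact absurd (Finset.mem_range.2 (by omega)) h

theorem p_FL : S_FL := by
  intro N W p k ξ ζ hN hW
  set η : ℤ → ℂ := fun j => if (N : ℤ) ∣ j - k then ξ else 0 with hη
  have hηper : ∀ j, η (j + N) = η j := by
    intro j
    simp only [hη]
    have e : (N : ℤ) ∣ j + N - k ↔ (N : ℤ) ∣ j - k := by
      rw [show j + N - k = (j - k) + N by ring]
      exact dvd_add_self_right
    simp only [e]
  have hηk : ∀ j, (N : ℤ) ∣ j → η (j + k) = ξ := by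
    intro j hj
    simp only [hη]
    rw [if_pos (by rwa [add_sub_cancel_right])]
  have hη0 : ∀ j, ¬ (N : ℤ) ∣ j → η (j + k) = 0 := by
    intro j hj
    simp only [hη]
    rw [if_neg (by rwa [add_sub_cancel_right])]
  have hcr0 : ∀ a : ℂ, cr 0 a = 0 ∧ cr a 0 = 0 := by
    intro a
    unfold cr
    simp
  have s1 : ∑ j ∈ Finset.range N, cr (η j) (W ((j : ℤ) + 2)) = cr ξ (W (k + 2)) := by
    rw [p_FL_sum (by omega) (fun j => cr (η j) (W (j + 2))) (fun j => by
      rw [hηper, show j + (N : ℤ) + 2 = j + 2 + N by ring, hW]) k (fun j hj => by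
      rw [hη0 j hj, (hcr0 _).1])]
    have := hηk 0 (dvd_zero _)
    rw [zero_add] at this
    rw [this]
  have s2 : ∑ j ∈ Finset.range N, cr (W j) (η ((j : ℤ) + 2)) = cr (W (k - 2)) ξ := by
    rw [p_FL_sum (by omega) (fun j => cr (W j) (η (j + 2))) (fun j => by
      rw [show j + (N : ℤ) + 2 = j + 2 + N by ring, hηper, hW]) (k - 2) (fun j hj => by
      rw [show j + (k - 2) + 2 = j + k by ring, hη0 j hj, (hcr0 _).2])]
    have := hηk 0 (dvd_zero _)
    rw [zero_add] at this
    rw [sub_add_cancel, this]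
  have hm1 : η (-1) = if (N : ℤ) ∣ k + 1 then ξ else 0 := by
    simp only [hη]
    have e : (N : ℤ) ∣ -1 - k ↔ (N : ℤ) ∣ k + 1 := by
      rw [show -1 - k = -(k + 1) by ring, dvd_neg]
    simp only [e]
  have hp1 : η 1 = if (N : ℤ) ∣ k - 1 then ξ else 0 := by
    simp only [hη]
    have e : (N : ℤ) ∣ 1 - k ↔ (N : ℤ) ∣ k - 1 := by
      rw [show 1 - k = -(k - 1) by ring, dvd_neg]
    simp only [e]
  unfold Lst
  rw [Finset.sum_add_distrib, s1, s2, hm1, hp1]
  congr 1
  split_ifs with h1 h2 h2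
  · unfold cr
    simp only [Complex.sub_re, Complex.sub_im]
    ring
  · unfold cr
    simp only [Complex.sub_re, Complex.sub_im, Complex.zero_re, Complex.zero_im]
    ring
  · unfold cr
    simp only [Complex.sub_re, Complex.sub_im, Complex.zero_re, Complex.zero_im]
    ring
  · unfold cr
    simp only [Complex.sub_re, Complex.sub_im, Complex.zero_re, Complex.zero_im]
    ring

end Pool.Agent.Lib.MP_97284c_gt
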