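import Mathlib
import Pool.Agent.Lib.MP_97284c_gt.P.Hull

/-!
# MP_97284c_gt, part P: a ccw polygon is simple and encloses the interior of its hull
-/

namespace MP97284cP

open MeasureTheory Set

variable {n : ℕ} [NeZero n] {v : Fin n → ℂ}

/-- a point of the hull on the line of an edge lies on the edge -/
theorem mem_edge_of_ori_zero (h : Ccw v) (i : Fin n) {z : ℂ}
    (hz : z ∈ convexHull ℝ (range v)) (h0 : ori (v i) (v (i + 1)) z = 0) : z ∈ edge v i := by
  classical
  rw [convexHull_range_eq_exists_affineCombination] at hz
  obtain ⟨s, w, hw0, hw1, rfl⟩ := hz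
  rw [Finset.affineCombination_eq_linear_combination _ _ _ hw1] at h0 ⊢
  rw [ori_sum s _ _ w v hw1] at h0
  have hnn : ∀ k ∈ s, 0 ≤ w k * ori (v i) (v (i + 1)) (v k) := by
    intro k hk
    apply mul_nonneg (hw0 k hk)
    by_cases h1 : k = i
    · subst h1; rw [ori_self1]
    · by_cases h2 : k = i + 1
      · subst h2; rw [ori_self2]
      · exact (h.left i k h1 h2).le
  have hz := (Finset.sum_eq_zero_iff_of_nonneg hnn).1 h0
  have hwz : ∀ k ∈ s, k ≠ i → k ≠ i + 1 → w k = 0 := by
    intro k hk h1 h2
    have := hz k hk
    rcases mul_eq_zero.1 this with h3 | h3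
    · exact h3
    · exact absurd h3 (h.left i k h1 h2).ne'
  have hmem : ∑ k ∈ s, w k • v k ∈ convexHull ℝ ({v i, v (i + 1)} : Set ℂ) := by
    have hs : ∑ k ∈ s, w k • v k = ∑ k ∈ s, w k • (if k = i ∨ k = i + 1 then v k else v i) := by
      apply Finset.sum_congr rfl
      intro k hk
      split_ifs with hk2
      · rfl
      · push Not at hk2
        rw [hwz k hk hk2.1 hk2.2]; simp
    rw [hs]
    apply (convex_convexHull ℝ _).sum_mem hw0 hw1
    intro k hk
    apply subset_convexHull
    split_ifs with hk2
    · rcases hk2 with rfl | rfl <;> simp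
    · simp
  rw [convexHull_pair] at hmem
  exact hmem

theorem isClosed_hull (v : Fin n → ℂ) : IsClosed (convexHull ℝ (range v)) :=
  (Set.Finite.isCompact_convexHull ℝ (finite_range v)).isClosed

theorem mem_interior_iff (h : Ccw v) (hn : 3 ≤ n) (z : ℂ) :
    z ∈ interior (convexHull ℝ (range v)) ↔ ∀ i, 0 < ori (v i) (v (i + 1)) z := by
  constructor
  · intro hz i
    have hz' := interior_subset hz
    have h0 := hull_subset_left h i hz'
    rcases h0.lt_or_eq with h1 | h1
    · exact h1
    · exfalso
      -- move perpendicular to the edge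
      rw [mem_interior_iff_mem_nhds, Metric.mem_nhds_iff] at hz
      obtain ⟨ε, hε, hball⟩ := hz
      set D : ℂ := ⟨(v (i + 1)).im - (v i).im, -((v (i + 1)).re - (v i).re)⟩ with hD
      have hDne : D ≠ 0 := by
        intro hcon
        have hre := congrArg Complex.re hcon
        have him := congrArg Complex.im hcon
        simp [hD] at hre him
        -- then every orientation vanishes
        have hne : ∃ k : Fin n, k ≠ i ∧ k ≠ i + 1 := by
          by_contra hc
          push Not at hc
          have hcard : (Finset.univ : Finset (Fin n)) ⊆ {i, i + 1} := by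
            intro k _
            by_cases h1 : k = i
            · simp [h1]
            · simp [hc k h1]
          have := Finset.card_le_card hcard
          have h2 := Finset.card_le_two (a := i) (b := i + 1)
          simp at this
          omega
        obtain ⟨k, hk1, hk2⟩ := hne
        have := h.left i k hk1 hk2
        unfold ori at this
        have e1 : (v (i + 1)).im - (v i).im = 0 := by linarith
        have e2 : (v (i + 1)).re - (v i).re = 0 := by linarith
        rw [e1, e2] at this
        simp at this
      have hDn : 0 < ‖D‖ := norm_pos_iff.2 hDne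
      set t : ℝ := ε / (2 * ‖D‖) with ht
      have ht0 : 0 < t := by positivity
      have hy : z + (t : ℂ) * D ∈ convexHull ℝ (range v) := by
        apply hball
        rw [Metric.mem_ball, dist_eq_norm]
        have : z + (t : ℂ) * D - z = (t : ℂ) * D := by ring
        rw [this, norm_mul, Complex.norm_real, Real.norm_of_nonneg ht0.le, ht]
        field_simp
        linarith
      have h2 := hull_subset_left h i hy
      have h3 : ori (v i) (v (i + 1)) (z + (t : ℂ) * D) =
          ori (v i) (v (i + 1)) z - t * (((v (i + 1)).im - (v i).im) ^ 2 +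
            ((v (i + 1)).re - (v i).re) ^ 2) := by
        unfold ori
        simp [hD]
        ring
      rw [h3, ← h1] at h2
      have h4 : 0 < ((v (i + 1)).im - (v i).im) ^ 2 + ((v (i + 1)).re - (v i).re) ^ 2 := by
        by_contra hcon
        push Not at hcon
        have a1 : ((v (i + 1)).im - (v i).im) ^ 2 = 0 := by
          nlinarith [sq_nonneg ((v (i + 1)).im - (v i).im), sq_nonneg ((v (i + 1)).re - (v i).re)]
        have a2 : ((v (i + 1)).re - (v i).re) ^ 2 = 0 := by
          nlinarith [sq_nonneg ((v (i + 1)).im - (v i).im), sq_nonneg ((v (i + 1)).re - (v i).re)]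
        apply hDne
        apply Complex.ext
        · simp [hD]; exact pow_eq_zero_iff (two_ne_zero) |>.1 a1
        · simp [hD]; have := pow_eq_zero_iff (two_ne_zero) |>.1 a2; linarith
      nlinarith
  · intro hz
    have hopen : IsOpen {y : ℂ | ∀ i, 0 < ori (v i) (v (i + 1)) y} := by
      have : {y : ℂ | ∀ i, 0 < ori (v i) (v (i + 1)) y} =
          ⋂ i, {y : ℂ | 0 < ori (v i) (v (i + 1)) y} := by ext; simp
      rw [this]
      exact isOpen_iInter_of_finite (fun i => isOpen_lt continuous_const (continuous_ori _ _))
    apply interior_maximal _ hopen hz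
    intro y hy
    rw [mem_hull_iff h hn]
    intro i
    exact (hy i).le

theorem frontier_eq_bdry (h : Ccw v) (hn : 3 ≤ n) :
    frontier (convexHull ℝ (range v)) = bdry v := by
  rw [(isClosed_hull v).frontier_eq]
  ext z
  constructor
  · rintro ⟨hz1, hz2⟩
    rw [mem_interior_iff h hn] at hz2
    push Not at hz2
    obtain ⟨i, hi⟩ := hz2
    have h0 := hull_subset_left h i hz1
    exact mem_iUnion.2 ⟨i, mem_edge_of_ori_zero h i hz1 (le_antisymm hi h0)⟩
  · intro hz
    refine ⟨bdry_subset_hull v hz, ?_⟩
    rw [mem_interior_iff h hn]
    push Not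
    obtain ⟨i, hi⟩ := mem_iUnion.1 hz
    refine ⟨i, ?_⟩
    obtain ⟨s, t, hs, ht, hst, rfl⟩ := hi
    rw [ori_affine _ _ _ _ s t hst, ori_self1, ori_self2]
    simp

theorem inside_eq_interior (h : Ccw v) (hn : 3 ≤ n) :
    inside v = interior (convexHull ℝ (range v)) := by
  apply Subset.antisymm
  · intro z hz
    have h1 := inside_subset_hull v hz
    by_contra h2
    have : z ∈ frontier (convexHull ℝ (range v)) := by
      rw [(isClosed_hull v).frontier_eq]; exact ⟨h1, h2⟩
    rw [frontier_eq_bdry h hn] at this
    exact hz.1 this
  · intro z hz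
    have hzb : z ∈ (bdry v)ᶜ := by
      intro hcon
      rw [← frontier_eq_bdry h hn, (isClosed_hull v).frontier_eq] at hcon
      exact hcon.2 hz
    refine ⟨hzb, ?_⟩
    have hsub : connectedComponentIn (bdry v)ᶜ z ⊆ interior (convexHull ℝ (range v)) := by
      have hpc : IsPreconnected (connectedComponentIn (bdry v)ᶜ z) :=
        isPreconnected_connectedComponentIn
      have hmem : z ∈ connectedComponentIn (bdry v)ᶜ z := mem_connectedComponentIn hzb
      have hss := connectedComponentIn_subset (bdry v)ᶜ z
      apply hpc.subset_left_of_subset_union isOpen_interior (isClosed_hull v).isOpen_compl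
      · exact disjoint_compl_right.mono_left interior_subset
      · intro y hy
        have := hss hy
        rw [← frontier_eq_bdry h hn, (isClosed_hull v).frontier_eq] at this
        by_cases hyh : y ∈ convexHull ℝ (range v)
        · left
          by_contra hyi
          exact this ⟨hyh, hyi⟩
        · right; exact hyh
      · exact ⟨z, hmem, hz⟩
    exact ((Set.Finite.isCompact_convexHull ℝ (finite_range v)).isBounded.subset
      interior_subset).subset hsub

theorem volume_inside (h : Ccw v) (hn : 3 ≤ n) :
    volume (inside v) = volume (convexHull ℝ (range v)) := by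
  rw [inside_eq_interior h hn]
  exact measure_congr (interior_ae_eq_of_null_frontier
    ((convex_convexHull ℝ (range v)).addHaar_frontier volume))

theorem volume_inside_le (v : Fin n → ℂ) :
    volume (inside v) ≤ volume (convexHull ℝ (range v)) :=
  measure_mono (inside_subset_hull v)

theorem isSimple_of_ccw (h : Ccw v) (hn : 3 ≤ n) : IsSimplePolygon v := by
  refine ⟨?_, ?_, ?_⟩
  · -- injective
    intro i j hij
    by_contra hne
    wlog hlt : i < j generalizing i j
    · exact this hij.symm (Ne.symm hne) (lt_of_le_of_ne (not_lt.1 hlt) (Ne.symm hne))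
    obtain ⟨k, hki, hkj⟩ : ∃ k : Fin n, k ≠ i ∧ k ≠ j := by
      by_contra hc
      push Not at hc
      have hcard : (Finset.univ : Finset (Fin n)) ⊆ {i, j} := by
        intro k _
        by_cases h1 : k = i
        · simp [h1]
        · simp [hc k h1]
      have := Finset.card_le_card hcard
      have h2 := Finset.card_le_two (a := i) (b := j)
      simp at this
      omega
    rcases lt_trichotomy k i with h1 | h1 | h1
    · have := h k i j h1 hlt; rw [hij, ori_self2] at this; exact lt_irrefl _ this
    · exact hki h1
    · rcases lt_trichotomy k j with h2 | h2 | h2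
      · have := h i k j h1 h2; rw [hij, ori_self1] at this; exact lt_irrefl _ this
      · exact hkj h2
      · have := h i j k hlt h2; rw [hij, ori_self0] at this; exact lt_irrefl _ this
  · intro i
    apply Subset.antisymm
    · rintro z ⟨hz1, hz2⟩
      obtain ⟨s, t, hs, ht, hst, rfl⟩ := hz2
      obtain ⟨s', t', hs', ht', hst', he⟩ := hz1
      have h1 : ori (v i) (v (i + 1)) (s • v (i + 1) + t • v (i + 1 + 1)) = 0 := by
        rw [← he, ori_affine _ _ _ _ s' t' hst', ori_self1, ori_self2]; simp
      rw [ori_affine _ _ _ _ s t hst, ori_self2] at h1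
      have e1 : i + 1 + 1 ≠ i := by
        intro hcon
        have := congrArg Fin.val hcon
        rw [Fin.val_add, Fin.val_add] at this
        have hi := i.isLt
        have h1v : ((1 : Fin n) : ℕ) = 1 := by
          rw [Fin.val_one']; exact Nat.mod_eq_of_lt (by omega)
        rw [h1v] at this
        rcases Nat.lt_or_ge (i.val + 1) n with ha | ha
        · rw [Nat.mod_eq_of_lt ha] at this
          rcases Nat.lt_or_ge (i.val + 1 + 1) n with hb | hb
          · rw [Nat.mod_eq_of_lt hb] at this; omega
          · have : i.val + 1 + 1 = n := by omega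
            rename_i h9
            rw [this, Nat.mod_self] at h9
            omega
        · have h10 : i.val + 1 = n := by omega
          rw [h10, Nat.mod_self] at this
          rw [Nat.mod_eq_of_lt (by omega)] at this
          omega
      have e2 : i + 1 + 1 ≠ i + 1 := by
        intro hcon
        have := congrArg Fin.val hcon
        rw [Fin.val_add] at this
        have hi := (i + 1).isLt
        have h1v : ((1 : Fin n) : ℕ) = 1 := by
          rw [Fin.val_one']; exact Nat.mod_eq_of_lt (by omega)
        rw [h1v] at this
        rcases Nat.lt_or_ge ((i + 1).val + 1) n with ha | ha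
        · rw [Nat.mod_eq_of_lt ha] at this; omega
        · have h10 : (i + 1).val + 1 = n := by omega
          rw [h10, Nat.mod_self] at this
          omega
      have hp := h.left i (i + 1 + 1) e1 e2
      have ht0 : t = 0 := by
        rcases mul_eq_zero.1 (show t * ori (v i) (v (i + 1)) (v (i + 1 + 1)) = 0 by linarith)
          with h3 | h3
        · exact h3
        · exact absurd h3 hp.ne'
      have hs1 : s = 1 := by linarith
      simp [ht0, hs1]
    · rintro z hz
      rw [mem_singleton_iff] at hz
      rw [hz]
      exact ⟨right_mem_segment ℝ _ _, left_mem_segment ℝ _ _⟩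
  · intro i j h1 h2 h3
    rw [Set.disjoint_left]
    intro z hz1 hz2
    obtain ⟨s, t, hs, ht, hst, rfl⟩ := hz2
    obtain ⟨s', t', hs', ht', hst', he⟩ := hz1
    have h4 : ori (v i) (v (i + 1)) (s • v j + t • v (j + 1)) = 0 := by
      rw [← he, ori_affine _ _ _ _ s' t' hst', ori_self1, ori_self2]; simp
    rw [ori_affine _ _ _ _ s t hst] at h4
    have p1 := h.left i j h1 h2
    have p2 := h.left i (j + 1) (Ne.symm h3) (by
      intro hcon; exact h1 (add_right_cancel hcon))
    rcases hs.lt_or_eq with h5 | h5
    · nlinarith [mul_pos h5 p1, mul_nonneg ht p2.le]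
    · have : t = 1 := by linarith
      rw [this, ← h5] at h4
      linarith

end MP97284cP
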