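import Pool.Agent.Lib.MP_97284c_gt.StmF

/-!
# Largest small polygons: piece N1, position of the same-sign node
-/

namespace Pool.Agent.Lib.MP_97284c_gt

theorem p_N1 : S_N1 := by
  intro n m y I J e hnm hm hst hcard
  obtain ⟨r, hr⟩ := Finset.card_eq_one.mp hcard
  have hn0 : (0 : ℤ) < n := by
    rw [hnm]
    push_cast
    omega
  have hrm : r ∈ SS n e := by rw [hr]; exact Finset.mem_singleton_self r
  unfold SS at hrm
  rw [Finset.mem_filter, Finset.mem_range] at hrm
  obtain ⟨hrn, hrr⟩ := hrm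
  have hpm : ∀ k, e k = 1 ∨ e k = -1 := by
    intro k
    rcases hst.step k with h | h
    · exact Or.inl h.1
    · exact Or.inr h.1
  -- same sign nodes are congruent to r
  have hQ : ∀ k : ℤ, ((e (k + n - 1) = e (k + n)) = (e (k - 1) = e k)) := by
    intro k
    have h1 := hst.eper (k - 1)
    have h2 := hst.eper k
    rw [show k + (n : ℤ) - 1 = k - 1 + n by ring, h1, h2]
    apply propext
    constructor
    · intro h; linarith
    · intro h; linarith
  have hsame : ∀ k : ℤ, e (k - 1) = e k → k % n = r := by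
    intro k hk
    have h0 := Int.emod_nonneg k hn0.ne'
    have h1 := Int.emod_lt_of_pos k hn0
    obtain ⟨a, ha⟩ : ∃ a : ℕ, (a : ℤ) = k % n := ⟨(k % n).toNat, Int.toNat_of_nonneg h0⟩
    have h2 := per_emod (N := n) (fun k : ℤ => (e (k - 1) = e k)) hQ k
    have h3 : e ((a : ℤ) - 1) = e a := by
      rw [ha, h2]
      exact hk
    have h4 : a ∈ SS n e := by
      unfold SS
      rw [Finset.mem_filter, Finset.mem_range]
      refine ⟨?_, h3⟩
      rw [← ha] at h1
      exact_mod_cast h1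
    rw [hr, Finset.mem_singleton] at h4
    rw [← ha, h4]
  -- choice of k₀
  obtain ⟨k₀, hk1, hk2, hk3⟩ : ∃ k₀ : ℤ, e (k₀ - 1) = 1 ∧ e k₀ = 1 ∧ k₀ % n = r := by
    have hrmod : (r : ℤ) % n = r := Int.emod_eq_of_lt (by positivity) (by exact_mod_cast hrn)
    rcases hpm r with h | h
    · exact ⟨r, by rw [hrr, h], h, hrmod⟩
    · refine ⟨r + n, ?_, ?_, ?_⟩
      · rw [show (r : ℤ) + n - 1 = (r : ℤ) - 1 + n by ring, hst.eper, hrr, h]
        norm_num
      · rw [hst.eper, h]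
        norm_num
      · rw [Int.add_emod_right, hrmod]
  -- the signs alternate
  have halt : ∀ j : ℤ, 1 ≤ j → j < n → e (k₀ + j) = -e (k₀ + j - 1) := by
    intro j h1 h2
    have h3 : e (k₀ + j - 1) ≠ e (k₀ + j) := by
      intro h
      have h4 := hsame (k₀ + j) h
      have h5 : (k₀ + j) % n = k₀ % n := by rw [h4, hk3]
      have h6 : (n : ℤ) ∣ (k₀ + j) - k₀ := Int.ModEq.dvd (show k₀ % n = (k₀ + j) % n from h5.symm)
      have h7 := Int.le_of_dvd (by linarith) h6
      linarith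
    rcases hpm (k₀ + j) with h4 | h4 <;> rcases hpm (k₀ + j - 1) with h5 | h5
    · exact absurd (h5.trans h4.symm) h3
    · rw [h4, h5]; norm_num
    · rw [h4, h5]
    · exact absurd (h5.trans h4.symm) h3
  have heven : ∀ q : ℕ, q < m → e (k₀ + 2 * q) = 1 ∧ e (k₀ + 2 * q + 1) = -1 := by
    intro q
    induction q with
    | zero =>
      intro h
      have h1 := halt 1 le_rfl (by rw [hnm]; push_cast; omega)
      rw [show k₀ + 1 - 1 = k₀ by ring, hk2] at h1
      simp only [Nat.cast_zero, mul_zero, add_zero]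
      exact ⟨hk2, h1⟩
    | succ q ih =>
      intro h
      obtain ⟨i1, i2⟩ := ih (by omega)
      have h1 := halt (2 * (q : ℤ) + 2) (by omega) (by rw [hnm]; push_cast; omega)
      have h2 := halt (2 * (q : ℤ) + 3) (by omega) (by rw [hnm]; push_cast; omega)
      rw [show k₀ + (2 * (q : ℤ) + 2) - 1 = k₀ + 2 * q + 1 by ring, i2] at h1
      rw [show k₀ + (2 * (q : ℤ) + 3) - 1 = k₀ + (2 * (q : ℤ) + 2) by ring, h1] at h2
      push_cast
      constructor
      · rw [show k₀ + 2 * ((q : ℤ) + 1) = k₀ + (2 * (q : ℤ) + 2) by ring, h1]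
        norm_num
      · rw [show k₀ + 2 * ((q : ℤ) + 1) + 1 = k₀ + (2 * (q : ℤ) + 3) by ring, h2]
        norm_num
  have hodd : ∀ r : ℕ, r < m → I (k₀ + 2 * r + 1) = I (k₀ + 2 * r) ∧ J (k₀ + 2 * r + 1) = J (k₀ + 2 * r) + 1 := by
    intro r hr
    have h1 := (heven r hr).1
    rcases hst.step (k₀ + 2 * r) with h | h
    · exact ⟨h.2.1, h.2.2⟩
    · rw [h1] at h
      norm_num at h
  have hevn : ∀ r : ℕ, r < m → I (k₀ + 2 * r + 1 + 1) = I (k₀ + 2 * r + 1) + 1 ∧
      J (k₀ + 2 * r + 1 + 1) = J (k₀ + 2 * r + 1) := by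
    intro r hr
    have h1 := (heven r hr).2
    rcases hst.step (k₀ + 2 * r + 1) with h | h
    · rw [h1] at h
      norm_num at h
    · exact ⟨h.2.1, h.2.2⟩
  have hpos : ∀ r : ℕ, r ≤ m → I (k₀ + 2 * r) = I k₀ + r ∧ J (k₀ + 2 * r) = J k₀ + r := by
    intro r
    induction r with
    | zero => intro _; simp
    | succ r ih =>
      intro h
      obtain ⟨i1, i2⟩ := ih (by omega)
      obtain ⟨o1, o2⟩ := hodd r (by omega)
      obtain ⟨v1, v2⟩ := hevn r (by omega)
      rw [show k₀ + 2 * ((r + 1 : ℕ) : ℤ) = k₀ + 2 * r + 1 + 1 by push_cast; ring]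
      rw [v1, v2, o1, o2, i1, i2]
      push_cast
      constructor <;> ring
  have hJ : J k₀ = I k₀ + m := by
    have h1 := (hpos m le_rfl).1
    rw [show k₀ + 2 * (m : ℤ) = k₀ + n by rw [hnm]; push_cast; ring, hst.Iper] at h1
    exact h1
  refine ⟨k₀, hk1, hk2, fun r hr => ?_, fun r hr => ?_⟩
  · obtain ⟨i1, i2⟩ := hpos r hr
    exact ⟨i1, by rw [i2, hJ]⟩
  · obtain ⟨i1, i2⟩ := hpos r hr.le
    obtain ⟨o1, o2⟩ := hodd r hr
    exact ⟨by rw [o1, i1], by rw [o2, i2, hJ]⟩

end Pool.Agent.Lib.MP_97284c_gt
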