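import Pool.Agent.Lib.MP_97284c_gt.StmF

namespace Pool.Agent.Lib.MP_97284c_gt

private lemma p_N2_even (m : ℕ) (i₀ : ℤ) (q : ℕ) (hq : 2 * q + 1 < 2 * m) : idx m i₀ (2 * q) = i₀ + q := by
  have h : (2 * (q : ℤ)) % (2 * m - 1) = 2 * q := Int.emod_eq_of_lt (by omega) (by omega)
  unfold idx
  rw [h, if_pos (by omega)]
  omega

private lemma p_N2_odd (m : ℕ) (i₀ : ℤ) (q : ℕ) (hq : 2 * q + 2 < 2 * m) :
    idx m i₀ (2 * q + 1) = i₀ + m + 1 + q := by
  have h : (2 * (q : ℤ) + 1) % (2 * m - 1) = 2 * q + 1 := Int.emod_eq_of_lt (by omega) (by omega)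
  unfold idx
  rw [h, if_neg (by omega)]
  omega

theorem p_N2 : S_N2 := by
  intro n m y I J e k₀ hn hm hy hS hE hO
  have hper : ∀ k : ℤ, idx m (I k₀) (k + (2 * m - 1)) = idx m (I k₀) k := by
    intro k
    unfold idx
    rw [Int.add_emod_right]
  have h0 : idx m (I k₀) 0 = I k₀ := by
    have := p_N2_even m (I k₀) 0 (by omega)
    simpa using this
  have hJ0 : J k₀ = I k₀ + m := by
    have := (hE 0 (by omega)).2
    simpa using this
  refine ⟨hper, ?_, ?_, ?_⟩
  · intro r hr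
    rcases Nat.even_or_odd' r with ⟨q, hq | hq⟩
    · obtain ⟨h1, h2⟩ := hO q (by omega)
      have hk : k₀ + (r : ℤ) + 1 = k₀ + 2 * q + 1 := by rw [hq]; push_cast; ring
      have hi1 : idx m (I k₀) (r : ℤ) = I k₀ + q := by
        rw [hq]; push_cast
        exact p_N2_even m (I k₀) q (by omega)
      have hs : ((-1 : ℂ)) ^ r = 1 := by rw [hq, pow_mul]; norm_num
      rw [hk, hs, one_mul]
      unfold Dv
      rw [h1, h2, hi1]
      by_cases hlast : r + 1 = 2 * m - 1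
      · have h3 : idx m (I k₀) ((r : ℤ) + 1) = I k₀ := by
          have : ((r : ℤ) + 1) = 0 + (2 * m - 1) := by omega
          rw [this, hper, h0]
        have h4 : I k₀ + m + (q : ℤ) + 1 = I k₀ + (n : ℤ) := by
          rw [hn]; push_cast; omega
        rw [h3, h4, hy (I k₀)]
      · have h3 : idx m (I k₀) ((r : ℤ) + 1) = I k₀ + m + 1 + q := by
          rw [hq]; push_cast
          exact p_N2_odd m (I k₀) q (by omega)
        rw [h3, show I k₀ + (m : ℤ) + q + 1 = I k₀ + m + 1 + q by ring]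
    · obtain ⟨h1, h2⟩ := hE (q + 1) (by omega)
      have hk : k₀ + (r : ℤ) + 1 = k₀ + 2 * ((q + 1 : ℕ) : ℤ) := by rw [hq]; push_cast; ring
      have hi1 : idx m (I k₀) (r : ℤ) = I k₀ + m + 1 + q := by
        rw [hq]; push_cast
        exact p_N2_odd m (I k₀) q (by omega)
      have hi2 : idx m (I k₀) ((r : ℤ) + 1) = I k₀ + ((q + 1 : ℕ) : ℤ) := by
        have := p_N2_even m (I k₀) (q + 1) (by omega)
        rw [← this]; congr 1; rw [hq]; push_cast; ring
      have hs : ((-1 : ℂ)) ^ r = -1 := by rw [hq, pow_add, pow_mul]; norm_num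
      rw [hk, hs]
      unfold Dv
      rw [h1, h2, hi1, hi2, show I k₀ + (m : ℤ) + ((q + 1 : ℕ) : ℤ) = I k₀ + m + 1 + q by push_cast; ring]
      ring
  · unfold Dv
    rw [h0, hJ0]
  · obtain ⟨h1, h2⟩ := hO (m - 1) (by omega)
    have hk : k₀ + 2 * ((m - 1 : ℕ) : ℤ) + 1 = k₀ - 1 + n := by
      rw [hn]; push_cast [Nat.cast_sub (show 1 ≤ m by omega)]; ring
    rw [hk] at h1 h2
    rw [hS.Iper] at h1
    rw [hS.Jper] at h2
    have h3 : I (k₀ - 1) = I k₀ := by
      have : (n : ℤ) = 2 * m := by rw [hn]; push_cast; ring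
      have h4 : (((m - 1 : ℕ)) : ℤ) = m - 1 := by push_cast [Nat.cast_sub (show 1 ≤ m by omega)]; ring
      omega
    have h5 : idx m (I k₀) (-1) = I k₀ + ((m - 1 : ℕ) : ℤ) := by
      rw [← hper (-1)]
      have h6 : (-1 : ℤ) + (2 * m - 1) = 2 * ((m - 1 : ℕ) : ℤ) := by
        push_cast [Nat.cast_sub (show 1 ≤ m by omega)]; ring
      rw [h6]
      exact p_N2_even m (I k₀) (m - 1) (by omega)
    unfold Dv
    rw [h1, h3, h0, h5]

end Pool.Agent.Lib.MP_97284c_gt
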