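import Pool.Agent.Lib.MP_97284c_gt.StmF

/-! [N3] Area of the star. -/

namespace Pool.Agent.Lib.MP_97284c_gt

private theorem p_N3_even (m : ℕ) (i₀ j : ℤ) (h0 : 0 ≤ j) (h1 : j + 1 ≤ m) :
    idx m i₀ (2 * j) = i₀ + j := by
  unfold idx
  have h : (2 * j) % (2 * (m : ℤ) - 1) = 2 * j := Int.emod_eq_of_lt (by omega) (by omega)
  rw [h, if_pos (by omega)]
  omega

private theorem p_N3_odd (m : ℕ) (i₀ j : ℤ) (h0 : 0 ≤ j) (h1 : j + 2 ≤ m) :
    idx m i₀ (2 * j + 1) = i₀ + m + 1 + j := by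
  unfold idx
  have h : (2 * j + 1) % (2 * (m : ℤ) - 1) = 2 * j + 1 :=
    Int.emod_eq_of_lt (by omega) (by omega)
  rw [h, if_neg (by omega)]
  omega

private theorem p_N3_per (m : ℕ) (i₀ k : ℤ) : idx m i₀ (k + (2 * m - 1)) = idx m i₀ k := by
  unfold idx
  rw [Int.add_emod_right]

private theorem p_N3_split (f : ℕ → ℝ) (q : ℕ) :
    ∑ k ∈ Finset.range (2 * q), f k = ∑ j ∈ Finset.range q, (f (2 * j) + f (2 * j + 1)) := by
  induction q with
  | zero => simp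
  | succ q ih =>
    rw [show 2 * (q + 1) = 2 * q + 1 + 1 by ring, Finset.sum_range_succ, Finset.sum_range_succ, ih,
      Finset.sum_range_succ]
    ring

theorem p_N3 : S_N3 := by
  intro n m y i₀ hn hm hper
  obtain ⟨q, rfl⟩ : ∃ q, m = q + 1 := ⟨m - 1, by omega⟩
  have hq : 1 ≤ q := by omega
  subst hn
  have hN : 2 * (q + 1) - 1 = 2 * q + 1 := by omega
  rw [hN]
  -- the values of W
  have w0 : ∀ j : ℕ, j ≤ q → idx (q + 1) i₀ (2 * (j : ℤ)) = i₀ + j := fun j hj =>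
    p_N3_even _ _ _ (by omega) (by push_cast; omega)
  have w1 : ∀ j : ℕ, j < q → idx (q + 1) i₀ (2 * (j : ℤ) + 1) = i₀ + q + 2 + j := fun j hj => by
    rw [p_N3_odd _ _ _ (by omega) (by push_cast; omega)]
    push_cast
    ring
  have wl : idx (q + 1) i₀ (2 * (q : ℤ) + 1) = i₀ := by
    have h := p_N3_per (q + 1) i₀ 0
    have h2 := p_N3_even (q + 1) i₀ 0 le_rfl (by push_cast; omega)
    rw [mul_zero, add_zero] at h2
    rw [h2] at h
    rw [← h]
    push_cast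
    congr 1
    ring
  have wm : idx (q + 1) i₀ (-1) = i₀ + q := by
    have h := p_N3_per (q + 1) i₀ (-1)
    rw [← h, show (-1 : ℤ) + (2 * ((q + 1 : ℕ) : ℤ) - 1) = 2 * (q : ℤ) by push_cast; ring]
    exact w0 q le_rfl
  have wll : idx (q + 1) i₀ (2 * (q : ℤ) + 2) = idx (q + 1) i₀ 1 := by
    rw [← p_N3_per (q + 1) i₀ 1]
    push_cast
    congr 1
    ring
  have w11 : idx (q + 1) i₀ 1 = i₀ + q + 2 := by
    have h := w1 0 (by omega)
    simpa using h
  -- the area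
  set g : ℤ → ℝ := fun k => cr (y k) (y (k + 1)) with hg
  have hgper : ∀ k, g (k + (2 * (q + 1) : ℕ)) = g k := by
    intro k
    show cr (y (k + (2 * (q + 1) : ℕ))) (y (k + (2 * (q + 1) : ℕ) + 1)) = cr (y k) (y (k + 1))
    rw [hper k, show k + ((2 * (q + 1) : ℕ) : ℤ) + 1 = k + 1 + ((2 * (q + 1) : ℕ) : ℤ) by ring,
      hper (k + 1)]
  have hsh : sh (2 * (q + 1)) y =
      ((∑ j ∈ Finset.range q, (g (i₀ + j) + g (i₀ + q + 2 + j))) + g (i₀ + q) +
        g (i₀ + q + 1)) / 2 := by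
    have e1 : ∑ j ∈ Finset.range (2 * (q + 1)), g (j : ℤ) =
        ∑ j ∈ Finset.range ((q + 1) + (q + 1)), g ((j : ℤ) + i₀) := by
      rw [← psum_shift g hgper i₀, two_mul]
    have e2 : sh (2 * (q + 1)) y = (∑ j ∈ Finset.range (2 * (q + 1)), g (j : ℤ)) / 2 := rfl
    rw [e2, e1, Finset.sum_range_add, Finset.sum_range_succ, Finset.sum_range_succ',
      Finset.sum_add_distrib]
    have e3 : ∑ x ∈ Finset.range q, g ((x : ℤ) + i₀) = ∑ x ∈ Finset.range q, g (i₀ + x) :=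
      Finset.sum_congr rfl fun x _ => by rw [add_comm]
    have e4 : ∑ x ∈ Finset.range q, g (((q + 1 + (x + 1) : ℕ) : ℤ) + i₀) =
        ∑ x ∈ Finset.range q, g (i₀ + q + 2 + x) :=
      Finset.sum_congr rfl fun x _ => by
        congr 1
        push_cast
        ring
    rw [e3, e4]
    have e5 : g ((q : ℤ) + i₀) = g (i₀ + q) := by rw [add_comm]
    have e6 : g (((q + 1 + 0 : ℕ) : ℤ) + i₀) = g (i₀ + q + 1) := by
      congr 1
      push_cast
      ring
    rw [e5, e6]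
    ring
  rw [hsh]
  unfold St
  rw [Finset.sum_range_succ, p_N3_split (fun k : ℕ => cr ((fun k : ℤ => y (idx (q + 1) i₀ k)) k)
    ((fun k : ℤ => y (idx (q + 1) i₀ k)) ((k : ℤ) + 2)))]
  have s1 : ∀ j ∈ Finset.range q,
      (cr (y (idx (q + 1) i₀ ((2 * j : ℕ) : ℤ))) (y (idx (q + 1) i₀ (((2 * j : ℕ) : ℤ) + 2))) +
        cr (y (idx (q + 1) i₀ ((2 * j + 1 : ℕ) : ℤ)))
          (y (idx (q + 1) i₀ (((2 * j + 1 : ℕ) : ℤ) + 2)))) =
      g (i₀ + j) + g (i₀ + q + 2 + j) := by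
    intro j hj
    rw [Finset.mem_range] at hj
    have a1 : idx (q + 1) i₀ ((2 * j : ℕ) : ℤ) = i₀ + j := by
      have := w0 j hj.le
      push_cast
      exact this
    have a2 : idx (q + 1) i₀ (((2 * j : ℕ) : ℤ) + 2) = i₀ + j + 1 := by
      have := w0 (j + 1) hj
      push_cast at this ⊢
      rw [show 2 * (j : ℤ) + 2 = 2 * ((j : ℤ) + 1) by ring, this]
      ring
    have a3 : idx (q + 1) i₀ ((2 * j + 1 : ℕ) : ℤ) = i₀ + q + 2 + j := by
      have := w1 j hj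
      push_cast
      exact this
    have a4 : y (idx (q + 1) i₀ (((2 * j + 1 : ℕ) : ℤ) + 2)) = y (i₀ + q + 2 + j + 1) := by
      by_cases hjq : j + 1 < q
      · have := w1 (j + 1) hjq
        push_cast at this ⊢
        rw [show 2 * (j : ℤ) + 1 + 2 = 2 * ((j : ℤ) + 1) + 1 by ring, this]
        congr 1
        ring
      · have hjq' : j + 1 = q := by omega
        have e : (((2 * j + 1 : ℕ) : ℤ) + 2) = 2 * (q : ℤ) + 1 := by
          rw [← hjq']
          push_cast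
          ring
        rw [e, wl, ← hper i₀]
        congr 1
        rw [← hjq']
        push_cast
        ring
    rw [a1, a2, a3, a4]
  have s2 := Finset.sum_congr rfl s1
  simp only [] at s2 ⊢
  rw [s2]
  have t1 : y (idx (q + 1) i₀ ((2 * q : ℕ) : ℤ)) = y (i₀ + q) := by
    have := w0 q le_rfl
    push_cast
    rw [this]
  have t2 : y (idx (q + 1) i₀ (((2 * q : ℕ) : ℤ) + 2)) = y (i₀ + q + 2) := by
    push_cast
    rw [wll, w11]
  have t3 : g (i₀ + q) = cr (y (i₀ + q)) (y (i₀ + (q + 1 : ℕ))) := by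
    show cr (y (i₀ + q)) (y (i₀ + q + 1)) = _
    push_cast
    rw [add_assoc]
  have t4 : g (i₀ + q + 1) = cr (y (i₀ + (q + 1 : ℕ))) (y (i₀ + q + 2)) := by
    show cr (y (i₀ + q + 1)) (y (i₀ + q + 1 + 1)) = _
    push_cast
    rw [show i₀ + (q : ℤ) + 1 + 1 = i₀ + q + 2 by ring, add_assoc i₀ (q : ℤ) 1]
  rw [t1, t2, wm, w11, t3, t4]
  ring

end Pool.Agent.Lib.MP_97284c_gt
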