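import Pool.Agent.Lib.MP_97284c_gt.StmC
import Pool.Agent.Lib.MP_97284c_gt.StmF

/-! [N4] Stationarity of the star. -/

namespace Pool.Agent.Lib.MP_97284c_gt

/-- the variation of the polygon which belongs to a variation of the star -/
noncomputable def p_N4_eta (n m : ℕ) (i₀ : ℤ) (η : ℤ → ℂ) (ζ : ℂ) (j : ℤ) : ℂ :=
  if (j - i₀) % (n : ℤ) < m then η (2 * ((j - i₀) % (n : ℤ)))
  else if (j - i₀) % (n : ℤ) = m then ζ
  else η (2 * ((j - i₀) % (n : ℤ) - m - 1) + 1)

theorem p_N4_eta_per (n m : ℕ) (i₀ : ℤ) (η : ℤ → ℂ) (ζ : ℂ) : Per n (p_N4_eta n m i₀ η ζ) := by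
  intro k
  unfold p_N4_eta
  rw [show k + (n : ℤ) - i₀ = (k - i₀) + n by ring, Int.add_emod_right]

theorem p_N4_eta_at {n m : ℕ} {i₀ : ℤ} {η : ℤ → ℂ} {ζ : ℂ} {q : ℤ} (h0 : 0 ≤ q) (h1 : q < n) :
    p_N4_eta n m i₀ η ζ (i₀ + q) = if q < m then η (2 * q) else if q = m then ζ
      else η (2 * (q - m - 1) + 1) := by
  unfold p_N4_eta
  rw [add_sub_cancel_left, Int.emod_eq_of_lt h0 h1]

theorem p_N4_idx_even {m : ℕ} (i₀ : ℤ) {q : ℤ} (h0 : 0 ≤ q) (h1 : q + 1 ≤ m) :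
    idx m i₀ (2 * q) = i₀ + q := by
  have e : (2 * q) % (2 * (m : ℤ) - 1) = 2 * q := Int.emod_eq_of_lt (by omega) (by omega)
  unfold idx
  rw [e]
  split_ifs <;> omega

theorem p_N4_idx_odd {m : ℕ} (i₀ : ℤ) {q : ℤ} (h0 : 0 ≤ q) (h1 : q + 2 ≤ m) :
    idx m i₀ (2 * q + 1) = i₀ + m + 1 + q := by
  have e : (2 * q + 1) % (2 * (m : ℤ) - 1) = 2 * q + 1 := Int.emod_eq_of_lt (by omega) (by omega)
  unfold idx
  rw [e]
  split_ifs <;> omega

theorem p_N4_idx_end {m : ℕ} (i₀ : ℤ) : idx m i₀ (2 * m - 1) = i₀ := by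
  unfold idx
  rw [Int.emod_self]
  simp

/-- `η' ∘ idx = η` -/
theorem p_N4_comp {n m : ℕ} (hn : n = 2 * m) (hm : 2 ≤ m) (i₀ : ℤ) (η : ℤ → ℂ) (ζ : ℂ)
    (hη : ∀ k, η (k + ((2 * m - 1 : ℕ) : ℤ)) = η k) (k : ℤ) :
    p_N4_eta n m i₀ η ζ (idx m i₀ k) = η k := by
  have hN : ((2 * m - 1 : ℕ) : ℤ) = 2 * m - 1 := by omega
  have hr0 : 0 ≤ k % (2 * (m : ℤ) - 1) := Int.emod_nonneg _ (by omega)
  have hr1 : k % (2 * (m : ℤ) - 1) < 2 * m - 1 := Int.emod_lt_of_pos _ (by omega)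
  have hper : η (k % (2 * (m : ℤ) - 1)) = η k := by
    have := per_emod η hη k
    rwa [hN] at this
  unfold idx
  obtain ⟨r, hr⟩ : ∃ r, r = k % (2 * (m : ℤ) - 1) := ⟨_, rfl⟩
  rw [← hr] at hr0 hr1 hper ⊢
  split_ifs with h
  · obtain ⟨q, hq⟩ : ∃ q, r = 2 * q := ⟨r / 2, by omega⟩
    have e1 : r / 2 = q := by omega
    rw [e1, p_N4_eta_at (by omega) (by omega), if_pos (by omega), ← hq]
    exact hper
  · obtain ⟨q, hq⟩ : ∃ q, r = 2 * q + 1 := ⟨(r - 1) / 2, by omega⟩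
    have e1 : (r - 1) / 2 = q := by omega
    rw [e1, show i₀ + (m : ℤ) + 1 + q = i₀ + (m + 1 + q) by ring,
      p_N4_eta_at (by omega) (by omega), if_neg (by omega), if_neg (by omega),
      show 2 * ((m : ℤ) + 1 + q - m - 1) + 1 = r by omega]
    exact hper

theorem p_N4_cr_add (a b c d : ℂ) : cr (a + b) (c + d) = cr a c + (cr b c + cr a d) + cr b d := by
  unfold cr
  simp only [Complex.add_re, Complex.add_im]
  ring

theorem p_N4_St (N : ℕ) (W η : ℤ → ℂ) (p ζ : ℂ) :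
    St N (fun k => W k + η k) (p + ζ) = St N W p + Lst N W p η ζ + St N η ζ := by
  unfold St Lst
  simp only [p_N4_cr_add]
  rw [Finset.sum_add_distrib, Finset.sum_add_distrib]
  ring

theorem p_N4_sh (n : ℕ) (y η : ℤ → ℂ) :
    sh n (fun k => y k + η k) = sh n y + Bf n y η + sh n η := by
  unfold sh Bf
  simp only [p_N4_cr_add]
  rw [Finset.sum_add_distrib, Finset.sum_add_distrib]
  have : ∑ j ∈ Finset.range n, (cr (y j) (η ((j : ℤ) + 1)) + cr (η j) (y ((j : ℤ) + 1))) =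
      ∑ j ∈ Finset.range n, (cr (η j) (y ((j : ℤ) + 1)) + cr (y j) (η ((j : ℤ) + 1))) :=
    Finset.sum_congr rfl fun j _ => add_comm _ _
  rw [this]
  ring

theorem p_N4_dt_neg (a b c d : ℂ) : dt (a - b) (c - d) = dt (b - a) (d - c) := by
  unfold dt
  simp only [Complex.sub_re, Complex.sub_im]
  ring

theorem p_N4 (hP1 : S_P1) (_ : S_N2) (hN3 : S_N3) : S_N4 := by
  intro n m y I J e k₀ hn hm hopt hst hs1 hs2 η ζ hη hd hdζ
  set i₀ := I k₀ with hi₀
  set η' := p_N4_eta n m i₀ η ζ with hη'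
  have hη'per : Per n η' := p_N4_eta_per n m i₀ η ζ
  have hyper : Per n y := hopt.1
  have hcomp : ∀ k, η' (idx m i₀ k) = η k := p_N4_comp hn hm i₀ η ζ hη
  have hζ : η' (i₀ + m) = ζ := by
    rw [hη', p_N4_eta_at (by omega) (by omega), if_neg (lt_irrefl _), if_pos rfl]
  -- the derivative of the area
  have hL : Lst (2 * m - 1) (fun k => y (idx m i₀ k)) (y (i₀ + m)) η ζ = Bf n y η' := by
    have h1 := hN3 n m y i₀ hn hm hyper
    have h2 := hN3 n m η' i₀ hn hm hη'per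
    have h3 := hN3 n m (fun k => y k + η' k) i₀ hn hm (fun k => by
      show y (k + n) + η' (k + n) = y k + η' k
      rw [hyper k, hη'per k])
    rw [p_N4_sh] at h3
    have h4 := p_N4_St (2 * m - 1) (fun k => y (idx m i₀ k)) (fun k => η' (idx m i₀ k))
      (y (i₀ + m)) (η' (i₀ + m))
    have h5 : (fun k => η' (idx m i₀ k)) = η := funext hcomp
    rw [h5, hζ] at h4
    rw [h5, hζ] at h2
    have h6 : St (2 * m - 1) (fun k => y (idx m i₀ k) + η' (idx m i₀ k)) (y (i₀ + m) + ζ) =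
        sh n y + Bf n y η' + sh n η' := by
      have := h3
      simp only [hζ] at this
      exact this
    have h7 : (fun k => y (idx m i₀ k) + η' (idx m i₀ k)) = fun k => y (idx m i₀ k) + η k := by
      funext k
      rw [hcomp]
    simp only [hcomp] at h4 h6
    linarith
  rw [hL]
  refine hP1 n y η' (by omega) hopt hη'per ?_
  -- the condition for the unit pairs
  have hper : ∀ k, dt (y (I (k + n)) - y (J (k + n))) (η' (I (k + n)) - η' (J (k + n))) =
      dt (y (I k) - y (J k)) (η' (I k) - η' (J k)) := by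
    intro k
    rw [hst.Iper k, hst.Jper k, hyper, hη'per, p_N4_dt_neg]
  have hred : ∀ k, dt (y (I k) - y (J k)) (η' (I k) - η' (J k)) ≤ 0 := by
    intro k
    have hn0 : (0 : ℤ) < n := by omega
    have e1 := per_emod (fun j => dt (y (I (k₀ + j)) - y (J (k₀ + j)))
      (η' (I (k₀ + j)) - η' (J (k₀ + j)))) (fun j => by
        have := hper (k₀ + j)
        rw [add_assoc] at this
        exact this) (k - k₀)
    simp only [add_sub_cancel] at e1
    rw [← e1]
    have hs0 := Int.emod_nonneg (k - k₀) hn0.ne'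
    have hsn := Int.emod_lt_of_pos (k - k₀) hn0
    obtain ⟨s, hs⟩ : ∃ s : ℕ, (k - k₀) % (n : ℤ) = s := ⟨((k - k₀) % (n : ℤ)).toNat, by omega⟩
    rw [hs] at hsn ⊢
    rcases Nat.even_or_odd' s with ⟨q, rfl | rfl⟩
    · have hqm : q < m := by omega
      obtain ⟨hI, hJ⟩ := hs1 q (by omega)
      have e2 : k₀ + ((2 * q : ℕ) : ℤ) = k₀ + 2 * (q : ℤ) := by push_cast; ring
      rw [e2, hI, hJ]
      rcases Nat.eq_zero_or_pos q with rfl | hq0
      · have h1 := p_N4_idx_even i₀ (m := m) (q := 0) le_rfl (by omega)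
        rw [mul_zero, add_zero] at h1
        have h2 := hcomp 0
        rw [h1] at h2
        rw [h1] at hdζ
        simp only [Nat.cast_zero, add_zero]
        rw [hζ, h2, p_N4_dt_neg]
        exact hdζ
      · obtain ⟨a, rfl⟩ : ∃ a, q = a + 1 := ⟨q - 1, by omega⟩
        have h1 := p_N4_idx_even i₀ (m := m) (q := ((a + 1 : ℕ) : ℤ)) (by omega) (by omega)
        have h2 := p_N4_idx_odd i₀ (m := m) (q := (a : ℤ)) (by omega) (by omega)
        have h3 := hd (2 * a + 1)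
        have e3 : (2 * (a : ℤ) + 1 + 1) = 2 * ((a + 1 : ℕ) : ℤ) := by push_cast; ring
        have e4 : i₀ + (m : ℤ) + ((a + 1 : ℕ) : ℤ) = i₀ + m + 1 + a := by push_cast; ring
        rw [e3, h1, h2] at h3
        have h4 := hcomp (2 * ((a + 1 : ℕ) : ℤ))
        have h5 := hcomp (2 * a + 1)
        rw [h1] at h4
        rw [h2] at h5
        rw [e4, h4, h5]
        exact h3
    · have hqm : q < m := by omega
      obtain ⟨hI, hJ⟩ := hs2 q hqm
      have e2 : k₀ + ((2 * q + 1 : ℕ) : ℤ) = k₀ + 2 * (q : ℤ) + 1 := by push_cast; ring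
      rw [e2, hI, hJ]
      have h1 := p_N4_idx_even i₀ (m := m) (q := (q : ℤ)) (by omega) (by omega)
      have h3 := hd (2 * q)
      have h4 := hcomp (2 * (q : ℤ))
      rw [h1] at h4
      rcases Nat.lt_or_ge (q + 1) m with hq | hq
      · have h2 := p_N4_idx_odd i₀ (m := m) (q := (q : ℤ)) (by omega) (by omega)
        have h5 := hcomp (2 * (q : ℤ) + 1)
        rw [h1, h2] at h3
        rw [h2] at h5
        have e4 : i₀ + (m : ℤ) + (q : ℤ) + 1 = i₀ + m + 1 + q := by ring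
        rw [e4, h4, h5, p_N4_dt_neg]
        exact h3
      · have h2 := p_N4_idx_end (m := m) i₀
        have e5 : (2 * (q : ℤ) + 1) = 2 * m - 1 := by omega
        have h5 := hcomp (2 * (q : ℤ) + 1)
        rw [e5, h2] at h5
        rw [e5, h1, h2] at h3
        have e4 : i₀ + (m : ℤ) + (q : ℤ) + 1 = i₀ + n := by omega
        rw [e4, hyper, hη'per, h4, p_N4_dt_neg]
        rw [h5]
        exact h3
  intro i j hij
  obtain ⟨h1, h2⟩ := hst.uniq i j hij
  have h3 := hred (i + j)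
  rw [← h1, ← h2] at h3
  exact h3

end Pool.Agent.Lib.MP_97284c_gt
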