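import Pool.Agent.Lib.MP_97284c_gt.StmF

/-! Piece N5 of MP_97284c_gt: the stationary star. -/

namespace Pool.Agent.Lib.MP_97284c_gt

private theorem p_N5_norm {n : ℕ} {y : ℤ → ℂ} {I J e : ℤ → ℤ} (h : Stair n y I J e) (k : ℤ) :
    ‖Dv y I J k‖ = 1 := by
  unfold Dv
  rw [norm_sub_rev]
  exact (h.up k).2.2

/-- a property of integers which is invariant under the shift by N and holds for 0 ≤ r < N -/
private theorem p_N5_ind {N : ℕ} (hN : 0 < N) (P : ℤ → Prop) (hP : ∀ k, P (k + N) ↔ P k)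
    (h : ∀ r : ℕ, r < N → P r) (k : ℤ) : P k := by
  have h1 := per_emod (N := N) P (fun k => propext (hP k)) k
  have hN' : (0 : ℤ) < N := by omega
  have h2 := Int.emod_nonneg k hN'.ne'
  have h3 := Int.emod_lt_of_pos k hN'
  have h4 := h (k % N).toNat (by omega)
  rw [Int.toNat_of_nonneg h2] at h4
  rw [← h1]
  exact h4

theorem p_N5 (hN1 : S_N1) (hN2 : S_N2) (hN3 : S_N3) (hN4 : S_N4) : S_N5 := by
  intro n m y I J e β hn hm hopt hst hang hcard hβ hβ2
  obtain ⟨k₀, -, -, hA, hB⟩ := hN1 n m y I J e hn (by omega) hst hcard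
  obtain ⟨hper, hD, hD0, hDm⟩ := hN2 n m y I J e k₀ hn (by omega) hopt.1 hst hA hB
  have hNc : (((2 * m - 1 : ℕ) : ℤ)) = 2 * (m : ℤ) - 1 := by omega
  have hNpos : 0 < 2 * m - 1 := by omega
  have hpi := Real.pi_pos
  have hβ' : ∀ k, β k < 7 * Real.pi / 24 := by
    intro k
    refine lt_of_lt_of_le (hβ k) ?_
    have h8 : (6 : ℝ) ≤ (n : ℝ) := by
      have : 6 ≤ n := by omega
      exact_mod_cast this
    apply div_le_div_of_nonneg_left (by positivity) (by norm_num)
    linarith
  set W : ℤ → ℂ := fun k => y (idx m (I k₀) k) with hW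
  have hWper : ∀ k, W (k + ((2 * m - 1 : ℕ) : ℤ)) = W k := by
    intro k
    rw [hNc]
    show y _ = y _
    rw [hper]
  have hDW : ∀ r : ℕ, r < 2 * m - 1 →
      Dv y I J (k₀ + r + 1) = (-1) ^ r * (W ((r : ℤ) + 1) - W r) := hD
  have hD0W : Dv y I J k₀ = y (I k₀ + m) - W 0 := hD0
  have hDmW : Dv y I J (k₀ - 1) = W (-1) - W 0 := hDm
  have hunit : ∀ k, ‖W (k + 1) - W k‖ = 1 := by
    refine p_N5_ind hNpos (fun k => ‖W (k + 1) - W k‖ = 1) ?_ ?_
    · intro k
      rw [show k + ((2 * m - 1 : ℕ) : ℤ) + 1 = k + 1 + ((2 * m - 1 : ℕ) : ℤ) by ring, hWper, hWper]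
    · intro r hr
      have h1 := p_N5_norm hst (k₀ + r + 1)
      rw [hDW r hr, norm_mul, norm_pow, norm_neg, norm_one, one_pow, one_mul] at h1
      exact h1
  have hrotm : y (I k₀ + m) - W 0 =
      Complex.exp (β (k₀ - 1) * Complex.I) * (W (-1) - W 0) := by
    rw [← hD0W, ← hDmW, ← hang.rot (k₀ - 1), sub_add_cancel]
  have hrotp : W 1 - W 0 = Complex.exp (β k₀ * Complex.I) * (y (I k₀ + m) - W 0) := by
    have h1 := hDW 0 hNpos
    rw [Nat.cast_zero, add_zero, zero_add, pow_zero, one_mul] at h1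
    rw [← h1, ← hD0W, hang.rot k₀]
  have hα : ∀ r : ℕ, 0 < r → r < 2 * m - 1 → alp m β k₀ r = β (k₀ + r) := by
    intro r h0 h1
    have h2 : (r : ℤ) % (2 * (m : ℤ) - 1) = r :=
      Int.emod_eq_of_lt (by omega) (by omega)
    unfold alp
    rw [h2, if_neg (by omega)]
  have hα0 : alp m β k₀ 0 = β (k₀ - 1) + β k₀ := by
    unfold alp
    rw [Int.zero_emod, if_pos rfl]
  have hαper : ∀ k, alp m β k₀ (k + ((2 * m - 1 : ℕ) : ℤ)) = alp m β k₀ k := by
    intro k
    unfold alp
    rw [hNc, Int.add_emod_right]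
  have hrot : ∀ k, W (k + 1) - W k =
      Complex.exp (alp m β k₀ k * Complex.I) * (W (k - 1) - W k) := by
    refine p_N5_ind hNpos (fun k => W (k + 1) - W k =
      Complex.exp (alp m β k₀ k * Complex.I) * (W (k - 1) - W k)) ?_ ?_
    · intro k
      rw [show k + ((2 * m - 1 : ℕ) : ℤ) + 1 = k + 1 + ((2 * m - 1 : ℕ) : ℤ) by ring,
        show k + ((2 * m - 1 : ℕ) : ℤ) - 1 = k - 1 + ((2 * m - 1 : ℕ) : ℤ) by ring,
        hWper, hWper, hWper, hαper]
    · intro r hr
      rcases Nat.eq_zero_or_pos r with h0 | h0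
      · subst h0
        rw [Nat.cast_zero, hα0, zero_add, zero_sub, hrotp, hrotm, ← mul_assoc,
          ← Complex.exp_add]
        congr 2
        push_cast
        ring
      · obtain ⟨q, rfl⟩ : ∃ q : ℕ, r = q + 1 := ⟨r - 1, by omega⟩
        rw [hα (q + 1) h0 hr]
        have h1 := hDW (q + 1) hr
        have h2 := hDW q (by omega)
        have h3 := hang.rot (k₀ + ((q + 1 : ℕ) : ℤ))
        rw [h1] at h3
        rw [show k₀ + ((q + 1 : ℕ) : ℤ) = k₀ + q + 1 by push_cast; ring] at h3 ⊢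
        rw [h2] at h3
        have e1 : (((q + 1 : ℕ) : ℤ)) - 1 = q := by push_cast; ring
        have e2 : (((q + 1 : ℕ) : ℤ)) = (q : ℤ) + 1 := by push_cast; ring
        rw [e2] at h3 ⊢
        rw [show (q : ℤ) + 1 - 1 = q by ring]
        have h4 : ((-1 : ℂ) ^ q) * (-1 : ℂ) ^ q = 1 := by
          rw [← mul_pow]
          norm_num
        have h5 : (W ((q : ℤ) + 1 + 1) - W ((q : ℤ) + 1)) =
            -(((-1 : ℂ) ^ q) * ((-1) ^ (q + 1) * (W ((q : ℤ) + 1 + 1) - W ((q : ℤ) + 1)))) := by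
          rw [pow_succ]
          linear_combination (-(W ((q : ℤ) + 1 + 1) - W ((q : ℤ) + 1))) * h4
        rw [h5, h3]
        linear_combination (-(Complex.exp (β (k₀ + q + 1) * Complex.I)) *
          (W ((q : ℤ) + 1) - W (q : ℤ))) * h4
  have hαpos : ∀ k, 0 < alp m β k₀ k := by
    intro k
    unfold alp
    split_ifs
    · exact add_pos (hang.pos _) (hang.pos _)
    · exact hang.pos _
  refine ⟨W, y (I k₀ + m), alp m β k₀, β (k₀ - 1), β k₀, ?_, ?_⟩
  · refine
      { Wper := hWper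
        αper := hαper
        unit := hunit
        unitp := ?_
        rot := hrot
        rotm := hrotm
        rotp := hrotp
        α0 := hα0
        bm0 := hang.pos _
        bm1 := hβ' _
        bp0 := hang.pos _
        bp1 := hβ' _
        αpos := hαpos
        αlt := ?_
        sum := ?_
        two := ?_
        twop := ?_
        twom := ?_
        stat := ?_ }
    · rw [← hD0W]
      exact p_N5_norm hst k₀
    · intro k hk
      unfold alp
      rw [if_neg]
      · exact hβ' _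
      · intro h
        apply hk
        rw [hNc]
        exact Int.dvd_of_emod_eq_zero h
    · have h1 := psum_shift β hang.per (k₀ - 1)
      rw [hang.sum] at h1
      obtain ⟨M, hM⟩ : ∃ M : ℕ, 2 * m - 1 = M + 1 := ⟨2 * m - 2, by omega⟩
      have hnM : n = M + 1 + 1 := by omega
      rw [hnM, Finset.sum_range_succ', Finset.sum_range_succ'] at h1
      rw [hM, Finset.sum_range_succ']
      have h2 : ∀ k ∈ Finset.range M, alp m β k₀ ((k + 1 : ℕ) : ℤ) =
          β (((k + 1 + 1 : ℕ) : ℤ) + (k₀ - 1)) := by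
        intro k hk
        rw [Finset.mem_range] at hk
        rw [hα (k + 1) (by omega) (by omega)]
        congr 1
        push_cast
        ring
      rw [Finset.sum_congr rfl h2, Nat.cast_zero, hα0]
      have h3 : β (((0 + 1 : ℕ) : ℤ) + (k₀ - 1)) = β k₀ := by
        congr 1
        push_cast
        ring
      have h4 : β (((0 : ℕ) : ℤ) + (k₀ - 1)) = β (k₀ - 1) := by
        congr 1
        push_cast
        ring
      rw [h3, h4] at h1
      linarith
    · intro k hk hk1
      have hNp : (0 : ℤ) < 2 * (m : ℤ) - 1 := by omega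
      rw [hNc] at hk hk1
      have g1 : k % (2 * (m : ℤ) - 1) ≠ 0 := fun h => hk (Int.dvd_of_emod_eq_zero h)
      have g2 : (k + 1) % (2 * (m : ℤ) - 1) ≠ 0 := fun h => hk1 (Int.dvd_of_emod_eq_zero h)
      have g3 : (k + 1) % (2 * (m : ℤ) - 1) = k % (2 * (m : ℤ) - 1) + 1 := by
        have h5 := Int.emod_nonneg k hNp.ne'
        have h6 := Int.emod_lt_of_pos k hNp
        have h7 : (k + 1) % (2 * (m : ℤ) - 1) = (k % (2 * (m : ℤ) - 1) + 1) % (2 * (m : ℤ) - 1) := by
          rw [Int.emod_add_emod]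
        rcases lt_or_ge (k % (2 * (m : ℤ) - 1) + 1) (2 * (m : ℤ) - 1) with h8 | h8
        · rw [h7, Int.emod_eq_of_lt (by omega) h8]
        · exfalso
          apply g2
          rw [h7]
          have : k % (2 * (m : ℤ) - 1) + 1 = 2 * (m : ℤ) - 1 := by omega
          rw [this, Int.emod_self]
      unfold alp
      rw [if_neg g1, if_neg g2, g3, ← add_assoc]
      exact hβ2 _
    · have g1 := hα 1 one_pos (by omega)
      rw [Nat.cast_one] at g1
      rw [g1]
      exact hβ2 _
    · have g1 := hα (2 * m - 2) (by omega) (by omega)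
      have g2 := hαper (-1)
      have e1 : -1 + (((2 * m - 1 : ℕ) : ℤ)) = ((2 * m - 2 : ℕ) : ℤ) := by omega
      rw [e1] at g2
      rw [← g2, g1]
      have g3 := hβ2 (k₀ + ((2 * m - 2 : ℕ) : ℤ))
      have g4 := hang.per (k₀ - 1)
      have e2 : k₀ - 1 + (n : ℤ) = k₀ + ((2 * m - 2 : ℕ) : ℤ) + 1 := by omega
      rw [e2] at g4
      rw [g4] at g3
      linarith
    · exact hN4 n m y I J e k₀ hn (by omega) hopt hst hA hB
  · exact hN3 n m y (I k₀) hn (by omega) hopt.1

end Pool.Agent.Lib.MP_97284c_gt
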