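import Pool.Agent.Lib.MP_97284c_gt.StmC

/-!
# Largest small polygons: piece P0, local maximality
-/

open MeasureTheory Filter Topology

namespace Pool.Agent.Lib.MP_97284c_gt

private theorem p_P0_orient_cont : Continuous (fun p : ℂ × ℂ × ℂ => orient p.1 p.2.1 p.2.2) := by
  unfold orient cr
  simp only [Complex.sub_re, Complex.sub_im]
  fun_prop

private theorem p_P0_triple (y : ℤ → ℂ) (i j k : ℤ) (h : 0 < orient (y i) (y j) (y k)) :
    ∀ᶠ δ : ℝ in 𝓝[>] 0, ∀ z : ℤ → ℂ, (∀ l, ‖z l - y l‖ < δ) → 0 < orient (z i) (z j) (z k) := by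
  have h1 := p_P0_orient_cont.continuousAt (x := (y i, y j, y k))
  have h2 : ∀ᶠ p in 𝓝 (y i, y j, y k), 0 < orient p.1 p.2.1 p.2.2 := h1.eventually (lt_mem_nhds h)
  obtain ⟨ε, hε, h3⟩ := Metric.eventually_nhds_iff.mp h2
  filter_upwards [Ioo_mem_nhdsGT hε] with δ hδ z hz
  apply h3 (y := (z i, z j, z k))
  simp only [Prod.dist_eq, dist_eq_norm]
  exact max_lt ((hz i).trans hδ.2) (max_lt ((hz j).trans hδ.2) ((hz k).trans hδ.2))

private theorem p_P0_pair (y : ℤ → ℂ) (i j : ℤ) (h : ‖y i - y j‖ < 1) :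
    ∀ᶠ δ : ℝ in 𝓝[>] 0, ∀ z : ℤ → ℂ, (∀ l, ‖z l - y l‖ < δ) → ‖z i - z j‖ ≤ 1 := by
  have h1 : 0 < (1 - ‖y i - y j‖) / 2 := by linarith
  filter_upwards [Ioo_mem_nhdsGT h1] with δ hδ z hz
  have h2 : z i - z j = (z i - y i) + (y i - y j) - (z j - y j) := by ring
  rw [h2]
  have h3 := norm_sub_le ((z i - y i) + (y i - y j)) (z j - y j)
  have h4 := norm_add_le (z i - y i) (y i - y j)
  have h5 := hz i
  have h6 := hz j
  have h7 := hδ.2
  linarith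

theorem p_P0 : S_P0 := by
  intro n y hn hopt
  obtain ⟨hper, hcvx, hsmall, hmax⟩ := hopt
  have hn0 : (0 : ℤ) < n := by exact_mod_cast hn
  -- finitely many conditions
  have e1 : ∀ᶠ δ : ℝ in 𝓝[>] 0, ∀ i ∈ Finset.Icc (0 : ℤ) (2 * n), ∀ j ∈ Finset.Icc (0 : ℤ) (2 * n),
      ∀ k ∈ Finset.Icc (0 : ℤ) (2 * n), (i < j ∧ j < k ∧ k < i + n) →
      ∀ z : ℤ → ℂ, (∀ l, ‖z l - y l‖ < δ) → 0 < orient (z i) (z j) (z k) := by
    rw [eventually_all_finset]
    intro i _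
    rw [eventually_all_finset]
    intro j _
    rw [eventually_all_finset]
    intro k _
    by_cases h : i < j ∧ j < k ∧ k < i + n
    · filter_upwards [p_P0_triple y i j k (hcvx i j k h.1 h.2.1 h.2.2)] with δ hδ _
      exact hδ
    · exact Eventually.of_forall fun δ h' => absurd h' h
  have e2 : ∀ᶠ δ : ℝ in 𝓝[>] 0, ∀ i ∈ Finset.Icc (0 : ℤ) (2 * n), ∀ j ∈ Finset.Icc (0 : ℤ) (2 * n),
      ‖y i - y j‖ < 1 → ∀ z : ℤ → ℂ, (∀ l, ‖z l - y l‖ < δ) → ‖z i - z j‖ ≤ 1 := by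
    rw [eventually_all_finset]
    intro i _
    rw [eventually_all_finset]
    intro j _
    by_cases h : ‖y i - y j‖ < 1
    · filter_upwards [p_P0_pair y i j h] with δ hδ _
      exact hδ
    · exact Eventually.of_forall fun δ h' => absurd h' h
  obtain ⟨δ, ⟨h1, h2⟩, hδ⟩ := ((e1.and e2).and self_mem_nhdsWithin).exists
  refine ⟨δ, hδ, fun z hz hzy hup => hmax z hz ?_ ?_⟩
  · intro i j k hij hjk hki
    have hi0 := Int.emod_nonneg i hn0.ne'
    have hi1 := Int.emod_lt_of_pos i hn0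
    have hi2 := Int.emod_add_mul_ediv i n
    obtain ⟨t, ht⟩ : ∃ t : ℤ, t = i / n := ⟨_, rfl⟩
    obtain ⟨r, hr⟩ : ∃ r : ℤ, r = i % n := ⟨_, rfl⟩
    rw [← hr] at hi0 hi1 hi2
    rw [← ht] at hi2
    have hi3 : i = r + t * n := by linarith [mul_comm (n : ℤ) t]
    obtain ⟨j', hj'⟩ : ∃ j' : ℤ, j' = j - t * n := ⟨_, rfl⟩
    obtain ⟨k', hk'⟩ : ∃ k' : ℤ, k' = k - t * n := ⟨_, rfl⟩
    have hj3 : j = j' + t * n := by rw [hj']; ring
    have hk3 : k = k' + t * n := by rw [hk']; ring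
    rw [hi3, hj3, hk3, per_mul z hz, per_mul z hz, per_mul z hz]
    apply h1 r (Finset.mem_Icc.mpr ⟨hi0, by linarith⟩) j' (Finset.mem_Icc.mpr ⟨by linarith, by linarith⟩)
      k' (Finset.mem_Icc.mpr ⟨by linarith, by linarith⟩) ⟨by linarith, by linarith, by linarith⟩ z hzy
  · intro i j
    have hi0 := Int.emod_nonneg i hn0.ne'
    have hi1 := Int.emod_lt_of_pos i hn0
    obtain ⟨r, hr⟩ : ∃ r : ℤ, r = i % n := ⟨_, rfl⟩
    rw [← hr] at hi0 hi1
    have hzi : z i = z r := by rw [hr, per_emod z hz]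
    have hj0 := Int.emod_nonneg (j - r) hn0.ne'
    have hj1 := Int.emod_lt_of_pos (j - r) hn0
    have hj2 := Int.emod_add_mul_ediv (j - r) n
    obtain ⟨s, hs⟩ : ∃ s : ℤ, s = (j - r) % n := ⟨_, rfl⟩
    obtain ⟨t, ht⟩ : ∃ t : ℤ, t = (j - r) / n := ⟨_, rfl⟩
    rw [← hs] at hj0 hj1 hj2
    rw [← ht] at hj2
    have hj3 : j = (r + s) + t * n := by linarith [mul_comm (n : ℤ) t]
    have hzj : z j = z (r + s) := by rw [hj3, per_mul z hz]
    rw [hzi, hzj]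
    by_cases hs0 : s = 0
    · rw [hs0, add_zero, sub_self, norm_zero]
      exact zero_le_one
    have hs1 : 0 < s := lt_of_le_of_ne hj0 (Ne.symm hs0)
    by_cases hu : ‖y r - y (r + s)‖ = 1
    · exact hup r (r + s) ⟨by linarith, by linarith, hu⟩
    · exact h2 r (Finset.mem_Icc.mpr ⟨hi0, by linarith⟩) (r + s) (Finset.mem_Icc.mpr ⟨by linarith, by linarith⟩)
        (lt_of_le_of_ne (hsmall r (r + s)) hu) z hzy

end Pool.Agent.Lib.MP_97284c_gt
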