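import Pool.Agent.Lib.MP_97284c_gt.StmC

/-!
# Piece P1: first variation
-/

namespace Pool.Agent.Lib.MP_97284c_gt

private lemma p_P1_lim (a b t0 : ℝ) (ht0 : 0 < t0) (h : ∀ t, 0 < t → t ≤ t0 → a ≤ t * b) :
    a ≤ 0 := by
  by_contra hne
  push Not at hne
  have hb : 0 < |b| + 1 := by positivity
  set t := min t0 (a / (2 * (|b| + 1))) with ht
  have h1 : 0 < t := lt_min ht0 (by positivity)
  have h2 : t ≤ a / (2 * (|b| + 1)) := min_le_right _ _
  have h3 := h t h1 (min_le_left _ _)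
  have h4 : t * b ≤ t * (|b| + 1) := by
    refine mul_le_mul_of_nonneg_left ?_ h1.le
    linarith [le_abs_self b]
  have h5 : t * (|b| + 1) ≤ a / 2 := by
    calc t * (|b| + 1) ≤ a / (2 * (|b| + 1)) * (|b| + 1) :=
          mul_le_mul_of_nonneg_right h2 hb.le
      _ = a / 2 := by field_simp
  linarith

private lemma p_P1_bdd {n : ℕ} (hn : 1 ≤ n) (η : ℤ → ℂ) (h : Per n η) :
    ∃ C : ℝ, 0 ≤ C ∧ ∀ k, ‖η k‖ ≤ C := by
  refine ⟨∑ j ∈ Finset.range n, ‖η (j : ℤ)‖, Finset.sum_nonneg fun _ _ => norm_nonneg _,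
    fun k => ?_⟩
  have hn' : (0 : ℤ) < (n : ℤ) := by exact_mod_cast hn
  have h0 : 0 ≤ k % (n : ℤ) := Int.emod_nonneg k hn'.ne'
  have h1 : k % (n : ℤ) < n := Int.emod_lt_of_pos k hn'
  rw [← per_emod η h k]
  obtain ⟨m, hm⟩ : ∃ m : ℕ, k % (n : ℤ) = (m : ℤ) := ⟨(k % (n : ℤ)).toNat, by omega⟩
  rw [hm]
  exact Finset.single_le_sum (f := fun j : ℕ => ‖η (j : ℤ)‖) (fun _ _ => norm_nonneg _)
    (Finset.mem_range.2 (by omega))

private lemma p_P1_sh (n : ℕ) (y η : ℤ → ℂ) (t : ℝ) :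
    sh n (fun k => y k + (t : ℂ) * η k) = sh n y + t * Bf n y η + t ^ 2 * sh n η := by
  unfold sh Bf
  have e : ∀ j : ℕ, cr (y j + (t : ℂ) * η j) (y (j + 1) + (t : ℂ) * η (j + 1)) =
      cr (y j) (y (j + 1)) + t * (cr (y j) (η (j + 1)) + cr (η j) (y (j + 1))) +
        t ^ 2 * cr (η j) (η (j + 1)) := by
    intro j
    unfold cr
    simp only [Complex.add_re, Complex.add_im, Complex.mul_re, Complex.mul_im,
      Complex.ofReal_re, Complex.ofReal_im]
    ring
  simp only [e, Finset.sum_add_distrib, ← Finset.mul_sum]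
  ring

private lemma p_P1_Bf (n : ℕ) (y η : ℤ → ℂ) (ε : ℝ) :
    Bf n y (fun k => η k - (ε : ℂ) * y k) = Bf n y η - ε * (2 * sh n y) := by
  unfold sh Bf
  have e : ∀ j : ℕ, cr (y j) (η (j + 1) - (ε : ℂ) * y (j + 1)) +
      cr (η j - (ε : ℂ) * y j) (y (j + 1)) =
      (cr (y j) (η (j + 1)) + cr (η j) (y (j + 1))) - (2 * ε) * cr (y j) (y (j + 1)) := by
    intro j
    unfold cr
    simp only [Complex.sub_re, Complex.sub_im, Complex.mul_re, Complex.mul_im,
      Complex.ofReal_re, Complex.ofReal_im]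
    ring
  simp only [e, Finset.sum_sub_distrib, ← Finset.mul_sum]
  ring

theorem p_P1 (hP0 : S_P0) : S_P1 := by
  intro n y η hn hopt hη hup
  obtain ⟨δ, hδ, hloc⟩ := hP0 n y hn hopt
  refine p_P1_lim _ (2 * sh n y) 1 one_pos fun ε hε _ => ?_
  set η' : ℤ → ℂ := fun k => η k - (ε : ℂ) * y k with hη'
  have hper : Per n η' := by
    intro k
    show η (k + n) - (ε : ℂ) * y (k + n) = η k - (ε : ℂ) * y k
    rw [hη k, hopt.1 k]
  obtain ⟨C, hC, hCb⟩ := p_P1_bdd hn η' hper
  have h1 : Bf n y η' ≤ 0 := by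
    refine p_P1_lim _ (-sh n η') (min (δ / (C + 1) / 2) (ε / (2 * C ^ 2 + 1)))
      (lt_min (by positivity) (by positivity)) fun t ht htle => ?_
    have ht1 : t ≤ δ / (C + 1) / 2 := htle.trans (min_le_left _ _)
    have ht2 : t ≤ ε / (2 * C ^ 2 + 1) := htle.trans (min_le_right _ _)
    have hz := hloc (fun k => y k + (t : ℂ) * η' k) ?_ ?_ ?_
    · rw [p_P1_sh] at hz
      have h2 : t * Bf n y η' ≤ t * (t * -sh n η') := by nlinarith
      exact le_of_mul_le_mul_left h2 ht
    · intro k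
      show y (k + n) + (t : ℂ) * η' (k + n) = y k + (t : ℂ) * η' k
      rw [hopt.1 k, hper k]
    · intro k
      have h2 : y k + (t : ℂ) * η' k - y k = (t : ℂ) * η' k := by ring
      rw [h2, norm_mul, Complex.norm_real, Real.norm_eq_abs, abs_of_pos ht]
      have h3 : t * ‖η' k‖ ≤ t * (C + 1) :=
        mul_le_mul_of_nonneg_left (by linarith [hCb k]) ht.le
      have h4 : t * (C + 1) ≤ δ / 2 := by
        calc t * (C + 1) ≤ δ / (C + 1) / 2 * (C + 1) :=
              mul_le_mul_of_nonneg_right ht1 (by linarith)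
          _ = δ / 2 := by field_simp
      linarith
    · intro i j hij
      have hu : ‖y i - y j‖ = 1 := hij.2.2
      have e0 : dt (y i - y j) (y i - y j) = 1 := by rw [dt_self, hu]; norm_num
      have e1 : dt (y i - y j) (η' i - η' j) ≤ -ε := by
        have e2 : dt (y i - y j) (η' i - η' j) =
            dt (y i - y j) (η i - η j) - ε * dt (y i - y j) (y i - y j) := by
          simp only [hη']
          unfold dt
          simp only [Complex.sub_re, Complex.sub_im, Complex.mul_re, Complex.mul_im,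
            Complex.ofReal_re, Complex.ofReal_im]
          ring
        rw [e2, e0]
        linarith [hup i j hij]
      have e3 : ‖η' i - η' j‖ ≤ 2 * C := by
        refine (norm_sub_le _ _).trans ?_
        linarith [hCb i, hCb j]
      have e4 : ‖η' i - η' j‖ ^ 2 ≤ (2 * C) ^ 2 := pow_le_pow_left₀ (norm_nonneg _) e3 2
      have e5 : ‖y i + (t : ℂ) * η' i - (y j + (t : ℂ) * η' j)‖ ^ 2 =
          1 + 2 * t * dt (y i - y j) (η' i - η' j) + t ^ 2 * ‖η' i - η' j‖ ^ 2 := by
        rw [← e0, ← dt_self, ← dt_self]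
        unfold dt
        simp only [Complex.sub_re, Complex.sub_im, Complex.add_re, Complex.add_im,
          Complex.mul_re, Complex.mul_im, Complex.ofReal_re, Complex.ofReal_im]
        ring
      have e6 : t * (2 * C ^ 2 + 1) ≤ ε := by
        calc t * (2 * C ^ 2 + 1) ≤ ε / (2 * C ^ 2 + 1) * (2 * C ^ 2 + 1) :=
              mul_le_mul_of_nonneg_right ht2 (by positivity)
          _ = ε := by field_simp
      have e7 : ‖y i + (t : ℂ) * η' i - (y j + (t : ℂ) * η' j)‖ ^ 2 ≤ 1 := by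
        rw [e5]
        have e8 : 2 * t * dt (y i - y j) (η' i - η' j) ≤ 2 * t * -ε :=
          mul_le_mul_of_nonneg_left e1 (by positivity)
        have e9 : t ^ 2 * ‖η' i - η' j‖ ^ 2 ≤ t ^ 2 * (2 * C) ^ 2 :=
          mul_le_mul_of_nonneg_left e4 (by positivity)
        have e10 : t ^ 2 * (2 * C) ^ 2 ≤ 2 * t * ε := by
          have : t * (2 * C ^ 2) ≤ ε := by nlinarith
          nlinarith
        linarith
      nlinarith [norm_nonneg (y i + (t : ℂ) * η' i - (y j + (t : ℂ) * η' j))]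
  rw [hη', p_P1_Bf] at h1
  linarith

end Pool.Agent.Lib.MP_97284c_gt
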