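import Pool.Agent.Lib.MP_97284c_gt.StmC

/-! Piece P2: moving one residue class. -/

namespace Pool.Agent.Lib.MP_97284c_gt

private theorem p_P2_ndvd {n : ℕ} {t : ℤ} (h1 : 0 < t) (h2 : t < n) : ¬ ((n : ℤ) ∣ t) := by
  intro h
  exact absurd (Int.le_of_dvd h1 h) (by omega)

theorem p_P2 : S_P2 := by
  intro n y k ξ hn hy
  have hn' : (3 : ℤ) ≤ (n : ℤ) := by exact_mod_cast hn
  set η : ℤ → ℂ := fun j => if (n : ℤ) ∣ j - k then ξ else 0 with hη
  have hηper : ∀ j, η (j + n) = η j := by
    intro j
    simp only [hη]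
    have : ((n : ℤ) ∣ j + n - k) ↔ ((n : ℤ) ∣ j - k) := by
      rw [show j + (n : ℤ) - k = (j - k) + n by ring]
      exact ⟨fun h => by simpa using h, fun h => by simpa using h⟩
    by_cases h : (n : ℤ) ∣ j - k
    · rw [if_pos h, if_pos (this.2 h)]
    · rw [if_neg h, if_neg (fun h' => h (this.1 h'))]
  have hη0 : ∀ t : ℤ, 0 < t → t < n → η (t + k) = 0 := by
    intro t h1 h2
    simp only [hη]
    rw [if_neg]
    rw [add_sub_cancel_right]
    exact p_P2_ndvd h1 h2
  have hηk : η k = ξ := by simp [hη]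
  have hηm : η (k - 1) = 0 := by
    have h := hηper (k - 1)
    rw [← h]
    have := hη0 (n - 1) (by omega) (by omega)
    rw [← this]
    congr 1
    ring
  let g : ℤ → ℝ := fun j => cr (y j) (η (j + 1)) + cr (η j) (y (j + 1))
  have hg : ∀ j, g (j + n) = g j := by
    intro j
    simp only [g]
    rw [hy j, hηper j, show j + (n : ℤ) + 1 = (j + 1) + n by ring, hy (j + 1), hηper (j + 1)]
  have h1 : Bf n y η = (∑ j ∈ Finset.range n, g ((j : ℤ) + (k - 1))) / 2 := by
    rw [psum_shift g hg (k - 1)]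
    rfl
  rw [h1]
  obtain ⟨m, rfl⟩ : ∃ m, n = m + 2 := ⟨n - 2, by omega⟩
  rw [Finset.sum_range_succ', Finset.sum_range_succ', Finset.sum_eq_zero]
  · simp only [g]
    push_cast
    rw [show (1 : ℤ) + (k - 1) = k by ring, show (0 : ℤ) + (k - 1) = k - 1 by ring,
      show k - 1 + 1 = k by ring, hηk, hηm]
    have : η (k + 1) = 0 := by
      have := hη0 1 (by omega) (by omega)
      rw [← this]
      congr 1
      ring
    rw [this]
    unfold cr
    simp
    ring
  · intro j hj
    have hj' : j < m := Finset.mem_range.1 hj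
    simp only [g]
    push_cast
    have e1 : η ((j : ℤ) + 1 + 1 + (k - 1) + 1) = 0 := by
      have := hη0 (j + 2) (by omega) (by push_cast; omega)
      rw [← this]
      congr 1
      ring
    have e2 : η ((j : ℤ) + 1 + 1 + (k - 1)) = 0 := by
      have := hη0 (j + 1) (by omega) (by push_cast; omega)
      rw [← this]
      congr 1
      ring
    rw [e1, e2]
    unfold cr
    simp

end Pool.Agent.Lib.MP_97284c_gt
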