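import Pool.Agent.Lib.MP_97284c_gt.StmA

open MeasureTheory

namespace Pool.Agent.Lib.MP_97284c_gt

private theorem p_R_re (R : ℝ) (t : ℝ) :
    ((R : ℂ) * Complex.exp ((t : ℝ) * Complex.I)).re = R * Real.cos t := by
  rw [Complex.re_ofReal_mul, exp_re]

private theorem p_R_im (R : ℝ) (t : ℝ) :
    ((R : ℂ) * Complex.exp ((t : ℝ) * Complex.I)).im = R * Real.sin t := by
  rw [Complex.im_ofReal_mul, exp_im]

private theorem p_R_cos (N k : ℕ) (hN : Odd N) (h3 : 3 ≤ N) (hk : k < N) :
    -Real.cos (Real.pi / N) ≤ Real.cos (2 * Real.pi * k / N) := by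
  have hNpos : (0 : ℝ) < N := by
    have : 0 < N := by omega
    exact_mod_cast this
  have hpi := Real.pi_pos
  have key : ∀ j : ℕ, 2 * j + 1 ≤ N → -Real.cos (Real.pi / N) ≤ Real.cos (2 * Real.pi * j / N) := by
    intro j hj
    rw [← Real.cos_pi_sub]
    have hj' : 2 * (j : ℝ) + 1 ≤ N := by exact_mod_cast hj
    apply Real.cos_le_cos_of_nonneg_of_le_pi
    · positivity
    · have : 0 ≤ Real.pi / N := by positivity
      linarith
    · rw [div_le_iff₀ hNpos, sub_mul, div_mul_cancel₀ _ hNpos.ne']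
      nlinarith
  obtain ⟨m, hm⟩ := hN
  by_cases h : 2 * k + 1 ≤ N
  · exact key k h
  · have h2 : 2 * (N - k) + 1 ≤ N := by omega
    have h4 := key (N - k) h2
    have h5 : 2 * Real.pi * ((N - k : ℕ) : ℝ) / N = 2 * Real.pi - 2 * Real.pi * k / N := by
      rw [Nat.cast_sub hk.le]
      field_simp
    rw [h5, Real.cos_two_pi_sub] at h4
    exact h4

private theorem p_R_line (hA2 : S_A2) (r : ℝ) : volume {z : ℂ | z.re = r} = 0 := by
  have h := hA2 (r : ℂ) ((r : ℂ) + Complex.I) (by
    intro h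
    have := congrArg Complex.im h
    simp at this)
  convert h using 2
  ext z
  simp only [Set.mem_ofPred_eq, orient, cr]
  simp
  constructor
  · intro h
    linarith
  · intro h
    linarith

private theorem p_R_pts_fin (n : ℕ) (y : ℕ → ℂ) : (pts n y).Finite := by
  have : pts n y = y '' (Set.Iio n) := by
    ext z
    simp only [pts, Set.mem_ofPred_eq, Set.mem_image, Set.mem_Iio]
    constructor
    · rintro ⟨i, hi, rfl⟩
      exact ⟨i, hi, rfl⟩
    · rintro ⟨i, hi, rfl⟩
      exact ⟨i, hi, rfl⟩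
  rw [this]
  exact (Set.finite_Iio n).image y

theorem p_R (hA1 : S_A1) (hA2 : S_A2) (hA4 : S_A4) (hR1 : S_R1) (hR2 : S_R2) (hA7 : S_A7) :
    S_R := by
  intro N hN h3
  have hNpos : (0 : ℝ) < N := by
    have : 0 < N := by omega
    exact_mod_cast this
  have hN3 : (3 : ℝ) ≤ N := by exact_mod_cast h3
  have hpi := Real.pi_pos
  obtain ⟨c, hc⟩ : ∃ c, c = Real.cos (Real.pi / (2 * N)) := ⟨_, rfl⟩
  obtain ⟨s, hs⟩ : ∃ s, s = Real.sin (Real.pi / (2 * N)) := ⟨_, rfl⟩
  obtain ⟨R, hR⟩ : ∃ R, R = 1 / (2 * Real.cos (Real.pi / (2 * N))) := ⟨_, rfl⟩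
  have hhalf : Real.pi / N / 2 = Real.pi / (2 * N) := by
    field_simp
  have hle : Real.pi / (2 * N) ≤ Real.pi / 6 := by
    apply div_le_div_of_nonneg_left hpi.le (by norm_num)
    linarith
  have hpos : 0 < Real.pi / (2 * N) := by positivity
  have hcpos : 0 < c := by
    rw [hc]
    apply Real.cos_pos_of_mem_Ioo
    constructor <;> linarith
  have hspos : 0 < s := by
    rw [hs]
    apply Real.sin_pos_of_pos_of_lt_pi hpos
    linarith
  have hc1 : c ≤ 1 := by
    rw [hc]
    exact Real.cos_le_one _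
  have hRc : R = 1 / (2 * c) := by rw [hR, hc]
  have hRpos : 0 < R := by
    rw [hRc]
    positivity
  have hcos : Real.cos (Real.pi / N) = 2 * c ^ 2 - 1 := by
    rw [hc, ← hhalf, ← Real.cos_two_mul]
    congr 1
    ring
  have hsin : Real.sin (Real.pi / N) = 2 * s * c := by
    rw [hc, hs, ← hhalf, ← Real.sin_two_mul]
    congr 1
    ring
  have hRsin : R * Real.sin (Real.pi / N) = s := by
    rw [hRc, hsin]
    field_simp
  have hRcos : R + R * Real.cos (Real.pi / N) = c := by
    rw [hRc, hcos]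
    field_simp
    ring
  set y : ℕ → ℂ := fun k : ℕ => (R : ℂ) * Complex.exp ((2 * Real.pi * k / N : ℝ) * Complex.I)
    with hy
  obtain ⟨hW, hfan⟩ := hR1 N R h3 hRpos
  obtain ⟨hd1, hd2⟩ := hR2 N hN h3 R hR
  have harea : hArea (pts N y) = N * R ^ 2 * Real.sin (2 * Real.pi / N) / 2 := by
    rw [hA4 N y (by omega) hW]
    exact hfan
  have hsin2 : Real.sin (2 * Real.pi / N) = 2 * (2 * s * c) * (2 * c ^ 2 - 1) := by
    rw [← hsin, ← hcos, ← Real.sin_two_mul]
    congr 1
    ring
  have hff : N * ff (Real.pi / N) = N * R ^ 2 * Real.sin (2 * Real.pi / N) / 2 := by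
    have htan : Real.tan (Real.pi / N / 2) = s / c := by
      rw [hhalf, Real.tan_eq_sin_div_cos, ← hs, ← hc]
    unfold ff
    rw [htan, hsin, hsin2, hRc]
    field_simp
  -- the configuration
  set p : ℂ := (R : ℂ) - 1 with hp
  let v : Fin (N + 1) → ℂ := fun i => if (i : ℕ) < N then y i else p
  have hv1 : ∀ i : Fin (N + 1), (i : ℕ) < N → v i = y i := fun i hi => if_pos hi
  have hv2 : ∀ i : Fin (N + 1), ¬ (i : ℕ) < N → v i = p := fun i hi => if_neg hi
  have hsmall : ∀ i j, dist (v i) (v j) ≤ 1 := by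
    intro i j
    rw [dist_eq_norm]
    by_cases hi : (i : ℕ) < N
    · by_cases hj : (j : ℕ) < N
      · rw [hv1 i hi, hv1 j hj]
        exact hd1 i j hi hj
      · rw [hv1 i hi, hv2 j hj, norm_sub_rev]
        exact hd2 i
    · by_cases hj : (j : ℕ) < N
      · rw [hv2 i hi, hv1 j hj]
        exact hd2 j
      · rw [hv2 i hi, hv2 j hj, sub_self, norm_zero]
        exact zero_le_one
  have hmax := (hA7 (N + 1) (by omega)).2 v hsmall
  -- the two pieces
  obtain ⟨m, hm⟩ := hN
  have hNm : (N : ℝ) = 2 * m + 1 := by exact_mod_cast hm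
  have hang1 : 2 * Real.pi * (m : ℝ) / N = Real.pi - Real.pi / N := by
    rw [hNm]
    field_simp
    ring
  have hang2 : 2 * Real.pi * ((m + 1 : ℕ) : ℝ) / N = Real.pi + Real.pi / N := by
    rw [hNm]
    push_cast
    field_simp
    ring
  have hya_re : (y m).re = -(R * Real.cos (Real.pi / N)) := by
    rw [hy]
    simp only
    rw [p_R_re, hang1, Real.cos_pi_sub]
    ring
  have hya_im : (y m).im = s := by
    rw [hy]
    simp only
    rw [p_R_im, hang1, Real.sin_pi_sub, hRsin]
  have hyb_re : (y (m + 1)).re = -(R * Real.cos (Real.pi / N)) := by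
    rw [hy]
    simp only
    rw [p_R_re, hang2, add_comm Real.pi, Real.cos_add_pi]
    ring
  have hyb_im : (y (m + 1)).im = -s := by
    rw [hy]
    simp only
    rw [p_R_im, hang2, add_comm Real.pi, Real.sin_add_pi, mul_neg, hRsin]
  have hp_re : p.re = R - 1 := by
    rw [hp]
    simp
  have hp_im : p.im = 0 := by
    rw [hp]
    simp
  have horient : orient (y m) p (y (m + 1)) = 2 * (s * (1 - c)) := by
    unfold orient cr
    simp only [Complex.sub_re, Complex.sub_im]
    rw [hya_re, hya_im, hyb_re, hyb_im, hp_re, hp_im]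
    linear_combination (-(2 * s)) * hRcos
  set K : Set ℂ := convexHull ℝ (pts N y) with hK
  set T : Set ℂ := convexHull ℝ ({y m, p, y (m + 1)} : Set ℂ) with hT
  have hTvol : volume T = ENNReal.ofReal (s * (1 - c)) := by
    rw [hT, hA1, horient, abs_of_nonneg (by nlinarith)]
    congr 1
    ring
  have hKc : IsCompact (convexHull ℝ (pts N y)) :=
    Set.Finite.isCompact_convexHull (𝕜 := ℝ) (p_R_pts_fin N y)
  have hKfin : volume K < ⊤ := hKc.measure_lt_top
  have hrange : (Set.range v).Finite := Set.finite_range v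
  have hpts_sub : pts N y ⊆ Set.range v := by
    rintro _ ⟨i, hi, rfl⟩
    exact ⟨⟨i, by omega⟩, hv1 _ hi⟩
  have hp_mem : p ∈ Set.range v := ⟨⟨N, by omega⟩, hv2 _ (lt_irrefl _)⟩
  have hsub : K ∪ T ⊆ convexHull ℝ (Set.range v) := by
    refine Set.union_subset (convexHull_mono hpts_sub) (convexHull_mono ?_)
    intro z hz
    simp only [Set.mem_insert_iff, Set.mem_singleton_iff] at hz
    rcases hz with rfl | rfl | rfl
    · exact hpts_sub ⟨m, by omega, rfl⟩
    · exact hp_mem
    · exact hpts_sub ⟨m + 1, by omega, rfl⟩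
  have hKhalf : K ⊆ {z : ℂ | -(R * Real.cos (Real.pi / N)) ≤ z.re} := by
    refine convexHull_min ?_ (convex_halfSpace_re_ge _)
    rintro _ ⟨i, hi, rfl⟩
    show -(R * Real.cos (Real.pi / N)) ≤ (y i).re
    rw [hy]
    simp only
    rw [p_R_re]
    have := p_R_cos N i ⟨m, hm⟩ h3 hi
    nlinarith
  have hThalf : T ⊆ {z : ℂ | z.re ≤ -(R * Real.cos (Real.pi / N))} := by
    refine convexHull_min ?_ (convex_halfSpace_re_le _)
    intro z hz
    simp only [Set.mem_insert_iff, Set.mem_singleton_iff] at hz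
    rcases hz with rfl | rfl | rfl
    · exact hya_re.le
    · show p.re ≤ _
      rw [hp_re]
      linarith
    · exact hyb_re.le
  have hdisj : AEDisjoint volume K T := by
    refine measure_mono_null ?_ (p_R_line hA2 (-(R * Real.cos (Real.pi / N))))
    intro z hz
    exact le_antisymm (hThalf hz.2) (hKhalf hz.1)
  have hTfin : ({y m, p, y (m + 1)} : Set ℂ).Finite := by simp
  have hTc : IsCompact (convexHull ℝ ({y m, p, y (m + 1)} : Set ℂ)) :=
    Set.Finite.isCompact_convexHull (𝕜 := ℝ) hTfin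
  have hTmeas : NullMeasurableSet T volume := hTc.measurableSet.nullMeasurableSet
  have hVc : IsCompact (convexHull ℝ (Set.range v)) :=
    Set.Finite.isCompact_convexHull (𝕜 := ℝ) hrange
  have hunion : volume (K ∪ T) = volume K + volume T := measure_union₀ hTmeas hdisj
  have hge : volume K + volume T ≤ volume (convexHull ℝ (Set.range v)) := by
    rw [← hunion]
    exact measure_mono hsub
  have hfinal : (volume K).toReal + s * (1 - c) ≤ hArea (Set.range v) := by
    have h1 := ENNReal.toReal_mono hVc.measure_lt_top.ne hge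
    have h0 : 0 ≤ s * (1 - c) := mul_nonneg hspos.le (by linarith)
    rw [ENNReal.toReal_add hKfin.ne (by rw [hTvol]; exact ENNReal.ofReal_ne_top), hTvol,
      ENNReal.toReal_ofReal h0] at h1
    exact h1
  have h4 : (volume K).toReal = hArea (pts N y) := rfl
  rw [h4, harea] at hfinal
  rw [hff, hsin, ← hs]
  linarith

end Pool.Agent.Lib.MP_97284c_gt
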