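import Pool.Agent.Lib.MP_97284c_gt.StmA

/-! [R1] The regular `N`-gon. -/

namespace Pool.Agent.Lib.MP_97284c_gt

private theorem p_R1_cr (R a b : ℝ) :
    cr ((R : ℂ) * Complex.exp ((a : ℂ) * Complex.I)) ((R : ℂ) * Complex.exp ((b : ℂ) * Complex.I)) =
      R ^ 2 * Real.sin (b - a) := by
  unfold cr
  simp only [Complex.re_ofReal_mul, Complex.im_ofReal_mul, exp_re, exp_im, Real.sin_sub]
  ring

private theorem p_R1_sin (a b : ℝ) :
    Real.sin (2 * a) + Real.sin (2 * b) - Real.sin (2 * (a + b)) =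
      4 * (Real.sin a * Real.sin b * Real.sin (a + b)) := by
  rw [Real.sin_two_mul, Real.sin_two_mul, Real.sin_two_mul, Real.sin_add, Real.cos_add]
  have h1 := Real.sin_sq_add_cos_sq a
  have h2 := Real.sin_sq_add_cos_sq b
  linear_combination (-2 * Real.sin a * Real.cos a) * h2 + (-2 * Real.sin b * Real.cos b) * h1

private theorem p_R1_orient (R x y z : ℝ) :
    orient ((R : ℂ) * Complex.exp ((x : ℂ) * Complex.I)) ((R : ℂ) * Complex.exp ((y : ℂ) * Complex.I))
      ((R : ℂ) * Complex.exp ((z : ℂ) * Complex.I)) =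
      R ^ 2 * (4 * (Real.sin ((y - x) / 2) * Real.sin ((z - y) / 2) * Real.sin ((z - x) / 2))) := by
  rw [orient_eq, p_R1_cr, p_R1_cr, p_R1_cr]
  have h := p_R1_sin ((y - x) / 2) ((z - y) / 2)
  rw [show 2 * ((y - x) / 2) = y - x by ring, show 2 * ((z - y) / 2) = z - y by ring,
    show 2 * ((y - x) / 2 + (z - y) / 2) = z - x by ring,
    show (y - x) / 2 + (z - y) / 2 = (z - x) / 2 by ring] at h
  rw [← h, show x - z = -(z - x) by ring, Real.sin_neg]
  ring

private theorem p_R1_tel (y : ℕ → ℂ) (m : ℕ) :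
    ∑ j ∈ Finset.range m, orient (y 0) (y j) (y (j + 1)) =
      ∑ j ∈ Finset.range m, cr (y j) (y (j + 1)) - cr (y 0) (y m) := by
  induction m with
  | zero => simp [cr_self]
  | succ m ih =>
    rw [Finset.sum_range_succ, Finset.sum_range_succ, ih, orient_eq, cr_comm (y (m + 1)) (y 0)]
    ring

theorem p_R1 : S_R1 := by
  intro N R hN hR
  have hN0 : (0 : ℝ) < N := by
    have : 0 < N := by omega
    exact_mod_cast this
  have hpi := Real.pi_pos
  refine ⟨?_, ?_⟩
  · intro i j k hij hjk hk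
    have e : ∀ a b : ℕ, a < b → b < N →
        0 ≤ Real.sin ((2 * Real.pi * (b : ℝ) / N - 2 * Real.pi * (a : ℝ) / N) / 2) := by
      intro a b hab hb
      have hab' : (a : ℝ) < b := by exact_mod_cast hab
      have hb' : (b : ℝ) < N := by exact_mod_cast hb
      have ha0 : (0 : ℝ) ≤ a := Nat.cast_nonneg a
      have e1 : (2 * Real.pi * (b : ℝ) / N - 2 * Real.pi * (a : ℝ) / N) / 2 =
          Real.pi * (b - a) / N := by ring
      rw [e1]
      refine Real.sin_nonneg_of_nonneg_of_le_pi ?_ ?_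
      · have : 0 ≤ (b : ℝ) - a := by linarith
        positivity
      · rw [div_le_iff₀ hN0]
        exact mul_le_mul_of_nonneg_left (by linarith) hpi.le
    show 0 ≤ orient ((R : ℂ) * Complex.exp ((2 * Real.pi * i / N : ℝ) * Complex.I))
      ((R : ℂ) * Complex.exp ((2 * Real.pi * j / N : ℝ) * Complex.I))
      ((R : ℂ) * Complex.exp ((2 * Real.pi * k / N : ℝ) * Complex.I))
    rw [p_R1_orient]
    have h1 := e i j hij (by omega)
    have h2 := e j k hjk hk
    have h3 := e i k (by omega) hk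
    positivity
  · obtain ⟨m, rfl⟩ : ∃ m, N = m + 1 := ⟨N - 1, by omega⟩
    unfold fan
    rw [p_R1_tel (fun k : ℕ => (R : ℂ) *
      Complex.exp ((2 * Real.pi * k / (m + 1 : ℕ) : ℝ) * Complex.I)), Nat.add_sub_cancel]
    have h1 : ∀ j ∈ Finset.range m,
        cr ((R : ℂ) * Complex.exp ((2 * Real.pi * (j : ℕ) / (m + 1 : ℕ) : ℝ) * Complex.I))
          ((R : ℂ) * Complex.exp ((2 * Real.pi * (j + 1 : ℕ) / (m + 1 : ℕ) : ℝ) * Complex.I)) =
        R ^ 2 * Real.sin (2 * Real.pi / (m + 1 : ℕ)) := by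
      intro j _
      rw [p_R1_cr]
      congr 2
      push_cast
      ring
    rw [Finset.sum_congr rfl h1, Finset.sum_const, Finset.card_range, nsmul_eq_mul, p_R1_cr]
    have h2 : Real.sin (2 * Real.pi * (m : ℕ) / (m + 1 : ℕ) - 2 * Real.pi * (0 : ℕ) / (m + 1 : ℕ)) =
        -Real.sin (2 * Real.pi / (m + 1 : ℕ)) := by
      have e1 : 2 * Real.pi * (m : ℕ) / (m + 1 : ℕ) - 2 * Real.pi * (0 : ℕ) / (m + 1 : ℕ) =
          2 * Real.pi - 2 * Real.pi / (m + 1 : ℕ) := by
        push_cast at hN0 ⊢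
        field_simp
        ring
      rw [e1, Real.sin_two_pi_sub]
    rw [h2]
    push_cast
    ring

end Pool.Agent.Lib.MP_97284c_gt
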