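import Pool.Agent.Lib.MP_97284c_gt.StmA

/-! Piece R2: distances in the regular star with a pendant vertex. -/

namespace Pool.Agent.Lib.MP_97284c_gt

private lemma p_R2_exp (R a : ℝ) :
    (R : ℂ) * Complex.exp ((a : ℝ) * Complex.I) = ⟨R * Real.cos a, R * Real.sin a⟩ := by
  apply Complex.ext
  · rw [Complex.re_ofReal_mul, exp_re]
  · rw [Complex.im_ofReal_mul, exp_im]

private lemma p_R2_le {z : ℂ} (h : z.re ^ 2 + z.im ^ 2 ≤ 1) : ‖z‖ ≤ 1 := by
  have h1 : ‖z‖ ^ 2 ≤ 1 := by
    rw [← Complex.normSq_eq_norm_sq, Complex.normSq_apply]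
    nlinarith
  by_contra hc
  push Not at hc
  nlinarith [norm_nonneg z]

private lemma p_R2_cos {N d : ℕ} (hodd : Odd N) (hN : 3 ≤ N) (hd : d < N) :
    -Real.cos (Real.pi / N) ≤ Real.cos (2 * Real.pi * d / N) := by
  have hN0 : (0 : ℝ) < N := by
    have : 0 < N := by omega
    exact_mod_cast this
  have key : ∀ e : ℕ, 2 * e + 1 ≤ N → -Real.cos (Real.pi / N) ≤ Real.cos (2 * Real.pi * e / N) := by
    intro e he
    rw [← Real.cos_pi_sub]
    have he' : 2 * (e : ℝ) + 1 ≤ N := by exact_mod_cast he
    apply Real.cos_le_cos_of_nonneg_of_le_pi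
    · have := Real.pi_pos
      positivity
    · have : 0 ≤ Real.pi / N := by
        have := Real.pi_pos
        positivity
      linarith
    · rw [div_le_iff₀ hN0, sub_mul, div_mul_cancel₀ _ hN0.ne']
      nlinarith [Real.pi_pos]
  obtain ⟨m, hm⟩ := hodd
  rcases le_or_gt (2 * d + 1) N with h | h
  · exact key d h
  · have h1 : 2 * (N - d) + 1 ≤ N := by omega
    have h2 := key (N - d) h1
    have h3 : 2 * Real.pi * ((N - d : ℕ) : ℝ) / N = 2 * Real.pi - 2 * Real.pi * d / N := by
      rw [Nat.cast_sub hd.le]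
      field_simp
    rw [h3, Real.cos_two_pi_sub] at h2
    exact h2

theorem p_R2 : S_R2 := by
  intro N hodd hN R hR
  have hN0 : (0 : ℝ) < N := by
    have : 0 < N := by omega
    exact_mod_cast this
  have hN3 : (3 : ℝ) ≤ N := by exact_mod_cast hN
  set c : ℝ := Real.cos (Real.pi / (2 * N)) with hc
  have hc2 : 1 / 2 ≤ c := by
    rw [← Real.cos_pi_div_three, hc]
    apply Real.cos_le_cos_of_nonneg_of_le_pi
    · have := Real.pi_pos
      positivity
    · linarith [Real.pi_pos]
    · apply div_le_div_of_nonneg_left Real.pi_pos.le (by norm_num)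
      linarith
  have hc0 : 0 < c := by linarith
  have hR0 : 0 < R := by rw [hR]; positivity
  have hR1 : R ≤ 1 := by
    rw [hR, div_le_one (by positivity)]
    linarith
  have hRc : R ^ 2 * (2 + 2 * Real.cos (Real.pi / N)) = 1 := by
    have h1 : Real.cos (Real.pi / N) = 2 * c ^ 2 - 1 := by
      rw [hc, ← Real.cos_two_mul]
      congr 1
      field_simp
    rw [h1, hR]
    field_simp
    ring
  constructor
  · intro i j hi hj
    rw [p_R2_exp, p_R2_exp]
    apply p_R2_le
    set a : ℝ := 2 * Real.pi * i / N with ha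
    set b : ℝ := 2 * Real.pi * j / N with hb
    have h1 : -Real.cos (Real.pi / N) ≤ Real.cos (a - b) := by
      rcases le_total j i with h | h
      · have h2 := p_R2_cos hodd hN (show i - j < N by omega)
        have h3 : 2 * Real.pi * ((i - j : ℕ) : ℝ) / N = a - b := by
          rw [Nat.cast_sub h, ha, hb]
          ring
        rw [h3] at h2
        exact h2
      · have h2 := p_R2_cos hodd hN (show j - i < N by omega)
        have h3 : 2 * Real.pi * ((j - i : ℕ) : ℝ) / N = -(a - b) := by
          rw [Nat.cast_sub h, ha, hb]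
          ring
        rw [h3, Real.cos_neg] at h2
        exact h2
    have h4 : (R * Real.cos a - R * Real.cos b) ^ 2 + (R * Real.sin a - R * Real.sin b) ^ 2
        = R ^ 2 * (2 - 2 * Real.cos (a - b)) := by
      rw [Real.cos_sub]
      have s1 := Real.sin_sq_add_cos_sq a
      have s2 := Real.sin_sq_add_cos_sq b
      linear_combination R ^ 2 * s1 + R ^ 2 * s2
    simp only [Complex.sub_re, Complex.sub_im]
    rw [h4, ← hRc]
    apply mul_le_mul_of_nonneg_left _ (by positivity)
    linarith
  · intro k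
    rw [p_R2_exp]
    apply p_R2_le
    set a : ℝ := 2 * Real.pi * k / N with ha
    simp only [Complex.sub_re, Complex.sub_im, Complex.ofReal_re, Complex.ofReal_im,
      Complex.one_re, Complex.one_im]
    have s1 := Real.sin_sq_add_cos_sq a
    have s2 := Real.cos_le_one a
    have h4 : (R - 1 - R * Real.cos a) ^ 2 + (0 - 0 - R * Real.sin a) ^ 2
        = 1 - 2 * (R * (1 - R)) * (1 - Real.cos a) := by
      linear_combination R ^ 2 * s1
    rw [h4]
    have h5 : 0 ≤ R * (1 - R) := mul_nonneg hR0.le (by linarith)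
    have h6 : 0 ≤ (R * (1 - R)) * (1 - Real.cos a) := mul_nonneg h5 (by linarith)
    linarith

end Pool.Agent.Lib.MP_97284c_gt
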