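import Pool.Agent.Lib.MP_97284c_gt.StmS

/-!
# Numerical inequalities (piece S10, MP_97284c_gt)
-/

namespace Pool.Agent.Lib.MP_97284c_gt

theorem p_S10 : S_S10 := by
  constructor
  · intro x x' hx hx'
    have hs : 0 ≤ x + x' := add_nonneg hx hx'
    have h1 : 0 ≤ (x + x') * (x - x') ^ 2 := mul_nonneg hs (sq_nonneg _)
    have h2 : 0 ≤ (x + x' + 2 * (133 / 100)) * (x + x' - 133 / 100) ^ 2 :=
      mul_nonneg (by linarith) (sq_nonneg _)
    nlinarith [h1, h2, hs]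
  · intro x hx
    have h1 : (9 / 16 : ℝ) ≤ (x - 1) ^ 2 := by nlinarith
    have h2 : (15 / 4 : ℝ) ≤ x + 2 := by linarith
    have h3 : (9 / 16 : ℝ) * (15 / 4) ≤ (x - 1) ^ 2 * (x + 2) :=
      mul_le_mul h1 h2 (by norm_num) (sq_nonneg _)
    linarith

end Pool.Agent.Lib.MP_97284c_gt
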