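import Pool.Agent.Lib.MP_97284c_gt.StmA
import Pool.Agent.Lib.MP_97284c_gt.StmS

/-!
# Piece S11: exactly one same-sign node, no large angle
-/

namespace Pool.Agent.Lib.MP_97284c_gt

theorem p_S11 (hS7 : S_S7) (hS8 : S_S8) (hS9 : S_S9) (hS10 : S_S10) (hSP : S_SP) (hR : S_R) :
    S_S11 := by
  intro n y I J e β heven hn hper hst hang hsh
  have hn0 : (6 : ℝ) ≤ (n : ℝ) := by exact_mod_cast hn
  have hnpos : (0 : ℝ) < (n : ℝ) := by linarith
  have hpi := Real.pi_pos
  set b : ℝ := Real.pi / n with hb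
  have hb0 : 0 < b := div_pos hpi hnpos
  have hb6 : b ≤ Real.pi / 6 := div_le_div_of_nonneg_left hpi.le (by norm_num) hn0
  have hb8 : b ≤ Real.pi / 3 := by linarith
  have hnb : (n : ℝ) * b = Real.pi := by rw [hb]; field_simp
  set D : ℝ → ℝ := fun x => (x - b) ^ 2 * (x + 2 * b) with hD
  have hD0 : ∀ x, 0 ≤ x → 0 ≤ D x := fun x hx => by
    have : 0 ≤ x + 2 * b := by linarith
    exact mul_nonneg (sq_nonneg _) this
  have hβ0 : ∀ k, 0 ≤ β k := fun k => (hang.pos k).le
  set w : ℤ → ℝ := fun k => β (k - 1) * β k * (β (k - 1) + β k) with hw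
  have hw0 : ∀ k, 0 ≤ w k := fun k =>
    mul_nonneg (mul_nonneg (hβ0 _) (hβ0 _)) (add_nonneg (hβ0 _) (hβ0 _))
  -- the sum of the tangent estimates
  have h1 : ∑ k ∈ Finset.range n, ff (β k) ≤
      n * ff b - 99 / 1000 * ∑ k ∈ Finset.range n, D (β k) := by
    have h2 : ∀ k ∈ Finset.range n, ff (β (k : ℤ)) ≤
        ff b + ff' b * (β k - b) - 99 / 1000 * D (β k) := fun k _ =>
      hS8 (β k) b (hβ0 _) (hang.le _) hb0 hb8
    refine (Finset.sum_le_sum h2).trans (le_of_eq ?_)
    rw [Finset.sum_sub_distrib, Finset.sum_add_distrib, ← Finset.mul_sum, ← Finset.mul_sum,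
      Finset.sum_sub_distrib, hang.sum]
    simp only [Finset.sum_const, Finset.card_range, nsmul_eq_mul]
    rw [hnb]
    ring
  have h2 := hS7 n y I J e β (by omega) hper hst hang
  have hN : Odd (n - 1) := by
    obtain ⟨m, hm⟩ := heven
    exact ⟨m - 1, by omega⟩
  have h3 := hR (n - 1) hN (by omega)
  have hcast : ((n - 1 : ℕ) : ℝ) = (n : ℝ) - 1 := by
    rw [Nat.cast_sub (by omega), Nat.cast_one]
  rw [show n - 1 + 1 = n by omega, hcast] at h3
  have h4 := hS9 n (by obtain ⟨q, hq⟩ := heven; omega)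
  have h5 : 99 / 1000 * ∑ k ∈ Finset.range n, D (β k) + (∑ k ∈ SS n e, w k) / 16 ≤
      17 / 100 * b ^ 3 := by
    have h6 : (∑ k ∈ SS n e, β ((k : ℤ) - 1) * β k * (β ((k : ℤ) - 1) + β k)) =
        ∑ k ∈ SS n e, w k := rfl
    rw [h6] at h2
    linarith
  have hsub : SS n e ⊆ Finset.range n := Finset.filter_subset _ _
  have hDper : ∀ k : ℤ, D (β (k + n)) = D (β k) := fun k => by rw [hang.per]
  have h7 : ∑ k ∈ Finset.range n, D (β ((k : ℤ) - 1)) = ∑ k ∈ Finset.range n, D (β k) := by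
    have h := psum_shift (fun k => D (β k)) hDper (-1)
    simp only [← sub_eq_add_neg] at h
    exact h
  constructor
  · -- the number of nodes
    have h8 : ∑ k ∈ SS n e, (D (β ((k : ℤ) - 1)) + D (β k)) ≤
        2 * ∑ k ∈ Finset.range n, D (β k) := by
      have h9 : ∑ k ∈ SS n e, (D (β ((k : ℤ) - 1)) + D (β k)) ≤
          ∑ k ∈ Finset.range n, (D (β ((k : ℤ) - 1)) + D (β k)) :=
        Finset.sum_le_sum_of_subset_of_nonneg hsub fun k _ _ =>
          add_nonneg (hD0 _ (hβ0 _)) (hD0 _ (hβ0 _))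
      rw [Finset.sum_add_distrib (s := Finset.range n), h7] at h9
      linarith
    have h10 : ∀ k ∈ SS n e, 3 / 50 * b ^ 3 ≤
        99 / 2000 * (D (β ((k : ℤ) - 1)) + D (β k)) + w k / 16 := by
      intro k _
      have h11 := hS10.1 (β ((k : ℤ) - 1) / b) (β k / b)
        (div_nonneg (hβ0 _) hb0.le) (div_nonneg (hβ0 _) hb0.le)
      have e1 : 99 / 2000 * (D (β ((k : ℤ) - 1)) + D (β k)) + w k / 16 =
          (99 / 2000 * ((β ((k : ℤ) - 1) / b - 1) ^ 2 * (β ((k : ℤ) - 1) / b + 2) +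
            (β k / b - 1) ^ 2 * (β k / b + 2)) +
            β ((k : ℤ) - 1) / b * (β k / b) * (β ((k : ℤ) - 1) / b + β k / b) / 16) * b ^ 3 := by
        simp only [hD, hw]
        field_simp
      rw [e1]
      exact mul_le_mul_of_nonneg_right h11 (by positivity)
    have h12 : (SS n e).card * (3 / 50 * b ^ 3) ≤ 17 / 100 * b ^ 3 := by
      have h13 := Finset.sum_le_sum h10
      rw [Finset.sum_const, nsmul_eq_mul, Finset.sum_add_distrib, ← Finset.mul_sum,
        ← Finset.sum_div] at h13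
      linarith
    have h14 : ((SS n e).card : ℝ) < 3 := by
      have hb3 : 0 < b ^ 3 := by positivity
      by_contra hcon
      push Not at hcon
      nlinarith
    have h15 : (SS n e).card < 3 := by exact_mod_cast h14
    have h16 : Odd (SS n e).card := by
      refine hSP n e heven (by omega) (fun k => ?_) hst.eper
      rcases hst.step k with h | h
      · exact Or.inl h.1
      · exact Or.inr h.1
    obtain ⟨m, hm⟩ := h16
    omega
  refine ⟨?_, ?_⟩
  · intro k
    by_contra hcon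
    push Not at hcon
    have hn' : (0 : ℤ) < (n : ℤ) := by omega
    have g0 : 0 ≤ k % (n : ℤ) := Int.emod_nonneg k hn'.ne'
    have g1 : k % (n : ℤ) < n := Int.emod_lt_of_pos k hn'
    obtain ⟨m, hm⟩ : ∃ m : ℕ, k % (n : ℤ) = (m : ℤ) := ⟨(k % (n : ℤ)).toNat, by omega⟩
    have g2 : β (m : ℤ) = β k := by rw [← hm]; exact per_emod β hang.per k
    have g3 : 7 / 4 ≤ β (m : ℤ) / b := by
      rw [le_div_iff₀ hb0, g2]
      calc 7 / 4 * b = 7 * Real.pi / (4 * n) := by rw [hb]; ring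
        _ ≤ β k := hcon
    have g4 := hS10.2 _ g3
    have g5 : 17 / 100 * b ^ 3 < 99 / 1000 * D (β (m : ℤ)) := by
      have e1 : 99 / 1000 * D (β (m : ℤ)) =
          99 / 1000 * ((β (m : ℤ) / b - 1) ^ 2 * (β (m : ℤ) / b + 2)) * b ^ 3 := by
        simp only [hD]
        field_simp
      rw [e1]
      exact mul_lt_mul_of_pos_right g4 (by positivity)
    have g6 : D (β (m : ℤ)) ≤ ∑ k ∈ Finset.range n, D (β (k : ℤ)) :=
      Finset.single_le_sum (f := fun k : ℕ => D (β (k : ℤ))) (fun i _ => hD0 _ (hβ0 _))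
        (Finset.mem_range.2 (by omega))
    have g7 : 0 ≤ ∑ k ∈ SS n e, w k := Finset.sum_nonneg fun i _ => hw0 _
    linarith
  · -- two consecutive angles
    intro k
    by_contra hcon
    push Not at hcon
    have g1 : 3 * b < β k + β (k + 1) := by linarith
    have g2 : D (β k) + D (β (k + 1)) ≤ ∑ j ∈ Finset.range n, D (β j) := by
      have h := psum_shift (fun k => D (β k)) hDper k
      rw [← h]
      have h2 : ∑ j ∈ Finset.range 2, D (β ((j : ℤ) + k)) ≤ ∑ j ∈ Finset.range n, D (β ((j : ℤ) + k)) :=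
        Finset.sum_le_sum_of_subset_of_nonneg (Finset.range_subset_range.2 (by omega))
          fun i _ _ => hD0 _ (hβ0 _)
      rw [Finset.sum_range_succ, Finset.sum_range_one] at h2
      have e1 : ((0 : ℕ) : ℤ) + k = k := by simp
      have e2 : ((1 : ℕ) : ℤ) + k = k + 1 := by push_cast; ring
      rw [e1, e2] at h2
      exact h2
    have g3 : 7 / 4 * b ^ 3 ≤ D (β k) + D (β (k + 1)) := by
      have key : ∀ x x' : ℝ, 0 ≤ x → 0 ≤ x' → 3 * b < x + x' → 7 / 4 * b ^ 3 ≤ D x + D x' := by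
        intro x x' hx hx' hxx
        have e1 : D x + D x' = (x + x') ^ 3 - 3 * (x * x') * (x + x') - 3 * b ^ 2 * (x + x') + 4 * b ^ 3 := by
          simp only [hD]; ring
        rw [e1]
        have e2 : 4 * (x * x') ≤ (x + x') ^ 2 := by nlinarith [sq_nonneg (x - x')]
        have e3 : 3 * (x * x') * (x + x') ≤ 3 / 4 * (x + x') ^ 3 := by
          have h0 : 0 ≤ x + x' := by linarith
          have := mul_le_mul_of_nonneg_right e2 h0
          nlinarith
        set σ := x + x' with hσ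
        have e4 : 7 / 4 * b ^ 3 ≤ σ ^ 3 / 4 - 3 * b ^ 2 * σ + 4 * b ^ 3 := by
          have e5 : σ ^ 3 / 4 - 3 * b ^ 2 * σ + 4 * b ^ 3 - 7 / 4 * b ^ 3 =
              (σ - 3 * b) * (σ ^ 2 + 3 * b * σ - 3 * b ^ 2) / 4 := by ring
          have e6 : 0 ≤ (σ - 3 * b) * (σ ^ 2 + 3 * b * σ - 3 * b ^ 2) := by
            apply mul_nonneg (by linarith)
            nlinarith
          linarith
        linarith
      exact key _ _ (hβ0 _) (hβ0 _) g1
    have g7 : 0 ≤ ∑ k ∈ SS n e, w k := Finset.sum_nonneg fun i _ => hw0 _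
    have hb3 : 0 < b ^ 3 := by positivity
    linarith

end Pool.Agent.Lib.MP_97284c_gt
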