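import Pool.Agent.Lib.MP_97284c_gt.StmC
import Pool.Agent.Lib.MP_97284c_gt.StmS

/-! Piece [S1a]: the staircase. -/

namespace Pool.Agent.Lib.MP_97284c_gt

theorem p_S1a (hC2 : S_C2) (hC3 : S_C3) (hUPs : S_UPs) : S_S1a := by
  intro n y hn hy hocc
  obtain ⟨hper, hcvx, hsmall, -⟩ := hy
  obtain ⟨hU1, -, -, -⟩ := hUPs n y hper
  choose I J hsum hup using hocc
  have huniq : ∀ i j, UP n y i j → i = I (i + j) ∧ j = J (i + j) := by
    intro i j hij
    exact hC2 n y hper hcvx hsmall i j (I (i + j)) (J (i + j)) hij (hup _) (hsum _).symm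
  have hI : ∀ k, I (k + n) = J k := by
    intro k
    have h := (huniq _ _ (hU1 _ _ (hup k))).1
    have e : J k + (I k + n) = k + n := by linarith [hsum k]
    rw [e] at h
    exact h.symm
  have hJ : ∀ k, J (k + n) = I k + n := by
    intro k
    have h := (huniq _ _ (hU1 _ _ (hup k))).2
    have e : J k + (I k + n) = k + n := by linarith [hsum k]
    rw [e] at h
    exact h.symm
  have hstep : ∀ k, (I (k + 1) = I k ∧ J (k + 1) = J k + 1) ∨ (I (k + 1) = I k + 1 ∧ J (k + 1) = J k) := by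
    intro k
    exact hC3 n y hper hcvx hsmall (I k) (J k) (I (k + 1)) (J (k + 1)) (hup k) (hup (k + 1))
      (by rw [hsum, hsum])
  refine ⟨I, J, fun k => if I (k + 1) = I k then 1 else -1, ⟨hsum, hup, huniq, hI, hJ, ?_, ?_⟩⟩
  · intro k
    rcases hstep k with ⟨h1, h2⟩ | ⟨h1, h2⟩
    · left
      exact ⟨if_pos h1, h1, h2⟩
    · right
      exact ⟨if_neg (by omega), h1, h2⟩
  · intro k
    have e1 : I (k + n + 1) = J (k + 1) := by
      rw [show k + (n : ℤ) + 1 = k + 1 + n by ring]; exact hI (k + 1)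
    show (if I (k + n + 1) = I (k + n) then (1 : ℤ) else -1) = -(if I (k + 1) = I k then 1 else -1)
    rw [e1, hI k]
    rcases hstep k with ⟨h1, h2⟩ | ⟨h1, h2⟩
    · rw [if_neg (by omega), if_pos h1]
    · rw [if_pos h2, if_neg (by omega)]
      norm_num

end Pool.Agent.Lib.MP_97284c_gt
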