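import Pool.Agent.Lib.MP_97284c_gt.StmS

/-! MP_97284c_gt, piece S1b. -/

namespace Pool.Agent.Lib.MP_97284c_gt

private theorem p_S1b_mono {n : ℕ} {y : ℤ → ℂ} {I J e : ℤ → ℤ} (hS : Stair n y I J e) (a b : ℤ)
    (hab : a ≤ b) : I a ≤ I b ∧ J a ≤ J b := by
  induction b, hab using Int.leInduction with
  | base => exact ⟨le_rfl, le_rfl⟩
  | succ b _ ih =>
    rcases hS.step b with ⟨-, h1, h2⟩ | ⟨-, h1, h2⟩
    · rw [h1, h2]
      exact ⟨ih.1, ih.2.trans (by omega)⟩
    · rw [h1, h2]
      exact ⟨ih.1.trans (by omega), ih.2⟩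

theorem p_S1b : S_S1b := by
  intro n y I J e _ hP hC hS k l hkl hln
  have h1 := p_S1b_mono hS k l hkl.le
  have h2 := p_S1b_mono hS l (k + n) hln.le
  rw [hS.Iper, hS.Jper] at h2
  obtain ⟨u1, u2, -⟩ := hS.up k
  obtain ⟨v1, v2, -⟩ := hS.up l
  have sk := hS.sum k
  have sl := hS.sum l
  have key : cr (Dv y I J k) (Dv y I J l) =
      orient (y (I k)) (y (I l)) (y (J k)) + orient (y (J k)) (y (J l)) (y (I k)) := by
    unfold Dv orient cr
    simp only [Complex.sub_re, Complex.sub_im]
    ring
  rw [key]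
  -- the first term
  have A : (I k < I l ∧ I l < J k → 0 < orient (y (I k)) (y (I l)) (y (J k))) ∧
      0 ≤ orient (y (I k)) (y (I l)) (y (J k)) := by
    have hpos : I k < I l ∧ I l < J k → 0 < orient (y (I k)) (y (I l)) (y (J k)) :=
      fun h => hC _ _ _ h.1 h.2 u2
    refine ⟨hpos, ?_⟩
    by_cases h : I k < I l ∧ I l < J k
    · exact (hpos h).le
    · have h3 : I l = I k ∨ I l = J k := by omega
      rcases h3 with h3 | h3
      · rw [h3]
        unfold orient cr
        simp
      · rw [h3]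
        unfold orient
        rw [cr_self]
  have B : (J k < J l ∧ J l < I k + n → 0 < orient (y (J k)) (y (J l)) (y (I k))) ∧
      0 ≤ orient (y (J k)) (y (J l)) (y (I k)) := by
    have hpos : J k < J l ∧ J l < I k + n → 0 < orient (y (J k)) (y (J l)) (y (I k)) := by
      intro h
      have := hC (J k) (J l) (I k + n) h.1 h.2 (by omega)
      rw [hP (I k)] at this
      exact this
    refine ⟨hpos, ?_⟩
    by_cases h : J k < J l ∧ J l < I k + n
    · exact (hpos h).le
    · have h3 : J l = J k ∨ J l = I k + n := by omega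
      rcases h3 with h3 | h3
      · rw [h3]
        unfold orient cr
        simp
      · rw [h3, hP (I k)]
        unfold orient
        rw [cr_self]
  by_cases h : I k < I l ∧ I l < J k
  · exact add_pos_of_pos_of_nonneg (A.1 h) B.2
  · refine add_pos_of_nonneg_of_pos A.2 (B.1 ?_)
    omega

end Pool.Agent.Lib.MP_97284c_gt
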