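import Pool.Agent.Lib.MP_97284c_gt.StmS

/-! Piece S1c of MP_97284c_gt: the angles of the closed staircase. -/

namespace Pool.Agent.Lib.MP_97284c_gt

/-- A quotient of two unit vectors. -/
private theorem p_S1c_quot {a b : ℂ} (ha : ‖a‖ = 1) :
    (b / a).re = dt a b ∧ (b / a).im = cr a b := by
  have h1 : a.re ^ 2 + a.im ^ 2 = 1 := by
    have h2 := dt_self a
    rw [ha] at h2
    unfold dt at h2
    nlinarith
  have h3 : Complex.normSq a = 1 := by
    rw [Complex.normSq_apply]
    nlinarith
  rw [Complex.div_re, Complex.div_im, h3]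
  unfold dt cr
  constructor <;> ring

theorem p_S1c (hS1b : S_S1b) : S_S1c := by
  intro n y I J e hn hper hcvx hsmall hst
  have hb := hS1b n y I J e hn hper hcvx hst
  set D : ℤ → ℂ := Dv y I J with hD
  have hnorm : ∀ k, ‖D k‖ = 1 := by
    intro k
    have h := (hst.up k).2.2
    rw [norm_sub_rev] at h
    exact h
  have hne : ∀ k, D k ≠ 0 := by
    intro k h
    have h1 := hnorm k
    rw [h, norm_zero] at h1
    exact zero_ne_one h1
  have hanti : ∀ k, D (k + n) = -D k := by
    intro k
    have h1 : y (I k + n) = y (I k) := hper (I k)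
    simp only [hD, Dv]
    rw [hst.Iper k, hst.Jper k, h1]
    ring
  have hstep : ∀ k, ‖D (k + 1) - D k‖ ≤ 1 := by
    intro k
    rcases hst.step k with ⟨_, h1, h2⟩ | ⟨_, h1, h2⟩
    · have h3 : D (k + 1) - D k = y (J k + 1) - y (J k) := by
        simp only [hD, Dv]
        rw [h1, h2]
        ring
      rw [h3]
      exact hsmall _ _
    · have h3 : D (k + 1) - D k = y (I k) - y (I k + 1) := by
        simp only [hD, Dv]
        rw [h1, h2]
        ring
      rw [h3]
      exact hsmall _ _
  have hdt : ∀ k, 1 / 2 ≤ dt (D k) (D (k + 1)) := by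
    intro k
    have h1 := normsq_sub (D (k + 1)) (D k)
    rw [hnorm, hnorm, dt_comm] at h1
    have h2 : ‖D (k + 1) - D k‖ ^ 2 ≤ 1 := by
      have h3 := hstep k
      have h4 := norm_nonneg (D (k + 1) - D k)
      nlinarith
    nlinarith
  have hcr : ∀ k, 0 < cr (D k) (D (k + 1)) := by
    intro k
    exact hb k (k + 1) (by omega) (by omega)
  set β : ℤ → ℝ := fun k => Complex.arg (D (k + 1) / D k) with hβ
  have hqn : ∀ k, ‖D (k + 1) / D k‖ = 1 := by
    intro k
    rw [norm_div, hnorm, hnorm, div_one]
  have hexp : ∀ k, Complex.exp (β k * Complex.I) = D (k + 1) / D k := by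
    intro k
    have h1 := Complex.norm_mul_exp_arg_mul_I (D (k + 1) / D k)
    rw [hqn k, Complex.ofReal_one, one_mul] at h1
    exact h1
  have hrot : ∀ k, D (k + 1) = Complex.exp (β k * Complex.I) * D k := by
    intro k
    rw [hexp k, div_mul_cancel₀ _ (hne k)]
  have hsin : ∀ k, Real.sin (β k) = cr (D k) (D (k + 1)) := by
    intro k
    rw [← exp_im, hexp k]
    exact (p_S1c_quot (hnorm k)).2
  have hcos : ∀ k, Real.cos (β k) = dt (D k) (D (k + 1)) := by
    intro k
    rw [← exp_re, hexp k]
    exact (p_S1c_quot (hnorm k)).1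
  have hpos : ∀ k, 0 < β k := by
    intro k
    by_contra h
    push Not at h
    have h1 : Real.sin (β k) ≤ 0 :=
      Real.sin_nonpos_of_nonpos_of_neg_pi_le h (Complex.neg_pi_lt_arg _).le
    have h2 := hcr k
    rw [← hsin k] at h2
    linarith
  have hle : ∀ k, β k ≤ Real.pi / 3 := by
    intro k
    by_contra h
    push Not at h
    have h1 : Real.cos (β k) < Real.cos (Real.pi / 3) :=
      Real.cos_lt_cos_of_nonneg_of_le_pi (by positivity) (Complex.arg_le_pi _) h
    rw [Real.cos_pi_div_three, hcos k] at h1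
    have h2 := hdt k
    linarith
  have hper' : ∀ k, β (k + n) = β k := by
    intro k
    have h1 : D (k + n + 1) = -D (k + 1) := by
      have h2 := hanti (k + 1)
      rw [← h2]
      congr 1
      ring
    simp only [hβ]
    rw [h1, hanti k, neg_div_neg_eq]
  -- partial sums
  have hsum : ∀ l : ℕ, D l = Complex.exp ((∑ k ∈ Finset.range l, β k : ℝ) * Complex.I) * D 0 := by
    intro l
    induction l with
    | zero => simp
    | succ l ih =>
      have h1 := hrot l
      push_cast
      rw [h1, ih, Finset.sum_range_succ, ← mul_assoc, ← Complex.exp_add]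
      congr 2
      push_cast
      ring
  have hsl : ∀ l : ℕ, cr (D 0) (D l) = Real.sin (∑ k ∈ Finset.range l, β k) := by
    intro l
    rw [hsum l, cr_exp_mul, cr_self, dt_self, hnorm]
    ring
  have hind : ∀ l : ℕ, 0 < l → l < n →
      0 < ∑ k ∈ Finset.range l, β k ∧ ∑ k ∈ Finset.range l, β k < Real.pi := by
    intro l hl
    induction l, hl using Nat.le_induction with
    | base =>
      intro _
      simp only [Finset.range_one, Finset.sum_singleton, Nat.cast_zero]
      exact ⟨hpos 0, by have := hle 0; have := Real.pi_pos; linarith⟩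
    | succ l hl ih =>
      intro hln
      obtain ⟨h1, h2⟩ := ih (by omega)
      have h3 := hsl (l + 1)
      have h4 : 0 < cr (D 0) (D ((l + 1 : ℕ) : ℤ)) := hb 0 _ (by push_cast; omega) (by push_cast; omega)
      rw [h3] at h4
      rw [Finset.sum_range_succ] at h4 ⊢
      have h5 := hpos l
      have h6 := hle l
      refine ⟨by linarith, ?_⟩
      by_contra h
      push Not at h
      have h7 : Real.sin (∑ k ∈ Finset.range l, β k + β l) ≤ 0 := by
        have h8 : Real.sin (∑ k ∈ Finset.range l, β k + β l) =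
            -Real.sin (∑ k ∈ Finset.range l, β k + β l - Real.pi) := by
          rw [Real.sin_sub_pi]
          ring
        rw [h8]
        have h9 := Real.sin_nonneg_of_nonneg_of_le_pi (x := ∑ k ∈ Finset.range l, β k + β l - Real.pi)
          (by linarith) (by have := Real.pi_pos; linarith)
        linarith
      linarith
  have htot : ∑ k ∈ Finset.range n, β k = Real.pi := by
    obtain ⟨m, rfl⟩ : ∃ m, n = m + 1 := ⟨n - 1, by omega⟩
    obtain ⟨h1, h2⟩ := hind m (by omega) (by omega)
    have h3 := hpos m
    have h4 := hle m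
    have h5 : D ((m + 1 : ℕ) : ℤ) = -D 0 := by
      have h6 := hanti 0
      rw [zero_add] at h6
      exact h6
    have h7 := hsum (m + 1)
    rw [h5] at h7
    have h8 : Complex.exp ((∑ k ∈ Finset.range (m + 1), β k : ℝ) * Complex.I) = -1 := by
      have h9 : (Complex.exp ((∑ k ∈ Finset.range (m + 1), β k : ℝ) * Complex.I) + 1) * D 0 = 0 := by
        rw [add_mul, ← h7]
        ring
      rcases mul_eq_zero.1 h9 with h | h
      · linear_combination h
      · exact absurd h (hne 0)
    have h10 : Real.cos (∑ k ∈ Finset.range (m + 1), β k) = -1 := by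
      rw [← exp_re, h8]
      simp
    have hsucc : ∑ k ∈ Finset.range (m + 1), β k = ∑ k ∈ Finset.range m, β k + β m :=
      Finset.sum_range_succ _ _
    have hpi := Real.pi_pos
    have h11 : Real.cos (∑ k ∈ Finset.range (m + 1), β k - Real.pi) = 1 := by
      rw [Real.cos_sub_pi, h10]
      ring
    have h12 := (Real.cos_eq_one_iff_of_lt_of_lt (x := ∑ k ∈ Finset.range (m + 1), β k - Real.pi)
      (by rw [hsucc]; linarith) (by rw [hsucc]; linarith)).1 h11
    linarith
  exact ⟨β, ⟨hrot, hpos, hle, hper', htot⟩⟩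

end Pool.Agent.Lib.MP_97284c_gt
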