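import Pool.Agent.Lib.MP_97284c_gt.StmS

/-! Piece S3: area along the staircase. -/

namespace Pool.Agent.Lib.MP_97284c_gt

theorem p_S3 : S_S3 := by
  intro n y I J e hn hP hSt
  obtain ⟨G, hG⟩ := exists_antideriv (fun k => cr (y k) (y (k + 1)))
  have hper : ∀ k : ℤ, (fun k => cr (y k) (y (k + 1))) (k + n) = (fun k => cr (y k) (y (k + 1))) k := by
    intro k
    show cr (y (k + n)) (y (k + n + 1)) = cr (y k) (y (k + 1))
    rw [hP k, show k + (n : ℤ) + 1 = (k + 1) + n by ring, hP (k + 1)]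
  have hsum := antideriv_per (N := n) _ hper G hG (I 0)
  have h1 : ∀ k : ℤ, cr (y (I k)) (y (I (k + 1))) = G (I (k + 1)) - G (I k) := by
    intro k
    rcases hSt.step k with ⟨_, h, _⟩ | ⟨_, h, _⟩
    · rw [h, cr_self]; ring
    · rw [h, hG]
  have h2 : ∀ k : ℤ, cr (y (J k)) (y (J (k + 1))) = G (J (k + 1)) - G (J k) := by
    intro k
    rcases hSt.step k with ⟨_, _, h⟩ | ⟨_, _, h⟩
    · rw [h, hG]
    · rw [h, cr_self]; ring
  have h3 : ∑ k ∈ Finset.range n, (G (I ((k : ℤ) + 1)) - G (I k)) = G (J 0) - G (I 0) := by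
    have := Finset.sum_range_sub (fun k : ℕ => G (I (k : ℤ))) n
    simp only [Nat.cast_add, Nat.cast_one, Nat.cast_zero] at this
    rw [this]
    have h4 := hSt.Iper 0
    rw [zero_add] at h4
    rw [h4]
  have h5 : ∑ k ∈ Finset.range n, (G (J ((k : ℤ) + 1)) - G (J k)) = G (I 0 + n) - G (J 0) := by
    have := Finset.sum_range_sub (fun k : ℕ => G (J (k : ℤ))) n
    simp only [Nat.cast_add, Nat.cast_one, Nat.cast_zero] at this
    rw [this]
    have h4 := hSt.Jper 0
    rw [zero_add] at h4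
    rw [h4]
  unfold sh
  congr 1
  rw [Finset.sum_add_distrib]
  have h6 : ∑ k ∈ Finset.range n, cr (y (I k)) (y (I ((k : ℤ) + 1))) = G (J 0) - G (I 0) := by
    rw [← h3]; exact Finset.sum_congr rfl fun k _ => h1 k
  have h7 : ∑ k ∈ Finset.range n, cr (y (J k)) (y (J ((k : ℤ) + 1))) = G (I 0 + n) - G (J 0) := by
    rw [← h5]; exact Finset.sum_congr rfl fun k _ => h2 k
  rw [h6, h7, ← hsum]; ring

end Pool.Agent.Lib.MP_97284c_gt
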