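import Pool.Agent.Lib.MP_97284c_gt.StmS

/-! Piece S4: one cell. -/

namespace Pool.Agent.Lib.MP_97284c_gt

private lemma p_S4_T (β : ℝ) (h0 : 0 < β) (h1 : β < Real.pi) :
    Real.tan (β / 2) * (1 + Real.cos β) = Real.sin β ∧ Real.tan (β / 2) * Real.sin β = 1 - Real.cos β := by
  have hc : 0 < Real.cos (β / 2) := Real.cos_pos_of_mem_Ioo ⟨by linarith [Real.pi_pos], by linarith⟩
  have hcos : Real.cos β = 2 * Real.cos (β / 2) ^ 2 - 1 := by
    rw [← Real.cos_two_mul]; congr 1; ring
  have hsin : Real.sin β = 2 * Real.sin (β / 2) * Real.cos (β / 2) := by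
    rw [← Real.sin_two_mul]; congr 1; ring
  have hp := Real.sin_sq_add_cos_sq (β / 2)
  rw [Real.tan_eq_sin_div_cos, hcos, hsin]
  constructor
  · field_simp; ring
  · field_simp; linear_combination 2 * hp

private lemma p_S4_case (X Y Y' : ℂ) (β : ℝ) (hD : ‖Y - X‖ = 1)
    (hrot : Y' - X = Complex.exp (β * Complex.I) * (Y - X)) (hβ0 : 0 < β) (hβ1 : β < Real.pi)
    (a b a' b' : ℝ) (ha : a = dt (Y - X) ((X + Y) / 2)) (hb : b = dt (Complex.I * (Y - X)) ((X + Y) / 2))
    (ha' : a' = dt (Y' - X) ((X + Y') / 2)) (hb' : b' = dt (Complex.I * (Y' - X)) ((X + Y') / 2)) :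
    (cr X X + cr Y Y') / 2 = ff β + Real.tan (β / 2) * (a + a') / 2 ∧
    a' / Real.sin β - a * (Real.cos β / Real.sin β) = b + Real.tan (β / 2) / 2 ∧
    a' * (Real.cos β / Real.sin β) - a / Real.sin β = b' - Real.tan (β / 2) / 2 := by
  obtain ⟨hT1, hT2⟩ := p_S4_T β hβ0 hβ1
  have hs : 0 < Real.sin β := Real.sin_pos_of_pos_of_lt_pi hβ0 hβ1
  have hcs := Real.cos_sq_add_sin_sq β
  have hre := congrArg Complex.re hrot
  have him := congrArg Complex.im hrot
  simp only [Complex.mul_re, Complex.mul_im, exp_re, exp_im, Complex.sub_re, Complex.sub_im] at hre him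
  have hD2 : (Y.re - X.re) ^ 2 + (Y.im - X.im) ^ 2 = 1 := by
    have := dt_self (Y - X)
    rw [hD] at this
    unfold dt at this
    simp only [Complex.sub_re, Complex.sub_im] at this
    linarith
  have e2r : ∀ z : ℂ, (z / 2).re = z.re / 2 := fun z => by simp
  have e2i : ∀ z : ℂ, (z / 2).im = z.im / 2 := fun z => by simp
  rw [dt_I_mul] at hb hb'
  unfold dt at ha ha'
  unfold cr at hb hb'
  simp only [Complex.sub_re, Complex.sub_im, e2r, e2i, Complex.add_re, Complex.add_im] at ha ha' hb hb'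
  unfold ff cr
  generalize Real.tan (β / 2) = T at *
  generalize Real.cos β = c at *
  generalize Real.sin β = s at *
  -- coordinates
  obtain ⟨p, hp⟩ : ∃ p, p = Y.re - X.re := ⟨_, rfl⟩
  obtain ⟨q, hq⟩ : ∃ q, q = Y.im - X.im := ⟨_, rfl⟩
  have hYr : Y.re = X.re + p := by linarith
  have hYi : Y.im = X.im + q := by linarith
  rw [hYr, hYi] at ha hb hre him hD2 ⊢
  have hY'r : Y'.re = X.re + (c * p - s * q) := by linear_combination hre
  have hY'i : Y'.im = X.im + (c * q + s * p) := by linear_combination him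
  rw [hY'r, hY'i] at ha' hb' ⊢
  have hh : p ^ 2 + q ^ 2 = 1 := by linear_combination hD2
  clear hp hq hre him hD2 hY'r hY'i hYr hYi hD hrot
  generalize X.re = x1 at *
  generalize X.im = x2 at *
  refine ⟨?_, ?_, ?_⟩
  · rw [ha, ha']
    linear_combination (-(p * x1 + q * x2) / 2) * hT1 - ((p * x2 - q * x1) / 2) * hT2
      + (s / 2 - T / 4 - T / 4 * (c ^ 2 + s ^ 2)) * hh - (T / 4) * hcs
  · have : a' - a * c = (b + T / 2) * s := by
      rw [ha, ha', hb]
      linear_combination -(1 / 2) * hT2 + ((c ^ 2 + s ^ 2) - c) / 2 * hh + 1 / 2 * hcs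
    field_simp
    linear_combination 2 * this
  · have : a' * c - a = (b' - T / 2) * s := by
      rw [ha, ha', hb']
      linear_combination (p * x1 + q * x2) * hcs + c / 2 * hcs + (c * (c ^ 2 + s ^ 2) - 1) / 2 * hh
        + 1 / 2 * hT2
    field_simp
    linear_combination 2 * this

theorem p_S4 : S_S4 := by
  intro X Y X' Y' β ε hD hrot hβ0 hβ1 hε a b a' b' ha hb ha' hb'
  rcases hε with ⟨h1, h2⟩ | ⟨h1, h2⟩
  · subst h2
    have := p_S4_case X' Y Y' β hD hrot hβ0 hβ1 a b a' b' ha hb ha' hb'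
    rw [h1, one_mul]
    exact this
  · subst h2
    have e1 : ∀ u v : ℂ, dt (u - v) ((v + u) / 2) = - dt (v - u) ((u + v) / 2) := by
      intro u v
      unfold dt
      simp only [Complex.sub_re, Complex.sub_im]
      rw [add_comm v u]; ring
    have e2 : ∀ u v : ℂ, dt (Complex.I * (u - v)) ((v + u) / 2) =
        - dt (Complex.I * (v - u)) ((u + v) / 2) := by
      intro u v
      rw [dt_I_mul, dt_I_mul]
      unfold cr
      simp only [Complex.sub_re, Complex.sub_im]
      rw [add_comm v u]; ring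
    have hrot' : X' - Y' = Complex.exp (β * Complex.I) * (X - Y') := by
      have : X' - Y' = -(Y' - X') := by ring
      rw [this, hrot]; ring
    obtain ⟨h3, h4, h5⟩ := p_S4_case Y' X X' β (by rw [norm_sub_rev]; exact hD) hrot' hβ0 hβ1
      (-a) (-b) (-a') (-b') (by rw [ha, e1]; ring) (by rw [hb, e2]; ring)
      (by rw [ha', e1]; ring) (by rw [hb', e2]; ring)
    rw [h1]
    refine ⟨?_, ?_, ?_⟩
    · rw [add_comm (cr X X') (cr Y' Y'), h3]; ring
    · linear_combination -h4
    · linear_combination -h5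

end Pool.Agent.Lib.MP_97284c_gt
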