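import Pool.Agent.Lib.MP_97284c_gt.StmS

/-! Piece S5: the area as a sum minus a quadratic form. -/

namespace Pool.Agent.Lib.MP_97284c_gt

theorem p_S5 (hS3 : S_S3) (hS4 : S_S4) : S_S5 := by
  intro n y I J e β hn hP hSt hA
  obtain ⟨a, ha⟩ : ∃ a : ℤ → ℝ, ∀ k, a k = dt (y (J k) - y (I k)) ((y (I k) + y (J k)) / 2) :=
    ⟨_, fun k => rfl⟩
  obtain ⟨b, hb⟩ : ∃ b : ℤ → ℝ, ∀ k, b k = dt (Complex.I * (y (J k) - y (I k))) ((y (I k) + y (J k)) / 2) :=
    ⟨_, fun k => rfl⟩
  have hap : ∀ k, a (k + n) = -a k := by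
    intro k
    rw [ha, ha, hSt.Iper, hSt.Jper, hP (I k)]
    unfold dt
    simp only [Complex.sub_re, Complex.sub_im]
    rw [add_comm (y (J k)) (y (I k))]; ring
  have hpi := Real.pi_pos
  have hcell : ∀ k : ℤ,
      (cr (y (I k)) (y (I (k + 1))) + cr (y (J k)) (y (J (k + 1)))) / 2 =
        ff (β k) + e k * Real.tan (β k / 2) * (a k + a (k + 1)) / 2 ∧
      a (k + 1) / Real.sin (β k) - a k * (Real.cos (β k) / Real.sin (β k)) =
        b k + e k * Real.tan (β k / 2) / 2 ∧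
      a (k + 1) * (Real.cos (β k) / Real.sin (β k)) - a k / Real.sin (β k) =
        b (k + 1) - e k * Real.tan (β k / 2) / 2 := by
    intro k
    have h1 : ‖y (J k) - y (I k)‖ = 1 := by
      have := (hSt.up k).2.2
      rw [norm_sub_rev]; exact this
    refine hS4 (y (I k)) (y (J k)) (y (I (k + 1))) (y (J (k + 1))) (β k) (e k) h1 (hA.rot k) (hA.pos k)
      (by have := hA.le k; linarith) ?_ (a k) (b k) (a (k + 1)) (b (k + 1)) (ha k) (hb k) (ha _) (hb _)
    rcases hSt.step k with ⟨h2, h3, h4⟩ | ⟨h2, h3, h4⟩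
    · left; exact ⟨by rw [h2]; norm_num, by rw [h3]⟩
    · right; exact ⟨by rw [h2]; norm_num, by rw [h4]⟩
  have hrec : ∀ k : ℤ, a k * (Real.cos (β (k - 1)) / Real.sin (β (k - 1))) + a k * (Real.cos (β k) / Real.sin (β k))
      - a (k - 1) / Real.sin (β (k - 1)) - a (k + 1) / Real.sin (β k) =
      -(e (k - 1) * Real.tan (β (k - 1) / 2) + e k * Real.tan (β k / 2)) / 2 := by
    intro k
    have h1 := (hcell k).2.1
    have h2 := (hcell (k - 1)).2.2
    rw [sub_add_cancel] at h2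
    linear_combination h2 - h1
  have hsecond : ∀ c : ℤ → ℝ, (∀ k, c (k + n) = -c k) →
      ∑ k ∈ Finset.range n, (Real.cos (β k) / Real.sin (β k) * (a k * c k + a (k + 1) * c (k + 1))
        - (a k * c (k + 1) + a (k + 1) * c k) / Real.sin (β k)) =
      -(∑ k ∈ Finset.range n, c k * (e ((k : ℤ) - 1) * Real.tan (β ((k : ℤ) - 1) / 2) + e k * Real.tan (β k / 2))) / 2 := by
    intro c hc
    obtain ⟨F, hF⟩ : ∃ F : ℤ → ℝ, ∀ k, F k = c (k + 1) * a (k + 1) * (Real.cos (β k) / Real.sin (β k)) -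
        c (k + 1) * a k / Real.sin (β k) := ⟨_, fun k => rfl⟩
    have hFp : ∀ k, F (k + n) = F k := by
      intro k
      rw [hF, hF, hA.per, show k + (n : ℤ) + 1 = (k + 1) + n by ring, hc, hap, hap]; ring
    have hsh := psum_shift F hFp (-1)
    have e1 : ∑ k ∈ Finset.range n, (Real.cos (β k) / Real.sin (β k) * (a k * c k + a (k + 1) * c (k + 1))
        - (a k * c (k + 1) + a (k + 1) * c k) / Real.sin (β k)) =
        ∑ k ∈ Finset.range n, (c k * (a k * (Real.cos (β k) / Real.sin (β k)) - a (k + 1) / Real.sin (β k)))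
        + ∑ k ∈ Finset.range n, F k := by
      rw [← Finset.sum_add_distrib]
      refine Finset.sum_congr rfl fun k _ => ?_
      rw [hF]; ring
    rw [e1, ← hsh, ← Finset.sum_add_distrib, neg_div, Finset.sum_div, ← Finset.sum_neg_distrib]
    refine Finset.sum_congr rfl fun k _ => ?_
    have h3 := hrec k
    rw [hF, show (k : ℤ) + -1 = (k : ℤ) - 1 by ring, sub_add_cancel]
    linear_combination (c k) * h3
  refine ⟨a, hap, ?_, hsecond⟩
  have h2 := hsecond a hap
  have h3 : ∑ k ∈ Finset.range n,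
      (Real.cos (β k) / Real.sin (β k) * (a k ^ 2 + a (k + 1) ^ 2) - 2 * a k * a (k + 1) / Real.sin (β k)) =
      ∑ k ∈ Finset.range n, (Real.cos (β k) / Real.sin (β k) * (a k * a k + a (k + 1) * a (k + 1))
        - (a k * a (k + 1) + a (k + 1) * a k) / Real.sin (β k)) := by
    refine Finset.sum_congr rfl fun k _ => ?_
    ring
  obtain ⟨H, hH⟩ : ∃ H : ℤ → ℝ, ∀ k, H k = a (k + 1) * (e k * Real.tan (β k / 2)) := ⟨_, fun k => rfl⟩
  have hHp : ∀ k, H (k + n) = H k := by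
    intro k
    rw [hH, hH, hA.per, show k + (n : ℤ) + 1 = (k + 1) + n by ring, hap, hSt.eper]; push_cast; ring
  have hHs := psum_shift H hHp (-1)
  have h4 : ∑ k ∈ Finset.range n, a k * (e ((k : ℤ) - 1) * Real.tan (β ((k : ℤ) - 1) / 2) + e k * Real.tan (β k / 2)) =
      ∑ k ∈ Finset.range n, e k * Real.tan (β k / 2) * (a k + a (k + 1)) := by
    have e1 : ∑ k ∈ Finset.range n, a k * (e ((k : ℤ) - 1) * Real.tan (β ((k : ℤ) - 1) / 2) + e k * Real.tan (β k / 2)) =
        ∑ k ∈ Finset.range n, H ((k : ℤ) + -1) + ∑ k ∈ Finset.range n, a k * (e k * Real.tan (β k / 2)) := by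
      rw [← Finset.sum_add_distrib]
      refine Finset.sum_congr rfl fun k _ => ?_
      rw [hH, show (k : ℤ) + -1 = (k : ℤ) - 1 by ring, sub_add_cancel]; ring
    rw [e1, hHs, ← Finset.sum_add_distrib]
    refine Finset.sum_congr rfl fun k _ => ?_
    rw [hH]; ring
  rw [h3, h2, h4, hS3 n y I J e hn hP hSt, Finset.sum_div]
  rw [neg_div, sub_neg_eq_add, Finset.sum_div, ← Finset.sum_add_distrib]
  refine Finset.sum_congr rfl fun k _ => ?_
  rw [(hcell k).1]

end Pool.Agent.Lib.MP_97284c_gt
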