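import Pool.Agent.Lib.MP_97284c_gt.StmS

/-! [S6] Discrete Wirtinger inequality for antiperiodic sequences. -/

namespace Pool.Agent.Lib.MP_97284c_gt

/-- A cell in the middle. -/
theorem p_S6_mid (b t u v : ℝ) (hb : 0 < Real.sin b) (ht : 0 < Real.sin t)
    (ht' : 0 < Real.sin (t + b)) :
    Real.cos (t + b) / Real.sin (t + b) * v ^ 2 - Real.cos t / Real.sin t * u ^ 2 ≤
      Real.cos b / Real.sin b * (u ^ 2 + v ^ 2) - 2 * u * v / Real.sin b := by
  have h1 : Real.cos b / Real.sin b + Real.cos t / Real.sin t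
      = Real.sin (t + b) / (Real.sin b * Real.sin t) := by
    rw [Real.sin_add]; field_simp
  have h2 : Real.cos b / Real.sin b - Real.cos (t + b) / Real.sin (t + b)
      = Real.sin t / (Real.sin b * Real.sin (t + b)) := by
    rw [div_sub_div _ _ hb.ne' ht'.ne']
    congr 1
    rw [Real.sin_add, Real.cos_add]
    have := Real.sin_sq_add_cos_sq b
    linear_combination (Real.sin t) * this
  have h3 : (Real.cos b / Real.sin b * (u ^ 2 + v ^ 2) - 2 * u * v / Real.sin b) -
      (Real.cos (t + b) / Real.sin (t + b) * v ^ 2 - Real.cos t / Real.sin t * u ^ 2) =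
      (Real.sin (t + b) * u - Real.sin t * v) ^ 2 /
        (Real.sin b * Real.sin t * Real.sin (t + b)) := by
    have : (Real.cos b / Real.sin b * (u ^ 2 + v ^ 2) - 2 * u * v / Real.sin b) -
      (Real.cos (t + b) / Real.sin (t + b) * v ^ 2 - Real.cos t / Real.sin t * u ^ 2) =
      (Real.cos b / Real.sin b + Real.cos t / Real.sin t) * u ^ 2 +
      (Real.cos b / Real.sin b - Real.cos (t + b) / Real.sin (t + b)) * v ^ 2
        - 2 * u * v / Real.sin b := by ring
    rw [this, h1, h2]
    field_simp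
    ring
  have h4 : 0 ≤ (Real.sin (t + b) * u - Real.sin t * v) ^ 2 /
        (Real.sin b * Real.sin t * Real.sin (t + b)) := by positivity
  linarith

/-- Splitting off the null direction. -/
theorem p_S6_split (b t u v a : ℝ) (hb : 0 < Real.sin b) :
    Real.cos b / Real.sin b * ((u + a * Real.cos t) ^ 2 + (v + a * Real.cos (t + b)) ^ 2)
      - 2 * (u + a * Real.cos t) * (v + a * Real.cos (t + b)) / Real.sin b =
    (Real.cos b / Real.sin b * (u ^ 2 + v ^ 2) - 2 * u * v / Real.sin b)
      + (2 * a * u + a ^ 2 * Real.cos t) * Real.sin t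
      - (2 * a * v + a ^ 2 * Real.cos (t + b)) * Real.sin (t + b) := by
  have e1 : Real.cos b / Real.sin b * Real.cos t - Real.cos (t + b) / Real.sin b = Real.sin t := by
    rw [Real.cos_add]; field_simp; ring
  have e2 : Real.cos b / Real.sin b * Real.cos (t + b) - Real.cos t / Real.sin b
      = -Real.sin (t + b) := by
    rw [Real.cos_add, Real.sin_add]
    field_simp
    have := Real.sin_sq_add_cos_sq b
    linear_combination (Real.cos t) * this
  have : Real.cos b / Real.sin b * ((u + a * Real.cos t) ^ 2 + (v + a * Real.cos (t + b)) ^ 2)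
      - 2 * (u + a * Real.cos t) * (v + a * Real.cos (t + b)) / Real.sin b =
    (Real.cos b / Real.sin b * (u ^ 2 + v ^ 2) - 2 * u * v / Real.sin b)
      + (2 * a * u + a ^ 2 * Real.cos t) *
        (Real.cos b / Real.sin b * Real.cos t - Real.cos (t + b) / Real.sin b)
      + (2 * a * v + a ^ 2 * Real.cos (t + b)) *
        (Real.cos b / Real.sin b * Real.cos (t + b) - Real.cos t / Real.sin b) := by ring
  rw [this, e1, e2]
  ring

theorem p_S6 : S_S6 := by
  intro n β x hn hβ hsum hx
  obtain ⟨θ, hθ⟩ : ∃ θ : ℕ → ℝ, ∀ k, θ k = ∑ j ∈ Finset.range k, β j := ⟨_, fun _ => rfl⟩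
  have hθ0 : θ 0 = 0 := by rw [hθ]; simp
  have hθn : θ n = Real.pi := by rw [hθ]; exact hsum
  have hθs : ∀ k, θ (k + 1) = θ k + β k := fun k => by rw [hθ, hθ, Finset.sum_range_succ]
  have hmono : ∀ d k, k + d ≤ n → θ k ≤ θ (k + d) := by
    intro d
    induction d with
    | zero => intro k _; simp
    | succ d ih =>
      intro k hk
      have h1 := ih k (by omega)
      have h2 := hθs (k + d)
      have h3 := hβ (k + d) (by omega)
      rw [show k + (d + 1) = k + d + 1 by ring]
      linarith
  have hpos : ∀ k, 0 < k → k ≤ n → 0 < θ k := by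
    intro k hk hkn
    have h1 := hmono (k - 1) 1 (by omega)
    rw [show 1 + (k - 1) = k by omega] at h1
    have h2 := hθs 0
    have h3 := hβ 0 (by omega)
    rw [zero_add, hθ0, zero_add] at h2
    linarith
  have hlt : ∀ k, k < n → θ k < Real.pi := by
    intro k hkn
    have h1 := hmono (n - (k + 1)) (k + 1) (by omega)
    rw [show k + 1 + (n - (k + 1)) = n by omega, hθn] at h1
    have h2 := hθs k
    have h3 := hβ k hkn
    linarith
  have hnn : ∀ k, k ≤ n → 0 ≤ θ k := by
    intro k hk
    have := hmono k 0 (by omega)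
    rw [zero_add, hθ0] at this
    exact this
  have hsβ : ∀ k, k < n → 0 < Real.sin (β k) := by
    intro k hk
    apply Real.sin_pos_of_pos_of_lt_pi (hβ k hk)
    -- `β k < π`
    have h1 := hθs k
    rcases Nat.eq_zero_or_pos k with h0 | h0
    · subst h0
      have h2 := hlt 1 (by omega)
      rw [zero_add, hθ0, zero_add] at h1
      rw [← h1]; exact h2
    · have h2 := hpos k h0 (by omega)
      rcases Nat.lt_or_ge (k + 1) n with h3 | h3
      · have h4 := hlt (k + 1) h3
        linarith
      · have h4 : k + 1 = n := by omega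
        rw [h4, hθn] at h1
        linarith
  -- the telescoping function
  obtain ⟨u, hu⟩ : ∃ u : ℕ → ℝ, ∀ k, u k = x k - x 0 * Real.cos (θ k) := ⟨_, fun _ => rfl⟩
  have hu0 : u 0 = 0 := by rw [hu, hθ0, Real.cos_zero]; ring
  have hun : u n = 0 := by rw [hu, hθn, Real.cos_pi, hx]; ring
  obtain ⟨F, hF⟩ : ∃ F : ℕ → ℝ, ∀ k, F k = Real.cos (θ k) / Real.sin (θ k) * u k ^ 2 -
      (2 * x 0 * u k + x 0 ^ 2 * Real.cos (θ k)) * Real.sin (θ k) := ⟨_, fun _ => rfl⟩
  have hF0 : F 0 = 0 := by rw [hF, hu0, hθ0, Real.sin_zero]; ring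
  have hFn : F n = 0 := by rw [hF, hun, hθn, Real.sin_pi]; ring
  have hcell : ∀ k ∈ Finset.range n, F (k + 1) - F k ≤
      Real.cos (β k) / Real.sin (β k) * (x k ^ 2 + x (k + 1) ^ 2)
        - 2 * x k * x (k + 1) / Real.sin (β k) := by
    intro k hk
    have hkn : k < n := Finset.mem_range.mp hk
    have e1 : x k = u k + x 0 * Real.cos (θ k) := by rw [hu]; ring
    have e2 : x (k + 1) = u (k + 1) + x 0 * Real.cos (θ k + β k) := by
      rw [hu, hθs]; ring
    have hs := p_S6_split (β k) (θ k) (u k) (u (k + 1)) (x 0) (hsβ k hkn)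
    rw [← e1, ← e2] at hs
    rw [hs, hF, hF, hθs]
    have key : Real.cos (θ k + β k) / Real.sin (θ k + β k) * u (k + 1) ^ 2 -
        Real.cos (θ k) / Real.sin (θ k) * u k ^ 2 ≤
        Real.cos (β k) / Real.sin (β k) * (u k ^ 2 + u (k + 1) ^ 2)
          - 2 * u k * u (k + 1) / Real.sin (β k) := by
      rcases Nat.eq_zero_or_pos k with h0 | h0
      · subst h0
        rw [hu0, hθ0, zero_add]
        apply le_of_eq; ring
      · rcases Nat.lt_or_ge (k + 1) n with h3 | h3
        · apply p_S6_mid _ _ _ _ (hsβ k hkn)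
          · exact Real.sin_pos_of_pos_of_lt_pi (hpos k h0 (by omega)) (hlt k hkn)
          · rw [← hθs]
            exact Real.sin_pos_of_pos_of_lt_pi (hpos (k + 1) (by omega) (by omega)) (hlt (k + 1) h3)
        · have h4 : k + 1 = n := by omega
          rw [h4, hun]
          have h5 : θ k = Real.pi - β k := by
            have := hθs k
            rw [h4, hθn] at this
            linarith
          rw [h5, Real.cos_pi_sub, Real.sin_pi_sub]
          apply le_of_eq; ring
    linarith
  have hsumF : ∑ k ∈ Finset.range n, (F (k + 1) - F k) = F n - F 0 := Finset.sum_range_sub F n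
  have := Finset.sum_le_sum hcell
  rw [hsumF, hF0, hFn] at this
  linarith

end Pool.Agent.Lib.MP_97284c_gt
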