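import Pool.Agent.Lib.MP_97284c_gt.StmS

namespace Pool.Agent.Lib.MP_97284c_gt

/-- the test sequence -/
noncomputable def p_S7_c (e : ℤ → ℤ) (β : ℤ → ℝ) (k : ℤ) : ℝ :=
  if e (k - 1) = e k then -((e k : ℝ) * (β (k - 1) * β k) / 4) else 0

theorem p_S7_cot_le {b : ℝ} (h0 : 0 < b) (h1 : b ≤ Real.pi / 3) : Real.cos b / Real.sin b ≤ 1 / b := by
  have hpi := Real.pi_pos
  have hs : 0 < Real.sin b := Real.sin_pos_of_pos_of_lt_pi h0 (by linarith)
  have hc : 0 < Real.cos b := Real.cos_pos_of_mem_Ioo ⟨by linarith, by linarith⟩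
  have ht : b ≤ Real.tan b := Real.le_tan h0.le (by linarith)
  rw [div_le_div_iff₀ hs h0, one_mul, mul_comm]
  rw [Real.tan_eq_sin_div_cos, le_div_iff₀ hc] at ht
  exact ht

theorem p_S7 (hS5 : S_S5) (hS6 : S_S6) : S_S7 := by
  intro n y I J e β hn hper hst hang
  have hpi := Real.pi_pos
  obtain ⟨a, ha, hsh, hB⟩ := hS5 n y I J e β hn hper hst hang
  have he : ∀ k, (e k : ℝ) ^ 2 = 1 := by
    intro k
    rcases hst.step k with ⟨h, -, -⟩ | ⟨h, -, -⟩ <;> rw [h] <;> norm_num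
  have hβ0 : ∀ k, 0 < β k := hang.pos
  have hβ1 : ∀ k, β k ≤ Real.pi / 3 := hang.le
  have hsin : ∀ k, 0 < Real.sin (β k) := fun k =>
    Real.sin_pos_of_pos_of_lt_pi (hβ0 k) (by linarith [hβ1 k])
  have hsub : ∀ k : ℤ, k + (n : ℤ) - 1 = k - 1 + n := fun k => by ring
  have hc : ∀ k, p_S7_c e β (k + n) = -p_S7_c e β k := by
    intro k
    unfold p_S7_c
    rw [hsub, hst.eper, hst.eper, hang.per, hang.per]
    by_cases h : e (k - 1) = e k
    · rw [if_pos h, if_pos (by rw [h])]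
      push_cast
      ring
    · rw [if_neg h, if_neg (by intro h'; exact h (neg_injective h'))]
      simp
  set c := p_S7_c e β with hcdef
  have hcsq : ∀ k, c k ^ 2 = if e (k - 1) = e k then (β (k - 1) * β k) ^ 2 / 16 else 0 := by
    intro k
    simp only [hcdef, p_S7_c]
    split_ifs with h
    · have := he k
      calc (-((e k : ℝ) * (β (k - 1) * β k) / 4)) ^ 2 = (e k : ℝ) ^ 2 * ((β (k - 1) * β k) ^ 2 / 16) := by ring
        _ = _ := by rw [this, one_mul]
    · norm_num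
  have hcc : ∀ k, 0 ≤ c k * c (k + 1) := by
    intro k
    simp only [hcdef, p_S7_c, add_sub_cancel_right]
    by_cases h : e (k - 1) = e k
    · by_cases h' : e k = e (k + 1)
      · rw [if_pos h, if_pos h', ← h']
        have h2 : 0 ≤ (β (k - 1) * β k) * (β k * β (k + 1)) := by
          have := hβ0 k
          have := hβ0 (k - 1)
          have := hβ0 (k + 1)
          positivity
        calc (0 : ℝ) ≤ (e k : ℝ) ^ 2 * ((β (k - 1) * β k) * (β k * β (k + 1))) / 16 := by positivity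
          _ = _ := by ring
      · rw [if_neg h', mul_zero]
    · rw [if_neg h, zero_mul]
  -- the quadratic form of `c`
  have hg : ∀ k : ℤ, (fun k : ℤ => c k ^ 2 * (1 / β (k - 1))) (k + n) = (fun k : ℤ => c k ^ 2 * (1 / β (k - 1))) k := by
    intro k
    simp only
    rw [hc, hsub, hang.per]
    ring
  have hshift := psum_shift (fun k : ℤ => c k ^ 2 * (1 / β (k - 1))) hg 1
  simp only [add_sub_cancel_right] at hshift
  have hQc : ∑ k ∈ Finset.range n, (Real.cos (β k) / Real.sin (β k) * (c k ^ 2 + c (k + 1) ^ 2)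
      - 2 * c k * c (k + 1) / Real.sin (β k)) ≤
      (∑ k ∈ Finset.range n, (if e ((k : ℤ) - 1) = e k then β ((k : ℤ) - 1) * β k * (β ((k : ℤ) - 1) + β k) else 0)) / 16 := by
    have s1 : ∑ k ∈ Finset.range n, (Real.cos (β k) / Real.sin (β k) * (c k ^ 2 + c (k + 1) ^ 2)
      - 2 * c k * c (k + 1) / Real.sin (β k)) ≤
      ∑ k ∈ Finset.range n, (c (k : ℤ) ^ 2 * (1 / β k) + c ((k : ℤ) + 1) ^ 2 * (1 / β k)) := by
      refine Finset.sum_le_sum fun k _ => ?_
      have h1 : 0 ≤ 2 * c k * c (k + 1) / Real.sin (β k) := by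
        refine div_nonneg ?_ (hsin _).le
        have := hcc k
        nlinarith
      have h2 := p_S7_cot_le (hβ0 k) (hβ1 k)
      have h3 : 0 ≤ c (k : ℤ) ^ 2 + c ((k : ℤ) + 1) ^ 2 := by positivity
      have h4 := mul_le_mul_of_nonneg_right h2 h3
      linarith
    refine s1.trans (le_of_eq ?_)
    rw [Finset.sum_add_distrib, hshift, ← Finset.sum_add_distrib, Finset.sum_div]
    refine Finset.sum_congr rfl fun k _ => ?_
    rw [hcsq]
    have h1 := (hβ0 (k : ℤ)).ne'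
    have h2 := (hβ0 ((k : ℤ) - 1)).ne'
    split_ifs
    · field_simp
    · simp
  -- the linear term
  have hlin : (∑ k ∈ Finset.range n, (if e ((k : ℤ) - 1) = e k then β ((k : ℤ) - 1) * β k * (β ((k : ℤ) - 1) + β k) else 0)) / 8 ≤
      -(∑ k ∈ Finset.range n, c k * (e ((k : ℤ) - 1) * Real.tan (β ((k : ℤ) - 1) / 2) + e k * Real.tan (β k / 2))) := by
    rw [Finset.sum_div, ← Finset.sum_neg_distrib]
    refine Finset.sum_le_sum fun k _ => ?_
    simp only [hcdef, p_S7_c]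
    split_ifs with h
    · rw [h]
      have t1 : β ((k : ℤ) - 1) / 2 ≤ Real.tan (β ((k : ℤ) - 1) / 2) :=
        Real.le_tan (by linarith [hβ0 ((k : ℤ) - 1)]) (by linarith [hβ1 ((k : ℤ) - 1)])
      have t2 : β (k : ℤ) / 2 ≤ Real.tan (β (k : ℤ) / 2) :=
        Real.le_tan (by linarith [hβ0 (k : ℤ)]) (by linarith [hβ1 (k : ℤ)])
      have t3 : 0 < β ((k : ℤ) - 1) * β k := mul_pos (hβ0 _) (hβ0 _)
      have t4 : -(-((e k : ℝ) * (β ((k : ℤ) - 1) * β k) / 4) *
          ((e k : ℝ) * Real.tan (β ((k : ℤ) - 1) / 2) + (e k : ℝ) * Real.tan (β k / 2))) =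
          (e k : ℝ) ^ 2 * (β ((k : ℤ) - 1) * β k * (Real.tan (β ((k : ℤ) - 1) / 2) + Real.tan (β k / 2)) / 4) := by
        ring
      rw [t4, he, one_mul]
      nlinarith [mul_le_mul_of_nonneg_left (add_le_add t1 t2) t3.le]
    · simp
  have hBc := hB c hc
  -- the Wirtinger inequality
  have hx := hS6 n (fun k => β k) (fun k => a k - c k) (by omega) (fun k _ => hβ0 k) hang.sum (by
    have h1 := ha 0
    have h2 := hc 0
    rw [zero_add] at h1 h2
    simp only [Nat.cast_zero]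
    rw [h1, h2]
    ring)
  have hexp : ∑ k ∈ Finset.range n,
      (Real.cos (β k) / Real.sin (β k) * ((a k - c k) ^ 2 + (a ((k + 1 : ℕ) : ℤ) - c ((k + 1 : ℕ) : ℤ)) ^ 2)
        - 2 * (a k - c k) * (a ((k + 1 : ℕ) : ℤ) - c ((k + 1 : ℕ) : ℤ)) / Real.sin (β k)) =
      (∑ k ∈ Finset.range n,
        (Real.cos (β k) / Real.sin (β k) * (a k ^ 2 + a (k + 1) ^ 2) - 2 * a k * a (k + 1) / Real.sin (β k)))
      - 2 * (∑ k ∈ Finset.range n, (Real.cos (β k) / Real.sin (β k) * (a k * c k + a (k + 1) * c (k + 1))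
        - (a k * c (k + 1) + a (k + 1) * c k) / Real.sin (β k)))
      + ∑ k ∈ Finset.range n, (Real.cos (β k) / Real.sin (β k) * (c k ^ 2 + c (k + 1) ^ 2)
        - 2 * c k * c (k + 1) / Real.sin (β k)) := by
    rw [Finset.mul_sum, ← Finset.sum_sub_distrib, ← Finset.sum_add_distrib]
    refine Finset.sum_congr rfl fun k _ => ?_
    push_cast
    ring
  have hx' : 0 ≤ ∑ k ∈ Finset.range n,
      (Real.cos (β k) / Real.sin (β k) * ((a k - c k) ^ 2 + (a ((k + 1 : ℕ) : ℤ) - c ((k + 1 : ℕ) : ℤ)) ^ 2)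
        - 2 * (a k - c k) * (a ((k + 1 : ℕ) : ℤ) - c ((k + 1 : ℕ) : ℤ)) / Real.sin (β k)) := hx
  rw [hexp, hBc] at hx'
  have hSS : ∑ k ∈ SS n e, β ((k : ℤ) - 1) * β k * (β ((k : ℤ) - 1) + β k) =
      ∑ k ∈ Finset.range n, (if e ((k : ℤ) - 1) = e k then β ((k : ℤ) - 1) * β k * (β ((k : ℤ) - 1) + β k) else 0) := by
    unfold SS
    rw [Finset.sum_filter]
  rw [hSS, hsh]
  linarith

end Pool.Agent.Lib.MP_97284c_gt
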