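import Pool.Agent.Lib.MP_97284c_gt.StmS

/-! Piece S8: tangent inequality for `ff`. -/

namespace Pool.Agent.Lib.MP_97284c_gt

private theorem p_S8_cos {x : ℝ} (h0 : 0 ≤ x) (h1 : x ≤ Real.pi / 3) : 0 < Real.cos (x / 2) := by
  apply Real.cos_pos_of_mem_Ioo
  constructor <;> linarith [Real.pi_pos]

private theorem p_S8_d1 {x : ℝ} (h0 : 0 ≤ x) (h1 : x ≤ Real.pi / 3) : HasDerivAt ff (ff' x) x := by
  have hc := p_S8_cos h0 h1
  have hh : HasDerivAt (fun x : ℝ => x / 2) (1 / 2) x := (hasDerivAt_id x).div_const 2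
  have ht : HasDerivAt (fun x : ℝ => Real.tan (x / 2)) (1 / Real.cos (x / 2) ^ 2 * (1 / 2)) x :=
    HasDerivAt.comp x (Real.hasDerivAt_tan hc.ne') hh
  have h := ((Real.hasDerivAt_sin x).sub ht).div_const 2
  have e : ff' x = (Real.cos x - 1 / Real.cos (x / 2) ^ 2 * (1 / 2)) / 2 := by
    unfold ff'
    field_simp
    ring
  rw [e]
  exact h

private theorem p_S8_d2 {x : ℝ} (h0 : 0 ≤ x) (h1 : x ≤ Real.pi / 3) :
    HasDerivAt ff' (-(Real.sin x / 2 + Real.tan (x / 2) / (4 * Real.cos (x / 2) ^ 2))) x := by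
  have hc := p_S8_cos h0 h1
  have hh : HasDerivAt (fun x : ℝ => x / 2) (1 / 2) x := (hasDerivAt_id x).div_const 2
  have hcos : HasDerivAt (fun x : ℝ => Real.cos (x / 2)) (-Real.sin (x / 2) * (1 / 2)) x :=
    HasDerivAt.cos hh
  have h4 : HasDerivAt (fun x : ℝ => 4 * Real.cos (x / 2) ^ 2)
      (4 * ((2 : ℕ) * Real.cos (x / 2) ^ (2 - 1) * (-Real.sin (x / 2) * (1 / 2)))) x :=
    (hcos.pow 2).const_mul 4
  have hne : 4 * Real.cos (x / 2) ^ 2 ≠ 0 := by positivity
  have h5 := (hasDerivAt_const x (1 : ℝ)).div h4 hne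
  have h := ((Real.hasDerivAt_cos x).div_const 2).sub h5
  have e : -(Real.sin x / 2 + Real.tan (x / 2) / (4 * Real.cos (x / 2) ^ 2)) =
      -Real.sin x / 2 - (0 * (4 * Real.cos (x / 2) ^ 2) -
        1 * (4 * ((2 : ℕ) * Real.cos (x / 2) ^ (2 - 1) * (-Real.sin (x / 2) * (1 / 2))))) /
        (4 * Real.cos (x / 2) ^ 2) ^ 2 := by
    rw [Real.tan_eq_sin_div_cos]
    have := hc.ne'
    field_simp
    push_cast
    ring
  rw [e]
  exact h

theorem p_S8 (hS8a : S_S8a) : S_S8 := by
  intro β b hβ0 hβ1 hb0 hb1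
  have hpi := Real.pi_pos
  have hb2 : b ≤ Real.pi / 3 := by linarith
  let G : ℝ → ℝ := fun x => ff' b - 99 / 1000 * (3 * x ^ 2 - 3 * b ^ 2) - ff' x
  let g : ℝ → ℝ := fun x => ff b + ff' b * (x - b) - 99 / 1000 * ((x - b) ^ 2 * (x + 2 * b)) - ff x
  have hG : ∀ x, 0 ≤ x → x ≤ Real.pi / 3 → HasDerivAt G (-(594 / 1000 * x) +
      (Real.sin x / 2 + Real.tan (x / 2) / (4 * Real.cos (x / 2) ^ 2))) x := by
    intro x h0 h1
    have h2 : HasDerivAt (fun x : ℝ => 99 / 1000 * (3 * x ^ 2 - 3 * b ^ 2)) (594 / 1000 * x) x := by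
      have h3 : HasDerivAt (fun x : ℝ => x ^ 2) ((2 : ℕ) * x ^ (2 - 1)) x := hasDerivAt_pow 2 x
      have h4 := ((h3.const_mul 3).sub_const (3 * b ^ 2)).const_mul (99 / 1000 : ℝ)
      refine h4.congr_deriv ?_
      push_cast
      ring
    have h5 := ((hasDerivAt_const x (ff' b)).sub h2).sub (p_S8_d2 h0 h1)
    refine h5.congr_deriv ?_
    ring
  have hg : ∀ x, 0 ≤ x → x ≤ Real.pi / 3 → HasDerivAt g (G x) x := by
    intro x h0 h1
    have h2 : HasDerivAt (fun x : ℝ => 99 / 1000 * ((x - b) ^ 2 * (x + 2 * b)))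
        (99 / 1000 * (3 * x ^ 2 - 3 * b ^ 2)) x := by
      have h3 : HasDerivAt (fun x : ℝ => x - b) 1 x := (hasDerivAt_id x).sub_const b
      have h4 : HasDerivAt (fun x : ℝ => (x - b) ^ 2) ((2 : ℕ) * (x - b) ^ (2 - 1) * 1) x := h3.pow 2
      have h5 : HasDerivAt (fun x : ℝ => x + 2 * b) 1 x := (hasDerivAt_id x).add_const (2 * b)
      have h6 := (h4.mul h5).const_mul (99 / 1000 : ℝ)
      refine h6.congr_deriv ?_
      push_cast
      ring
    have h7 : HasDerivAt (fun x : ℝ => ff b + ff' b * (x - b)) (ff' b) x := by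
      have h3 : HasDerivAt (fun x : ℝ => x - b) 1 x := (hasDerivAt_id x).sub_const b
      have h8 := (h3.const_mul (ff' b)).const_add (ff b)
      simpa using h8
    exact (h7.sub h2).sub (p_S8_d1 h0 h1)
  have hGb : G b = 0 := by simp [G]
  have hgb : g b = 0 := by simp [g]
  have hmono : MonotoneOn G (Set.Icc 0 (Real.pi / 3)) := by
    refine monotoneOn_of_deriv_nonneg (convex_Icc _ _) ?_ ?_ ?_
    · intro x hx
      exact (hG x hx.1 hx.2).continuousAt.continuousWithinAt
    · intro x hx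
      rw [interior_Icc] at hx
      exact (hG x hx.1.le hx.2.le).differentiableAt.differentiableWithinAt
    · intro x hx
      rw [interior_Icc] at hx
      rw [(hG x hx.1.le hx.2.le).deriv]
      have := hS8a x hx.1.le hx.2.le
      linarith
  have hfin : 0 ≤ g β := by
    rcases le_total β b with h | h
    · have hanti : AntitoneOn g (Set.Icc 0 b) := by
        refine antitoneOn_of_deriv_nonpos (convex_Icc _ _) ?_ ?_ ?_
        · intro x hx
          exact (hg x hx.1 (hx.2.trans hb2)).continuousAt.continuousWithinAt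
        · intro x hx
          rw [interior_Icc] at hx
          exact (hg x hx.1.le (hx.2.le.trans hb2)).differentiableAt.differentiableWithinAt
        · intro x hx
          rw [interior_Icc] at hx
          rw [(hg x hx.1.le (hx.2.le.trans hb2)).deriv, ← hGb]
          exact hmono ⟨hx.1.le, hx.2.le.trans hb2⟩ ⟨hb0.le, hb2⟩ hx.2.le
      have := hanti ⟨hβ0, h⟩ ⟨hb0.le, le_refl b⟩ h
      rw [hgb] at this
      exact this
    · have hmon : MonotoneOn g (Set.Icc b (Real.pi / 3)) := by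
        refine monotoneOn_of_deriv_nonneg (convex_Icc _ _) ?_ ?_ ?_
        · intro x hx
          exact (hg x (hb0.le.trans hx.1) hx.2).continuousAt.continuousWithinAt
        · intro x hx
          rw [interior_Icc] at hx
          exact (hg x (hb0.le.trans hx.1.le) hx.2.le).differentiableAt.differentiableWithinAt
        · intro x hx
          rw [interior_Icc] at hx
          rw [(hg x (hb0.le.trans hx.1.le) hx.2.le).deriv, ← hGb]
          exact hmono ⟨hb0.le, hb2⟩ ⟨hb0.le.trans hx.1.le, hx.2.le⟩ hx.1.le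
      have := hmon ⟨le_refl b, hb2⟩ ⟨h, hβ1⟩ h
      rw [hgb] at this
      exact this
  simp only [g] at hfin
  linarith

end Pool.Agent.Lib.MP_97284c_gt
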