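import Pool.Agent.Lib.MP_97284c_gt.StmS

/-! Piece S8a: a trigonometric inequality. -/

namespace Pool.Agent.Lib.MP_97284c_gt

private lemma p_S8a_arctan {t : ℝ} (ht : 0 ≤ t) :
    Real.arctan t ≤ t - t ^ 3 / 3 + t ^ 5 / 5 := by
  set f : ℝ → ℝ := fun t => t - t ^ 3 / 3 + t ^ 5 / 5 - Real.arctan t with hf
  have hder : ∀ y, HasDerivAt f (1 - y ^ 2 + y ^ 4 - 1 / (1 + y ^ 2)) y := by
    intro y
    have h1 : HasDerivAt (fun t : ℝ => t ^ 3 / 3) (y ^ 2) y := by
      have := (hasDerivAt_pow 3 y).div_const 3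
      refine this.congr_deriv ?_
      norm_num
    have h2 : HasDerivAt (fun t : ℝ => t ^ 5 / 5) (y ^ 4) y := by
      have := (hasDerivAt_pow 5 y).div_const 5
      refine this.congr_deriv ?_
      norm_num
    exact (((hasDerivAt_id y).sub h1).add h2).sub (Real.hasDerivAt_arctan y)
  have hmono : Monotone f := by
    apply monotone_of_deriv_nonneg
    · exact fun y => (hder y).differentiableAt
    · intro y
      rw [(hder y).deriv, sub_nonneg, div_le_iff₀ (by positivity)]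
      nlinarith [sq_nonneg (y ^ 3)]
  have h0 : f 0 = 0 := by simp [hf]
  have := hmono ht
  rw [h0] at this
  simp only [hf] at this
  linarith

theorem p_S8a : S_S8a := by
  intro β h0 h1
  have hpi := Real.pi_pos
  set x : ℝ := β / 2 with hx
  have hβ : β = 2 * x := by rw [hx]; ring
  have hx0 : 0 ≤ x := by rw [hx]; linarith
  have hx1 : x ≤ Real.pi / 6 := by rw [hx]; linarith
  have hcos : 0 < Real.cos x :=
    Real.cos_pos_of_mem_Ioo ⟨by linarith, by linarith⟩
  set t : ℝ := Real.tan x with ht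
  have ht0 : 0 ≤ t := Real.tan_nonneg_of_nonneg_of_le_pi_div_two hx0 (by linarith)
  have ht1 : t ≤ 1 / Real.sqrt 3 := by
    rw [← Real.tan_pi_div_six, ht]
    exact Real.strictMonoOn_tan.monotoneOn ⟨by linarith, by linarith⟩
      ⟨by linarith, by linarith⟩ hx1
  have hs : t ^ 2 ≤ 1 / 3 := by
    have h3 : (1 / Real.sqrt 3) ^ 2 = 1 / 3 := by
      rw [div_pow, Real.sq_sqrt (by norm_num)]
      norm_num
    rw [← h3]
    exact pow_le_pow_left₀ ht0 ht1 2
  have hxt : x ≤ t - t ^ 3 / 3 + t ^ 5 / 5 := by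
    have h3 := p_S8a_arctan ht0
    rwa [ht, Real.arctan_tan (by linarith) (by linarith)] at h3
  have hc2 : Real.cos x ^ 2 = 1 / (1 + t ^ 2) := by
    rw [ht, Real.tan_eq_sin_div_cos]
    have h3 := Real.sin_sq_add_cos_sq x
    field_simp
    rw [add_comm]
    exact h3
  have hsin : Real.sin β / 2 = t / (1 + t ^ 2) := by
    rw [hβ, Real.sin_two_mul]
    have h3 : Real.sin x = t * Real.cos x := by
      rw [ht, Real.tan_eq_sin_div_cos, div_mul_cancel₀ _ hcos.ne']
    rw [h3]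
    have h4 : 2 * (t * Real.cos x) * Real.cos x / 2 = t * Real.cos x ^ 2 := by ring
    rw [h4, hc2]
    ring
  have htan : t / (4 * Real.cos x ^ 2) = t * (1 + t ^ 2) / 4 := by
    rw [hc2]
    field_simp
  rw [hsin, htan, hβ]
  set s : ℝ := t ^ 2 with hsd
  have hs0 : 0 ≤ s := by positivity
  have h5 : 594 / 1000 * (2 * x) ≤ 1188 / 1000 * (t * (1 - s / 3 + s ^ 2 / 5)) := by
    have : t * (1 - s / 3 + s ^ 2 / 5) = t - t ^ 3 / 3 + t ^ 5 / 5 := by
      rw [hsd]; ring
    rw [this]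
    linarith
  refine h5.trans ?_
  have h6 : 1188 / 1000 * (1 - s / 3 + s ^ 2 / 5) ≤ 1 / (1 + s) + (1 + s) / 4 := by
    rw [← sub_nonneg]
    have h7 : 1 / (1 + s) + (1 + s) / 4 - 1188 / 1000 * (1 - s / 3 + s ^ 2 / 5)
        = (1 + (1 + s) ^ 2 / 4 - 1188 / 1000 * (1 + s) * (1 - s / 3 + s ^ 2 / 5)) / (1 + s) := by
      field_simp
    rw [h7]
    apply div_nonneg _ (by linarith)
    nlinarith [mul_nonneg hs0 (sub_nonneg.mpr hs), mul_nonneg hs0 (mul_nonneg hs0 (sub_nonneg.mpr hs)),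
      sq_nonneg (1 / 3 - s)]
  calc 1188 / 1000 * (t * (1 - s / 3 + s ^ 2 / 5))
      = t * (1188 / 1000 * (1 - s / 3 + s ^ 2 / 5)) := by ring
    _ ≤ t * (1 / (1 + s) + (1 + s) / 4) := mul_le_mul_of_nonneg_left h6 ht0
    _ = t / (1 + s) + t * (1 + s) / 4 := by ring

end Pool.Agent.Lib.MP_97284c_gt
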