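import Pool.Agent.Lib.MP_97284c_gt.StmS

/-! [S9] Comparison of the upper bound for the full star with the lower bound for the maximal area. -/

namespace Pool.Agent.Lib.MP_97284c_gt

private theorem p_S9_rat (m : ℝ) (hm : 0 ≤ m) :
    5 / 48 * (1 / (m + 7) ^ 2 - 1 / (m + 8) ^ 2) - 1 / (16 * (m + 7) ^ 3) +
      10 * (1 / (480 * (m + 8) ^ 4) + 1 / (256 * (m + 7) ^ 5)) ≤ 17 / (100 * (m + 8) ^ 3) := by
  have e : 17 / (100 * (m + 8) ^ 3) - (5 / 48 * (1 / (m + 7) ^ 2 - 1 / (m + 8) ^ 2) -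
      1 / (16 * (m + 7) ^ 3) + 10 * (1 / (480 * (m + 8) ^ 4) + 1 / (256 * (m + 7) ^ 5))) =
      (709649 / 1200 + 344621 / 400 * m + 102941 / 240 * m ^ 2 + 4987 / 48 * m ^ 3 +
        8591 / 640 * m ^ 4 + 67 / 75 * m ^ 5 + 29 / 1200 * m ^ 6) / ((m + 8) ^ 4 * (m + 7) ^ 5) := by
    have h7 : m + 7 ≠ 0 := by positivity
    have h8 : m + 8 ≠ 0 := by positivity
    field_simp
    ring
  have h : 0 ≤ (709649 / 1200 + 344621 / 400 * m + 102941 / 240 * m ^ 2 + 4987 / 48 * m ^ 3 +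
        8591 / 640 * m ^ 4 + 67 / 75 * m ^ 5 + 29 / 1200 * m ^ 6) / ((m + 8) ^ 4 * (m + 7) ^ 5) := by
    positivity
  rw [← e] at h
  linarith

private theorem p_S9_six :
    (6 : ℕ) * ff (Real.pi / (6 : ℕ)) - ((((6 : ℕ) : ℝ) - 1) * ff (Real.pi / (((6 : ℕ) : ℝ) - 1)) +
      (Real.sin (Real.pi / (2 * (((6 : ℕ) : ℝ) - 1))) - Real.sin (Real.pi / (((6 : ℕ) : ℝ) - 1)) / 2)) ≤
      17 / 100 * (Real.pi / (6 : ℕ)) ^ 3 := by
  have e0 : (((6 : ℕ) : ℝ)) = 6 := by norm_num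
  rw [e0]
  have e1 : (6 : ℝ) - 1 = 5 := by norm_num
  rw [e1]
  have tanhalf : ∀ x : ℝ, 0 < x → x < Real.pi → Real.tan (x / 2) = Real.sin x / (1 + Real.cos x) := by
    intro x h0 h1
    have hc : 0 < Real.cos (x / 2) := by
      apply Real.cos_pos_of_mem_Ioo
      constructor <;> linarith [Real.pi_pos]
    have h2 : Real.sin x = 2 * Real.sin (x / 2) * Real.cos (x / 2) := by
      rw [← Real.sin_two_mul]; congr 1; ring
    have h3 : Real.cos x = 2 * Real.cos (x / 2) ^ 2 - 1 := by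
      rw [← Real.cos_two_mul]; congr 1; ring
    rw [h2, h3, Real.tan_eq_sin_div_cos]
    field_simp
    ring
  have hpi := Real.pi_pos
  have f6 : ff (Real.pi / 6) = (Real.sqrt 3 - 3 / 2) / 2 := by
    unfold ff
    rw [tanhalf _ (by positivity) (by linarith), Real.sin_pi_div_six, Real.cos_pi_div_six]
    have h3 : Real.sqrt 3 ^ 2 = 3 := Real.sq_sqrt (by norm_num)
    have h4 : (0 : ℝ) < Real.sqrt 3 := by positivity
    field_simp
    nlinarith
  set c := Real.cos (Real.pi / 5) with hc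
  set s := Real.sin (Real.pi / 5) with hs
  have hc1 : c = (1 + Real.sqrt 5) / 4 := Real.cos_pi_div_five
  have hss : s ^ 2 + c ^ 2 = 1 := Real.sin_sq_add_cos_sq _
  have hs0 : 0 < s := Real.sin_pos_of_pos_of_lt_pi (by positivity) (by linarith)
  have f5 : ff (Real.pi / 5) = s * c / (2 * (1 + c)) := by
    unfold ff
    rw [tanhalf _ (by positivity) (by linarith), ← hc, ← hs]
    have : 0 < c := by rw [hc1]; positivity
    field_simp
    ring
  have s10 : Real.sin (Real.pi / (2 * 5)) = 2 * c ^ 2 - 1 := by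
    rw [hc, ← Real.cos_two_mul, ← Real.cos_pi_div_two_sub]
    congr 1; ring
  rw [f6, f5, s10]
  have r5 : Real.sqrt 5 ^ 2 = 5 := Real.sq_sqrt (by norm_num)
  have r50 : 0 < Real.sqrt 5 := by positivity
  have r51 : 2.23606 < Real.sqrt 5 := by
    apply Real.lt_sqrt_of_sq_lt; norm_num
  have r52 : Real.sqrt 5 < 2.23607 := by
    rw [Real.sqrt_lt' (by norm_num)]; norm_num
  have r31 : Real.sqrt 3 < 1.73206 := by
    rw [Real.sqrt_lt' (by norm_num)]; norm_num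
  have hclo : 0.809015 ≤ c := by rw [hc1]; linarith
  have hchi : c ≤ 0.8090175 := by rw [hc1]; linarith
  have hslo : 0.58778 ≤ s := by
    by_contra hcon
    push Not at hcon
    nlinarith
  have hshi : s ≤ 0.58779 := by
    by_contra hcon
    push Not at hcon
    nlinarith
  have g1 : 0.44721 ≤ c / (1 + c) := by
    rw [le_div_iff₀ (by linarith)]; linarith
  have g2 : s * c / (2 * (1 + c)) = s * (c / (1 + c)) / 2 := by field_simp
  have g3 : 0.58778 * 0.44721 ≤ s * (c / (1 + c)) := by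
    apply mul_le_mul hslo g1 (by norm_num) hs0.le
  have g4 : 0.809015 ^ 2 ≤ c ^ 2 := pow_le_pow_left₀ (by norm_num) hclo 2
  have hp : 3.1415 < Real.pi := by have := Real.pi_gt_d4; linarith
  have g5 : (3.1415 / 6 : ℝ) ^ 3 ≤ (Real.pi / 6) ^ 3 := by
    apply pow_le_pow_left₀ (by norm_num)
    linarith
  rw [g2]
  norm_num at g3 g4 g5 ⊢
  linarith

theorem p_S9 (hS9a : S_S9a) : S_S9 := by
  intro n hn
  rcases hn with rfl | hn
  · exact p_S9_six
  have hn8 : (8 : ℝ) ≤ n := by exact_mod_cast hn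
  obtain ⟨m, hm⟩ : ∃ m : ℝ, (n : ℝ) = m + 8 := ⟨n - 8, by ring⟩
  have hm0 : 0 ≤ m := by linarith
  have hM : (n : ℝ) - 1 = m + 7 := by linarith
  rw [hM, hm]
  have hpi := Real.pi_pos
  have hpi2 : Real.pi < 3.15 := Real.pi_lt_d2
  have h7 : (0 : ℝ) < m + 7 := by linarith
  have h8 : (0 : ℝ) < m + 8 := by linarith
  have hx0 : 0 ≤ Real.pi / (m + 8) := by positivity
  have hx1 : Real.pi / (m + 8) ≤ 1 / 2 := by
    rw [div_le_div_iff₀ h8 (by norm_num)]
    linarith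
  have hX0 : 0 ≤ Real.pi / (m + 7) := by positivity
  have hX1 : Real.pi / (m + 7) ≤ 1 / 2 := by
    rw [div_le_div_iff₀ h7 (by norm_num)]
    linarith
  have hy0 : 0 ≤ Real.pi / (2 * (m + 7)) := by positivity
  have hy1 : Real.pi / (2 * (m + 7)) ≤ 1 / 2 := by
    rw [div_le_div_iff₀ (by positivity) (by norm_num)]
    linarith
  have a1 := (hS9a _ hx0 hx1).1
  have a2 := (hS9a _ hX0 hX1).2.1
  have a3 := (hS9a _ hy0 hy1).2.2
  have e1 : Real.sin (Real.pi / (m + 7)) =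
      2 * Real.sin (Real.pi / (2 * (m + 7))) * Real.cos (Real.pi / (2 * (m + 7))) := by
    rw [← Real.sin_two_mul]
    congr 1
    field_simp
  have b1 : (m + 8) * ff (Real.pi / (m + 8)) ≤
      Real.pi / 4 - 5 / 48 * Real.pi ^ 3 * (1 / (m + 8) ^ 2) + Real.pi ^ 5 * (1 / (480 * (m + 8) ^ 4)) := by
    calc (m + 8) * ff (Real.pi / (m + 8)) ≤ (m + 8) * (Real.pi / (m + 8) / 4 -
          5 * (Real.pi / (m + 8)) ^ 3 / 48 + (Real.pi / (m + 8)) ^ 5 / 480) :=
          mul_le_mul_of_nonneg_left a1 h8.le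
      _ = _ := by
          field_simp
  have b2 : Real.pi / 4 - 5 / 48 * Real.pi ^ 3 * (1 / (m + 7) ^ 2) ≤ (m + 7) * ff (Real.pi / (m + 7)) := by
    calc Real.pi / 4 - 5 / 48 * Real.pi ^ 3 * (1 / (m + 7) ^ 2) =
          (m + 7) * (Real.pi / (m + 7) / 4 - 5 * (Real.pi / (m + 7)) ^ 3 / 48) := by
          field_simp
      _ ≤ _ := mul_le_mul_of_nonneg_left a2 h7.le
  have b3 : Real.pi ^ 3 * (1 / (16 * (m + 7) ^ 3)) - Real.pi ^ 5 * (1 / (256 * (m + 7) ^ 5)) ≤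
      Real.sin (Real.pi / (2 * (m + 7))) - Real.sin (Real.pi / (m + 7)) / 2 := by
    calc Real.pi ^ 3 * (1 / (16 * (m + 7) ^ 3)) - Real.pi ^ 5 * (1 / (256 * (m + 7) ^ 5)) =
          (Real.pi / (2 * (m + 7))) ^ 3 / 2 - (Real.pi / (2 * (m + 7))) ^ 5 / 8 := by
          field_simp
          ring
      _ ≤ Real.sin (Real.pi / (2 * (m + 7))) * (1 - Real.cos (Real.pi / (2 * (m + 7)))) := a3
      _ = _ := by
          rw [e1]
          ring
  have key := p_S9_rat m hm0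
  have hp3 : 0 < Real.pi ^ 3 := by positivity
  have hp2 : Real.pi ^ 2 ≤ 10 := by nlinarith
  have hq : 0 ≤ 1 / (480 * (m + 8) ^ 4) + 1 / (256 * (m + 7) ^ 5) := by positivity
  have c1 := mul_le_mul_of_nonneg_left key hp3.le
  have c2 : Real.pi ^ 5 * (1 / (480 * (m + 8) ^ 4) + 1 / (256 * (m + 7) ^ 5)) ≤
      Real.pi ^ 3 * (10 * (1 / (480 * (m + 8) ^ 4) + 1 / (256 * (m + 7) ^ 5))) := by
    have : Real.pi ^ 5 = Real.pi ^ 3 * Real.pi ^ 2 := by ring
    rw [this, mul_assoc]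
    exact mul_le_mul_of_nonneg_left (mul_le_mul_of_nonneg_right hp2 hq) hp3.le
  have e2 : 17 / 100 * (Real.pi / (m + 8)) ^ 3 = Real.pi ^ 3 * (17 / (100 * (m + 8) ^ 3)) := by
    field_simp
  rw [e2]
  linarith

end Pool.Agent.Lib.MP_97284c_gt
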