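import Pool.Agent.Lib.MP_97284c_gt.StmS

/-!
MP_97284c_gt, [S9a]: polynomial bounds for `ff` and `sin x (1 - cos x)` on `[0, 1/2]`.
-/

namespace Pool.Agent.Lib.MP_97284c_gt

private theorem p_S9a_mono (f f' : ℝ → ℝ) (hf : ∀ x, HasDerivAt f (f' x) x) (h0 : f 0 = 0)
    (h : ∀ x, 0 ≤ x → 0 ≤ f' x) : ∀ x, 0 ≤ x → 0 ≤ f x := by
  intro x hx
  have h1 : MonotoneOn f (Set.Ici 0) := by
    apply monotoneOn_of_deriv_nonneg (convex_Ici 0)
    · exact (continuous_iff_continuousAt.2 fun y => (hf y).continuousAt).continuousOn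
    · exact fun y _ => (hf y).differentiableAt.differentiableWithinAt
    · intro y hy
      rw [(hf y).deriv]
      exact h y (interior_subset hy)
  have h2 := h1 (Set.mem_Ici.2 le_rfl) (Set.mem_Ici.2 hx) hx
  rwa [h0] at h2

private theorem p_S9a_c2 : ∀ x : ℝ, 0 ≤ x → 0 ≤ Real.cos x - (1 - x ^ 2 / 2) := by
  refine p_S9a_mono _ (fun x => -Real.sin x - (0 - 2 * x / 2)) (fun x => ?_) (by simp) fun x hx => ?_
  · have h1 := (Real.hasDerivAt_cos x).sub ((hasDerivAt_const x (1 : ℝ)).sub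
      ((hasDerivAt_pow 2 x).div_const 2))
    exact h1.congr_deriv (by simp)
  · have := Real.sin_le hx
    linarith

private theorem p_S9a_s3 : ∀ x : ℝ, 0 ≤ x → 0 ≤ Real.sin x - (x - x ^ 3 / 6) := by
  refine p_S9a_mono _ (fun x => Real.cos x - (1 - 3 * x ^ 2 / 6)) (fun x => ?_) (by simp)
    fun x hx => ?_
  · have h1 := (Real.hasDerivAt_sin x).sub ((hasDerivAt_id x).sub
      ((hasDerivAt_pow 3 x).div_const 6))
    exact h1.congr_deriv (by simp)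
  · have := p_S9a_c2 x hx
    linarith

private theorem p_S9a_c4 : ∀ x : ℝ, 0 ≤ x → 0 ≤ (1 - x ^ 2 / 2 + x ^ 4 / 24) - Real.cos x := by
  refine p_S9a_mono _ (fun x => (0 - 2 * x / 2 + 4 * x ^ 3 / 24) - -Real.sin x) (fun x => ?_)
    (by simp) fun x hx => ?_
  · have h1 := (((hasDerivAt_const x (1 : ℝ)).sub ((hasDerivAt_pow 2 x).div_const 2)).add
      ((hasDerivAt_pow 4 x).div_const 24)).sub (Real.hasDerivAt_cos x)
    exact h1.congr_deriv (by simp)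
  · have := p_S9a_s3 x hx
    linarith

private theorem p_S9a_s5 : ∀ x : ℝ, 0 ≤ x → 0 ≤ (x - x ^ 3 / 6 + x ^ 5 / 120) - Real.sin x := by
  refine p_S9a_mono _ (fun x => (1 - 3 * x ^ 2 / 6 + 5 * x ^ 4 / 120) - Real.cos x) (fun x => ?_)
    (by simp) fun x hx => ?_
  · have h1 := (((hasDerivAt_id x).sub ((hasDerivAt_pow 3 x).div_const 6)).add
      ((hasDerivAt_pow 5 x).div_const 120)).sub (Real.hasDerivAt_sin x)
    exact h1.congr_deriv (by simp)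
  · have := p_S9a_c4 x hx
    linarith

private theorem p_S9a_c6 : ∀ x : ℝ, 0 ≤ x →
    0 ≤ Real.cos x - (1 - x ^ 2 / 2 + x ^ 4 / 24 - x ^ 6 / 720) := by
  refine p_S9a_mono _ (fun x => -Real.sin x - (0 - 2 * x / 2 + 4 * x ^ 3 / 24 - 6 * x ^ 5 / 720))
    (fun x => ?_) (by simp) fun x hx => ?_
  · have h1 := (Real.hasDerivAt_cos x).sub ((((hasDerivAt_const x (1 : ℝ)).sub
      ((hasDerivAt_pow 2 x).div_const 2)).add ((hasDerivAt_pow 4 x).div_const 24)).sub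
      ((hasDerivAt_pow 6 x).div_const 720))
    exact h1.congr_deriv (by simp)
  · have := p_S9a_s5 x hx
    linarith

private theorem p_S9a_s7 : ∀ x : ℝ, 0 ≤ x →
    0 ≤ Real.sin x - (x - x ^ 3 / 6 + x ^ 5 / 120 - x ^ 7 / 5040) := by
  refine p_S9a_mono _ (fun x => Real.cos x - (1 - 3 * x ^ 2 / 6 + 5 * x ^ 4 / 120 - 7 * x ^ 6 / 5040))
    (fun x => ?_) (by simp) fun x hx => ?_
  · have h1 := (Real.hasDerivAt_sin x).sub ((((hasDerivAt_id x).sub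
      ((hasDerivAt_pow 3 x).div_const 6)).add ((hasDerivAt_pow 5 x).div_const 120)).sub
      ((hasDerivAt_pow 7 x).div_const 5040))
    exact h1.congr_deriv (by simp)
  · have := p_S9a_c6 x hx
    linarith

private theorem p_S9a_tan (t : ℝ) (h0 : 0 ≤ t) (h1 : t ≤ 1 / 4) :
    t + t ^ 3 / 3 + 2 * t ^ 5 / 15 ≤ Real.tan t ∧
      Real.tan t ≤ t + t ^ 3 / 3 + 2 * t ^ 5 / 15 + t ^ 7 / 15 := by
  have c2 := p_S9a_c2 t h0
  have c4 := p_S9a_c4 t h0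
  have c6 := p_S9a_c6 t h0
  have s5 := p_S9a_s5 t h0
  have s7 := p_S9a_s7 t h0
  have ht2 : t ^ 2 ≤ 1 / 16 := by nlinarith
  have hcos : 0 < Real.cos t := by linarith
  have h3 : 0 ≤ t ^ 3 := by positivity
  have h5 : 0 ≤ t ^ 5 := by positivity
  have h7 : 0 ≤ t ^ 7 := by positivity
  rw [Real.tan_eq_sin_div_cos]
  constructor
  · rw [le_div_iff₀ hcos]
    have hP : 0 ≤ t + t ^ 3 / 3 + 2 * t ^ 5 / 15 := by positivity
    have e1 : (t + t ^ 3 / 3 + 2 * t ^ 5 / 15) * Real.cos t ≤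
        (t + t ^ 3 / 3 + 2 * t ^ 5 / 15) * (1 - t ^ 2 / 2 + t ^ 4 / 24) :=
      mul_le_mul_of_nonneg_left (by linarith) hP
    have e2 : (t - t ^ 3 / 6 + t ^ 5 / 120 - t ^ 7 / 5040) -
        (t + t ^ 3 / 3 + 2 * t ^ 5 / 15) * (1 - t ^ 2 / 2 + t ^ 4 / 24) =
        t ^ 7 * (265 / 5040 - t ^ 2 / 180) := by ring
    have e3 : 0 ≤ t ^ 7 * (265 / 5040 - t ^ 2 / 180) := mul_nonneg h7 (by linarith)
    linarith
  · rw [div_le_iff₀ hcos]
    have hQ : 0 ≤ t + t ^ 3 / 3 + 2 * t ^ 5 / 15 + t ^ 7 / 15 := by positivity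
    have e1 : (t + t ^ 3 / 3 + 2 * t ^ 5 / 15 + t ^ 7 / 15) *
        (1 - t ^ 2 / 2 + t ^ 4 / 24 - t ^ 6 / 720) ≤
        (t + t ^ 3 / 3 + 2 * t ^ 5 / 15 + t ^ 7 / 15) * Real.cos t :=
      mul_le_mul_of_nonneg_left (by linarith) hQ
    have e2 : (t + t ^ 3 / 3 + 2 * t ^ 5 / 15 + t ^ 7 / 15) *
        (1 - t ^ 2 / 2 + t ^ 4 / 24 - t ^ 6 / 720) - (t - t ^ 3 / 6 + t ^ 5 / 120) =
        t ^ 7 * (1 / 80 - 61 / 2160 * t ^ 2 + (14 / 5400) * t ^ 4 - t ^ 6 / 10800) := by ring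
    have ht4 : 0 ≤ t ^ 4 := by positivity
    have ht6 : t ^ 6 ≤ 1 := by
      have : t ^ 6 = (t ^ 2) ^ 3 := by ring
      rw [this]
      have h8 : 0 ≤ t ^ 2 := by positivity
      calc (t ^ 2) ^ 3 ≤ 1 ^ 3 := pow_le_pow_left₀ h8 (by linarith) 3
        _ = 1 := by norm_num
    have e3 : 0 ≤ t ^ 7 * (1 / 80 - 61 / 2160 * t ^ 2 + (14 / 5400) * t ^ 4 - t ^ 6 / 10800) :=
      mul_nonneg h7 (by linarith)
    linarith

theorem p_S9a : S_S9a := by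
  intro x h0 h1
  obtain ⟨t1, t2⟩ := p_S9a_tan (x / 2) (by linarith) (by linarith)
  have c4 := p_S9a_c4 x h0
  have s3 := p_S9a_s3 x h0
  have s5 := p_S9a_s5 x h0
  have s7 := p_S9a_s7 x h0
  have hx2 : x ^ 2 ≤ 1 / 4 := by nlinarith
  have hx5 : 0 ≤ x ^ 5 := by positivity
  refine ⟨?_, ?_, ?_⟩
  · unfold ff
    have e1 : (x / 2) + (x / 2) ^ 3 / 3 + 2 * (x / 2) ^ 5 / 15 = x / 2 + x ^ 3 / 24 + x ^ 5 / 240 := by
      ring
    rw [e1] at t1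
    linarith
  · unfold ff
    have e1 : (x / 2) + (x / 2) ^ 3 / 3 + 2 * (x / 2) ^ 5 / 15 + (x / 2) ^ 7 / 15 =
        x / 2 + x ^ 3 / 24 + x ^ 5 / 240 + x ^ 7 / 1920 := by ring
    rw [e1] at t2
    have e2 : x ^ 7 = x ^ 5 * x ^ 2 := by ring
    have e3 : x ^ 5 * x ^ 2 ≤ x ^ 5 * (1 / 4) := mul_le_mul_of_nonneg_left hx2 hx5
    rw [e2] at t2 s7
    linarith
  · have e1 : (x - x ^ 3 / 6) * (x ^ 2 / 2 - x ^ 4 / 24) ≤ Real.sin x * (1 - Real.cos x) := by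
      apply mul_le_mul
      · linarith
      · linarith
      · have : x ^ 2 / 2 - x ^ 4 / 24 = x ^ 2 * (1 / 2 - x ^ 2 / 24) := by ring
        rw [this]
        exact mul_nonneg (by positivity) (by linarith)
      · have : x - x ^ 3 / 6 = x * (1 - x ^ 2 / 6) := by ring
        have h2 : 0 ≤ x * (1 - x ^ 2 / 6) := mul_nonneg h0 (by linarith)
        linarith
    have e2 : (x - x ^ 3 / 6) * (x ^ 2 / 2 - x ^ 4 / 24) =
        x ^ 3 / 2 - x ^ 5 / 8 + x ^ 7 / 144 := by ring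
    have e3 : 0 ≤ x ^ 7 := by positivity
    linarith

end Pool.Agent.Lib.MP_97284c_gt
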