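import Pool.Agent.Lib.MP_97284c_gt.StmS

open MeasureTheory

namespace Pool.Agent.Lib.MP_97284c_gt

private theorem p_SP_aux (e : ℤ → ℤ) (he : ∀ k, e k = 1 ∨ e k = -1) (m : ℕ) :
    (-1 : ℤ) ^ (SS m e).card = (-1) ^ m * (e (-1) * e ((m : ℤ) - 1)) := by
  have hsq : ∀ k, e k * e k = 1 := fun k => by
    rcases he k with h | h <;> rw [h] <;> norm_num
  induction m with
  | zero =>
    have h0 : SS 0 e = ∅ := by simp [SS]
    rw [h0]
    simp [hsq]
  | succ m ih =>
    have hc : (SS (m + 1) e).card = (SS m e).card + if e ((m : ℤ) - 1) = e m then 1 else 0 := by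
      unfold SS
      rw [Finset.range_add_one, Finset.filter_insert]
      split_ifs with h
      · rw [Finset.card_insert_of_notMem (by simp)]
      · rfl
    rw [hc, pow_add, ih]
    have h1 : ((m + 1 : ℕ) : ℤ) - 1 = (m : ℤ) := by push_cast; ring
    rw [h1]
    have h2 : (-1 : ℤ) ^ (if e ((m : ℤ) - 1) = e m then 1 else 0) = -(e ((m : ℤ) - 1) * e m) := by
      rcases he ((m : ℤ) - 1) with h | h <;> rcases he m with h' | h' <;> rw [h, h'] <;> norm_num
    rw [h2]
    have h3 := hsq ((m : ℤ) - 1)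
    calc (-1 : ℤ) ^ m * (e (-1) * e ((m : ℤ) - 1)) * -(e ((m : ℤ) - 1) * e m)
        = (-1) ^ (m + 1) * (e (-1) * e m) * (e ((m : ℤ) - 1) * e ((m : ℤ) - 1)) := by ring
      _ = (-1) ^ (m + 1) * (e (-1) * e m) := by rw [h3, mul_one]

theorem p_SP : S_SP := by
  intro n e hn _ he hper
  have h1 := p_SP_aux e he n
  have h2 : e ((n : ℤ) - 1) = -e (-1) := by
    have := hper (-1)
    rw [← this]
    congr 1
  have hsq : e (-1) * e (-1) = 1 := by
    rcases he (-1) with h | h <;> rw [h] <;> norm_num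
  rw [hn.neg_one_pow, h2, one_mul, mul_neg, hsq] at h1
  by_contra hodd
  rw [Nat.not_odd_iff_even] at hodd
  rw [hodd.neg_one_pow] at h1
  norm_num at h1

end Pool.Agent.Lib.MP_97284c_gt
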