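import Pool.Agent.Lib.MP_97284c_gt.StmC
import Pool.Agent.Lib.MP_97284c_gt.StmT

/-! [T1] The staircase in the tree case. -/

namespace Pool.Agent.Lib.MP_97284c_gt

theorem p_T1 (hC2 : S_C2) (hC3 : S_C3) (hC3b : S_C3b) (hUPs : S_UPs) : S_T1 := by
  intro n y k₀ hn hopt hno hocc
  have hper : Per n y := hopt.1
  have hcvx : Cvx n y := hopt.2.1
  have hsm : Small y := hopt.2.2.1
  obtain ⟨u1, u2, u3, u4⟩ := hUPs n y hper
  have hOccPer : ∀ k t : ℤ, Occ n y (k + t * n) = Occ n y k := fun k t =>
    per_mul (Occ n y) (fun k => propext (u4 k).symm) k t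
  have hex : ∀ a : ℕ, ∃ p : ℤ × ℤ, a + 1 < n → (p.1 + p.2 = k₀ + a ∧ UP n y p.1 p.2) := by
    intro a
    by_cases ha : a + 1 < n
    · have h1 : Occ n y (k₀ + a) := by
        refine hocc _ ?_
        rintro ⟨c, hc⟩
        have h2 : (a : ℤ) + 1 = n * c := by rw [← hc]; ring
        have h3 : (0 : ℤ) < n * c := by omega
        have h4 : (n : ℤ) * c < n * 1 := by omega
        have hn0 : (0 : ℤ) < n := by omega
        have h5 : 0 < c := (mul_pos_iff_of_pos_left hn0).1 h3
        have h6 : c < 1 := lt_of_mul_lt_mul_left h4 hn0.le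
        omega
      obtain ⟨i, j, hij, hup⟩ := h1
      exact ⟨(i, j), fun _ => ⟨hij, hup⟩⟩
    · exact ⟨(0, 0), fun h => absurd h ha⟩
  choose P hP using hex
  have hM1 : n - 1 + 1 = n := by omega
  have hlast := hP (n - 1 - 1) (by omega)
  have hfirst := hP 0 (by omega)
  have hcast : ((n - 1 - 1 : ℕ) : ℤ) = n - 2 := by omega
  rw [hcast] at hlast
  have hgap : (P 0).2 = (P (n - 1 - 1)).1 + 1 ∧ (P 0).1 + n = (P (n - 1 - 1)).2 + 1 := by
    refine hC3b n y (by omega) hopt _ _ _ _ hlast.2 (u1 _ _ hfirst.2) ?_ ?_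
    · have := hfirst.1
      have := hlast.1
      push_cast at *
      omega
    · intro h
      have h1 : (P (n - 1 - 1)).1 + (P (n - 1 - 1)).2 + 1 = (k₀ - 1) + 1 * n := by
        rw [hlast.1]
        ring
      rw [h1, hOccPer] at h
      exact hno h
  refine ⟨fun a => (P a).1, fun a => (P a).2, fun a => if (P (a + 1)).1 = (P a).1 then 1 else -1,
    ⟨hM1, ?_, ?_, hgap.1, hgap.2.symm, ?_⟩⟩
  · intro a ha
    exact (hP a (by omega)).2
  · intro a ha
    have h1 := hP a (by omega)
    have h2 := hP (a + 1) (by omega)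
    rcases hC3 n y hper hcvx hsm _ _ _ _ h1.2 h2.2 (by
      rw [h1.1, h2.1]
      push_cast
      ring) with h | h
    · left
      exact ⟨if_pos h.1, h.1, h.2⟩
    · right
      refine ⟨if_neg ?_, h.1, h.2⟩
      have := h.1
      omega
  · intro i j hij
    have hn0 : (0 : ℤ) < n := by omega
    obtain ⟨a, ha⟩ : ∃ a : ℕ, (i + j - k₀) % n = a :=
      ⟨((i + j - k₀) % n).toNat, (Int.toNat_of_nonneg (Int.emod_nonneg _ hn0.ne')).symm⟩
    have ha2 : (a : ℤ) < n := by
      rw [← ha]
      exact Int.emod_lt_of_pos _ hn0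
    set s : ℤ := (i + j - k₀) / n with hs
    have hk : i + j = k₀ + a + s * n := by
      have := Int.emod_add_mul_ediv (i + j - k₀) n
      rw [ha, ← hs] at this
      linarith [mul_comm (n : ℤ) s]
    have haM : a + 1 < n := by
      by_contra hcon
      have h1 : (a : ℤ) = n - 1 := by omega
      have h2 : i + j = (k₀ - 1) + (s + 1) * n := by
        rw [hk, h1]
        ring
      have h3 : Occ n y (i + j) := ⟨i, j, rfl, hij⟩
      rw [h2, hOccPer] at h3
      exact hno h3
    have hPa := hP a haM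
    obtain ⟨t, ht | ht⟩ := Int.even_or_odd' s
    · have h1 := u3 i j (-t) hij
      have h2 := hC2 n y hper hcvx hsm _ _ _ _ h1 hPa.2 (by
        rw [hPa.1]
        have : i + -t * n + (j + -t * n) = (i + j) - 2 * t * n := by ring
        rw [this, hk, ht]
        ring)
      refine ⟨a, t, by omega, Or.inl ⟨?_, ?_⟩⟩
      · show i = (P a).1 + t * n
        rw [← h2.1]
        ring
      · show j = (P a).2 + t * n
        rw [← h2.2]
        ring
    · have h1 := u3 _ _ (-t) (u2 i j hij)
      have h2 := hC2 n y hper hcvx hsm _ _ _ _ h1 hPa.2 (by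
        rw [hPa.1]
        have : j - n + -t * n + (i + -t * n) = (i + j) - (2 * t + 1) * n := by ring
        rw [this, hk, ht]
        ring)
      refine ⟨a, t, by omega, Or.inr ⟨?_, ?_⟩⟩
      · show i = (P a).2 + t * n
        rw [← h2.2]
        ring
      · show j = (P a).1 + (t + 1) * n
        rw [← h2.1]
        ring

end Pool.Agent.Lib.MP_97284c_gt
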