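import Pool.Agent.Lib.MP_97284c_gt.StmT

/-! [T2] Consistent values on the staircase extend to a periodic sequence. -/

namespace Pool.Agent.Lib.MP_97284c_gt

private theorem p_T2_mono {M : ℕ} {I ε : ℕ → ℤ}
    (hs : ∀ a, a + 1 < M → (ε a = 1 ∧ I (a + 1) = I a) ∨ (ε a = -1 ∧ I (a + 1) = I a + 1)) :
    ∀ a b, a ≤ b → b < M → I a ≤ I b := by
  intro a b hab
  induction b, hab using Nat.le_induction with
  | base => intro _; exact le_refl _
  | succ b hb ih =>
    intro h
    have h1 := ih (by omega)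
    rcases hs b h with h2 | h2 <;> omega

private theorem p_T2_const {M : ℕ} {I ε : ℕ → ℤ} {X : ℕ → ℂ}
    (hs : ∀ a, a + 1 < M → (ε a = 1 ∧ I (a + 1) = I a) ∨ (ε a = -1 ∧ I (a + 1) = I a + 1))
    (hX : ∀ a, a + 1 < M → ε a = 1 → X (a + 1) = X a) :
    ∀ a b, a ≤ b → b < M → I a = I b → X a = X b := by
  intro a b hab
  induction b, hab using Nat.le_induction with
  | base => intro _ _; rfl
  | succ b hb ih =>
    intro h hI
    have h1 := p_T2_mono hs a b hb (by omega)
    rcases hs b h with h2 | h2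
    · rw [ih (by omega) (by omega), hX b h h2.1]
    · omega

private theorem p_T2_const' {M : ℕ} {I ε : ℕ → ℤ} {X : ℕ → ℂ}
    (hs : ∀ a, a + 1 < M → (ε a = 1 ∧ I (a + 1) = I a) ∨ (ε a = -1 ∧ I (a + 1) = I a + 1))
    (hX : ∀ a, a + 1 < M → ε a = 1 → X (a + 1) = X a) :
    ∀ a b, a < M → b < M → I a = I b → X a = X b := by
  intro a b ha hb h
  rcases le_total a b with hab | hab
  · exact p_T2_const hs hX a b hab hb h
  · exact (p_T2_const hs hX b a hab ha h.symm).symm

theorem p_T2 : S_T2 := by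
  classical
  intro n M y I J ε hn hT X Y hXY
  have hI : ∀ a, a + 1 < M → (ε a = 1 ∧ I (a + 1) = I a) ∨ (ε a = -1 ∧ I (a + 1) = I a + 1) := by
    intro a ha
    rcases hT.step a ha with h | h
    · exact Or.inl ⟨h.1, h.2.1⟩
    · exact Or.inr ⟨h.1, h.2.1⟩
  have hJ : ∀ a, a + 1 < M → (-ε a = 1 ∧ J (a + 1) = J a) ∨ (-ε a = -1 ∧ J (a + 1) = J a + 1) := by
    intro a ha
    rcases hT.step a ha with h | h
    · exact Or.inr ⟨by omega, h.2.2⟩
    · exact Or.inl ⟨by omega, h.2.2⟩
  have hcX := p_T2_const' (X := X) hI (fun a ha h => (hXY a ha).1 h)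
  have hcY := p_T2_const' (ε := fun a => -ε a) (X := Y) hJ
    (fun a ha h => (hXY a ha).2 (by have : -ε a = 1 := h; omega))
  have hmI := p_T2_mono hI
  have hmJ := p_T2_mono (ε := fun a => -ε a) hJ
  have hM := hT.hM
  have g1 := hT.gap1
  have g2 := hT.gap2
  let r : ℤ → ℤ := fun k => I 0 + (k - I 0) % n
  let z : ℤ → ℂ := fun k =>
    if h : ∃ a, a < M ∧ I a = r k then X h.choose
    else if h : ∃ a, a < M ∧ J a = r k then Y h.choose else 0
  have hr : ∀ k, I 0 ≤ k → k < I 0 + n → r k = k := by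
    intro k h1 h2
    show I 0 + (k - I 0) % n = k
    rw [Int.emod_eq_of_lt (by omega) (by omega)]; ring
  refine ⟨z, ?_, ?_⟩
  · intro k
    have : r (k + n) = r k := by
      show I 0 + (k + n - I 0) % n = I 0 + (k - I 0) % n
      rw [show k + (n : ℤ) - I 0 = k - I 0 + n by ring, Int.add_emod_right]
    show (if h : ∃ a, a < M ∧ I a = r (k + n) then X h.choose
      else if h : ∃ a, a < M ∧ J a = r (k + n) then Y h.choose else 0) = _
    simp only [this]
    rfl
  · intro a ha
    have i1 := hmI 0 a (by omega) ha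
    have i2 := hmI a (M - 1) (by omega) (by omega)
    have j1 := hmJ 0 a (by omega) ha
    have j2 := hmJ a (M - 1) (by omega) (by omega)
    constructor
    · have h : ∃ a', a' < M ∧ I a' = r (I a) := ⟨a, ha, (hr _ (by omega) (by omega)).symm⟩
      show (if h : ∃ a', a' < M ∧ I a' = r (I a) then X h.choose
        else if h : ∃ a', a' < M ∧ J a' = r (I a) then Y h.choose else 0) = _
      rw [dif_pos h]
      refine hcX _ _ h.choose_spec.1 ha ?_
      rw [h.choose_spec.2, hr _ (by omega) (by omega)]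
    · have hn' : ¬ ∃ a', a' < M ∧ I a' = r (J a) := by
        rintro ⟨a', ha', h⟩
        rw [hr _ (by omega) (by omega)] at h
        have := hmI a' (M - 1) (by omega) (by omega)
        omega
      have h : ∃ a', a' < M ∧ J a' = r (J a) := ⟨a, ha, (hr _ (by omega) (by omega)).symm⟩
      show (if h : ∃ a', a' < M ∧ I a' = r (J a) then X h.choose
        else if h : ∃ a', a' < M ∧ J a' = r (J a) then Y h.choose else 0) = _
      rw [dif_neg hn', dif_pos h]
      refine hcY _ _ h.choose_spec.1 ha ?_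
      rw [h.choose_spec.2, hr _ (by omega) (by omega)]

end Pool.Agent.Lib.MP_97284c_gt
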