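import Pool.Agent.Lib.MP_97284c_gt.StmT

/-! [T2b] Every index is a vertex of the staircase. -/

namespace Pool.Agent.Lib.MP_97284c_gt

/-- Discrete intermediate values. -/
theorem p_T2b_ivt (f : ℕ → ℤ) (m : ℕ)
    (h : ∀ a < m, f (a + 1) = f a ∨ f (a + 1) = f a + 1) (v : ℤ) (h0 : f 0 ≤ v) (h1 : v ≤ f m) :
    ∃ a ≤ m, f a = v := by
  induction m with
  | zero => exact ⟨0, le_refl _, le_antisymm h0 h1⟩
  | succ m ih =>
    rcases le_or_gt v (f m) with h2 | h2
    · obtain ⟨a, ha, hv⟩ := ih (fun a ha => h a (by omega)) h2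
      exact ⟨a, by omega, hv⟩
    · refine ⟨m + 1, le_refl _, ?_⟩
      rcases h m (by omega) with h3 | h3 <;> omega

theorem p_T2b : S_T2b := by
  intro n M y I J ε hn hTS k
  have hM := hTS.hM
  have hI : ∀ a < M - 1, I (a + 1) = I a ∨ I (a + 1) = I a + 1 := by
    intro a ha
    rcases hTS.step a (by omega) with h | h
    · exact Or.inl h.2.1
    · exact Or.inr h.2.1
  have hJ : ∀ a < M - 1, J (a + 1) = J a ∨ J (a + 1) = J a + 1 := by
    intro a ha
    rcases hTS.step a (by omega) with h | h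
    · exact Or.inr h.2.2
    · exact Or.inl h.2.2
  have hn0 : (0 : ℤ) < n := by omega
  have hdm := Int.emod_add_mul_ediv (k - I 0) n
  have hr0 := Int.emod_nonneg (k - I 0) hn0.ne'
  have hr1 := Int.emod_lt_of_pos (k - I 0) hn0
  set r := (k - I 0) % (n : ℤ) with hr
  set t := (k - I 0) / (n : ℤ) with ht
  have g1 := hTS.gap1
  have g2 := hTS.gap2
  rcases le_or_gt (I 0 + r) (I (M - 1)) with h | h
  · obtain ⟨a, ha, hv⟩ := p_T2b_ivt I (M - 1) hI (I 0 + r) (by omega) h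
    refine ⟨a, t, by omega, Or.inl ?_⟩
    rw [hv]; linarith [mul_comm (n : ℤ) t]
  · obtain ⟨a, ha, hv⟩ := p_T2b_ivt J (M - 1) hJ (I 0 + r) (by omega) (by omega)
    refine ⟨a, t, by omega, Or.inr ?_⟩
    rw [hv]; linarith [mul_comm (n : ℤ) t]

end Pool.Agent.Lib.MP_97284c_gt
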