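import Pool.Agent.Lib.MP_97284c_gt.StmT

set_option autoImplicit false

namespace Pool.Agent.Lib.MP_97284c_gt

theorem p_T3 : S_T3 := by
  intro n M y I J ε hn hTS z hz
  obtain ⟨G, hG⟩ := exists_antideriv (fun k => cr (z k) (z (k + 1)))
  have hg : ∀ k : ℤ, cr (z (k + n)) (z (k + n + 1)) = cr (z k) (z (k + 1)) := by
    intro k
    rw [hz k, show k + (n : ℤ) + 1 = (k + 1) + n by ring, hz (k + 1)]
  have hper := antideriv_per (N := n) (fun k => cr (z k) (z (k + 1))) hg G hG
  have hG' : ∀ k : ℤ, cr (z k) (z (k + 1)) = G (k + 1) - G k := fun k => (hG k).symm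
  have hsh : 2 * sh n z = G (I 0 + n) - G (I 0) := by
    rw [hper (I 0)]
    unfold sh
    ring
  have hM := hTS.hM
  have htel : ∀ m : ℕ, m ≤ M - 1 →
      ∑ a ∈ Finset.range m, (cr (z (I a)) (z (I (a + 1))) + cr (z (J a)) (z (J (a + 1)))) =
        G (I m) - G (I 0) + (G (J m) - G (J 0)) := by
    intro m
    induction m with
    | zero => intro _; simp
    | succ m ih =>
      intro hm
      rw [Finset.sum_range_succ, ih (by omega)]
      rcases hTS.step m (by omega) with ⟨-, h1, h2⟩ | ⟨-, h1, h2⟩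
      · rw [h1, h2, cr_self, hG' (J m)]
        ring
      · rw [h1, h2, cr_self, hG' (I m)]
        ring
  have e1 : cr (z (I (M - 1))) (z (J 0)) = G (J 0) - G (I (M - 1)) := by
    rw [hTS.gap1, hG']
  have e2 : cr (z (J (M - 1))) (z (I 0)) = G (I 0 + n) - G (J (M - 1)) := by
    rw [← hz (I 0), ← hTS.gap2, hG']
  rw [htel (M - 1) le_rfl, e1, e2]
  linarith

end Pool.Agent.Lib.MP_97284c_gt
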