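import Pool.Agent.Lib.MP_97284c_gt.StmT

/-! # [poly T4] The area as a quadratic form in the unit vectors -/

namespace Pool.Agent.Lib.MP_97284c_gt

private noncomputable def p_T4_ep (ε : ℕ → ℤ) (a : ℕ) : ℝ := if 0 < a then (ε (a - 1) : ℝ) else 0

private theorem p_T4_cr_add (u v w : ℂ) : cr (u + v) w = cr u w + cr v w := by
  unfold cr; simp only [Complex.add_re, Complex.add_im]; ring

private theorem p_T4_cr_smul (r : ℝ) (u w : ℂ) : cr ((r : ℂ) * u) w = r * cr u w := by
  unfold cr; simp; ring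

private theorem p_T4_cr_zero (w : ℂ) : cr 0 w = 0 := by
  unfold cr; simp

private theorem p_T4_cr_sum (f : ℕ → ℝ) (D : ℕ → ℂ) (w : ℂ) (b : ℕ) :
    cr (∑ a ∈ Finset.range b, (f a : ℂ) * D a) w = ∑ a ∈ Finset.range b, f a * cr (D a) w := by
  induction b with
  | zero => simp [p_T4_cr_zero]
  | succ b ih => rw [Finset.sum_range_succ, Finset.sum_range_succ, p_T4_cr_add, p_T4_cr_smul, ih]

/-- the algebra of one step -/
private theorem p_T4_one (x yy y1 x0 y0 PP : ℂ) (ee : ℝ)
    (h : (x + yy) - (x0 + y0) = (ee : ℂ) * (yy - x) - PP) :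
    cr x x + cr yy y1 + (cr x y0 + cr y1 x0) - (cr x y0 + cr yy x0) =
      (1 - ee) * cr PP (yy - x) / 2 - cr (PP + ((1 - ee : ℝ) : ℂ) * (yy - x)) (y1 - x) / 2
        + ee * cr PP (yy - x) / 2 + cr (yy - x) (y1 - x) + (cr (y0 - x0) (y1 - x) - cr (y0 - x0) (yy - x)) / 2 := by
  have h' : PP = (ee : ℂ) * (yy - x) - ((x + yy) - (x0 + y0)) := by rw [h]; ring
  rw [h']
  unfold cr
  simp only [Complex.add_re, Complex.add_im, Complex.sub_re, Complex.sub_im, Complex.mul_re,
    Complex.mul_im, Complex.ofReal_re, Complex.ofReal_im]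
  ring

private theorem p_T4_two (x yy x1 x0 y0 PP : ℂ) (ee : ℝ)
    (h : (x + yy) - (x0 + y0) = (ee : ℂ) * (yy - x) - PP) :
    cr x x1 + cr yy yy + (cr x1 y0 + cr yy x0) - (cr x y0 + cr yy x0) =
      (-1 - ee) * cr PP (yy - x) / 2 + cr (PP + ((-1 - ee : ℝ) : ℂ) * (yy - x)) (yy - x1) / 2
        + ee * cr PP (yy - x) / 2 + cr (yy - x) (yy - x1) + (cr (y0 - x0) (yy - x1) - cr (y0 - x0) (yy - x)) / 2 := by
  have h' : PP = (ee : ℂ) * (yy - x) - ((x + yy) - (x0 + y0)) := by rw [h]; ring
  rw [h']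
  unfold cr
  simp only [Complex.add_re, Complex.add_im, Complex.sub_re, Complex.sub_im, Complex.mul_re,
    Complex.mul_im, Complex.ofReal_re, Complex.ofReal_im]
  ring

/-- splitting the double sum -/
private theorem p_T4_split (m : ℕ) (hm : 2 ≤ m) (h : ℕ → ℝ) (Q : ℕ → ℕ → ℝ) :
    ∑ b ∈ Finset.range (m + 1), ∑ a ∈ Finset.range b,
      (h a * h b / 4 + (if b = a + 1 then 1 / 2 else 0) + (if a = 0 ∧ b + 1 = m + 1 then 1 / 4 else 0)) * Q a b =
    (∑ b ∈ Finset.range (m + 1), h b * ∑ a ∈ Finset.range b, h a * Q a b) / 4 +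
      (∑ b ∈ Finset.range m, Q b (b + 1)) / 2 + Q 0 m / 4 := by
  have e1 : ∀ b ∈ Finset.range (m + 1), ∑ a ∈ Finset.range b,
      (h a * h b / 4 + (if b = a + 1 then 1 / 2 else 0) + (if a = 0 ∧ b + 1 = m + 1 then 1 / 4 else 0)) * Q a b =
      (h b * ∑ a ∈ Finset.range b, h a * Q a b) / 4 + (if 0 < b then Q (b - 1) b / 2 else 0)
        + (if b = m then Q 0 m / 4 else 0) := by
    intro b hb
    have hb' : b < m + 1 := Finset.mem_range.1 hb
    simp only [add_mul, Finset.sum_add_distrib]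
    congr 1
    · congr 1
      · rw [Finset.mul_sum, Finset.sum_div]
        refine Finset.sum_congr rfl fun a _ => ?_
        ring
      · rcases Nat.eq_zero_or_pos b with rfl | hpos
        · simp
        · rw [if_pos hpos, Finset.sum_eq_single (b - 1)]
          · rw [if_pos (by omega)]; ring
          · intro a ha hne
            have := Finset.mem_range.1 ha
            rw [if_neg (by omega)]; ring
          · intro h
            exact absurd (Finset.mem_range.2 (by omega)) h
    · by_cases hbm : b = m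
      · subst hbm
        rw [if_pos rfl, Finset.sum_eq_single 0]
        · rw [if_pos ⟨rfl, rfl⟩]; ring
        · intro a ha hne
          rw [if_neg (fun h => hne h.1)]; ring
        · intro h
          exact absurd (Finset.mem_range.2 (by omega)) h
      · rw [if_neg hbm]
        refine Finset.sum_eq_zero fun a _ => ?_
        rw [if_neg (fun h => hbm (by omega))]; ring
  rw [Finset.sum_congr rfl e1, Finset.sum_add_distrib, Finset.sum_add_distrib]
  congr 1
  · congr 1
    · rw [Finset.sum_div]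
    · rw [Finset.sum_range_succ', Finset.sum_div]
      simp
  · rw [Finset.sum_eq_single m]
    · simp
    · intro b _ hne; rw [if_neg hne]
    · intro h; exact absurd (Finset.mem_range.2 (by omega)) h

theorem p_T4 : S_T4 := by
  intro M ε X Y hM hstep
  obtain ⟨m, rfl⟩ : ∃ m, M = m + 1 := ⟨M - 1, by omega⟩
  have hm : 2 ≤ m := by omega
  set D : ℕ → ℂ := fun a => Y a - X a with hD
  set k : ℕ → ℝ := fun a => (ε a : ℝ) - p_T4_ep ε a with hk
  set P : ℕ → ℂ := fun b => ∑ a ∈ Finset.range b, (k a : ℂ) * D a with hP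
  have hP0 : P 0 = 0 := by simp [hP]
  have hPs : ∀ b, P (b + 1) = P b + (k b : ℂ) * D b := fun b => by
    simp only [hP]; rw [Finset.sum_range_succ]
  have hep : ∀ b, p_T4_ep ε (b + 1) = (ε b : ℝ) := fun b => by simp [p_T4_ep]
  have hep0 : p_T4_ep ε 0 = 0 := by simp [p_T4_ep]
  -- `G b = 2 (C b - C 0) = e (b-1) D b - P b`
  have hG : ∀ b, b ≤ m → (X b + Y b) - (X 0 + Y 0) = (p_T4_ep ε b : ℂ) * (Y b - X b) - P b := by
    intro b
    induction b with
    | zero => intro _; simp [hP0, hep0]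
    | succ b ih =>
      intro hb
      have h1 := ih (by omega)
      rw [hPs, hep]
      have hkb : ((k b : ℝ) : ℂ) = ((ε b : ℝ) : ℂ) - (p_T4_ep ε b : ℂ) := by simp [hk]
      rw [hkb]
      have hDb : D b = Y b - X b := rfl
      rw [hDb]
      rcases hstep b (by omega) with ⟨he, hX⟩ | ⟨he, hY⟩
      · rw [he, hX]
        push_cast
        linear_combination h1
      · rw [he, hY]
        push_cast
        linear_combination h1
  -- the partial sums
  have hsum : ∀ b, b ≤ m →
      (∑ a ∈ Finset.range b, (cr (X a) (X (a + 1)) + cr (Y a) (Y (a + 1)))) +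
        (cr (X b) (Y 0) + cr (Y b) (X 0)) =
      (∑ a ∈ Finset.range b, k a * cr (P a) (D a)) / 2 - p_T4_ep ε b * cr (P b) (D b) / 2
        + ∑ a ∈ Finset.range b, cr (D a) (D (a + 1)) + cr (D 0) (D b) / 2 := by
    intro b
    induction b with
    | zero =>
      intro _
      simp only [Finset.range_zero, Finset.sum_empty, hP0, hep0, p_T4_cr_zero, cr_self]
      rw [cr_comm (X 0) (Y 0)]; ring
    | succ b ih =>
      intro hb
      have h1 := ih (by omega)
      have h2 := hG b (by omega)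
      rw [Finset.sum_range_succ, Finset.sum_range_succ, Finset.sum_range_succ, hPs, hep]
      have hDb : D b = Y b - X b := rfl
      have hDb1 : D (b + 1) = Y (b + 1) - X (b + 1) := rfl
      have hD0 : D 0 = Y 0 - X 0 := rfl
      have hkb : k b = (ε b : ℝ) - p_T4_ep ε b := rfl
      rw [hkb]
      rw [hDb, hD0] at h1
      rw [hDb, hDb1, hD0]
      rcases hstep b (by omega) with ⟨he, hX⟩ | ⟨he, hY⟩
      · have h3 := p_T4_one (X b) (Y b) (Y (b + 1)) (X 0) (Y 0) (P b) (p_T4_ep ε b) h2
        rw [he, hX]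
        push_cast at h3 ⊢
        linear_combination h1 + h3
      · have h3 := p_T4_two (X b) (Y b) (X (b + 1)) (X 0) (Y 0) (P b) (p_T4_ep ε b) h2
        rw [he, hY]
        push_cast at h3 ⊢
        linear_combination h1 + h3
  have hfin := hsum m le_rfl
  have hh : ∀ a, a < m → hT (m + 1) ε a = k a := by
    intro a ha
    simp only [hT, hk, p_T4_ep]
    rw [if_pos (by omega)]
  have hhm : hT (m + 1) ε m = - p_T4_ep ε m := by
    simp only [hT, p_T4_ep]
    rw [if_neg (by omega)]; ring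
  have hR : ∑ b ∈ Finset.range (m + 1), ∑ a ∈ Finset.range b,
      cT (m + 1) ε a b * cr (Y a - X a) (Y b - X b) =
      (∑ b ∈ Finset.range (m + 1), hT (m + 1) ε b * ∑ a ∈ Finset.range b, hT (m + 1) ε a * cr (D a) (D b)) / 4 +
      (∑ b ∈ Finset.range m, cr (D b) (D (b + 1))) / 2 + cr (D 0) (D m) / 4 :=
    p_T4_split m hm (hT (m + 1) ε) (fun a b => cr (D a) (D b))
  rw [hR]
  have e2 : ∀ b ∈ Finset.range (m + 1), hT (m + 1) ε b * ∑ a ∈ Finset.range b, hT (m + 1) ε a * cr (D a) (D b) =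
      hT (m + 1) ε b * cr (P b) (D b) := by
    intro b hb
    have hb' := Finset.mem_range.1 hb
    rw [p_T4_cr_sum]
    congr 1
    refine Finset.sum_congr rfl fun a ha => ?_
    have ha' := Finset.mem_range.1 ha
    rw [hh a (by omega)]
  rw [Finset.sum_congr rfl e2, Finset.sum_range_succ, hhm]
  have e3 : ∑ b ∈ Finset.range m, hT (m + 1) ε b * cr (P b) (D b) =
      ∑ a ∈ Finset.range m, k a * cr (P a) (D a) :=
    Finset.sum_congr rfl fun b hb => by rw [hh b (Finset.mem_range.1 hb)]
  rw [e3]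
  simp only [Nat.add_sub_cancel]
  linarith [hfin]

end Pool.Agent.Lib.MP_97284c_gt
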