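import Pool.Agent.Lib.MP_97284c_gt.StmT

/-! # [poly T5] The sign of the second variation -/

namespace Pool.Agent.Lib.MP_97284c_gt

/-- weights of the nodes -/
private noncomputable def p_T5_w (M : ℕ) (ε : ℕ → ℤ) (a : ℕ) : ℝ :=
  if a = 0 ∨ a + 1 = M then 1 else if ε a = ε (a - 1) then 0 else 2

private theorem p_T5_w_nonneg (M : ℕ) (ε : ℕ → ℤ) (a : ℕ) : 0 ≤ p_T5_w M ε a := by
  unfold p_T5_w; split_ifs <;> norm_num

private theorem p_T5_chi (M : ℕ) (ε : ℕ → ℤ) (hM : 4 ≤ M)
    (hε : ∀ a, a + 1 < M → ε a = 1 ∨ ε a = -1) (a : ℕ) (ha : a < M) :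
    chiT M ε a = 1 ∨ chiT M ε a = -1 := by
  unfold chiT
  split_ifs with h
  · exact hε a h
  · rcases hε (M - 2) (by omega) with h1 | h1
    · right; rw [h1]
    · left; rw [h1]; norm_num

private theorem p_T5_h (M : ℕ) (ε : ℕ → ℤ) (hM : 4 ≤ M)
    (hε : ∀ a, a + 1 < M → ε a = 1 ∨ ε a = -1) (a : ℕ) (ha : a < M) :
    hT M ε a = p_T5_w M ε a * (chiT M ε a : ℝ) := by
  unfold hT p_T5_w chiT
  rcases Nat.eq_zero_or_pos a with rfl | hpos
  · rw [if_pos (by omega), if_neg (by omega), if_pos (Or.inl rfl), if_pos (by omega)]; ring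
  · by_cases h : a + 1 < M
    · rw [if_pos h, if_pos hpos, if_neg (by omega), if_pos h]
      by_cases hh : ε a = ε (a - 1)
      · rw [if_pos hh, hh]; ring
      · rw [if_neg hh]
        rcases hε a h with h1 | h1 <;> rcases hε (a - 1) (by omega) with h2 | h2
        · exact absurd (h1.trans h2.symm) hh
        · rw [h1, h2]; norm_num
        · rw [h1, h2]; norm_num
        · exact absurd (h1.trans h2.symm) hh
    · rw [if_neg h, if_pos hpos, if_pos (Or.inr (by omega)), if_neg h]
      have : a - 1 = M - 2 := by omega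
      rw [this]; push_cast; ring

/-- the largest node before `b` -/
private theorem p_T5_pr (ε : ℕ → ℤ) (b : ℕ) (hb : 1 ≤ b) :
    ∃ p, p < b ∧ (p = 0 ∨ ε p ≠ ε (p - 1)) ∧ ∀ c, p ≤ c → c < b → ε c = ε p := by
  induction b with
  | zero => omega
  | succ b ih =>
    rcases Nat.eq_zero_or_pos b with rfl | hpos
    · exact ⟨0, by omega, Or.inl rfl, fun c _ hc => by rw [show c = 0 by omega]⟩
    · by_cases h : ε b = ε (b - 1)
      · obtain ⟨p, h1, h2, h3⟩ := ih hpos
        refine ⟨p, by omega, h2, fun c hc1 hc2 => ?_⟩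
        rcases Nat.lt_succ_iff_lt_or_eq.1 hc2 with h4 | h4
        · exact h3 c hc1 h4
        · rw [h4, h]; exact h3 (b - 1) (by omega) (by omega)
      · exact ⟨b, by omega, Or.inr h, fun c hc1 hc2 => by rw [show c = b by omega]⟩

theorem p_T5 : S_T5 := by
  intro M ε s hM hε ⟨a₀, ha₀, hne⟩ hs hfan
  set χ : ℕ → ℝ := fun a => (chiT M ε a : ℝ) with hχ
  set w : ℕ → ℝ := p_T5_w M ε with hw
  have hw0 : ∀ a, 0 ≤ w a := p_T5_w_nonneg M ε
  have hχ1 : ∀ a, a < M → χ a = 1 ∨ χ a = -1 := by
    intro a ha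
    rcases p_T5_chi M ε hM hε a ha with h | h
    · left; simp [hχ, h]
    · right; simp [hχ, h]
  set F : ℕ → ℕ → ℝ := fun a b => w a * w b * (1 - χ a * χ b) / 4 * s a b with hF
  have hF0 : ∀ a b, a < b → b < M → 0 ≤ F a b := by
    intro a b hab hb
    have h1 : 0 ≤ 1 - χ a * χ b := by
      rcases hχ1 a (by omega) with h | h <;> rcases hχ1 b hb with h' | h' <;> rw [h, h'] <;> norm_num
    have := hs a b hab hb
    have := hw0 a
    have := hw0 b
    simp only [hF]
    positivity
  -- the inner sum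
  set T : ℕ → ℝ := fun b => ∑ a ∈ Finset.range b,
    cT M ε a b * (((chiT M ε a * chiT M ε b : ℤ) : ℝ) - 1) * s a b with hT'
  have hTe : ∀ b, 0 < b → b < M → T b = ∑ a ∈ Finset.range b, F a b
      - (1 - χ (b - 1) * χ b) / 2 * s (b - 1) b
      - (if b + 1 = M then (1 - χ 0 * χ b) / 4 * s 0 b else 0) := by
    intro b hb0 hb
    have e1 : ∀ a ∈ Finset.range b, cT M ε a b * (((chiT M ε a * chiT M ε b : ℤ) : ℝ) - 1) * s a b =
        F a b - (if b = a + 1 then (1 - χ a * χ b) / 2 * s a b else 0)
          - (if a = 0 ∧ b + 1 = M then (1 - χ a * χ b) / 4 * s a b else 0) := by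
      intro a ha
      have ha' := Finset.mem_range.1 ha
      have h1 := p_T5_h M ε hM hε a (by omega)
      have h2 := p_T5_h M ε hM hε b hb
      have h3 : (((chiT M ε a * chiT M ε b : ℤ) : ℝ)) = χ a * χ b := by simp [hχ]
      have h4 : (χ a) ^ 2 = 1 := by rcases hχ1 a (by omega) with h | h <;> rw [h] <;> norm_num
      have h5 : (χ b) ^ 2 = 1 := by rcases hχ1 b hb with h | h <;> rw [h] <;> norm_num
      rw [h3]
      unfold cT
      rw [h1, h2]
      have h6 : w a * χ a * (w b * χ b) / 4 * (χ a * χ b - 1) * s a b = F a b := by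
        simp only [hF]
        linear_combination (w a * w b * s a b / 4) * (χ b ^ 2) * h4 + (w a * w b * s a b / 4) * h5
      change (w a * χ a * (w b * χ b) / 4 + _ + _) * (χ a * χ b - 1) * s a b = _
      rw [← h6]
      by_cases c1 : b = a + 1 <;> by_cases c2 : a = 0 ∧ b + 1 = M
      · rw [if_pos c1, if_pos c2, if_pos c1, if_pos c2]; ring
      · rw [if_pos c1, if_neg c2, if_pos c1, if_neg c2]; ring
      · rw [if_neg c1, if_pos c2, if_neg c1, if_pos c2]; ring
      · rw [if_neg c1, if_neg c2, if_neg c1, if_neg c2]; ring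
    simp only [hT']
    rw [Finset.sum_congr rfl e1, Finset.sum_sub_distrib, Finset.sum_sub_distrib]
    congr 1
    · congr 1
      rw [Finset.sum_eq_single (b - 1)]
      · rw [if_pos (by omega)]
      · intro a ha hne'
        have := Finset.mem_range.1 ha
        rw [if_neg (by omega)]
      · intro h
        exact absurd (Finset.mem_range.2 (by omega)) h
    · by_cases c : b + 1 = M
      · rw [if_pos c, Finset.sum_eq_single 0]
        · rw [if_pos ⟨rfl, c⟩]
        · intro a ha hne'
          rw [if_neg (fun h => hne' h.1)]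
        · intro h
          exact absurd (Finset.mem_range.2 (by omega)) h
      · rw [if_neg c]
        refine Finset.sum_eq_zero fun a _ => ?_
        rw [if_neg (fun h => c h.2)]
  -- inner nodes
  have hin : ∀ b, 0 < b → b + 1 < M → ε b ≠ ε (b - 1) → ∀ p, p < b → (p = 0 ∨ ε p ≠ ε (p - 1)) →
      (∀ c, p ≤ c → c < b → ε c = ε p) → w p * s p b - s (b - 1) b ≤ T b := by
    intro b hb0 hb hn p hp hpn hpc
    rw [hTe b hb0 (by omega), if_neg (by omega), sub_zero]
    have c1 : χ (b - 1) * χ b = -1 := by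
      simp only [hχ, chiT]
      rw [if_pos (by omega), if_pos hb]
      rcases hε b hb with h1 | h1 <;> rcases hε (b - 1) (by omega) with h2 | h2
      · exact absurd (h1.trans h2.symm) hn
      · rw [h1, h2]; norm_num
      · rw [h1, h2]; norm_num
      · exact absurd (h1.trans h2.symm) hn
    have c2 : χ p = χ (b - 1) := by
      simp only [hχ, chiT]
      rw [if_pos (by omega), if_pos (by omega), hpc (b - 1) (by omega) (by omega)]
    have c3 : w b = 2 := by
      simp only [hw, p_T5_w]
      rw [if_neg (by omega), if_neg hn]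
    have c4 : F p b = w p * s p b := by
      simp only [hF]
      rw [c3, c2, c1]; ring
    have c5 : F p b ≤ ∑ a ∈ Finset.range b, F a b :=
      Finset.single_le_sum (f := fun a => F a b) (fun a ha => hF0 a b (Finset.mem_range.1 ha) (by omega))
        (Finset.mem_range.2 hp)
    rw [c1]
    linarith
  -- not a node
  have hnn : ∀ b, 0 < b → b + 1 < M → ε b = ε (b - 1) → 0 ≤ T b := by
    intro b hb0 hb hn
    rw [hTe b hb0 (by omega), if_neg (by omega), sub_zero]
    have c1 : χ (b - 1) * χ b = 1 := by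
      simp only [hχ, chiT]
      rw [if_pos (by omega), if_pos hb, hn]
      rcases hε (b - 1) (by omega) with h2 | h2 <;> rw [h2] <;> norm_num
    have c5 : 0 ≤ ∑ a ∈ Finset.range b, F a b :=
      Finset.sum_nonneg (fun a ha => hF0 a b (Finset.mem_range.1 ha) (by omega))
    rw [c1]
    linarith
  have hw1 : ∀ p, p + 1 < M → (p = 0 ∨ ε p ≠ ε (p - 1)) → 1 ≤ w p ∧ (0 < p → w p = 2) := by
    intro p hp h
    simp only [hw, p_T5_w]
    rcases h with h | h
    · subst h
      rw [if_pos (Or.inl rfl)]
      exact ⟨le_rfl, fun h => absurd h (lt_irrefl _)⟩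
    · by_cases h0 : p = 0
      · rw [if_pos (Or.inl h0)]
        exact ⟨le_rfl, fun h => absurd h0 (by omega)⟩
      · rw [if_neg (by omega), if_neg h]
        exact ⟨by norm_num, fun _ => rfl⟩
  have hfan' : ∀ p b, p < b → b < M → (∀ c, p ≤ c → c < b → ε c = ε p) → s (b - 1) b ≤ s p b := by
    intro p b hp hb hc
    rcases Nat.lt_or_ge (p + 1) b with h | h
    · exact (hfan p b h hb hc).le
    · rw [show b - 1 = p by omega]
  have hTn : ∀ b, b + 1 < M → 0 ≤ T b := by
    intro b hb
    rcases Nat.eq_zero_or_pos b with rfl | hb0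
    · simp [hT']
    · by_cases hn : ε b = ε (b - 1)
      · exact hnn b hb0 hb hn
      · obtain ⟨p, p1, p2, p3⟩ := p_T5_pr ε b hb0
        have h1 := hin b hb0 hb hn p p1 p2 p3
        have h2 := hfan' p b p1 (by omega) p3
        have h3 := (hw1 p (by omega) p2).1
        have h4 := hs p b p1 (by omega)
        nlinarith
  -- the last one
  obtain ⟨p, p1, p2, p3⟩ := p_T5_pr ε (M - 1) (by omega)
  have hp0 : 0 < p := by
    rcases Nat.eq_zero_or_pos p with h | h
    · exfalso
      apply hne
      rw [p3 (a₀ + 1) (by omega) (by omega), p3 a₀ (by omega) (by omega)]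
    · exact h
  have hlast : s p (M - 1) - s (M - 2) (M - 1) ≤ T (M - 1) := by
    rw [hTe (M - 1) (by omega) (by omega), if_pos (by omega)]
    have c1 : χ (M - 1 - 1) * χ (M - 1) = -1 := by
      simp only [hχ, chiT]
      rw [if_pos (by omega), if_neg (by omega), show M - 1 - 1 = M - 2 by omega]
      rcases hε (M - 2) (by omega) with h2 | h2 <;> rw [h2] <;> norm_num
    have c2 : χ p = χ (M - 1 - 1) := by
      simp only [hχ, chiT]
      rw [if_pos (by omega), if_pos (by omega), p3 (M - 1 - 1) (by omega) (by omega)]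
    have c3 : w (M - 1) = 1 := by
      simp only [hw, p_T5_w]
      rw [if_pos (Or.inr (by omega))]
    have c3' : w 0 = 1 := by
      rw [hw]; unfold p_T5_w
      rw [if_pos (Or.inl rfl)]
    have c4 : F p (M - 1) = s p (M - 1) := by
      simp only [hF]
      rw [c3, c2, c1, (hw1 p (by omega) p2).2 hp0]; ring
    have c4' : F 0 (M - 1) = (1 - χ 0 * χ (M - 1)) / 4 * s 0 (M - 1) := by
      simp only [hF]
      rw [c3, c3']; ring
    have c5 : F p (M - 1) + F 0 (M - 1) ≤ ∑ a ∈ Finset.range (M - 1), F a (M - 1) := by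
      rw [← Finset.sum_erase_add _ _ (Finset.mem_range.2 (show 0 < M - 1 by omega))]
      have h8 : F p (M - 1) ≤ ∑ a ∈ (Finset.range (M - 1)).erase 0, F a (M - 1) :=
        Finset.single_le_sum (f := fun a => F a (M - 1))
          (fun a ha => hF0 a (M - 1) (Finset.mem_range.1 (Finset.mem_of_mem_erase ha)) (by omega))
          (Finset.mem_erase.2 ⟨by omega, Finset.mem_range.2 p1⟩)
      linarith
    rw [c1, ← c4', show M - 1 - 1 = M - 2 by omega] at *
    rw [c4] at c5
    linarith
  obtain ⟨m, rfl⟩ : ∃ m, M = m + 1 := ⟨M - 1, by omega⟩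
  simp only [Nat.add_sub_cancel] at *
  rw [Finset.sum_range_succ]
  have hpos1 : 0 ≤ ∑ b ∈ Finset.range m, T b :=
    Finset.sum_nonneg fun b hb => hTn b (by have := Finset.mem_range.1 hb; omega)
  change 0 < ∑ b ∈ Finset.range m, T b + T m
  rcases Nat.lt_or_ge (p + 1) m with h | h
  · have h9 := hfan p m h (by omega) p3
    have h10 : m - 1 = m + 1 - 2 := by omega
    rw [h10] at h9
    linarith
  · -- `p = M - 2`
    have hpm : p = m - 1 := by omega
    have hTm : 0 ≤ T m := by
      have h10 : m + 1 - 2 = p := by omega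
      rw [h10] at hlast
      linarith
    have hTp : 0 < T p := by
      have hn : ε p ≠ ε (p - 1) := by
        rcases p2 with h' | h'
        · omega
        · exact h'
      obtain ⟨q, q1, q2, q3⟩ := p_T5_pr ε p hp0
      have h1 := hin p hp0 (by omega) hn q q1 q2 q3
      have h3 := hw1 q (by omega) q2
      have h4 := hs q p q1 (by omega)
      rcases Nat.lt_or_ge (q + 1) p with h' | h'
      · have h5 := hfan q p h' (by omega) q3
        nlinarith [h3.1]
      · have hq : p - 1 = q := by omega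
        rw [hq] at h1
        rw [h3.2 (by omega)] at h1
        linarith
    have h11 : T p ≤ ∑ b ∈ Finset.range m, T b :=
      Finset.single_le_sum (f := T) (fun b hb => hTn b (by have := Finset.mem_range.1 hb; omega))
        (Finset.mem_range.2 (by omega))
    linarith

end Pool.Agent.Lib.MP_97284c_gt
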