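import Pool.Agent.Lib.MP_97284c_gt.StmT

namespace Pool.Agent.Lib.MP_97284c_gt

private theorem p_T5b_id (p q r s : ℂ) : cr (r - p) (s - q) = orient p q r + orient r s p := by
  unfold orient cr; simp only [Complex.sub_re, Complex.sub_im]; ring

private theorem p_T5b_fan (A B C : ℂ) (hA : ‖A‖ = 1) (hB : ‖B‖ = 1) (hC : ‖C‖ = 1)
    (hAB : 0 < cr A B) (hAC : 0 < cr A C) (hd : ‖C - A‖ ≤ 1) : cr B C < cr A C := by
  have h1 : dt A A = 1 := by rw [dt_self, hA]; norm_num
  have h2 : 1 / 2 ≤ dt A C := by
    have h := normsq_sub C A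
    rw [hA, hC, dt_comm] at h
    have h3 : ‖C - A‖ ^ 2 ≤ 1 := by
      have := norm_nonneg (C - A)
      nlinarith
    linarith
  have h4 : dt A B ≤ 1 := by
    have h := cr_sq_add_dt_sq A B
    rw [hA, hB] at h
    nlinarith [sq_nonneg (cr A B)]
  have h5 : cr B C * dt A A = dt A B * cr A C - cr A B * dt A C := by
    unfold cr dt; ring
  rw [h1, mul_one] at h5
  have h6 : dt A B * cr A C ≤ 1 * cr A C := mul_le_mul_of_nonneg_right h4 hAC.le
  have h7 : 0 < cr A B * dt A C := mul_pos hAB (by linarith)
  linarith

theorem p_T5b : S_T5b := by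
  intro n M y I J ε hn hper hcvx hsmall hTS
  have hM := hTS.hM
  -- monotonicity
  have hstep : ∀ a, a + 1 < M → I a ≤ I (a + 1) ∧ J a ≤ J (a + 1) ∧
      I (a + 1) + J (a + 1) = I a + J a + 1 := fun a ha => by
    rcases hTS.step a ha with ⟨_, h1, h2⟩ | ⟨_, h1, h2⟩ <;> rw [h1, h2] <;> refine ⟨by omega, by omega, by omega⟩
  have hmono : ∀ a b, a ≤ b → b < M → I a ≤ I b ∧ J a ≤ J b ∧ I b + J b = I a + J a + (b - a) := by
    intro a b hab
    induction b, hab using Nat.le_induction with
    | base => intro _; refine ⟨le_refl _, le_refl _, by ring⟩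
    | succ b hb ih =>
      intro hbM
      have h1 := ih (by omega)
      have h2 := hstep b hbM
      refine ⟨h1.1.trans h2.1, h1.2.1.trans h2.2.1, ?_⟩
      rw [h2.2.2, h1.2.2]; push_cast; ring
  have hpos : ∀ a b, a < b → b < M → 0 < cr (y (J a) - y (I a)) (y (J b) - y (I b)) := by
    intro a b hab hb
    rw [p_T5b_id]
    obtain ⟨h1, h2, h3⟩ := hmono a b hab.le hb
    have h4 := (hmono b (M - 1) (by omega) (by omega)).1
    have h5 := (hmono b (M - 1) (by omega) (by omega)).2.1
    have h6 := (hmono 0 a (by omega) (by omega)).1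
    have h7 := (hmono 0 a (by omega) (by omega)).2.1
    have h8 := hTS.gap1
    have h9 := hTS.gap2
    have hnn : ((b : ℤ) - a) ≥ 1 := by omega
    have hyp : y (I a + n) = y (I a) := hper (I a)
    have k1 : 0 ≤ orient (y (I a)) (y (I b)) (y (J a)) := by
      rcases eq_or_lt_of_le h1 with h | h
      · rw [← h]; unfold orient cr; simp
      · exact (hcvx (I a) (I b) (J a) h (by omega) (by omega)).le
    have k2 : 0 ≤ orient (y (J a)) (y (J b)) (y (I a)) := by
      rcases eq_or_lt_of_le h2 with h | h
      · rw [← h]; unfold orient cr; simp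
      · rw [← hyp]
        exact (hcvx (J a) (J b) (I a + n) h (by omega) (by omega)).le
    rcases eq_or_lt_of_le h1 with h | h
    · have h' : J a < J b := by omega
      have := hcvx (J a) (J b) (I a + n) h' (by omega) (by omega)
      rw [hyp] at this
      linarith
    · have := hcvx (I a) (I b) (J a) h (by omega) (by omega)
      linarith
  refine ⟨hpos, ?_⟩
  intro a b hab hb hε
  have hun : ∀ c, c < M → ‖y (J c) - y (I c)‖ = 1 := fun c hc => by
    have := (hTS.up c hc).2.2
    rw [norm_sub_rev] at this
    exact this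
  refine p_T5b_fan _ _ _ (hun a (by omega)) (hun (b - 1) (by omega)) (hun b hb)
    (hpos a (b - 1) (by omega) (by omega)) (hpos a b (by omega) hb) ?_
  rcases hTS.step a (by omega) with ⟨h0, _, _⟩ | ⟨h0, _, _⟩
  · have hI : ∀ c, a ≤ c → c ≤ b → I c = I a := by
      intro c hc
      induction c, hc using Nat.le_induction with
      | base => intro _; rfl
      | succ c hc ih =>
        intro hcb
        have h1 := ih (by omega)
        rcases hTS.step c (by omega) with ⟨_, h2, _⟩ | ⟨h2, _, _⟩
        · rw [h2, h1]
        · have := hε c hc (by omega)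
          rw [h2, h0] at this
          exact absurd this (by decide)
    rw [hI b (by omega) le_rfl]
    have : y (J b) - y (I a) - (y (J a) - y (I a)) = y (J b) - y (J a) := by ring
    rw [this]
    exact hsmall _ _
  · have hJ : ∀ c, a ≤ c → c ≤ b → J c = J a := by
      intro c hc
      induction c, hc using Nat.le_induction with
      | base => intro _; rfl
      | succ c hc ih =>
        intro hcb
        have h1 := ih (by omega)
        rcases hTS.step c (by omega) with ⟨h2, _, _⟩ | ⟨_, _, h2⟩
        · have := hε c hc (by omega)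
          rw [h2, h0] at this
          exact absurd this (by decide)
        · rw [h2, h1]
    rw [hJ b (by omega) le_rfl]
    have : y (J a) - y (I b) - (y (J a) - y (I a)) = y (I a) - y (I b) := by ring
    rw [this]
    exact hsmall _ _

end Pool.Agent.Lib.MP_97284c_gt
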