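import Pool.Agent.Lib.MP_97284c_gt.StmC
import Pool.Agent.Lib.MP_97284c_gt.StmT

namespace Pool.Agent.Lib.MP_97284c_gt

private theorem p_T6_core (hP1 : S_P1) (hP2 : S_P2) (n : ℕ) (y : ℤ → ℂ) (hn : 5 ≤ n)
    (hy : Opt n y) (v : ℤ) (D : ℂ)
    (h : ∀ i j, UP n y i j → (¬ (n : ℤ) ∣ i - v ∧ ¬ (n : ℤ) ∣ j - v) ∨
      (((n : ℤ) ∣ i - v ∧ ¬ (n : ℤ) ∣ j - v ∨ ¬ (n : ℤ) ∣ i - v ∧ (n : ℤ) ∣ j - v) ∧
        (y i - y j = D ∨ y i - y j = -D))) :
    cr (Complex.I * D) (y (v + 1) - y (v - 1)) = 0 := by
  have key : ∀ σ : ℝ, cr ((σ : ℂ) * (Complex.I * D)) (y (v + 1) - y (v - 1)) / 2 ≤ 0 := by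
    intro σ
    rw [← hP2 n y v ((σ : ℂ) * (Complex.I * D)) (by omega) hy.1]
    refine hP1 n y _ (by omega) hy ?_ ?_
    · intro k
      have : (n : ℤ) ∣ k + n - v ↔ (n : ℤ) ∣ k - v := by
        rw [show k + (n : ℤ) - v = (k - v) + n by ring]
        exact dvd_add_self_right
      simp only [this]
    · intro i j hij
      have hz : ∀ w : ℂ, (w = D ∨ w = -D) → dt w ((σ : ℂ) * (Complex.I * D)) = 0 := by
        rintro w (rfl | rfl)
        · unfold dt
          simp
          ring
        · unfold dt
          simp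
          ring
      have hz' : ∀ w u : ℂ, dt w (-u) = - dt w u := by
        intro w u
        unfold dt
        simp
        ring
      rcases h i j hij with ⟨h1, h2⟩ | ⟨⟨h1, h2⟩ | ⟨h1, h2⟩, h3⟩
      · simp only [h1, h2, if_false, sub_self]
        unfold dt
        simp
      · simp only [h1, h2, if_true, if_false, sub_zero]
        rw [hz _ h3]
      · simp only [h1, h2, if_true, if_false, zero_sub]
        rw [hz', hz _ h3, neg_zero]
  have h1 := key 1
  have h2 := key (-1)
  have e : cr (((-1 : ℝ) : ℂ) * (Complex.I * D)) (y (v + 1) - y (v - 1)) =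
      - cr (Complex.I * D) (y (v + 1) - y (v - 1)) := by
    unfold cr
    simp
    ring
  rw [e] at h2
  simp only [Complex.ofReal_one, one_mul] at h1
  linarith

private theorem p_T6_ndvd (n : ℕ) (hn : 5 ≤ n) (a t : ℤ) (h0 : 0 < a) (h1 : a < n) :
    ¬ (n : ℤ) ∣ a + t * n := by
  intro h
  have h2 : (n : ℤ) ∣ a := (dvd_add_left (Dvd.intro_left t rfl)).1 h
  have := Int.le_of_dvd h0 h2
  omega

theorem p_T6 (hP1 : S_P1) (hP2 : S_P2) : S_T6 := by
  intro n M y I J ε hn hy hT
  by_contra hcon
  push Not at hcon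
  have hM := hT.hM
  have hc : ∀ a, a + 1 < M → ε a = ε 0 := by
    intro a
    induction a with
    | zero => intro _; rfl
    | succ a ih =>
      intro h
      rw [hcon a (by omega)]
      exact ih (by omega)
  have hper : ∀ k t : ℤ, y (k + t * n) = y k := fun k t => per_mul y hy.1 k t
  have u0 := (hT.up 0 (by omega)).2.2
  have u1 := (hT.up 1 (by omega)).2.2
  rw [norm_sub_rev] at u0 u1
  have fin : ∀ D0 D1 : ℂ, ‖D0‖ = 1 → ‖D1‖ = 1 → ‖D1 - D0‖ ≤ 1 →
      dt D0 D1 = 0 → False := by
    intro D0 D1 h0 h1 h2 h3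
    have h4 := normsq_sub D1 D0
    rw [h0, h1, dt_comm, h3] at h4
    have h5 := pow_le_pow_left₀ (norm_nonneg _) h2 2
    rw [h4] at h5
    norm_num at h5
  rcases hT.step 0 (by omega) with ⟨e0, -, -⟩ | ⟨e0, -, -⟩
  · -- J moves
    have hIJ : ∀ a, a < M → I a = I 0 ∧ J a = J 0 + a := by
      intro a
      induction a with
      | zero => intro _; simp
      | succ a ih =>
        intro h
        obtain ⟨h1, h2⟩ := ih (by omega)
        rcases hT.step a h with ⟨-, h3, h4⟩ | ⟨h3, -, -⟩
        · rw [h3, h4, h1, h2]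
          push_cast
          exact ⟨rfl, by ring⟩
        · rw [hc a h, e0] at h3
          norm_num at h3
    have g1 := hT.gap1
    rw [(hIJ (M - 1) (by omega)).1] at g1
    have hcr := p_T6_core hP1 hP2 n y hn hy (J 0) (y (J 0) - y (I 0)) (by
      intro i j hij
      obtain ⟨a, t, ha, h | h⟩ := hT.cover i j hij
      · obtain ⟨hi, hj⟩ := h
        rw [(hIJ a ha).1] at hi
        rw [(hIJ a ha).2] at hj
        have d1 : ¬ (n : ℤ) ∣ i - J 0 := by
          have := p_T6_ndvd n hn (n - 1) (t - 1) (by omega) (by omega)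
          rw [show i - J 0 = ((n : ℤ) - 1) + (t - 1) * n by rw [hi, g1]; ring]
          exact this
        rcases Nat.eq_zero_or_pos a with rfl | hap
        · right
          refine ⟨Or.inr ⟨d1, ?_⟩, Or.inr ?_⟩
          · rw [hj]
            exact ⟨t, by push_cast; ring⟩
          · rw [hi, hj, hper]
            simp only [Nat.cast_zero, add_zero]
            rw [hper]
            ring
        · left
          refine ⟨d1, ?_⟩
          rw [show j - J 0 = (a : ℤ) + t * n by rw [hj]; ring]
          exact p_T6_ndvd n hn a t (by omega) (by omega)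
      · obtain ⟨hi, hj⟩ := h
        rw [(hIJ a ha).2] at hi
        rw [(hIJ a ha).1] at hj
        have d1 : ¬ (n : ℤ) ∣ j - J 0 := by
          have := p_T6_ndvd n hn (n - 1) t (by omega) (by omega)
          rw [show j - J 0 = ((n : ℤ) - 1) + t * n by rw [hj, g1]; ring]
          exact this
        rcases Nat.eq_zero_or_pos a with rfl | hap
        · right
          refine ⟨Or.inl ⟨?_, d1⟩, Or.inl ?_⟩
          · rw [hi]
            exact ⟨t, by push_cast; ring⟩
          · rw [hi, hj, hper (I 0) (t + 1)]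
            simp only [Nat.cast_zero, add_zero]
            rw [hper]
        · left
          refine ⟨?_, d1⟩
          rw [show i - J 0 = (a : ℤ) + t * n by rw [hi]; ring]
          exact p_T6_ndvd n hn a t (by omega) (by omega))
    have h1 := hIJ 1 (by omega)
    have e1 : y (J 0 + 1) = y (J 1) := by rw [h1.2]; rfl
    have e2 : y (J 0 - 1) = y (I 1) := by rw [h1.1, g1]; congr 1; ring
    rw [e1, e2, cr_I_mul, neg_eq_zero] at hcr
    refine fin _ _ u0 u1 ?_ hcr
    rw [show y (J 1) - y (I 1) - (y (J 0) - y (I 0)) = y (J 1) - y (J 0) by rw [h1.1]; ring]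
    exact hy.2.2.1 _ _
  · -- I moves
    have hIJ : ∀ a, a < M → I a = I 0 + a ∧ J a = J 0 := by
      intro a
      induction a with
      | zero => intro _; simp
      | succ a ih =>
        intro h
        obtain ⟨h1, h2⟩ := ih (by omega)
        rcases hT.step a h with ⟨h3, -, -⟩ | ⟨-, h3, h4⟩
        · rw [hc a h, e0] at h3
          norm_num at h3
        · rw [h3, h4, h1, h2]
          push_cast
          exact ⟨by ring, rfl⟩
    have g2 := hT.gap2
    rw [(hIJ (M - 1) (by omega)).2] at g2
    have g2' : J 0 = I 0 + n - 1 := by linarith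
    have hcr := p_T6_core hP1 hP2 n y hn hy (I 0) (y (J 0) - y (I 0)) (by
      intro i j hij
      obtain ⟨a, t, ha, h | h⟩ := hT.cover i j hij
      · obtain ⟨hi, hj⟩ := h
        rw [(hIJ a ha).1] at hi
        rw [(hIJ a ha).2] at hj
        have d1 : ¬ (n : ℤ) ∣ j - I 0 := by
          have := p_T6_ndvd n hn (n - 1) t (by omega) (by omega)
          rw [show j - I 0 = ((n : ℤ) - 1) + t * n by rw [hj, g2']; ring]
          exact this
        rcases Nat.eq_zero_or_pos a with rfl | hap
        · right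
          refine ⟨Or.inl ⟨?_, d1⟩, Or.inr ?_⟩
          · rw [hi]
            exact ⟨t, by push_cast; ring⟩
          · rw [hi, hj, hper (J 0) t]
            simp only [Nat.cast_zero, add_zero]
            rw [hper]
            ring
        · left
          refine ⟨?_, d1⟩
          rw [show i - I 0 = (a : ℤ) + t * n by rw [hi]; ring]
          exact p_T6_ndvd n hn a t (by omega) (by omega)
      · obtain ⟨hi, hj⟩ := h
        rw [(hIJ a ha).2] at hi
        rw [(hIJ a ha).1] at hj
        have d1 : ¬ (n : ℤ) ∣ i - I 0 := by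
          have := p_T6_ndvd n hn (n - 1) t (by omega) (by omega)
          rw [show i - I 0 = ((n : ℤ) - 1) + t * n by rw [hi, g2']; ring]
          exact this
        rcases Nat.eq_zero_or_pos a with rfl | hap
        · right
          refine ⟨Or.inr ⟨d1, ?_⟩, Or.inl ?_⟩
          · rw [hj]
            exact ⟨t + 1, by push_cast; ring⟩
          · rw [hi, hj, hper (J 0) t]
            simp only [Nat.cast_zero, add_zero]
            rw [hper]
        · left
          refine ⟨d1, ?_⟩
          rw [show j - I 0 = (a : ℤ) + (t + 1) * n by rw [hj]; ring]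
          exact p_T6_ndvd n hn a (t + 1) (by omega) (by omega))
    have h1 := hIJ 1 (by omega)
    have e1 : y (I 0 + 1) = y (I 1) := by rw [h1.1]; rfl
    have e2 : y (I 0 - 1) = y (J 1) := by
      rw [h1.2, g2']
      have := hper (I 0 - 1) 1
      rw [← this]
      congr 1
      ring
    rw [e1, e2, cr_I_mul, neg_eq_zero] at hcr
    have hcr' : dt (y (J 0) - y (I 0)) (y (J 1) - y (I 1)) = 0 := by
      have : dt (y (J 0) - y (I 0)) (y (J 1) - y (I 1)) =
          - dt (y (J 0) - y (I 0)) (y (I 1) - y (J 1)) := by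
        unfold dt
        simp
        ring
      rw [this, hcr, neg_zero]
    refine fin _ _ u0 u1 ?_ hcr'
    rw [show y (J 1) - y (I 1) - (y (J 0) - y (I 0)) = y (I 0) - y (I 1) by rw [h1.2]; ring]
    exact hy.2.2.1 _ _

end Pool.Agent.Lib.MP_97284c_gt
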