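import Pool.Agent.Lib.MP_97284c_gt.StmC
import Pool.Agent.Lib.MP_97284c_gt.StmT

namespace Pool.Agent.Lib.MP_97284c_gt

private theorem p_T7_cr_rot (α β : ℝ) (u v : ℂ) :
    cr (Complex.exp (α * Complex.I) * u) (Complex.exp (β * Complex.I) * v) =
      Real.cos (β - α) * cr u v + Real.sin (β - α) * dt u v := by
  unfold cr dt
  simp only [Complex.mul_re, Complex.mul_im, exp_re, exp_im, Real.cos_sub, Real.sin_sub]
  ring

private theorem p_T7_norm_exp (t : ℝ) : ‖Complex.exp (t * Complex.I)‖ = 1 :=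
  Complex.norm_exp_ofReal_mul_I t

private theorem p_T7_norm_exp_sub_one (t : ℝ) : ‖Complex.exp (t * Complex.I) - 1‖ ≤ |t| := by
  have h := Real.norm_exp_I_mul_ofReal_sub_one_le (x := t)
  rw [mul_comm] at h
  simpa using h

/-- The rotated staircase. -/
private noncomputable def p_T7_F (X : ℂ) (D : ℕ → ℂ) (ε : ℕ → ℤ) (E : ℕ → ℂ) : ℕ → ℂ × ℂ
  | 0 => (X, X + E 0 * D 0)
  | (a + 1) => if ε a = 1 then ((p_T7_F X D ε E a).1, (p_T7_F X D ε E a).1 + E (a + 1) * D (a + 1))
      else ((p_T7_F X D ε E a).2 - E (a + 1) * D (a + 1), (p_T7_F X D ε E a).2)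

private theorem p_T7_F_diff (X : ℂ) (D : ℕ → ℂ) (ε : ℕ → ℤ) (E : ℕ → ℂ) (a : ℕ) :
    (p_T7_F X D ε E a).2 - (p_T7_F X D ε E a).1 = E a * D a := by
  cases a with
  | zero => simp [p_T7_F]
  | succ a =>
    unfold p_T7_F
    by_cases h : ε a = 1
    · rw [if_pos h]; simp
    · rw [if_neg h]; simp

theorem p_T7 (hP0 : S_P0) (hT2 : S_T2) (hT2b : S_T2b) (hT3 : S_T3) (hT4 : S_T4) (hT5 : S_T5)
    (hT5b : S_T5b) (hT6 : S_T6) : S_T7 := by
  intro n M y I J ε hn hopt hTS
  obtain ⟨hper, hcvx, hsmall, hmax⟩ := id hopt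
  have hM := hTS.hM
  have hM4 : 4 ≤ M := by omega
  -- the signs
  have hε : ∀ a, a + 1 < M → ε a = 1 ∨ ε a = -1 := fun a ha => by
    rcases hTS.step a ha with h | h
    · exact Or.inl h.1
    · exact Or.inr h.1
  have hχ : ∀ a, a < M → chiT M ε a = 1 ∨ chiT M ε a = -1 := fun a ha => by
    unfold chiT
    by_cases h : a + 1 < M
    · rw [if_pos h]; exact hε a h
    · rw [if_neg h]
      rcases hε (M - 2) (by omega) with h' | h'
      · rw [h']; right; rfl
      · rw [h']; left; rfl
  set D : ℕ → ℂ := fun a => y (J a) - y (I a) with hD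
  have hDn : ∀ a, a < M → ‖D a‖ = 1 := fun a ha => by
    have := (hTS.up a ha).2.2
    rw [norm_sub_rev] at this
    exact this
  -- the deformation
  set E : ℝ → ℕ → ℂ := fun t a => Complex.exp (((chiT M ε a : ℝ) * t : ℝ) * Complex.I) with hE
  set F : ℝ → ℕ → ℂ × ℂ := fun t => p_T7_F (y (I 0)) D ε (E t) with hF
  have hFd : ∀ t a, (F t a).2 - (F t a).1 = E t a * D a := fun t a => p_T7_F_diff _ _ _ _ _
  have hEn : ∀ t a, ‖E t a‖ = 1 := fun t a => p_T7_norm_exp _
  have hE1 : ∀ t a, a < M → ‖E t a - 1‖ ≤ |t| := fun t a ha => by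
    refine (p_T7_norm_exp_sub_one _).trans ?_
    rw [abs_mul]
    rcases hχ a ha with h | h <;> rw [h] <;> simp
  have hstep : ∀ t a, a + 1 < M → (ε a = 1 ∧ (F t (a + 1)).1 = (F t a).1) ∨
      (ε a = -1 ∧ (F t (a + 1)).2 = (F t a).2) := fun t a ha => by
    rcases hε a ha with h | h
    · left
      refine ⟨h, ?_⟩
      show (p_T7_F _ _ _ _ (a + 1)).1 = _
      rw [p_T7_F, if_pos h]
    · right
      refine ⟨h, ?_⟩
      show (p_T7_F _ _ _ _ (a + 1)).2 = _
      rw [p_T7_F, if_neg (by rw [h]; decide)]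
  have hclose : ∀ t a, a < M → ‖(F t a).1 - y (I a)‖ ≤ (a + 1) * |t| ∧
      ‖(F t a).2 - y (J a)‖ ≤ (a + 1) * |t| := by
    intro t a
    induction a with
    | zero =>
      intro ha
      have h1 : (F t 0).1 = y (I 0) := rfl
      have h2 : (F t 0).2 - y (J 0) = (E t 0 - 1) * D 0 := by
        have : (F t 0).2 = y (I 0) + E t 0 * D 0 := rfl
        rw [this]; simp only [hD]; ring
      constructor
      · rw [h1]; simp
      · rw [h2, norm_mul, hDn 0 ha]
        have := hE1 t 0 ha
        simpa using this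
    | succ a ih =>
      intro ha
      have iha := ih (by omega)
      have ht : 0 ≤ |t| := abs_nonneg t
      have hE' : ‖(E t (a + 1) - 1) * D (a + 1)‖ ≤ |t| := by
        rw [norm_mul, hDn _ ha, mul_one]; exact hE1 t _ ha
      rcases hTS.step a ha with ⟨h, hI, hJ⟩ | ⟨h, hI, hJ⟩
      · have h1 : (F t (a + 1)).1 = (F t a).1 := by
          rcases hstep t a ha with h' | h'
          · exact h'.2
          · rw [h] at h'; exact absurd h'.1 (by decide)
        have h2 : (F t (a + 1)).2 - y (J (a + 1)) =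
            ((F t a).1 - y (I a)) + (E t (a + 1) - 1) * D (a + 1) := by
          have h3 := hFd t (a + 1)
          rw [h1] at h3
          have h4 : (F t (a + 1)).2 = (F t a).1 + E t (a + 1) * D (a + 1) := by
            rw [← h3]; ring
          rw [h4]; simp only [hD, hI]; ring
        push_cast
        constructor
        · rw [h1, hI]
          refine iha.1.trans ?_
          nlinarith
        · rw [h2]
          refine (norm_add_le _ _).trans ?_
          have := iha.1
          nlinarith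
      · have h1 : (F t (a + 1)).2 = (F t a).2 := by
          rcases hstep t a ha with h' | h'
          · rw [h] at h'; exact absurd h'.1 (by decide)
          · exact h'.2
        have h2 : (F t (a + 1)).1 - y (I (a + 1)) =
            ((F t a).2 - y (J a)) - (E t (a + 1) - 1) * D (a + 1) := by
          have h3 := hFd t (a + 1)
          rw [h1] at h3
          have h4 : (F t (a + 1)).1 = (F t a).2 - E t (a + 1) * D (a + 1) := by
            rw [← h3]; ring
          rw [h4]; simp only [hD, hJ]; ring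
        push_cast
        constructor
        · rw [h2]
          refine (norm_sub_le _ _).trans ?_
          have := iha.2
          nlinarith
        · rw [h1, hJ]
          refine iha.2.trans ?_
          nlinarith
  -- the periodic sequences
  have hz : ∀ t : ℝ, ∃ z : ℤ → ℂ, Per n z ∧ ∀ a < M, z (I a) = (F t a).1 ∧ z (J a) = (F t a).2 := by
    intro t
    refine hT2 n M y I J ε (by omega) hTS (fun a => (F t a).1) (fun a => (F t a).2) ?_
    intro a ha
    refine ⟨fun h => ?_, fun h => ?_⟩
    · rcases hstep t a ha with h' | h'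
      · exact h'.2
      · rw [h] at h'; exact absurd h'.1 (by decide)
    · rcases hstep t a ha with h' | h'
      · rw [h] at h'; exact absurd h'.1 (by decide)
      · exact h'.2
  choose z hzper hzval using hz
  -- distances
  have hzclose : ∀ t k, ‖z t k - y k‖ ≤ n * |t| := by
    intro t k
    have ht : 0 ≤ |t| := abs_nonneg t
    obtain ⟨a, s, ha, h⟩ := hT2b n M y I J ε (by omega) hTS k
    have hbd : ((a : ℝ) + 1) * |t| ≤ n * |t| := by
      refine mul_le_mul_of_nonneg_right ?_ ht
      have : a + 1 ≤ n := by omega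
      exact_mod_cast this
    rcases h with h | h
    · rw [h, per_mul (z t) (hzper t) (I a) s, per_mul y hper (I a) s, (hzval t a ha).1]
      exact (hclose t a ha).1.trans hbd
    · rw [h, per_mul (z t) (hzper t) (J a) s, per_mul y hper (J a) s, (hzval t a ha).2]
      exact (hclose t a ha).2.trans hbd
  have hzunit : ∀ t i j, UP n y i j → ‖z t i - z t j‖ ≤ 1 := by
    intro t i j hij
    obtain ⟨a, s, ha, h⟩ := hTS.cover i j hij
    have hu : ‖(F t a).2 - (F t a).1‖ = 1 := by
      rw [hFd, norm_mul, hEn, hDn a ha, one_mul]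
    rcases h with ⟨h1, h2⟩ | ⟨h1, h2⟩
    · rw [h1, h2, per_mul (z t) (hzper t) (I a) s, per_mul (z t) (hzper t) (J a) s, (hzval t a ha).1,
        (hzval t a ha).2, norm_sub_rev, hu]
    · rw [h1, h2, per_mul (z t) (hzper t) (J a) s, per_mul (z t) (hzper t) (I a) (s + 1), (hzval t a ha).1,
        (hzval t a ha).2, hu]
  -- areas
  have harea : ∀ t, sh n (z t) = ∑ b ∈ Finset.range M, ∑ a ∈ Finset.range b,
      cT M ε a b * cr (E t a * D a) (E t b * D b) := by
    intro t
    rw [hT3 n M y I J ε (by omega) hTS (z t) (hzper t)]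
    have h4 := hT4 M ε (fun a => (F t a).1) (fun a => (F t a).2) (by omega) (hstep t)
    simp only [hFd] at h4
    rw [← h4]
    congr 1
    rw [(hzval t (M - 1) (by omega)).1, (hzval t (M - 1) (by omega)).2, (hzval t 0 (by omega)).1,
      (hzval t 0 (by omega)).2]
    congr 2
    refine Finset.sum_congr rfl fun a ha => ?_
    have ha' := Finset.mem_range.mp ha
    rw [(hzval t a (by omega)).1, (hzval t a (by omega)).2, (hzval t (a + 1) (by omega)).1,
      (hzval t (a + 1) (by omega)).2]
  have harea0 : sh n y = ∑ b ∈ Finset.range M, ∑ a ∈ Finset.range b,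
      cT M ε a b * cr (D a) (D b) := by
    rw [hT3 n M y I J ε (by omega) hTS y hper]
    refine hT4 M ε (fun a => y (I a)) (fun a => y (J a)) (by omega) ?_
    intro a ha
    rcases hTS.step a ha with ⟨h, hI, hJ⟩ | ⟨h, hI, hJ⟩
    · left; exact ⟨h, by simp only [hI]⟩
    · right; exact ⟨h, by simp only [hJ]⟩
  -- second variation
  have hsv : ∀ t, sh n (z t) + sh n (z (-t)) - 2 * sh n y = (1 - Real.cos (2 * t)) *
      ∑ b ∈ Finset.range M, ∑ a ∈ Finset.range b,
        cT M ε a b * (((chiT M ε a * chiT M ε b : ℤ) : ℝ) - 1) * cr (D a) (D b) := by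
    intro t
    rw [harea t, harea (-t), harea0, ← Finset.sum_add_distrib, Finset.mul_sum, Finset.mul_sum,
      ← Finset.sum_sub_distrib]
    refine Finset.sum_congr rfl fun b hb => ?_
    rw [← Finset.sum_add_distrib, Finset.mul_sum, Finset.mul_sum, ← Finset.sum_sub_distrib]
    refine Finset.sum_congr rfl fun a ha => ?_
    have hb' := Finset.mem_range.mp hb
    have ha' := Finset.mem_range.mp ha
    simp only [hE]
    rw [p_T7_cr_rot, p_T7_cr_rot]
    rcases hχ a (by omega) with h1 | h1 <;> rcases hχ b (by omega) with h2 | h2 <;> rw [h1, h2]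
    · simp; ring
    · have e1 : (((-1 : ℤ) : ℝ) * t - ((1 : ℤ) : ℝ) * t) = -(2 * t) := by push_cast; ring
      have e2 : (((-1 : ℤ) : ℝ) * -t - ((1 : ℤ) : ℝ) * -t) = 2 * t := by push_cast; ring
      rw [e1, e2, Real.cos_neg, Real.sin_neg]; push_cast; ring
    · have e1 : (((1 : ℤ) : ℝ) * t - ((-1 : ℤ) : ℝ) * t) = 2 * t := by push_cast; ring
      have e2 : (((1 : ℤ) : ℝ) * -t - ((-1 : ℤ) : ℝ) * -t) = -(2 * t) := by push_cast; ring
      rw [e1, e2, Real.cos_neg, Real.sin_neg]; push_cast; ring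
    · simp; ring
  -- positivity
  obtain ⟨hpos, hfan⟩ := hT5b n M y I J ε (by omega) hper hcvx hsmall hTS
  have hS := hT5 M ε (fun a b => cr (D a) (D b)) hM4 hε (hT6 n M y I J ε hn hopt hTS) hpos hfan
  obtain ⟨δ, hδ, hloc⟩ := hP0 n y (by omega) hopt
  have hn0 : (0 : ℝ) < n := by exact_mod_cast (by omega : 0 < n)
  set t : ℝ := min 1 (δ / (2 * n)) with ht
  have ht0 : 0 < t := lt_min one_pos (by positivity)
  have ht1 : t ≤ 1 := min_le_left _ _
  have ht2 : n * t < δ := by
    have h1 : t ≤ δ / (2 * n) := min_le_right _ _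
    have h2 : n * t ≤ n * (δ / (2 * n)) := mul_le_mul_of_nonneg_left h1 hn0.le
    have h3 : n * (δ / (2 * n)) = δ / 2 := by field_simp
    linarith
  have hle1 : sh n (z t) ≤ sh n y := by
    refine hloc (z t) (hzper t) (fun k => ?_) (hzunit t)
    refine (hzclose t k).trans_lt ?_
    rwa [abs_of_pos ht0]
  have hle2 : sh n (z (-t)) ≤ sh n y := by
    refine hloc (z (-t)) (hzper (-t)) (fun k => ?_) (hzunit (-t))
    refine (hzclose (-t) k).trans_lt ?_
    rwa [abs_neg, abs_of_pos ht0]
  have hcos : Real.cos (2 * t) < 1 := by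
    rw [Real.cos_two_mul, Real.cos_sq']
    have hs : 0 < Real.sin t := Real.sin_pos_of_pos_of_lt_pi ht0 (by linarith [Real.pi_gt_three])
    nlinarith [sq_nonneg (Real.sin t), mul_pos hs hs]
  have hfin := hsv t
  have hprod := mul_pos (sub_pos.mpr hcos) hS
  linarith

end Pool.Agent.Lib.MP_97284c_gt
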