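import Pool.Agent.Lib.MP_97284c_gt.StmC
import Pool.Agent.Lib.MP_97284c_gt.StmT

/-! Piece [T8]: there is a maximiser with all classes occupied. -/

namespace Pool.Agent.Lib.MP_97284c_gt

theorem p_T8 (hC5 : S_C5) (hC6 : S_C6) (hUPs : S_UPs) (hT1 : S_T1) (hT7 : S_T7) : S_T8 := by
  intro n hn
  obtain ⟨y, hy, hconn⟩ := hC5 n (by omega)
  obtain ⟨k₁, hk₁⟩ := hC6 n y (by omega) hy hconn
  refine ⟨y, hy, ?_⟩
  obtain ⟨-, -, -, hocc⟩ := hUPs n y hy.1
  have hmul : ∀ (k t : ℤ), Occ n y (k + t * n) ↔ Occ n y k := by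
    intro k t
    have h := per_mul (N := n) (fun k => Occ n y k) (fun k => propext (hocc k).symm) k t
    exact iff_of_eq h
  by_cases h : Occ n y k₁
  · intro k
    by_cases hd : (n : ℤ) ∣ k - k₁
    · obtain ⟨t, ht⟩ := hd
      have : k = k₁ + t * n := by linarith [mul_comm (n : ℤ) t]
      rw [this]
      exact (hmul k₁ t).2 h
    · exact hk₁ k hd
  · exfalso
    obtain ⟨I, J, ε, hTS⟩ := hT1 n y (k₁ + 1) (by omega) hy
      (by rwa [add_sub_cancel_right]) (by rw [add_sub_cancel_right]; exact hk₁)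
    exact hT7 n (n - 1) y I J ε hn hy hTS

end Pool.Agent.Lib.MP_97284c_gt
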