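import Pool.Agent.Lib.MP_97284c_gt.StmU

/-! Piece [U1]: derivative of `phi` along a line. -/

namespace Pool.Agent.Lib.MP_97284c_gt

theorem p_U1_pos {r s : ℝ} (h : 0 < q4 r s) : 0 < r := by
  unfold q4 at h
  nlinarith [sq_nonneg (1 + r - s)]

theorem p_U1_symm (r s : ℝ) : q4 s r = q4 r s := by
  unfold q4; ring

theorem p_U1 : S_U1 := by
  intro r s x y hq
  have hr : 0 < r := p_U1_pos hq
  set w := Real.sqrt r with hw
  set v := Real.sqrt (q4 r s) with hv
  have hw0 : 0 < w := Real.sqrt_pos.mpr hr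
  have hv0 : 0 < v := Real.sqrt_pos.mpr hq
  have hw2 : w ^ 2 = r := Real.sq_sqrt hr.le
  have hv2 : v ^ 2 = q4 r s := Real.sq_sqrt hq.le
  have hvq : v ^ 2 + (1 + r - s) ^ 2 = 4 * w ^ 2 := by
    rw [hv2, hw2]; unfold q4; ring
  -- inner derivative
  have h1 : HasDerivAt (fun t : ℝ => r + t * x) x 0 := by
    simpa using ((hasDerivAt_id (0 : ℝ)).mul_const x).const_add r
  have h2 : HasDerivAt (fun t : ℝ => s + t * y) y 0 := by
    simpa using ((hasDerivAt_id (0 : ℝ)).mul_const y).const_add s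
  have h3 : HasDerivAt (fun t : ℝ => Real.sqrt (r + t * x)) (x / (2 * w)) 0 := by
    have := h1.sqrt (by simpa using hr.ne')
    simpa using this
  have h4 : HasDerivAt (fun t : ℝ => 1 + (r + t * x) - (s + t * y)) (x - y) 0 := by
    exact (h1.const_add 1).sub h2
  have h5 : HasDerivAt (fun t : ℝ => 2 * Real.sqrt (r + t * x)) (2 * (x / (2 * w))) 0 :=
    h3.const_mul 2
  have hne : (2 * Real.sqrt (r + (0 : ℝ) * x)) ≠ 0 := by
    simp only [zero_mul, add_zero]
    positivity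
  have h6 := h4.div h5 hne
  have hval : (1 + (r + (0 : ℝ) * x) - (s + (0 : ℝ) * y)) / (2 * Real.sqrt (r + (0 : ℝ) * x))
      = (1 + r - s) / (2 * w) := by simp [hw]
  have hF2 : 1 - ((1 + r - s) / (2 * w)) ^ 2 = (v / (2 * w)) ^ 2 := by
    field_simp
    linarith
  have hpos : 0 < 1 - ((1 + r - s) / (2 * w)) ^ 2 := by rw [hF2]; positivity
  have hn1 : (1 + r - s) / (2 * w) ≠ -1 := by
    intro h; rw [h] at hpos; norm_num at hpos
  have hn2 : (1 + r - s) / (2 * w) ≠ 1 := by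
    intro h; rw [h] at hpos; norm_num at hpos
  have h7 := Real.hasDerivAt_arccos hn1 hn2
  rw [hF2, Real.sqrt_sq (by positivity)] at h7
  rw [← hval] at h7
  have h8 := h7.comp (0 : ℝ) h6
  refine (h8.congr_deriv ?_)
  simp only [zero_mul, add_zero]
  rw [← hw]
  field_simp
  rw [show r = w ^ 2 from hw2.symm]
  ring
end Pool.Agent.Lib.MP_97284c_gt
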