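import Pool.Agent.Lib.MP_97284c_gt.P.U1

/-! Piece [U2]: derivative of `Phi` along a line. -/

namespace Pool.Agent.Lib.MP_97284c_gt

theorem p_U2 (hU1 : S_U1) : S_U2 := by
  intro r s x y hq
  have hq' : 0 < q4 s r := by rw [p_U1_symm]; exact hq
  have hr : 0 < r := p_U1_pos hq
  have hs : 0 < s := p_U1_pos hq'
  have hA := hU1 r s x y hq
  have hB := hU1 s r y x hq'
  set v := Real.sqrt (q4 r s) with hv
  have hv0 : 0 < v := Real.sqrt_pos.mpr hq
  have hv2 : v ^ 2 = q4 r s := Real.sq_sqrt hq.le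
  have hvs : Real.sqrt (q4 s r) = v := by rw [p_U1_symm]
  rw [hvs] at hB
  have h1 : HasDerivAt (fun t : ℝ => r + t * x) x 0 := by
    simpa using ((hasDerivAt_id (0 : ℝ)).mul_const x).const_add r
  have h2 : HasDerivAt (fun t : ℝ => s + t * y) y 0 := by
    simpa using ((hasDerivAt_id (0 : ℝ)).mul_const y).const_add s
  have h3 : HasDerivAt (fun t : ℝ => q4 (r + t * x) (s + t * y))
      (2 * (x + y) - 2 * (r - s) * (x - y)) 0 := by
    have ha := ((h1.add h2).const_mul 2).sub_const 1
    have hb := (h1.sub h2).pow 2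
    have hc := ha.sub hb
    refine (hc.congr_deriv ?_)
    simp
  have h4 : HasDerivAt (fun t : ℝ => Real.sqrt (q4 (r + t * x) (s + t * y)))
      ((2 * (x + y) - 2 * (r - s) * (x - y)) / (2 * v)) 0 := by
    have := h3.sqrt (by simpa using hq.ne')
    simpa [hv] using this
  have h5 := h1.mul hA
  have h6 := h2.mul hB
  have h7 := (h5.add h6).sub (h4.div_const 2)
  refine (h7.congr_deriv ?_)
  simp only [zero_mul, add_zero]
  field_simp
  ring

end Pool.Agent.Lib.MP_97284c_gt
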