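import Pool.Agent.Lib.MP_97284c_gt.P.U1

/-! Piece [U3]: the quadratic form. -/

namespace Pool.Agent.Lib.MP_97284c_gt

theorem p_U3 : S_U3 := by
  intro r s x y hq hsum
  have hq' : 0 < q4 s r := by rw [p_U1_symm]; exact hq
  have hr : 0 < r := p_U1_pos hq
  have hs : 0 < s := p_U1_pos hq'
  set v := Real.sqrt (q4 r s) with hv
  have hv0 : 0 < v := Real.sqrt_pos.mpr hq
  have hv2 : v ^ 2 = 2 * (r + s) - 1 - (r - s) ^ 2 := Real.sq_sqrt hq.le
  have hw : 1 / 4 ≤ 1 - r - s := by linarith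
  set w := 1 - r - s with hwdef
  have hw' : 1 - s - r = w := by rw [hwdef]; ring
  rw [hw']
  have hw0 : 0 < w := by linarith
  -- v ≤ w + v^2
  have hkey : v ≤ w + v ^ 2 := by
    have e1 : w + v ^ 2 = (r + s) - (r - s) ^ 2 := by rw [hv2, hwdef]; ring
    have hpos : 0 < w + v ^ 2 := by positivity
    have h1 : v * |r - s| ≤ w := by
      have : 2 * (v * |r - s|) ≤ v ^ 2 + |r - s| ^ 2 := by nlinarith [sq_nonneg (v - |r - s|)]
      rw [sq_abs, hv2] at this
      linarith
    have h2 : (v * |r - s|) ^ 2 ≤ w ^ 2 := by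
      have h0 : 0 ≤ v * |r - s| := by positivity
      exact pow_le_pow_left₀ h0 h1 2
    rw [mul_pow, sq_abs] at h2
    have h3 : v ^ 2 ≤ (w + v ^ 2) ^ 2 := by
      have e2 : (w + v ^ 2) ^ 2 - v ^ 2 = w ^ 2 - v ^ 2 * (r - s) ^ 2 := by
        have e3 : (r - s) ^ 2 = 2 * (r + s) - 1 - v ^ 2 := by linarith
        rw [e3]
        have e4 : r + s = 1 - w := by rw [hwdef]; ring
        rw [e4]
        ring
      linarith
    exact le_of_sq_le_sq h3 hpos.le
  have h4rs : 4 * (r * s) = w ^ 2 + v ^ 2 := by rw [hv2, hwdef]; ring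
  have hrs : r + s = 1 - w := by rw [hwdef]; ring
  constructor
  · -- the form
    set a := w / (2 * v * r) + 1 / 2 with ha
    set b := w / (2 * v * s) + 1 / 2 with hb
    set c := 1 / v - 1 / 2 with hc
    have ha0 : 0 < a := by positivity
    have hdet : 0 ≤ a * b - c ^ 2 := by
      have : a * b - c ^ 2 = v * (w + v ^ 2 - v) / (4 * v ^ 2 * (r * s)) := by
        rw [ha, hb, hc]
        field_simp
        have : (w + v * r) * (w + v * s) = w ^ 2 + v * w * (r + s) + v ^ 2 * (r * s) := by ring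
        have e5 : (r * s) = (w ^ 2 + v ^ 2) / 4 := by linarith
        nlinarith [this, e5, hrs]
      rw [this]
      have : 0 ≤ w + v ^ 2 - v := by linarith
      positivity
    have hQ : x * ((w * x / (2 * r) + y) / v) + y * ((w * y / (2 * s) + x) / v)
        - (-(x - y) ^ 2 / 2) = a * x ^ 2 + 2 * c * x * y + b * y ^ 2 := by
      rw [ha, hb, hc]
      field_simp
      ring
    have hQ2 : a * (a * x ^ 2 + 2 * c * x * y + b * y ^ 2)
        = (a * x + c * y) ^ 2 + (a * b - c ^ 2) * y ^ 2 := by ring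
    have hQ3 : 0 ≤ a * (a * x ^ 2 + 2 * c * x * y + b * y ^ 2) := by
      rw [hQ2]
      have := mul_nonneg hdet (sq_nonneg y)
      have := sq_nonneg (a * x + c * y)
      linarith
    have hQ4 : 0 ≤ a * x ^ 2 + 2 * c * x * y + b * y ^ 2 :=
      nonneg_of_mul_nonneg_right hQ3 ha0
    linarith
  · intro hxy hx
    subst hxy
    have : x * ((w * x / (2 * r) + x) / v) + x * ((w * x / (2 * s) + x) / v)
        = x ^ 2 * ((w / (2 * r) + 1) / v + (w / (2 * s) + 1) / v) := by
      field_simp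
    rw [this]
    have : 0 < x ^ 2 := by positivity
    positivity

end Pool.Agent.Lib.MP_97284c_gt
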