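import Pool.Agent.Lib.MP_97284c_gt.P.U1

/-! Piece [U4]: convexity inequality for a bond. -/

namespace Pool.Agent.Lib.MP_97284c_gt

theorem p_U4_shift {f : ℝ → ℝ} {D t : ℝ} (h : HasDerivAt (fun τ : ℝ => f (t + τ)) D 0) :
    HasDerivAt f D t := by
  have h2 : HasDerivAt (fun τ : ℝ => f (t + τ)) D (t - t) := by
    simpa using h
  have h3 := HasDerivAt.comp_sub_const t t h2
  simpa using h3

theorem p_U4_q4 {r s r' s' t : ℝ} (h : 0 < q4 r s) (h' : 0 < q4 r' s') (h0 : 0 ≤ t) (h1 : t ≤ 1) :
    0 < q4 (r + t * (r' - r)) (s + t * (s' - s)) := by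
  have e : q4 (r + t * (r' - r)) (s + t * (s' - s))
      = (1 - t) * q4 r s + t * q4 r' s' + t * (1 - t) * ((r - s) - (r' - s')) ^ 2 := by
    unfold q4; ring
  rw [e]
  have h2 : 0 ≤ t * (1 - t) * ((r - s) - (r' - s')) ^ 2 := by
    have : 0 ≤ 1 - t := by linarith
    positivity
  rcases eq_or_lt_of_le h0 with ht | ht
  · rw [← ht] at h2 ⊢
    simpa using h
  · have h3 : 0 < t * q4 r' s' := mul_pos ht h'
    have h4 : 0 ≤ (1 - t) * q4 r s := mul_nonneg (by linarith) h.le
    linarith

theorem p_U4 (hU1 : S_U1) (hU2 : S_U2) (hU3 : S_U3) : S_U4 := by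
  intro r s r' s' hq hsum hq' hsum'
  set x := r' - r with hx
  set y := s' - s with hy
  -- the functions
  have hQ : ∀ t : ℝ, 0 ≤ t → t ≤ 1 → 0 < q4 (r + t * x) (s + t * y) := fun t h0 h1 =>
    p_U4_q4 hq hq' h0 h1
  have hS : ∀ t : ℝ, 0 ≤ t → t ≤ 1 → (r + t * x) + (s + t * y) ≤ 3 / 4 := by
    intro t h0 h1
    have e : (r + t * x) + (s + t * y) = (1 - t) * (r + s) + t * (r' + s') := by
      rw [hx, hy]; ring
    rw [e]
    nlinarith
  -- first derivative
  have hg : ∀ t : ℝ, 0 ≤ t → t ≤ 1 → HasDerivAt (fun t : ℝ => Phi (r + t * x) (s + t * y))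
      (x * phi (r + t * x) (s + t * y) + y * phi (s + t * y) (r + t * x)) t := by
    intro t h0 h1
    have h := hU2 (r + t * x) (s + t * y) x y (hQ t h0 h1)
    apply p_U4_shift
    have e : (fun τ : ℝ => Phi (r + (t + τ) * x) (s + (t + τ) * y))
        = fun τ : ℝ => Phi (r + t * x + τ * x) (s + t * y + τ * y) := by
      funext τ
      congr 1 <;> ring
    rw [e]
    exact h
  -- second derivative
  have hg2 : ∀ t : ℝ, 0 ≤ t → t ≤ 1 → HasDerivAt
      (fun t : ℝ => x * phi (r + t * x) (s + t * y) + y * phi (s + t * y) (r + t * x))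
      (x * (((1 - (r + t * x) - (s + t * y)) * x / (2 * (r + t * x)) + y)
          / Real.sqrt (q4 (r + t * x) (s + t * y)))
        + y * (((1 - (s + t * y) - (r + t * x)) * y / (2 * (s + t * y)) + x)
          / Real.sqrt (q4 (r + t * x) (s + t * y)))) t := by
    intro t h0 h1
    have hA := hU1 (r + t * x) (s + t * y) x y (hQ t h0 h1)
    have hB := hU1 (s + t * y) (r + t * x) y x (by rw [p_U1_symm]; exact hQ t h0 h1)
    rw [p_U1_symm] at hB
    have hA' : HasDerivAt (fun t : ℝ => phi (r + t * x) (s + t * y))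
        (((1 - (r + t * x) - (s + t * y)) * x / (2 * (r + t * x)) + y)
          / Real.sqrt (q4 (r + t * x) (s + t * y))) t := by
      apply p_U4_shift
      have e : (fun τ : ℝ => phi (r + (t + τ) * x) (s + (t + τ) * y))
          = fun τ : ℝ => phi (r + t * x + τ * x) (s + t * y + τ * y) := by
        funext τ
        congr 1 <;> ring
      rw [e]
      exact hA
    have hB' : HasDerivAt (fun t : ℝ => phi (s + t * y) (r + t * x))
        (((1 - (s + t * y) - (r + t * x)) * y / (2 * (s + t * y)) + x)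
          / Real.sqrt (q4 (r + t * x) (s + t * y))) t := by
      apply p_U4_shift
      have e : (fun τ : ℝ => phi (s + (t + τ) * y) (r + (t + τ) * x))
          = fun τ : ℝ => phi (s + t * y + τ * y) (r + t * x + τ * x) := by
        funext τ
        congr 1 <;> ring
      rw [e]
      exact hB
    exact (hA'.const_mul x).add (hB'.const_mul y)
  constructor
  · -- G t = g t + (x-y)^2 t^2/4
    -- g'(t) + (x-y)^2 t / 2 is monotone on [0,1]
    set G : ℝ → ℝ := fun t => x * phi (r + t * x) (s + t * y) + y * phi (s + t * y) (r + t * x)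
      + (x - y) ^ 2 * t / 2 with hG
    have hGd : ∀ t : ℝ, 0 ≤ t → t ≤ 1 → HasDerivAt G
        (x * (((1 - (r + t * x) - (s + t * y)) * x / (2 * (r + t * x)) + y)
          / Real.sqrt (q4 (r + t * x) (s + t * y)))
        + y * (((1 - (s + t * y) - (r + t * x)) * y / (2 * (s + t * y)) + x)
          / Real.sqrt (q4 (r + t * x) (s + t * y))) + (x - y) ^ 2 / 2) t := by
      intro t h0 h1
      have h2 : HasDerivAt (fun t : ℝ => (x - y) ^ 2 * t / 2) ((x - y) ^ 2 / 2) t := by
        have := ((hasDerivAt_id t).const_mul ((x - y) ^ 2)).div_const 2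
        simpa using this
      exact (hg2 t h0 h1).add h2
    have hmono : MonotoneOn G (Set.Icc 0 1) := by
      apply monotoneOn_of_deriv_nonneg (convex_Icc 0 1)
      · intro t ht
        exact (hGd t ht.1 ht.2).continuousAt.continuousWithinAt
      · intro t ht
        rw [interior_Icc] at ht
        exact (hGd t ht.1.le ht.2.le).differentiableAt.differentiableWithinAt
      · intro t ht
        rw [interior_Icc] at ht
        rw [(hGd t ht.1.le ht.2.le).deriv]
        have := (hU3 (r + t * x) (s + t * y) x y (hQ t ht.1.le ht.2.le)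
          (hS t ht.1.le ht.2.le)).1
        linarith
    have hd : ∀ t : ℝ, 0 ≤ t → t ≤ 1 → HasDerivAt
        (fun t : ℝ => Phi (r + t * x) (s + t * y) + (x - y) ^ 2 * t ^ 2 / 4) (G t) t := by
      intro t h0 h1
      have h2 : HasDerivAt (fun t : ℝ => (x - y) ^ 2 * t ^ 2 / 4) ((x - y) ^ 2 * t / 2) t := by
        have := (((hasDerivAt_id t).pow 2).const_mul ((x - y) ^ 2)).div_const 4
        refine (this.congr_deriv ?_)
        simp
        ring
      exact (hg t h0 h1).add h2
    obtain ⟨c, hc, hce⟩ := exists_hasDerivAt_eq_slope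
      (fun t : ℝ => Phi (r + t * x) (s + t * y) + (x - y) ^ 2 * t ^ 2 / 4) G
      (show (0 : ℝ) < 1 by norm_num)
      (fun t ht => (hd t ht.1 ht.2).continuousAt.continuousWithinAt)
      (fun t ht => hd t ht.1.le ht.2.le)
    have h1 : G 0 ≤ G c := hmono ⟨le_refl _, by norm_num⟩ ⟨hc.1.le, hc.2.le⟩ hc.1.le
    rw [hce] at h1
    have e1 : r + (1 : ℝ) * x = r' := by rw [hx]; ring
    have e2 : s + (1 : ℝ) * y = s' := by rw [hy]; ring
    simp only [hG, zero_mul, add_zero, mul_zero, zero_div, e1, e2] at h1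
    norm_num at h1
    linarith
  · intro hxy hne
    have hx0 : x ≠ 0 := by
      rw [hx]; exact sub_ne_zero.mpr hne
    set G : ℝ → ℝ := fun t => x * phi (r + t * x) (s + t * y) + y * phi (s + t * y) (r + t * x)
      with hG
    have hmono : StrictMonoOn G (Set.Icc 0 1) := by
      apply strictMonoOn_of_deriv_pos (convex_Icc 0 1)
      · intro t ht
        exact (hg2 t ht.1 ht.2).continuousAt.continuousWithinAt
      · intro t ht
        rw [interior_Icc] at ht
        rw [(hg2 t ht.1.le ht.2.le).deriv]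
        exact (hU3 (r + t * x) (s + t * y) x y (hQ t ht.1.le ht.2.le)
          (hS t ht.1.le ht.2.le)).2 hxy hx0
    obtain ⟨c, hc, hce⟩ := exists_hasDerivAt_eq_slope
      (fun t : ℝ => Phi (r + t * x) (s + t * y)) G
      (show (0 : ℝ) < 1 by norm_num)
      (fun t ht => (hg t ht.1 ht.2).continuousAt.continuousWithinAt)
      (fun t ht => hg t ht.1.le ht.2.le)
    have h1 : G 0 < G c := hmono ⟨le_refl _, by norm_num⟩ ⟨hc.1.le, hc.2.le⟩ hc.1
    rw [hce] at h1
    have e1 : r + (1 : ℝ) * x = r' := by rw [hx]; ring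
    have e2 : s + (1 : ℝ) * y = s' := by rw [hy]; ring
    simp only [hG, zero_mul, add_zero, e1, e2] at h1
    norm_num at h1
    linarith

end Pool.Agent.Lib.MP_97284c_gt
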