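import Pool.Agent.Lib.MP_97284c_gt.StmU

/-! Piece [U5]: strict concavity of `Psi y + y ^ 2`. -/

namespace Pool.Agent.Lib.MP_97284c_gt

/-- `arccos t + t` is strictly decreasing on `[-1, 1]`. -/
theorem p_U5_anti : StrictAntiOn (fun t : ℝ => Real.arccos t + t) (Set.Icc (-1) 1) := by
  intro a ha b hb hab
  have h1 : Real.arccos b < Real.arccos a := Real.strictAntiOn_arccos ha hb hab
  have ea : Real.cos (Real.arccos a) = a := Real.cos_arccos ha.1 ha.2
  have eb : Real.cos (Real.arccos b) = b := Real.cos_arccos hb.1 hb.2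
  set α := Real.arccos a
  set β := Real.arccos b
  have hβ0 : 0 ≤ β := Real.arccos_nonneg b
  have hα1 : α ≤ Real.pi := Real.arccos_le_pi a
  show β + b < α + a
  rw [← ea, ← eb]
  -- cos β - cos α < α - β
  have e : Real.cos β - Real.cos α = -2 * Real.sin ((β + α) / 2) * Real.sin ((β - α) / 2) :=
    Real.cos_sub_cos β α
  have h2 : Real.sin ((α - β) / 2) < (α - β) / 2 := Real.sin_lt (by linarith)
  have h3 : 0 ≤ Real.sin ((α - β) / 2) :=
    Real.sin_nonneg_of_nonneg_of_le_pi (by linarith) (by linarith)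
  have h4 : Real.sin ((β + α) / 2) ≤ 1 := Real.sin_le_one _
  have h5 : Real.sin ((β - α) / 2) = -Real.sin ((α - β) / 2) := by
    rw [← Real.sin_neg]; congr 1; ring
  rw [h5] at e
  nlinarith

theorem p_U5_anti2 : StrictAntiOn (fun y : ℝ => Real.arccos (2 * y) + 2 * y)
    (Set.Icc (-1 / 2) (1 / 2)) := by
  intro a ha b hb hab
  exact p_U5_anti (a := 2 * a) ⟨by linarith [ha.1], by linarith [ha.2]⟩ (b := 2 * b)
    ⟨by linarith [hb.1], by linarith [hb.2]⟩ (by linarith)

theorem p_U5_deriv {y : ℝ} (h1 : -1 / 2 < y) (h2 : y < 1 / 2) :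
    HasDerivAt (fun y => Psi y + y ^ 2) (Real.arccos (2 * y) + 2 * y) y := by
  have hp : 0 < 1 - (2 * y) ^ 2 := by nlinarith
  have hd2 : HasDerivAt (fun y : ℝ => 2 * y) 2 y := by
    simpa using (hasDerivAt_id y).const_mul (2 : ℝ)
  have hn1 : 2 * y ≠ -1 := by intro h; linarith
  have hn2 : 2 * y ≠ 1 := by intro h; linarith
  have ha : HasDerivAt (fun y : ℝ => Real.arccos (2 * y)) (-(1 / Real.sqrt (1 - (2 * y) ^ 2)) * 2) y :=
    (Real.hasDerivAt_arccos hn1 hn2).comp y hd2
  have hb : HasDerivAt (fun y : ℝ => y * Real.arccos (2 * y))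
      (1 * Real.arccos (2 * y) + y * (-(1 / Real.sqrt (1 - (2 * y) ^ 2)) * 2)) y :=
    (hasDerivAt_id y).mul ha
  have hc : HasDerivAt (fun y : ℝ => 1 - (2 * y) ^ 2) (-(2 * (2 * y) * 2)) y := by
    have := (hd2.pow 2).const_sub 1
    refine this.congr_deriv ?_
    simp
  have hd : HasDerivAt (fun y : ℝ => Real.sqrt (1 - (2 * y) ^ 2) / 2)
      (-(2 * (2 * y) * 2) / (2 * Real.sqrt (1 - (2 * y) ^ 2)) / 2) y :=
    (hc.sqrt hp.ne').div_const 2
  have he : HasDerivAt (fun y : ℝ => y ^ 2) (2 * y) y := by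
    simpa using hasDerivAt_pow 2 y
  have hf := (hb.sub hd).add he
  refine hf.congr_deriv ?_
  have hv : 0 < Real.sqrt (1 - (2 * y) ^ 2) := Real.sqrt_pos.mpr hp
  field_simp
  ring

theorem p_U5_cont : ContinuousOn (fun y => Psi y + y ^ 2) Set.univ := by
  apply Continuous.continuousOn
  unfold Psi
  have h1 : Continuous fun y : ℝ => Real.arccos (2 * y) :=
    Real.continuous_arccos.comp (continuous_const.mul continuous_id)
  have h2 : Continuous fun y : ℝ => Real.sqrt (1 - (2 * y) ^ 2) :=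
    Real.continuous_sqrt.comp (by fun_prop)
  fun_prop

theorem p_U5_lt {y y' : ℝ} (h1 : -1 ≤ 2 * y) (h2 : 2 * y ≤ 1) (h3 : -1 ≤ 2 * y') (h4 : 2 * y' ≤ 1)
    (hne : y' ≠ y) : Psi y' + y' ^ 2 < Psi y + y ^ 2 + (Real.arccos (2 * y) + 2 * y) * (y' - y) := by
  rcases lt_or_gt_of_ne hne with h | h
  · -- y' < y
    obtain ⟨c, hc, hce⟩ := exists_hasDerivAt_eq_slope (fun y => Psi y + y ^ 2)
      (fun y => Real.arccos (2 * y) + 2 * y) h
      (p_U5_cont.mono (Set.subset_univ _))
      (fun t ht => p_U5_deriv (by linarith [ht.1]) (by linarith [ht.2]))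
    have hlt := p_U5_anti2 (a := c) ⟨by linarith [hc.1], by linarith [hc.2]⟩ (b := y)
      ⟨by linarith, by linarith⟩ hc.2
    simp only at hlt hce
    have hpos : 0 < y - y' := by linarith
    rw [eq_div_iff hpos.ne'] at hce
    have := mul_lt_mul_of_pos_right hlt hpos
    rw [hce] at this
    nlinarith
  · obtain ⟨c, hc, hce⟩ := exists_hasDerivAt_eq_slope (fun y => Psi y + y ^ 2)
      (fun y => Real.arccos (2 * y) + 2 * y) h
      (p_U5_cont.mono (Set.subset_univ _))
      (fun t ht => p_U5_deriv (by linarith [ht.1]) (by linarith [ht.2]))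
    have hlt := p_U5_anti2 (a := y) ⟨by linarith, by linarith⟩ (b := c)
      ⟨by linarith [hc.1], by linarith [hc.2]⟩ hc.1
    simp only at hlt hce
    have hpos : 0 < y' - y := by linarith
    rw [eq_div_iff hpos.ne'] at hce
    have := mul_lt_mul_of_pos_right hlt hpos
    rw [hce] at this
    nlinarith

theorem p_U5 : S_U5 := by
  intro y y' h1 h2 h3 h4
  have key : y' ≠ y → Psi y' < Psi y + Real.arccos (2 * y) * (y' - y) - (y' - y) ^ 2 := by
    intro hne
    have := p_U5_lt h1 h2 h3 h4 hne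
    nlinarith
  refine ⟨?_, key⟩
  by_cases h : y' = y
  · subst h; simp
  · exact (key h).le

end Pool.Agent.Lib.MP_97284c_gt
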