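import Pool.Agent.Lib.MP_97284c_gt.StmU

/-! Piece [U6]: the minimum principle. -/

namespace Pool.Agent.Lib.MP_97284c_gt

theorem p_U6_wt (N : ℕ) (k : ℤ) : 1 ≤ wt N k := by
  unfold wt; split_ifs <;> norm_num

theorem p_U6_wtper (N : ℕ) (k : ℤ) : wt N (k + N) = wt N k := by
  unfold wt
  have : ((N : ℤ) ∣ k + N) ↔ ((N : ℤ) ∣ k) := by
    constructor
    · intro h
      have := dvd_sub h (dvd_refl (N : ℤ))
      simpa using this
    · intro h
      exact dvd_add h (dvd_refl _)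
  simp only [this]

theorem p_U6 (hU4 : S_U4) (hU5 : S_U5) : S_U6 := by
  intro N ρ ρ' J J' hN hSol hAdm'
  have hAdm := hSol.toAdm
  -- notation
  set d : ℤ → ℝ := fun k => ρ' k - ρ k with hd
  set j : ℝ := J' - J with hj
  set e : ℤ → ℝ := fun k => d k - j with he
  have dper : ∀ k, d (k + N) = d k := fun k => by
    simp only [hd]; rw [hAdm'.per, hAdm.per]
  have eper : ∀ k, e (k + N) = e k := fun k => by
    simp only [he]; rw [dper]
  have ρper1 : ∀ k, ρ (k + N + 1) = ρ (k + 1) := fun k => by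
    rw [show k + (N : ℤ) + 1 = k + 1 + N by ring]; exact hAdm.per _
  have ρperm : ∀ k, ρ (k + N - 1) = ρ (k - 1) := fun k => by
    rw [show k + (N : ℤ) - 1 = k - 1 + N by ring]; exact hAdm.per _
  -- slacks
  set X : ℤ → ℝ := fun k => Phi (ρ' k) (ρ' (k + 1)) - Phi (ρ k) (ρ (k + 1))
    - phi (ρ k) (ρ (k + 1)) * d k - phi (ρ (k + 1)) (ρ k) * d (k + 1)
    + (d k - d (k + 1)) ^ 2 / 4 with hX
  set Y : ℤ → ℝ := fun k => wt N k * (Psi (ρ k - J) + Real.arccos (2 * (ρ k - J)) * e k - e k ^ 2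
    - Psi (ρ' k - J')) with hY
  have hee : ∀ k, (ρ' k - J') - (ρ k - J) = e k := fun k => by
    simp only [he, hd, hj]; ring
  have hX0 : ∀ k, 0 ≤ X k := fun k => by
    have h := (hU4 (ρ k) (ρ (k + 1)) (ρ' k) (ρ' (k + 1)) (hAdm.tri k) (hAdm.sml k) (hAdm'.tri k)
      (hAdm'.sml k)).1
    simp only [hX, hd]
    linarith
  have hY1 : ∀ k, 0 ≤ Psi (ρ k - J) + Real.arccos (2 * (ρ k - J)) * e k - e k ^ 2
    - Psi (ρ' k - J') := fun k => by
    have h := (hU5 (ρ k - J) (ρ' k - J') (hAdm.lo k) (hAdm.hi k) (hAdm'.lo k) (hAdm'.hi k)).1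
    rw [hee] at h
    linarith
  have hY0 : ∀ k, 0 ≤ Y k := fun k =>
    mul_nonneg (le_trans zero_le_one (p_U6_wt N k)) (hY1 k)
  have hYs : ∀ k, Y k = 0 → e k = 0 := by
    intro k hk
    by_contra hne
    have hne' : ρ' k - J' ≠ ρ k - J := by
      intro h
      apply hne
      rw [← hee, h, sub_self]
    have h := (hU5 (ρ k - J) (ρ' k - J') (hAdm.lo k) (hAdm.hi k) (hAdm'.lo k) (hAdm'.hi k)).2 hne'
    rw [hee] at h
    have hpos : 0 < Y k := by
      simp only [hY]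
      apply mul_pos (lt_of_lt_of_le zero_lt_one (p_U6_wt N k))
      linarith
    linarith
  -- shift identities
  have hsh1 : ∑ k ∈ Finset.range N, phi (ρ ((k : ℤ) + 1)) (ρ k) * d ((k : ℤ) + 1)
      = ∑ k ∈ Finset.range N, phi (ρ (k : ℤ)) (ρ ((k : ℤ) - 1)) * d k := by
    have h := psum_succ (N := N) (fun k => phi (ρ k) (ρ (k - 1)) * d k) (fun k => by
      rw [hAdm.per, ρperm, dper])
    rw [← h]
    refine Finset.sum_congr rfl fun k _ => ?_
    simp
  have hsh2 : ∑ k ∈ Finset.range N, e ((k : ℤ) + 1) ^ 2 = ∑ k ∈ Finset.range N, e (k : ℤ) ^ 2 :=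
    psum_succ (N := N) (fun k => e k ^ 2) (fun k => by rw [eper])
  -- sums with the angles
  have hang : ∑ k ∈ Finset.range N, (phi (ρ (k : ℤ)) (ρ ((k : ℤ) - 1)) * d k
      + phi (ρ (k : ℤ)) (ρ ((k : ℤ) + 1)) * d k)
      = ∑ k ∈ Finset.range N, wt N (k : ℤ) * Real.arccos (2 * (ρ (k : ℤ) - J)) * e k
        + Real.pi * j := by
    rw [← hSol.sum, Finset.sum_mul, ← Finset.sum_add_distrib]
    refine Finset.sum_congr rfl fun k _ => ?_
    rw [← add_mul, hSol.eq]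
    simp only [he]
    ring
  -- main identity
  have hmain : Sf N ρ' J' - Sf N ρ J = ∑ k ∈ Finset.range N, X k + ∑ k ∈ Finset.range N, Y k
      + (∑ k ∈ Finset.range N, wt N (k : ℤ) * e (k : ℤ) ^ 2
        - ∑ k ∈ Finset.range N, (e (k : ℤ) - e ((k : ℤ) + 1)) ^ 2 / 4) := by
    have h1 : ∑ k ∈ Finset.range N, X (k : ℤ)
        = ∑ k ∈ Finset.range N, Phi (ρ' (k : ℤ)) (ρ' ((k : ℤ) + 1))
          - ∑ k ∈ Finset.range N, Phi (ρ (k : ℤ)) (ρ ((k : ℤ) + 1))
          - ∑ k ∈ Finset.range N, (phi (ρ (k : ℤ)) (ρ ((k : ℤ) - 1)) * d k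
      + phi (ρ (k : ℤ)) (ρ ((k : ℤ) + 1)) * d k)
          + ∑ k ∈ Finset.range N, (e (k : ℤ) - e ((k : ℤ) + 1)) ^ 2 / 4 := by
      have h0 : ∑ k ∈ Finset.range N, (phi (ρ (k : ℤ)) (ρ ((k : ℤ) - 1)) * d k
          + phi (ρ (k : ℤ)) (ρ ((k : ℤ) + 1)) * d k)
          = ∑ k ∈ Finset.range N, (phi (ρ ((k : ℤ) + 1)) (ρ k) * d ((k : ℤ) + 1)
          + phi (ρ (k : ℤ)) (ρ ((k : ℤ) + 1)) * d k) := by
        rw [Finset.sum_add_distrib, ← hsh1, ← Finset.sum_add_distrib]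
      rw [h0, ← Finset.sum_sub_distrib, ← Finset.sum_sub_distrib, ← Finset.sum_add_distrib]
      refine Finset.sum_congr rfl fun k _ => ?_
      simp only [hX, he]
      ring
    have h2 : ∑ k ∈ Finset.range N, Y (k : ℤ)
        = ∑ k ∈ Finset.range N, wt N (k : ℤ) * Psi (ρ (k : ℤ) - J)
          - ∑ k ∈ Finset.range N, wt N (k : ℤ) * Psi (ρ' (k : ℤ) - J')
          + ∑ k ∈ Finset.range N, wt N (k : ℤ) * Real.arccos (2 * (ρ (k : ℤ) - J)) * e k
          - ∑ k ∈ Finset.range N, wt N (k : ℤ) * e (k : ℤ) ^ 2 := by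
      rw [← Finset.sum_sub_distrib, ← Finset.sum_add_distrib, ← Finset.sum_sub_distrib]
      refine Finset.sum_congr rfl fun k _ => ?_
      simp only [hY]
      ring
    rw [h1, h2, hang]
    unfold Sf
    simp only [hj]
    ring
  have hZ : 0 ≤ ∑ k ∈ Finset.range N, wt N (k : ℤ) * e (k : ℤ) ^ 2
        - ∑ k ∈ Finset.range N, (e (k : ℤ) - e ((k : ℤ) + 1)) ^ 2 / 4 := by
    have h1 : ∑ k ∈ Finset.range N, e (k : ℤ) ^ 2
        ≤ ∑ k ∈ Finset.range N, wt N (k : ℤ) * e (k : ℤ) ^ 2 := by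
      apply Finset.sum_le_sum
      intro k _
      have := mul_le_mul_of_nonneg_right (p_U6_wt N k) (sq_nonneg (e k))
      linarith
    have h2 : ∑ k ∈ Finset.range N, (e (k : ℤ) - e ((k : ℤ) + 1)) ^ 2 / 4
        ≤ ∑ k ∈ Finset.range N, (e (k : ℤ) ^ 2 / 2 + e ((k : ℤ) + 1) ^ 2 / 2) := by
      apply Finset.sum_le_sum
      intro k _
      nlinarith [sq_nonneg (e (k : ℤ) + e ((k : ℤ) + 1))]
    have h3 : ∑ k ∈ Finset.range N, (e (k : ℤ) ^ 2 / 2 + e ((k : ℤ) + 1) ^ 2 / 2)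
        = ∑ k ∈ Finset.range N, e (k : ℤ) ^ 2 := by
      rw [Finset.sum_add_distrib, ← Finset.sum_div, ← Finset.sum_div, hsh2]
      ring
    rw [h3] at h2
    linarith
  have hXs : 0 ≤ ∑ k ∈ Finset.range N, X (k : ℤ) := Finset.sum_nonneg fun k _ => hX0 k
  have hYS : 0 ≤ ∑ k ∈ Finset.range N, Y (k : ℤ) := Finset.sum_nonneg fun k _ => hY0 k
  refine ⟨by linarith, fun heq => ?_⟩
  have hXz : ∑ k ∈ Finset.range N, X (k : ℤ) = 0 := by linarith
  have hYz : ∑ k ∈ Finset.range N, Y (k : ℤ) = 0 := by linarith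
  replace hXz : ∀ k ∈ Finset.range N, X (k : ℤ) = 0 :=
    (Finset.sum_eq_zero_iff_of_nonneg (fun (k : ℕ) _ => hX0 (k : ℤ))).mp hXz
  replace hYz : ∀ k ∈ Finset.range N, Y (k : ℤ) = 0 :=
    (Finset.sum_eq_zero_iff_of_nonneg (fun (k : ℕ) _ => hY0 (k : ℤ))).mp hYz
  have hez : ∀ k : ℤ, e k = 0 := by
    intro k
    have hNpos : (0 : ℤ) < N := by exact_mod_cast hN
    have h1 := Int.emod_nonneg k hNpos.ne'
    have h2 := Int.emod_lt_of_pos k hNpos
    rw [← per_emod e eper k]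
    obtain ⟨m, hm⟩ : ∃ m : ℕ, k % N = (m : ℤ) := ⟨(k % N).toNat, by omega⟩
    rw [hm] at h2 ⊢
    apply hYs
    exact hYz m (Finset.mem_range.mpr (by exact_mod_cast h2))
  have hdj : ∀ k, d k = j := fun k => by
    have := hez k
    simp only [he] at this
    linarith
  have hj0 : j = 0 := by
    by_contra hne
    have h := (hU4 (ρ 0) (ρ (0 + 1)) (ρ' 0) (ρ' (0 + 1)) (hAdm.tri 0) (hAdm.sml 0) (hAdm'.tri 0)
      (hAdm'.sml 0)).2 (by
        have h1 := hdj 0
        have h2 := hdj (0 + 1)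
        simp only [hd] at h1 h2
        rw [h1, h2]) (by
        intro h3
        apply hne
        have h1 := hdj 0
        simp only [hd] at h1
        rw [← h1, h3, sub_self])
    have h0 := hXz 0 (Finset.mem_range.mpr (by omega))
    have h1 := hdj 0
    have h2 := hdj (0 + 1)
    simp only [hX, Nat.cast_zero] at h0
    rw [h1, h2] at h0
    simp only [hd] at h1 h2
    rw [h1, h2] at h
    simp only [zero_add, sub_self] at h h0
    norm_num at h0
    linarith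
  constructor
  · funext k
    have := hdj k
    rw [hj0] at this
    simp only [hd] at this
    linarith
  · rw [hj] at hj0
    linarith

end Pool.Agent.Lib.MP_97284c_gt
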