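import Pool.Agent.Lib.MP_97284c_gt.StmU

namespace Pool.Agent.Lib.MP_97284c_gt

theorem p_U7 : S_U7 := by
  intro N ρ J _ h
  have hper : ∀ k, ρ (k + N) = ρ k := h.per
  have hshift : ∑ k ∈ Finset.range N, ρ ((k : ℤ) + 1) * phi (ρ ((k : ℤ) + 1)) (ρ (k : ℤ)) =
      ∑ k ∈ Finset.range N, ρ (k : ℤ) * phi (ρ (k : ℤ)) (ρ ((k : ℤ) - 1)) := by
    have h1 := psum_succ (N := N) (fun k : ℤ => ρ k * phi (ρ k) (ρ (k - 1))) (by
      intro k
      have e : k + (N : ℤ) - 1 = k - 1 + N := by ring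
      simp only [e, hper])
    rw [← h1]
    refine Finset.sum_congr rfl fun k _ => ?_
    rw [add_sub_cancel_right]
  have hPhi : ∑ k ∈ Finset.range N, Phi (ρ (k : ℤ)) (ρ ((k : ℤ) + 1)) =
      ∑ k ∈ Finset.range N, ρ (k : ℤ) * (wt N k * Real.arccos (2 * (ρ (k : ℤ) - J))) -
        (∑ k ∈ Finset.range N, Real.sqrt (q4 (ρ (k : ℤ)) (ρ ((k : ℤ) + 1)))) / 2 := by
    have h1 : ∀ k : ℕ, ρ (k : ℤ) * (wt N k * Real.arccos (2 * (ρ (k : ℤ) - J))) =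
        ρ (k : ℤ) * phi (ρ (k : ℤ)) (ρ ((k : ℤ) + 1)) +
          ρ (k : ℤ) * phi (ρ (k : ℤ)) (ρ ((k : ℤ) - 1)) := by
      intro k
      rw [← h.eq k]
      ring
    rw [Finset.sum_congr rfl fun k _ => h1 k, Finset.sum_add_distrib, ← hshift, Finset.sum_div,
      ← Finset.sum_add_distrib, ← Finset.sum_sub_distrib]
    rfl
  have hPsi : ∑ k ∈ Finset.range N, wt N k * Psi (ρ (k : ℤ) - J) =
      ∑ k ∈ Finset.range N, ρ (k : ℤ) * (wt N k * Real.arccos (2 * (ρ (k : ℤ) - J))) -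
      J * Real.pi -
      (∑ k ∈ Finset.range N, wt N k * Real.sqrt (1 - (2 * (ρ (k : ℤ) - J)) ^ 2)) / 2 := by
    rw [← h.sum, Finset.mul_sum, Finset.sum_div, ← Finset.sum_sub_distrib,
      ← Finset.sum_sub_distrib]
    refine Finset.sum_congr rfl fun k _ => ?_
    unfold Psi
    ring
  unfold Sf Val
  rw [hPhi, hPsi]
  ring

end Pool.Agent.Lib.MP_97284c_gt
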