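import Pool.Agent.Lib.MP_97284c_gt.StmU

/-! [U8] Reflection of a solution. -/

namespace Pool.Agent.Lib.MP_97284c_gt

theorem p_U8_q4 (r s : ℝ) : q4 r s = q4 s r := by unfold q4; ring

theorem p_U8_wt (N : ℕ) (k : ℤ) : wt N (-k) = wt N k := by
  unfold wt; simp only [dvd_neg]

theorem p_U8 : S_U8 := by
  intro N ρ J h
  have hwp : ∀ k : ℤ, wt N (k + N) = wt N k := by
    intro k; unfold wt
    have : ((N : ℤ) ∣ k + N) ↔ ((N : ℤ) ∣ k) := by
      constructor
      · intro h; have := dvd_sub h (dvd_refl (N : ℤ)); simpa using this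
      · intro h; exact dvd_add h (dvd_refl _)
    simp only [this]
  refine ⟨⟨fun k => ?_, fun k => ?_, fun k => ?_, fun k => h.lo (-k), fun k => h.hi (-k)⟩,
    fun k => ?_, ?_⟩
  · have := h.per (-(k + N))
    rw [show -(k + (N : ℤ)) + N = -k by ring] at this
    exact this.symm
  · have := h.tri (-(k + 1))
    rw [show -(k + 1) + 1 = -k by ring, p_U8_q4] at this
    exact this
  · have := h.sml (-(k + 1))
    rw [show -(k + 1) + 1 = -k by ring, add_comm] at this
    exact this
  · have := h.eq (-k)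
    rw [p_U8_wt] at this
    show phi (ρ (-k)) (ρ (-(k - 1))) + phi (ρ (-k)) (ρ (-(k + 1))) = _
    rw [show -(k - 1) = -k + 1 by ring, show -(k + 1) = -k - 1 by ring, add_comm]
    exact this
  · have := psum_neg (N := N) (fun k : ℤ => wt N k * Real.arccos (2 * (ρ k - J)))
      (fun k => by show wt N (k + N) * Real.arccos (2 * (ρ (k + N) - J)) = _; rw [hwp, h.per])
    simp only [p_U8_wt] at this
    rw [this, h.sum]

end Pool.Agent.Lib.MP_97284c_gt
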