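import Pool.Agent.Lib.MP_97284c_gt.StmC

/-!
# Unit pairs: the other representations (piece UPs, MP_97284c_gt)
-/

namespace Pool.Agent.Lib.MP_97284c_gt

theorem p_UPs : S_UPs := by
  intro n y hper
  have hback : ∀ j : ℤ, y (j - n) = y j := by
    intro j
    have h := hper (j - n)
    rw [sub_add_cancel] at h
    exact h.symm
  have h1 : ∀ i j, UP n y i j → UP n y j (i + n) := by
    intro i j h
    obtain ⟨ha, hb, hc⟩ := h
    refine ⟨hb, by omega, ?_⟩
    rw [hper i, norm_sub_rev]
    exact hc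
  have h2 : ∀ i j, UP n y i j → UP n y (j - n) i := by
    intro i j h
    obtain ⟨ha, hb, hc⟩ := h
    refine ⟨by omega, by omega, ?_⟩
    rw [hback j, norm_sub_rev]
    exact hc
  refine ⟨h1, h2, ?_, ?_⟩
  · intro i j t h
    obtain ⟨ha, hb, hc⟩ := h
    refine ⟨by linarith, by linarith, ?_⟩
    rw [per_mul y hper i t, per_mul y hper j t]
    exact hc
  · intro k
    constructor
    · rintro ⟨i, j, hs, hu⟩
      exact ⟨j, i + n, by rw [← hs]; ring, h1 i j hu⟩
    · rintro ⟨i, j, hs, hu⟩
      exact ⟨j - n, i, by linarith, h2 i j hu⟩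

end Pool.Agent.Lib.MP_97284c_gt
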